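import Mathlib
import Pool.Agent.Helper29.BernMain
import Pool.Agent.Helper98.Bern.Defs

/-!
Definitions for the project: `B_{2ℓ}` is irreducible for almost all primes `ℓ`.
-/

namespace Pool.Agent.Bern2

open Polynomial Finset Pool.Agent.Helper29 Pool.Agent.Helper98.Bern

/-- The Bernoulli polynomial `B_n` has an irreducible factor of degree at least `n - T`. -/
def cofLE (n : ℕ) (T : ℝ) : Prop :=
  ∃ g : ℚ[X], Irreducible g ∧ g ∣ Polynomial.bernoulli n ∧ (n : ℝ) ≤ g.natDegree + T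

/-- The mod `p` polynomials `f` of degree `e` with `f(X+1) - f(X) = e X^(e-1)`. -/
def IsF (p e : ℕ) (f : (ZMod p)[X]) : Prop :=
  f.Monic ∧ f.natDegree = e ∧ f.comp (X + 1) - f = C (e : ZMod p) * X ^ (e - 1)

/-- The total multiplicity of the zeros of `f` in `F_p`. -/
noncomputable def mu (p : ℕ) [Fact p.Prime] (f : (ZMod p)[X]) : ℕ :=
  ∑ a : ZMod p, f.rootMultiplicity a

/-- The number of zeros of `f` in `F_p`. -/
noncomputable def nz (p : ℕ) [Fact p.Prime] (f : (ZMod p)[X]) : ℕ :=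
  (Finset.univ.filter (fun a : ZMod p => f.eval a = 0)).card

/-- The umbral functional `L(a^j) = B_j`. -/
noncomputable def LB (f : ℚ[X]) : ℚ := f.sum (fun j c => c * _root_.bernoulli j)

/-- `A = a^2 + a`. -/
noncomputable def AA : ℚ[X] := X ^ 2 + X

/-- The normalised equation for quadratic factors of `B_{2(2t+1)}`. -/
noncomputable def Et (t : ℕ) (ψ θ : ℚ) : ℚ :=
  ∑ k ∈ range (t + 1), ((2 * t).choose (2 * k) : ℚ) / (2 * k + 1) * (4 * θ) ^ k *
    LB ((1 + 4 * AA) ^ (t - k) * (C ψ + AA) ^ (2 * k + 1))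

/-- The length parameter of the primes used at height `N`. -/
def PP (N : ℕ) : ℕ := 2 * (Nat.sqrt N + 1)

/-- The primes used at height `N`. -/
def pr (N : ℕ) : Finset ℕ := (Ioc (PP N) (4 * PP N)).filter Nat.Prime

/-- The exponential sum over `A` at `β`. -/
noncomputable def FS (A : Finset ℕ) (β : ℝ) : ℂ := ∑ e ∈ A, ee (-((e : ℝ) * β))

/-- The quadratic polynomial with `12 (x - 1/2)^2 = w`. -/
noncomputable def QW (w : ℤ) : ℚ[X] := X ^ 2 - X + C (((3 - w : ℤ) : ℚ) / 12)

end Pool.Agent.Bern2
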