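import Mathlib
import Pool.Agent.Bern2.Defs

namespace Pool.Agent.Bern2

open Polynomial Finset Pool.Agent.Helper29 Pool.Agent.Helper98.Bern

private lemma lsi_norm (y : ℝ) : ‖ee y - 1‖ = |2 * Real.sin (Real.pi * y)| := by
  have h := Complex.norm_exp_I_mul_ofReal_sub_one (2 * Real.pi * y)
  have e : ee y = Complex.exp (Complex.I * ((2 * Real.pi * y : ℝ) : ℂ)) := by
    unfold ee
    congr 1
    push_cast
    ring
  rw [e, h, Real.norm_eq_abs]
  congr 3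
  ring

private lemma lsi_sin (r : ℝ) (hr : |r| ≤ 1 / 2) : 2 * |r| ≤ |Real.sin (Real.pi * r)| := by
  have hpi := Real.pi_pos
  have key : ∀ t : ℝ, 0 ≤ t → t ≤ 1 / 2 → 2 * t ≤ Real.sin (Real.pi * t) := by
    intro t ht0 ht1
    have := Real.mul_le_sin (x := Real.pi * t) (mul_nonneg hpi.le ht0) (by nlinarith)
    have e : 2 / Real.pi * (Real.pi * t) = 2 * t := by field_simp
    rw [e] at this
    exact this
  rcases le_total 0 r with h | h
  · rw [abs_of_nonneg h] at hr ⊢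
    exact (key r h hr).trans (le_abs_self _)
  · rw [abs_of_nonpos h] at hr ⊢
    have h1 := key (-r) (by linarith) hr
    have e : Real.sin (Real.pi * -r) = -Real.sin (Real.pi * r) := by
      rw [mul_neg, Real.sin_neg]
    rw [e] at h1
    exact h1.trans (neg_le_abs _)

private lemma lsi_D (J : ℕ) (θ : ℝ) (hr : θ - round θ ≠ 0) :
    ‖∑ j ∈ range J, ee ((j : ℝ) * θ)‖ ≤ 1 / (2 * |θ - round θ|) := by
  set r : ℝ := θ - round θ with hrd
  have hr2 : |r| ≤ 1 / 2 := by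
    rw [hrd]
    exact abs_sub_round θ
  have hrpos : 0 < |r| := abs_pos.2 hr
  have e1 : ∀ j ∈ range J, ee ((j : ℝ) * θ) = ee θ ^ j := fun j _ => ee_nat_mul _ _
  rw [Finset.sum_congr rfl e1]
  have e2 : ee θ = ee r := by
    rw [← ee_add_int r (round θ)]
    congr 1
    rw [hrd]
    ring
  have e3 := geom_sum_mul (ee θ) J
  have e4 : ‖∑ j ∈ range J, ee θ ^ j‖ * ‖ee θ - 1‖ ≤ 2 := by
    rw [← norm_mul, e3]
    refine (norm_sub_le _ _).trans ?_
    rw [norm_pow, norm_ee, one_pow, norm_one]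
    norm_num
  have e5 : 4 * |r| ≤ ‖ee θ - 1‖ := by
    rw [e2, lsi_norm, abs_mul, abs_of_pos (by norm_num : (0:ℝ) < 2)]
    have := lsi_sin r hr2
    linarith
  rw [le_div_iff₀ (by positivity)]
  have e6 : ‖∑ j ∈ range J, ee θ ^ j‖ * (4 * |r|) ≤ 2 := by
    refine le_trans ?_ e4
    gcongr
  linarith

private lemma lsi_zeta (T : Finset ℕ) (hT : ∀ k ∈ T, 1 ≤ k) :
    ∑ k ∈ T, (1 : ℝ) / (k : ℝ) ^ 2 ≤ 2 := by
  have key : ∀ M : ℕ, 1 ≤ M → ∑ k ∈ Icc 1 M, (1 : ℝ) / (k : ℝ) ^ 2 ≤ 2 - 1 / (M : ℝ) := by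
    intro M hM
    induction M, hM using Nat.le_induction with
    | base => norm_num
    | succ m hm ih =>
      rw [Finset.sum_Icc_succ_top (by omega)]
      have hm0 : (0 : ℝ) < m := by exact_mod_cast hm
      have h1 : (1 : ℝ) / ((m + 1 : ℕ) : ℝ) ^ 2 ≤ 1 / (m : ℝ) - 1 / ((m + 1 : ℕ) : ℝ) := by
        push_cast
        rw [div_sub_div _ _ hm0.ne' (by positivity), div_le_div_iff₀ (by positivity) (by positivity)]
        nlinarith
      linarith
  by_cases hne : T.Nonempty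
  · set M := T.max' hne with hM
    have hM1 : 1 ≤ M := hT M (T.max'_mem hne)
    have hsub : T ⊆ Icc 1 M := by
      intro k hk
      rw [mem_Icc]
      exact ⟨hT k hk, T.le_max' k hk⟩
    have h1 : ∑ k ∈ T, (1 : ℝ) / (k : ℝ) ^ 2 ≤ ∑ k ∈ Icc 1 M, (1 : ℝ) / (k : ℝ) ^ 2 :=
      Finset.sum_le_sum_of_subset_of_nonneg hsub (fun _ _ _ => by positivity)
    have h2 := key M hM1
    have h3 : (0 : ℝ) ≤ 1 / (M : ℝ) := by positivity
    linarith
  · rw [Finset.not_nonempty_iff_eq_empty] at hne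
    rw [hne]
    norm_num

/-- sum over one side -/
private lemma lsi_side {ι : Type*} (s : Finset ι) (r : ι → ℝ) (δ : ℝ) (hδ : 0 < δ)
    (hr : ∀ j ∈ s, δ ≤ r j) (hsep : ∀ j ∈ s, ∀ k ∈ s, j ≠ k → δ ≤ |r j - r k|) :
    ∑ j ∈ s, 1 / (r j) ^ 2 ≤ 2 / δ ^ 2 := by
  classical
  set f : ι → ℕ := fun j => ⌊r j / δ⌋₊ with hf
  have hf1 : ∀ j ∈ s, 1 ≤ f j := by
    intro j hj
    simp only [hf]
    rw [Nat.le_floor_iff (div_nonneg (hδ.le.trans (hr j hj)) hδ.le)]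
    rw [Nat.cast_one, le_div_iff₀ hδ]
    linarith [hr j hj]
  have hinj : Set.InjOn f s := by
    intro a ha b hb hab
    by_contra hne
    have h1 := hsep a ha b hb hne
    have ha0 : 0 ≤ r a / δ := div_nonneg (hδ.le.trans (hr a ha)) hδ.le
    have hb0 : 0 ≤ r b / δ := div_nonneg (hδ.le.trans (hr b hb)) hδ.le
    have e1 := Nat.floor_le ha0
    have e2 := Nat.lt_floor_add_one (r a / δ)
    have e3 := Nat.floor_le hb0
    have e4 := Nat.lt_floor_add_one (r b / δ)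
    simp only [hf] at hab
    rw [hab] at e1 e2
    have e5 : |r a / δ - r b / δ| < 1 := by
      rw [abs_lt]
      constructor <;> linarith
    rw [← sub_div, abs_div, abs_of_pos hδ, div_lt_one hδ] at e5
    linarith
  have h2 : ∀ j ∈ s, 1 / (r j) ^ 2 ≤ 1 / δ ^ 2 * (1 / ((f j : ℕ) : ℝ) ^ 2) := by
    intro j hj
    have hj0 : 0 ≤ r j / δ := div_nonneg (hδ.le.trans (hr j hj)) hδ.le
    have e1 := Nat.floor_le hj0
    have e2 : (1 : ℝ) ≤ (f j : ℝ) := by exact_mod_cast hf1 j hj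
    have e3 : (f j : ℝ) * δ ≤ r j := by
      rw [le_div_iff₀ hδ] at e1
      exact e1
    have e4 : 0 < (f j : ℝ) * δ := by positivity
    rw [one_div_mul_one_div, ← mul_pow]
    apply one_div_le_one_div_of_le (by positivity)
    rw [mul_comm δ]
    gcongr
  calc ∑ j ∈ s, 1 / (r j) ^ 2 ≤ ∑ j ∈ s, 1 / δ ^ 2 * (1 / ((f j : ℕ) : ℝ) ^ 2) :=
        Finset.sum_le_sum h2
    _ = 1 / δ ^ 2 * ∑ k ∈ s.image f, (1 : ℝ) / (k : ℝ) ^ 2 := by
        rw [← Finset.mul_sum, Finset.sum_image hinj]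
    _ ≤ 1 / δ ^ 2 * 2 := by
        gcongr
        apply lsi_zeta
        intro k hk
        rw [mem_image] at hk
        obtain ⟨j, hj, rfl⟩ := hk
        exact hf1 j hj
    _ = 2 / δ ^ 2 := by ring

private lemma lsi_row {ι : Type*} (s : Finset ι) (β : ι → ℝ) (δ : ℝ) (hδ : 0 < δ)
    (hsep : ∀ i ∈ s, ∀ j ∈ s, i ≠ j → ∀ k : ℤ, δ ≤ |β i - β j - k|) (J : ℕ) (i : ι)
    (hi : i ∈ s) :
    ∑ j ∈ s, ‖∑ m ∈ range J, ee ((m : ℝ) * (β i - β j))‖ ^ 2 ≤ (J : ℝ) ^ 2 + 1 / δ ^ 2 := by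
  classical
  set r : ι → ℝ := fun j => (β i - β j) - round (β i - β j) with hr
  set D : ι → ℝ := fun j => ‖∑ m ∈ range J, ee ((m : ℝ) * (β i - β j))‖ with hD
  have hDi : D i ≤ J := by
    simp only [hD]
    refine (norm_sum_le _ _).trans ?_
    rw [Finset.sum_congr rfl (fun m _ => norm_ee _)]
    simp
  have hsep1 : ∀ j ∈ s.erase i, δ ≤ |r j| := by
    intro j hj
    rw [mem_erase] at hj
    exact hsep i hi j hj.2 (Ne.symm hj.1) _
  have hsep2 : ∀ j ∈ s, ∀ k ∈ s, j ≠ k → δ ≤ |r j - r k| := by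
    intro j hj k hk hjk
    have h1 := hsep j hj k hk hjk (round (β i - β k) - round (β i - β j))
    have e : |r j - r k| = |β j - β k - ((round (β i - β k) - round (β i - β j) : ℤ) : ℝ)| := by
      rw [← abs_neg]
      congr 1
      simp only [hr]
      push_cast
      ring
    rw [e]
    exact h1
  have hDj : ∀ j ∈ s.erase i, D j ^ 2 ≤ 1 / 4 * (1 / (r j) ^ 2) := by
    intro j hj
    have h1 := hsep1 j hj
    have h2 : r j ≠ 0 := by
      intro h
      rw [h, abs_zero] at h1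
      linarith
    have h3 := lsi_D J (β i - β j) h2
    have h4 : D j ^ 2 ≤ (1 / (2 * |r j|)) ^ 2 := by
      gcongr
    refine h4.trans (le_of_eq ?_)
    rw [div_pow, mul_pow, sq_abs, one_pow]
    have : r j ^ 2 ≠ 0 := pow_ne_zero _ h2
    field_simp
    norm_num
  have hpos := lsi_side ((s.erase i).filter (fun j => 0 ≤ r j)) r δ hδ
    (fun j hj => by
      rw [mem_filter] at hj
      have := hsep1 j hj.1
      rwa [abs_of_nonneg hj.2] at this)
    (fun j hj k hk hjk => by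
      rw [mem_filter] at hj hk
      exact hsep2 j (mem_of_mem_erase hj.1) k (mem_of_mem_erase hk.1) hjk)
  have hneg := lsi_side ((s.erase i).filter (fun j => ¬ 0 ≤ r j)) (fun j => - r j) δ hδ
    (fun j hj => by
      rw [mem_filter] at hj
      have := hsep1 j hj.1
      rwa [abs_of_neg (not_le.1 hj.2)] at this)
    (fun j hj k hk hjk => by
      rw [mem_filter] at hj hk
      have := hsep2 j (mem_of_mem_erase hj.1) k (mem_of_mem_erase hk.1) hjk
      rw [← abs_neg]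
      have e : -(-r j - -r k) = r j - r k := by ring
      rw [e]
      exact this)
  have hsum : ∑ j ∈ s.erase i, 1 / (r j) ^ 2 ≤ 4 / δ ^ 2 := by
    rw [← Finset.sum_filter_add_sum_filter_not (s.erase i) (fun j => 0 ≤ r j)]
    have e : ∑ j ∈ (s.erase i).filter (fun j => ¬ 0 ≤ r j), 1 / (r j) ^ 2 =
        ∑ j ∈ (s.erase i).filter (fun j => ¬ 0 ≤ r j), 1 / (- r j) ^ 2 := by
      apply Finset.sum_congr rfl
      intro j _
      rw [neg_sq]
    rw [e]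
    have : 4 / δ ^ 2 = 2 / δ ^ 2 + 2 / δ ^ 2 := by ring
    rw [this]
    exact add_le_add hpos hneg
  rw [← Finset.add_sum_erase s _ hi]
  have h1 : D i ^ 2 ≤ (J : ℝ) ^ 2 := by
    have : 0 ≤ D i := norm_nonneg _
    gcongr
  have h2 : ∑ j ∈ s.erase i, D j ^ 2 ≤ 1 / δ ^ 2 := by
    calc ∑ j ∈ s.erase i, D j ^ 2 ≤ ∑ j ∈ s.erase i, 1 / 4 * (1 / (r j) ^ 2) :=
          Finset.sum_le_sum hDj
      _ = 1 / 4 * ∑ j ∈ s.erase i, 1 / (r j) ^ 2 := by rw [Finset.mul_sum]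
      _ ≤ 1 / 4 * (4 / δ ^ 2) := by gcongr
      _ = 1 / δ ^ 2 := by ring
  exact add_le_add h1 h2

private lemma lsi_expand {ι : Type*} (s : Finset ι) (β : ι → ℝ) (c : ι → ℂ) (J : ℕ) :
    ((∑ l ∈ range J, ∑ j ∈ range J,
      ‖∑ i ∈ s, c i * ee (((j : ℝ) - l) * β i)‖ ^ 2 : ℝ) : ℂ) =
    ∑ i ∈ s, ∑ k ∈ s, c i * star (c k) *
      ((∑ m ∈ range J, ee ((m : ℝ) * (β i - β k))) *
        star (∑ m ∈ range J, ee ((m : ℝ) * (β i - β k)))) := by
  have h1 : ∀ l j : ℕ, ((‖∑ i ∈ s, c i * ee (((j : ℝ) - l) * β i)‖ ^ 2 : ℝ) : ℂ) =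
      ∑ i ∈ s, ∑ k ∈ s, c i * star (c k) *
        (ee ((j : ℝ) * (β i - β k)) * star (ee ((l : ℝ) * (β i - β k)))) := by
    intro l j
    have h2 : ((‖∑ i ∈ s, c i * ee (((j : ℝ) - l) * β i)‖ ^ 2 : ℝ) : ℂ) =
        ∑ i ∈ s, ∑ k ∈ s, (c i * ee (((j : ℝ) - l) * β i)) *
          star (c k * ee (((j : ℝ) - l) * β k)) := by
      rw [← Finset.sum_mul_sum, ← star_sum, Complex.star_def, Complex.mul_conj,
        Complex.normSq_eq_norm_sq]
    rw [h2]
    apply Finset.sum_congr rfl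
    intro i _
    apply Finset.sum_congr rfl
    intro k _
    rw [star_mul', ← ee_neg, ← ee_neg]
    have e : ee (((j : ℝ) - l) * β i) * ee (-(((j : ℝ) - l) * β k)) =
        ee ((j : ℝ) * (β i - β k)) * ee (-((l : ℝ) * (β i - β k))) := by
      rw [← ee_add, ← ee_add]
      congr 1
      ring
    calc c i * ee (((j : ℝ) - l) * β i) * (star (c k) * ee (-(((j : ℝ) - l) * β k)))
        = c i * star (c k) * (ee (((j : ℝ) - l) * β i) * ee (-(((j : ℝ) - l) * β k))) := by ring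
      _ = _ := by rw [e]
  rw [Complex.ofReal_sum]
  have h3 : ∀ l ∈ range J, ((∑ j ∈ range J,
      ‖∑ i ∈ s, c i * ee (((j : ℝ) - l) * β i)‖ ^ 2 : ℝ) : ℂ) =
      ∑ j ∈ range J, ∑ i ∈ s, ∑ k ∈ s, c i * star (c k) *
        (ee ((j : ℝ) * (β i - β k)) * star (ee ((l : ℝ) * (β i - β k)))) := by
    intro l _
    rw [Complex.ofReal_sum]
    exact Finset.sum_congr rfl (fun j _ => h1 l j)
  rw [Finset.sum_congr rfl h3]
  have h4 : ∀ i k : ι, c i * star (c k) *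
      ((∑ m ∈ range J, ee ((m : ℝ) * (β i - β k))) *
        star (∑ m ∈ range J, ee ((m : ℝ) * (β i - β k)))) =
      ∑ l ∈ range J, ∑ j ∈ range J, c i * star (c k) *
        (ee ((j : ℝ) * (β i - β k)) * star (ee ((l : ℝ) * (β i - β k)))) := by
    intro i k
    rw [star_sum, Finset.sum_mul_sum, Finset.sum_comm, Finset.mul_sum]
    apply Finset.sum_congr rfl
    intro l _
    rw [Finset.mul_sum]
  have h5 : ∀ l ∈ range J, ∑ j ∈ range J, ∑ i ∈ s, ∑ k ∈ s, c i * star (c k) *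
        (ee ((j : ℝ) * (β i - β k)) * star (ee ((l : ℝ) * (β i - β k)))) =
      ∑ i ∈ s, ∑ k ∈ s, ∑ j ∈ range J, c i * star (c k) *
        (ee ((j : ℝ) * (β i - β k)) * star (ee ((l : ℝ) * (β i - β k)))) := by
    intro l _
    rw [Finset.sum_comm]
    apply Finset.sum_congr rfl
    intro i _
    rw [Finset.sum_comm]
  rw [Finset.sum_congr rfl h5, Finset.sum_comm]
  apply Finset.sum_congr rfl
  intro i _
  rw [Finset.sum_comm]
  apply Finset.sum_congr rfl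
  intro k _
  rw [h4]

/-- (LSI) The large sieve inequality for `δ`-separated points modulo `1`. -/
theorem large_sieve {ι : Type*} (s : Finset ι) (β : ι → ℝ) (δ : ℝ) (hδ : 0 < δ)
    (hsep : ∀ i ∈ s, ∀ j ∈ s, i ≠ j → ∀ k : ℤ, δ ≤ |β i - β j - k|) (c : ι → ℂ) (N : ℕ) :
    ∑ n ∈ Icc 1 N, ‖∑ i ∈ s, c i * ee ((n : ℝ) * β i)‖ ^ 2 ≤
      100 * ((N : ℝ) + 1 / δ) * ∑ i ∈ s, ‖c i‖ ^ 2 := by
  classical
  have hC0 : 0 ≤ ∑ i ∈ s, ‖c i‖ ^ 2 := Finset.sum_nonneg (fun _ _ => by positivity)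
  rcases Nat.eq_zero_or_pos N with hN | hN
  · subst hN
    have : (0 : ℝ) ≤ 100 * (((0 : ℕ) : ℝ) + 1 / δ) * ∑ i ∈ s, ‖c i‖ ^ 2 := by
      rw [Nat.cast_zero, zero_add]
      positivity
    simpa using this
  set K : ℕ := max N ⌈1 / δ⌉₊ with hK
  have hKN : N ≤ K := le_max_left _ _
  have hKδ : 1 / δ ≤ K := (Nat.le_ceil _).trans (by exact_mod_cast le_max_right _ _)
  have hKpos : 0 < K := lt_of_lt_of_le hN hKN
  have hKup : (K : ℝ) ≤ N + 1 / δ + 1 := by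
    rcases max_choice N ⌈1 / δ⌉₊ with h | h
    · rw [hK, h]
      have : 0 ≤ 1 / δ := by positivity
      linarith
    · rw [hK, h]
      have h1 := Nat.ceil_lt_add_one (a := 1 / δ) (by positivity)
      have h2 : (0 : ℝ) ≤ N := Nat.cast_nonneg N
      linarith
  set S : ℝ → ℝ := fun x => ‖∑ i ∈ s, c i * ee (x * β i)‖ ^ 2 with hS
  have hS0 : ∀ x, 0 ≤ S x := fun x => by
    simp only [hS]
    positivity
  -- lower bound
  have hlow : (K : ℝ) * ∑ n ∈ Icc 1 N, S (n : ℝ) ≤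
      ∑ l ∈ range (2 * K), ∑ j ∈ range (2 * K), S ((j : ℝ) - l) := by
    have h1 : ∀ l ∈ range K, ∑ n ∈ Icc 1 N, S (n : ℝ) ≤
        ∑ j ∈ range (2 * K), S ((j : ℝ) - l) := by
      intro l hl
      rw [mem_range] at hl
      have e1 : ∑ n ∈ Icc 1 N, S (n : ℝ) =
          ∑ j ∈ (Icc 1 N).image (fun n => l + n), S ((j : ℝ) - l) := by
        rw [Finset.sum_image (by
          intro a _ b _ hab
          simpa using hab)]
        apply Finset.sum_congr rfl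
        intro n _
        congr 1
        push_cast
        ring
      rw [e1]
      apply Finset.sum_le_sum_of_subset_of_nonneg
      · intro j hj
        rw [mem_image] at hj
        obtain ⟨n, hn, rfl⟩ := hj
        rw [mem_Icc] at hn
        rw [mem_range]
        omega
      · intro j _ _
        exact hS0 _
    calc (K : ℝ) * ∑ n ∈ Icc 1 N, S (n : ℝ) = ∑ l ∈ range K, ∑ n ∈ Icc 1 N, S (n : ℝ) := by
          rw [Finset.sum_const, card_range, nsmul_eq_mul]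
      _ ≤ ∑ l ∈ range K, ∑ j ∈ range (2 * K), S ((j : ℝ) - l) := Finset.sum_le_sum h1
      _ ≤ _ := by
          apply Finset.sum_le_sum_of_subset_of_nonneg
          · intro j hj
            rw [mem_range] at hj ⊢
            omega
          · intro j _ _
            exact Finset.sum_nonneg (fun _ _ => hS0 _)
  -- upper bound
  set G : ι → ι → ℝ := fun i k => ‖∑ m ∈ range (2 * K), ee ((m : ℝ) * (β i - β k))‖ ^ 2 with hG
  have hG0 : ∀ i k, 0 ≤ G i k := fun i k => by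
    simp only [hG]
    positivity
  have hGsymm : ∀ i k, G i k = G k i := by
    intro i k
    simp only [hG]
    congr 1
    rw [← norm_star, star_sum]
    congr 1
    apply Finset.sum_congr rfl
    intro m _
    rw [← ee_neg]
    congr 1
    ring
  have hrow : ∀ i ∈ s, ∑ k ∈ s, G i k ≤ ((2 * K : ℕ) : ℝ) ^ 2 + 1 / δ ^ 2 := by
    intro i hi
    exact lsi_row s β δ hδ hsep (2 * K) i hi
  have hup : ∑ l ∈ range (2 * K), ∑ j ∈ range (2 * K), S ((j : ℝ) - l) ≤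
      (((2 * K : ℕ) : ℝ) ^ 2 + 1 / δ ^ 2) * ∑ i ∈ s, ‖c i‖ ^ 2 := by
    have hnn : 0 ≤ ∑ l ∈ range (2 * K), ∑ j ∈ range (2 * K), S ((j : ℝ) - l) :=
      Finset.sum_nonneg (fun _ _ => Finset.sum_nonneg (fun _ _ => hS0 _))
    have h1 : ∑ l ∈ range (2 * K), ∑ j ∈ range (2 * K), S ((j : ℝ) - l) ≤
        ∑ i ∈ s, ∑ k ∈ s, ‖c i‖ * ‖c k‖ * G i k := by
      rw [← Complex.norm_of_nonneg hnn]
      simp only [hS]
      rw [lsi_expand]
      refine (norm_sum_le _ _).trans (Finset.sum_le_sum (fun i _ => ?_))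
      refine (norm_sum_le _ _).trans (Finset.sum_le_sum (fun k _ => ?_))
      rw [norm_mul, norm_mul, norm_mul, norm_star, norm_star]
      simp only [hG]
      rw [sq]
    have h2 : ∑ i ∈ s, ∑ k ∈ s, ‖c i‖ * ‖c k‖ * G i k ≤
        ∑ i ∈ s, ∑ k ∈ s, (‖c i‖ ^ 2 * G i k / 2 + ‖c k‖ ^ 2 * G i k / 2) := by
      refine Finset.sum_le_sum (fun i _ => Finset.sum_le_sum (fun k _ => ?_))
      nlinarith [mul_nonneg (sq_nonneg (‖c i‖ - ‖c k‖)) (hG0 i k)]
    have h3 : ∑ i ∈ s, ∑ k ∈ s, (‖c i‖ ^ 2 * G i k / 2 + ‖c k‖ ^ 2 * G i k / 2) =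
        ∑ i ∈ s, ‖c i‖ ^ 2 * ∑ k ∈ s, G i k := by
      have e1 : ∑ i ∈ s, ∑ k ∈ s, ‖c k‖ ^ 2 * G i k / 2 =
          ∑ i ∈ s, ∑ k ∈ s, ‖c i‖ ^ 2 * G i k / 2 := by
        rw [Finset.sum_comm]
        refine Finset.sum_congr rfl (fun i _ => Finset.sum_congr rfl (fun k _ => ?_))
        rw [hGsymm]
      have e2 : ∑ i ∈ s, ∑ k ∈ s, (‖c i‖ ^ 2 * G i k / 2 + ‖c k‖ ^ 2 * G i k / 2) =
          ∑ i ∈ s, ∑ k ∈ s, ‖c i‖ ^ 2 * G i k / 2 + ∑ i ∈ s, ∑ k ∈ s, ‖c k‖ ^ 2 * G i k / 2 := by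
        rw [← Finset.sum_add_distrib]
        exact Finset.sum_congr rfl (fun i _ => Finset.sum_add_distrib)
      rw [e2, e1, ← Finset.sum_add_distrib]
      refine Finset.sum_congr rfl (fun i _ => ?_)
      rw [← Finset.sum_add_distrib, Finset.mul_sum]
      refine Finset.sum_congr rfl (fun k _ => ?_)
      ring
    have h4 : ∑ i ∈ s, ‖c i‖ ^ 2 * ∑ k ∈ s, G i k ≤
        ∑ i ∈ s, ‖c i‖ ^ 2 * (((2 * K : ℕ) : ℝ) ^ 2 + 1 / δ ^ 2) := by
      refine Finset.sum_le_sum (fun i hi => ?_)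
      exact mul_le_mul_of_nonneg_left (hrow i hi) (by positivity)
    rw [← Finset.sum_mul, mul_comm] at h4
    linarith
  have hKr : (0 : ℝ) < K := by exact_mod_cast hKpos
  have h5 : (K : ℝ) * ∑ n ∈ Icc 1 N, S (n : ℝ) ≤
      (K : ℝ) * ((4 * K + 1 / δ) * ∑ i ∈ s, ‖c i‖ ^ 2) := by
    refine (hlow.trans hup).trans ?_
    have h6 : ((2 * K : ℕ) : ℝ) ^ 2 + 1 / δ ^ 2 ≤ (K : ℝ) * (4 * K + 1 / δ) := by
      have h7 : 1 / δ ^ 2 ≤ (K : ℝ) * (1 / δ) := by
        have : 1 / δ ^ 2 = (1 / δ) * (1 / δ) := by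
          rw [one_div_mul_one_div, sq]
        rw [this]
        gcongr
      push_cast
      nlinarith
    calc (((2 * K : ℕ) : ℝ) ^ 2 + 1 / δ ^ 2) * ∑ i ∈ s, ‖c i‖ ^ 2
        ≤ ((K : ℝ) * (4 * K + 1 / δ)) * ∑ i ∈ s, ‖c i‖ ^ 2 := by gcongr
      _ = _ := by ring
  have h8 := le_of_mul_le_mul_left h5 hKr
  refine h8.trans ?_
  gcongr
  have hN1 : (1 : ℝ) ≤ N := by exact_mod_cast hN
  have : 0 ≤ 1 / δ := by positivity
  linarith

end Pool.Agent.Bern2
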