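import Mathlib
import Pool.Agent.Bern2.Defs
import Pool.Agent.Helper98.Bern.AL

namespace Pool.Agent.Bern2

open Polynomial Finset Pool.Agent.Helper29 Pool.Agent.Helper98.Bern

/-- von Staudt: `b_k + 1/p` is `p`-integral if `p - 1` divides `k > 0`. -/
lemma blk1_vs {p : ℕ} (hp : p.Prime) (k : ℕ) (hk0 : 0 < k) (hp3 : 3 ≤ p)
    (hk : (p - 1) ∣ k) : PI p (_root_.bernoulli k + 1 / (p : ℚ)) := by
  have hpe : Even (p - 1) := by
    rcases hp.eq_two_or_odd' with h | h
    · omega
    · obtain ⟨t, ht⟩ := h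
      exact ⟨t, by omega⟩
  obtain ⟨j, hj⟩ := (hpe.trans_dvd hk : Even k)
  have hkj : k = 2 * j := by omega
  subst hkj
  obtain ⟨z, hz⟩ := Bernoulli.vonStaudt_clausen j
  have hmem : p ∈ (range (2 * j + 2)).filter (fun q => q.Prime ∧ (q - 1) ∣ 2 * j) := by
    rw [Finset.mem_filter, Finset.mem_range]
    refine ⟨?_, hp, hk⟩
    have := Nat.le_of_dvd hk0 hk
    omega
  rw [← Finset.add_sum_erase _ _ hmem] at hz
  have h1 : _root_.bernoulli (2 * j) + (1 : ℚ) / p = (z : ℚ) +
      -(∑ q ∈ ((range (2 * j + 2)).filter (fun q => q.Prime ∧ (q - 1) ∣ 2 * j)).erase p,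
        ((1 : ℚ) / q)) := by
    linear_combination -hz
  rw [h1]
  apply PI.add hp (PI.int hp z)
  apply PI.neg hp
  apply PI.sum hp
  intro q hq
  rw [Finset.mem_erase, Finset.mem_filter] at hq
  exact PI_one_div hp hq.2.2.1 hq.1

/-- The polar part of the coefficient of `X^i` of `B_n`, times `p`. -/
def blk1A (p n i : ℕ) : ℤ := if i < n ∧ (p - 1) ∣ (n - i) then -(n.choose i : ℤ) else 0

lemma blk1_coeff {p : ℕ} (hp : p.Prime) (hp3 : 3 ≤ p) (n i : ℕ) :
    PI p ((Polynomial.bernoulli n).coeff i - (blk1A p n i : ℚ) / p) := by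
  rw [Polynomial.coeff_bernoulli]
  unfold blk1A
  by_cases h : i ≤ n
  · rw [if_pos h]
    by_cases hc : i < n ∧ (p - 1) ∣ (n - i)
    · rw [if_pos hc]
      have h1 : _root_.bernoulli (n - i) * (n.choose i : ℚ) -
          ((-(n.choose i : ℤ) : ℤ) : ℚ) / p =
          (_root_.bernoulli (n - i) + 1 / p) * (n.choose i : ℚ) := by
        push_cast
        ring
      rw [h1]
      exact PI.mul hp (blk1_vs hp _ (by omega) hp3 hc.2) (PI.nat hp _)
    · rw [if_neg hc]
      simp only [Int.cast_zero, zero_div, sub_zero]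
      refine PI.mul hp (PI_bernoulli hp hp3 _ ?_) (PI.nat hp _)
      by_cases h0 : n - i = 0
      · left; exact h0
      · right; intro hd; exact hc ⟨by omega, hd⟩
  · rw [if_neg h, if_neg (by omega)]
    simpa using PI.int hp 0

/-- `C(p-a,t) = (-1)^t C(a+t-1,t)` modulo `p`. -/
lemma blk1_choose (p : ℕ) [Fact p.Prime] (a : ℕ) (ha : a + 1 ≤ p) (t : ℕ) (ht : t < p - a) :
    (((p - (a + 1)).choose t : ℕ) : ZMod p) = (-1) ^ t * ((a + t).choose t : ℕ) := by
  induction t with
  | zero => simp
  | succ t ih =>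
    have ih := ih (by omega)
    have h1 := Nat.choose_succ_right_eq (p - (a + 1)) t
    have h2 := Nat.add_one_mul_choose_eq (a + t) t
    have h3 : ((t + 1 : ℕ) : ZMod p) ≠ 0 := by
      intro h0
      rw [ZMod.natCast_eq_zero_iff] at h0
      have := Nat.le_of_dvd (by omega) h0
      omega
    apply mul_right_cancel₀ h3
    have h4 := congrArg (Nat.cast : ℕ → ZMod p) h1
    have h5 := congrArg (Nat.cast : ℕ → ZMod p) h2
    rw [Nat.cast_mul, Nat.cast_mul, ih] at h4
    rw [Nat.cast_mul, Nat.cast_mul] at h5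
    rw [h4, mul_assoc ((-1 : ZMod p) ^ (t + 1))]
    rw [show a + (t + 1) = a + t + 1 by ring, ← h5]
    have h6 : ((p - (a + 1) - t : ℕ) : ZMod p) = -((a + t + 1 : ℕ) : ZMod p) := by
      rw [Nat.cast_sub (by omega), Nat.cast_sub ha]
      push_cast
      rw [CharP.cast_eq_zero]
      ring
    rw [h6]
    ring

lemma blk1_key (p m e s : ℕ) [Fact p.Prime] (hem : e < m) (hmp : m < p) (hsm : s < m) :
    (((m * (p - 1) + e).choose (s * (p - 1) + e) : ℕ) : ZMod p) =
      ((m - 1).choose e : ℕ) * ((-1) ^ (e - s) * (e.choose s : ℕ)) := by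
  have hp : p.Prime := Fact.out
  have hle : s * (p - 1) + e ≤ m * (p - 1) + e :=
    Nat.add_le_add_right (Nat.mul_le_mul_right _ hsm.le) _
  have hsub : m * (p - 1) + e - (s * (p - 1) + e) = (m - s) * (p - 1) := by
    rw [Nat.add_sub_add_right, Nat.sub_mul]
  have h1 := choose_lucas hp hem hmp (j := m - s) (by omega) (by omega)
  rw [← hsub, Nat.choose_symm hle] at h1
  have h2 : (((m * (p - 1) + e).choose (s * (p - 1) + e) : ℕ) : ZMod p) =
      (((p - (m - e)).choose (p - (m - s)) * (m - 1).choose (m - s - 1) : ℕ) : ZMod p) :=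
    (ZMod.natCast_eq_natCast_iff _ _ _).mpr h1
  rw [h2]
  have h3 : (m - 1).choose (m - s - 1) = (m - 1).choose s := by
    rw [← Nat.choose_symm (by omega : s ≤ m - 1)]
    congr 1
    omega
  rw [h3, Nat.cast_mul]
  rcases Nat.lt_or_ge e s with hes | hes
  · rw [Nat.choose_eq_zero_of_lt (by omega : p - (m - e) < p - (m - s)),
      Nat.choose_eq_zero_of_lt hes]
    simp
  · have h4 : (p - (m - e)).choose (p - (m - s)) = (p - (m - e)).choose (e - s) := by
      rw [← Nat.choose_symm (by omega : e - s ≤ p - (m - e))]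
      congr 1
      omega
    have h5 := blk1_choose p (m - e - 1) (by omega) (e - s) (by omega)
    rw [show m - e - 1 + 1 = m - e by omega] at h5
    rw [h4, h5]
    have h6 : (m - 1).choose e * e.choose s = (m - 1).choose s * (m - 1 - s).choose (e - s) :=
      Nat.choose_mul (hsk := hes)
    have h7 : m - e - 1 + (e - s) = m - 1 - s := by omega
    rw [h7]
    have h8 := congrArg (Nat.cast : ℕ → ZMod p) h6
    rw [Nat.cast_mul, Nat.cast_mul] at h8
    linear_combination (-1 : ZMod p) ^ (e - s) * (-h8)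

lemma blk1_poly (p m e : ℕ) [Fact p.Prime] (hp3 : 3 ≤ p) (hem : e < m) (hmp : m < p) :
    ∑ i ∈ range (m * (p - 1) + e + 1),
      C ((blk1A p (m * (p - 1) + e) i : ℤ) : ZMod p) * X ^ i =
      C (-(((m - 1).choose e : ℕ) : ZMod p)) * (X ^ p - X) ^ e := by
  classical
  have hinj : Set.InjOn (fun s => s * (p - 1) + e) ↑(range m) := by
    intro s _ t _ h
    simp only [Nat.add_right_cancel_iff] at h
    exact Nat.eq_of_mul_eq_mul_right (by omega) h
  have h1 : ∑ i ∈ range (m * (p - 1) + e + 1),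
      (C ((blk1A p (m * (p - 1) + e) i : ℤ) : ZMod p) * X ^ i : (ZMod p)[X]) =
      ∑ i ∈ (range m).image (fun s => s * (p - 1) + e),
        (C ((blk1A p (m * (p - 1) + e) i : ℤ) : ZMod p) * X ^ i : (ZMod p)[X]) := by
    symm
    apply Finset.sum_subset
    · intro i hi
      rw [Finset.mem_image] at hi
      obtain ⟨s, hs, rfl⟩ := hi
      rw [Finset.mem_range] at hs ⊢
      have := Nat.mul_le_mul_right (p - 1) hs.le
      omega
    · intro i hi hni
      have : blk1A p (m * (p - 1) + e) i = 0 := by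
        unfold blk1A
        rw [if_neg]
        rintro ⟨hlt, j, hj⟩
        apply hni
        rw [Finset.mem_image]
        have hj1 : 1 ≤ j := by
          rcases Nat.eq_zero_or_pos j with rfl | h0
          · simp at hj; omega
          · exact h0
        have hjm : j ≤ m := by
          by_contra hcon
          push Not at hcon
          have h1 : (m + 1) * (p - 1) ≤ (p - 1) * j := by
            rw [mul_comm (p - 1) j]
            exact Nat.mul_le_mul_right _ hcon
          rw [Nat.add_mul, one_mul] at h1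
          omega
        refine ⟨m - j, by rw [Finset.mem_range]; omega, ?_⟩
        have h2 : m * (p - 1) = (m - j) * (p - 1) + (p - 1) * j := by
          rw [mul_comm (p - 1) j, ← Nat.add_mul]; congr 1; omega
        omega
      rw [this]
      simp
  rw [h1, Finset.sum_image (fun s hs t ht h => hinj hs ht h)]
  have h2 : ∀ s ∈ range m,
      (C ((blk1A p (m * (p - 1) + e) (s * (p - 1) + e) : ℤ) : ZMod p) *
        X ^ (s * (p - 1) + e) : (ZMod p)[X]) =
      C (-(((m - 1).choose e : ℕ) : ZMod p)) *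
        ((X ^ p) ^ s * (-X) ^ (e - s) * ((e.choose s : ℕ) : (ZMod p)[X])) := by
    intro s hs
    rw [Finset.mem_range] at hs
    have hlt : s * (p - 1) + e < m * (p - 1) + e := by
      have := Nat.mul_lt_mul_of_pos_right hs (by omega : 0 < p - 1)
      omega
    have hsub : m * (p - 1) + e - (s * (p - 1) + e) = (m - s) * (p - 1) := by
      rw [Nat.add_sub_add_right, Nat.sub_mul]
    unfold blk1A
    rw [if_pos ⟨hlt, by rw [hsub]; exact Dvd.intro_left _ rfl⟩]
    have h3 := blk1_key p m e s hem hmp hs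
    rw [Int.cast_neg, Int.cast_natCast, h3]
    rcases Nat.lt_or_ge e s with hes | hes
    · rw [Nat.choose_eq_zero_of_lt hes]
      simp
    · have h4 : s * (p - 1) + e = p * s + (e - s) := by
        have h5 : p * s = s * (p - 1) + s := by
          rw [mul_comm, ← Nat.mul_succ]; congr 1; omega
        omega
      have h6 : ((-X : (ZMod p)[X]) ^ (e - s)) = (-1) ^ (e - s) * X ^ (e - s) := by
        rw [neg_pow]
      rw [h4, pow_add, pow_mul, h6]
      simp only [map_neg, map_mul, map_pow, map_one, map_natCast]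
      ring
  rw [Finset.sum_congr rfl h2, ← Finset.mul_sum]
  congr 1
  rw [sub_eq_add_neg, add_pow]
  symm
  apply Finset.sum_subset
  · intro s hs
    rw [Finset.mem_range] at hs ⊢
    omega
  · intro s _ hs
    rw [Finset.mem_range] at hs
    rw [Nat.choose_eq_zero_of_lt (by omega)]
    simp

/-- (BLK1) `p B_n` is congruent to a unit times `(X^p - X)^e` modulo `p`. -/
theorem bern_mod (p m e : ℕ) [Fact p.Prime] (hp3 : 3 ≤ p) (hem : e < m) (hmp : m < p) :
    ∃ (D : ℤ) (F : ℤ[X]), ¬ (p : ℤ) ∣ D ∧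
      F.map (Int.castRingHom ℚ) = C ((D * p : ℤ) : ℚ) * Polynomial.bernoulli (m * (p - 1) + e) ∧
      ∃ u : ZMod p, u ≠ 0 ∧ F.map (Int.castRingHom (ZMod p)) = C u * (X ^ p - X) ^ e := by
  have hp : p.Prime := Fact.out
  set n := m * (p - 1) + e with hn
  obtain ⟨D, hD, z, hz⟩ := PI.common hp (range (n + 1))
    (fun i => (Polynomial.bernoulli n).coeff i - (blk1A p n i : ℚ) / p)
    (fun i _ => blk1_coeff hp hp3 n i)
  have hp0 : (p : ℚ) ≠ 0 := by exact_mod_cast hp.ne_zero
  refine ⟨D, ∑ i ∈ range (n + 1), C (D * blk1A p n i + p * z i) * X ^ i, hD, ?_,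
    (D : ZMod p) * (-(((m - 1).choose e : ℕ) : ZMod p)), ?_, ?_⟩
  · rw [(Polynomial.bernoulli n).as_sum_range_C_mul_X_pow, natDegree_bernoulli, Finset.mul_sum,
      Polynomial.map_sum]
    apply Finset.sum_congr rfl
    intro i hi
    have h1 := hz i hi
    rw [Polynomial.map_mul, Polynomial.map_C, Polynomial.map_pow, Polynomial.map_X, ← mul_assoc,
      ← C_mul]
    congr 2
    simp only [eq_intCast, Int.cast_add, Int.cast_mul, Int.cast_natCast]
    rw [← h1]
    field_simp
    ring
  · intro h0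
    rcases mul_eq_zero.mp h0 with h1 | h1
    · rw [ZMod.intCast_zmod_eq_zero_iff_dvd] at h1
      exact hD h1
    · rw [neg_eq_zero, ZMod.natCast_eq_zero_iff] at h1
      have h8 : (m - 1).choose e ∣ (m - 1).factorial := by
        rw [← Nat.choose_mul_factorial_mul_factorial (by omega : e ≤ m - 1), mul_assoc]
        exact Dvd.intro _ rfl
      have h9 := (hp.dvd_factorial).mp (h1.trans h8)
      omega
  · rw [C_mul, mul_assoc, ← blk1_poly p m e hp3 hem hmp, Polynomial.map_sum, Finset.mul_sum]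
    apply Finset.sum_congr rfl
    intro i _
    rw [Polynomial.map_mul, Polynomial.map_C, Polynomial.map_pow, Polynomial.map_X, ← mul_assoc,
      ← C_mul]
    congr 2
    simp [← hn]

end Pool.Agent.Bern2
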