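import Mathlib
import Pool.Agent.Bern2.Defs
import Pool.Agent.Helper98.Bern.AL

namespace Pool.Agent.Bern2

open Polynomial Finset Pool.Agent.Helper29 Pool.Agent.Helper98.Bern

namespace Kum

/-- `q` is `p^m` times a `p`-integral number. -/
def DP (p m : ℕ) (q : ℚ) : Prop := ∃ r : ℚ, PI p r ∧ q = (p : ℚ) ^ m * r

lemma DP.zero {p : ℕ} (hp : p.Prime) (m : ℕ) : DP p m 0 :=
  ⟨0, by simpa using PI.int hp 0, by simp⟩

lemma DP.add {p m : ℕ} (hp : p.Prime) {a b : ℚ} (ha : DP p m a) (hb : DP p m b) :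
    DP p m (a + b) := by
  obtain ⟨r, hr, rfl⟩ := ha
  obtain ⟨s, hs, rfl⟩ := hb
  exact ⟨r + s, PI.add hp hr hs, by ring⟩

lemma DP.neg {p m : ℕ} (hp : p.Prime) {a : ℚ} (ha : DP p m a) : DP p m (-a) := by
  obtain ⟨r, hr, rfl⟩ := ha
  exact ⟨-r, PI.neg hp hr, by ring⟩

lemma DP.sub {p m : ℕ} (hp : p.Prime) {a b : ℚ} (ha : DP p m a) (hb : DP p m b) :
    DP p m (a - b) := by
  rw [sub_eq_add_neg]
  exact DP.add hp ha (DP.neg hp hb)

lemma DP.mul {p m : ℕ} (hp : p.Prime) {a b : ℚ} (ha : PI p a) (hb : DP p m b) :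
    DP p m (a * b) := by
  obtain ⟨s, hs, rfl⟩ := hb
  exact ⟨a * s, PI.mul hp ha hs, by ring⟩

lemma DP.sum {p m : ℕ} (hp : p.Prime) {ι : Type*} (s : Finset ι) (f : ι → ℚ)
    (h : ∀ i ∈ s, DP p m (f i)) : DP p m (∑ i ∈ s, f i) := by
  classical
  induction s using Finset.induction_on with
  | empty => simpa using DP.zero hp m
  | insert a s ha ih =>
    rw [Finset.sum_insert ha]
    exact DP.add hp (h a (Finset.mem_insert_self _ _)) (ih fun i hi => h i (Finset.mem_insert_of_mem hi))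

lemma DP.of_dvd {p m : ℕ} (hp : p.Prime) {z : ℤ} (h : (p : ℤ) ^ m ∣ z) : DP p m (z : ℚ) := by
  obtain ⟨w, rfl⟩ := h
  exact ⟨w, PI.int hp w, by push_cast; ring⟩

lemma lt_pow_aux {p : ℕ} (hp5 : 5 ≤ p) (m : ℕ) (hm : 2 ≤ m) : m + 1 < p ^ (m - 2 + 1) := by
  have h : ∀ j : ℕ, j + 3 < 5 ^ (j + 1) := by
    intro j
    induction j with
    | zero => norm_num
    | succ j ih => rw [pow_succ]; omega
  have h1 := h (m - 2)
  have h2 : 5 ^ (m - 2 + 1) ≤ p ^ (m - 2 + 1) := Nat.pow_le_pow_left hp5 _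
  omega

/-- Lemma A. -/
lemma bern_sum {p k v k' : ℕ} (hp : p.Prime) (hp5 : 5 ≤ p) (hk : Even k) (h0 : 0 < k)
    (hv : k = p ^ v * k') :
    DP p (v + 2) ((p : ℚ) * _root_.bernoulli k - ∑ j ∈ range p, (j : ℚ) ^ k) := by
  rw [sum_range_pow, Finset.sum_range_succ]
  have hk1 : ((k : ℚ) + 1) ≠ 0 := by positivity
  have e1 : _root_.bernoulli k * ((k + 1).choose k : ℚ) * (p : ℚ) ^ (k + 1 - k) / (k + 1)
      = (p : ℚ) * _root_.bernoulli k := by
    rw [Nat.choose_succ_self_right]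
    have : k + 1 - k = 1 := by omega
    rw [this]
    push_cast
    field_simp
  rw [e1]
  have e2 : ∀ x y : ℚ, y - (x + y) = -x := by intro x y; ring
  rw [e2]
  apply DP.neg hp
  apply DP.sum hp
  intro i hi
  rw [Finset.mem_range] at hi
  obtain ⟨m, hm1, hm⟩ : ∃ m, 1 ≤ m ∧ k = i + m := ⟨k - i, by omega, by omega⟩
  have hch : ((k + 1).choose i : ℚ) * (m * (m + 1)) = (k + 1) * (k * ((k - 1).choose (m - 1) : ℕ)) := by
    have s1 : (k + 1).choose i = (k + 1).choose (m + 1) :=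
      Nat.choose_symm_of_eq_add (by omega)
    have s2 := Nat.add_one_mul_choose_eq k m
    have s3 := Nat.add_one_mul_choose_eq (k - 1) (m - 1)
    have e3 : k - 1 + 1 = k := by omega
    have e4 : m - 1 + 1 = m := by omega
    rw [e3, e4] at s3
    rw [s1]
    have s2' : ((k : ℚ) + 1) * (k.choose m : ℚ) = ((k + 1).choose (m + 1) : ℚ) * (m + 1) := by
      exact_mod_cast s2
    have s3' : (k : ℚ) * ((k - 1).choose (m - 1) : ℕ) = (k.choose m : ℚ) * m := by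
      exact_mod_cast s3
    linear_combination (-(m : ℚ)) * s2' - ((k : ℚ) + 1) * s3'
  have hm0 : (m : ℚ) ≠ 0 := by
    have : m ≠ 0 := by omega
    exact_mod_cast this
  have hm10 : ((m : ℚ) + 1) ≠ 0 := by positivity
  have hkv : (k : ℚ) = (p : ℚ) ^ v * k' := by rw [hv]; push_cast; ring
  have hch2 : ((k + 1).choose i : ℚ) / (k + 1) =
      (p : ℚ) ^ v * k' * ((k - 1).choose (m - 1) : ℕ) / (m * (m + 1)) := by
    rw [div_eq_div_iff hk1 (mul_ne_zero hm0 hm10), hch, ← hkv]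
    ring
  have hterm : _root_.bernoulli i * ((k + 1).choose i : ℚ) * (p : ℚ) ^ (k + 1 - i) / (k + 1)
      = _root_.bernoulli i * (p : ℚ) ^ (m + 1) *
        ((p : ℚ) ^ v * k' * ((k - 1).choose (m - 1) : ℕ) / (m * (m + 1))) := by
    rw [← hch2]
    have : k + 1 - i = m + 1 := by omega
    rw [this]
    ring
  rw [hterm]
  rcases Nat.lt_or_ge m 2 with h2 | h2
  · have hm1' : m = 1 := by omega
    subst hm1'
    refine ⟨k' * (((k - 1).choose 0 : ℕ) : ℚ) * (_root_.bernoulli i * (1 / 2)), ?_, ?_⟩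
    · apply PI.mul hp (PI.mul hp (PI.nat hp _) (PI.nat hp _))
      apply PI.mul hp
      · rcases Nat.lt_or_ge 1 i with h3 | h3
        · rw [bernoulli_eq_zero_of_odd _ h3]
          · simpa using PI.int hp 0
          · rcases hk with ⟨j, hj⟩
            exact ⟨j - 1, by omega⟩
        · have : i = 1 := by
            rcases hk with ⟨j, hj⟩
            omega
          subst this
          rw [_root_.bernoulli_one]
          refine ⟨2, -1, ?_, by push_cast; ring⟩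
          intro h
          have := Int.le_of_dvd (by norm_num) h
          omega
      · refine ⟨2, 1, ?_, by push_cast; ring⟩
        intro h
        have := Int.le_of_dvd (by norm_num) h
        omega
    · push_cast
      simp only [Nat.choose_zero_right]
      ring
  · refine ⟨k' * (((k - 1).choose (m - 1) : ℕ) : ℚ) * ((p : ℚ) * _root_.bernoulli i) *
      ((p : ℚ) ^ (m - 2) / m - (p : ℚ) ^ (m - 2) / (m + 1 : ℕ)), ?_, ?_⟩
    · apply PI.mul hp
      · apply PI.mul hp (PI.mul hp (PI.nat hp _) (PI.nat hp _))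
        exact PI_bernoulli_mul hp (by omega) i
      · rw [sub_eq_add_neg]
        have hlt := lt_pow_aux hp5 m h2
        apply PI.add hp
        · exact PI.pow_div hp (by omega) (by omega)
        · apply PI.neg hp
          exact PI.pow_div hp (by omega) hlt
    · have e5 : (p : ℚ) ^ (m + 1) = (p : ℚ) ^ (m - 2) * (p : ℚ) ^ 3 := by
        rw [← pow_add]; congr 1; omega
      rw [e5]
      push_cast
      field_simp
      ring

/-- binomial expansion modulo `p^(v+2)` -/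
lemma binom_DP {p k v k' : ℕ} (hp : p.Prime) (hp5 : 5 ≤ p) (h0 : 2 ≤ k)
    (hv : k = p ^ v * k') (x y : ℕ) :
    DP p (v + 2) (((x : ℚ) + p * y) ^ k - (x : ℚ) ^ k - (k : ℚ) * p * y * (x : ℚ) ^ (k - 1)) := by
  obtain ⟨n, rfl⟩ : ∃ n, k = n + 2 := ⟨k - 2, by omega⟩
  have hexp : ((x : ℚ) + p * y) ^ (n + 2) =
      ∑ i ∈ range (n + 2 + 1), ((p : ℚ) * y) ^ i * (x : ℚ) ^ (n + 2 - i) * ((n + 2).choose i : ℚ) := by
    rw [add_comm, add_pow]
  rw [hexp, Finset.sum_range_succ', Finset.sum_range_succ']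
  have e : ∀ A B Cc D E : ℚ, B = E → Cc = D → A + B + Cc - D - E = A := by
    intro A B Cc D E h1 h2
    rw [h1, h2]; ring
  rw [e]
  · apply DP.sum hp
    intro i hi
    rw [Finset.mem_range] at hi
    refine ⟨(k' : ℚ) * (((n + 1).choose (i + 1) : ℕ) : ℚ) * ((p : ℚ) ^ i / (i + 2 : ℕ)) * (y : ℚ) ^ (i + 2) *
      (x : ℚ) ^ (n + 2 - (i + 1 + 1)), ?_, ?_⟩
    · apply PI.mul hp
      · apply PI.mul hp
        · apply PI.mul hp (PI.mul hp (PI.nat hp _) (PI.nat hp _))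
          apply PI.pow_div hp (by omega)
          have := lt_pow_aux hp5 (i + 2) (by omega)
          have e6 : i + 2 - 2 + 1 = i + 1 := by omega
          rw [e6] at this
          omega
        · have := PI.nat hp (y ^ (i + 2))
          push_cast at this
          exact this
      · have := PI.nat hp (x ^ (n + 2 - (i + 1 + 1)))
        rw [Nat.cast_pow] at this
        exact this
    · have s3 := Nat.add_one_mul_choose_eq (n + 1) (i + 1)
      have s3' : ((n : ℚ) + 1 + 1) * (((n + 1).choose (i + 1) : ℕ) : ℚ)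
          = (((n + 2).choose (i + 1 + 1) : ℕ) : ℚ) * ((i : ℚ) + 1 + 1) := by
        exact_mod_cast s3
      have hi0 : ((i : ℚ) + 1 + 1) ≠ 0 := by positivity
      have s4 : (((n + 2).choose (i + 1 + 1) : ℕ) : ℚ) =
          ((n : ℚ) + 1 + 1) * (((n + 1).choose (i + 1) : ℕ) : ℚ) / ((i : ℚ) + 1 + 1) := by
        rw [eq_div_iff hi0, s3']
      have hkv : ((n : ℚ) + 1 + 1) = (p : ℚ) ^ v * k' := by
        have : ((n + 2 : ℕ) : ℚ) = ((p ^ v * k' : ℕ) : ℚ) := by rw [← hv]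
        push_cast at this
        linarith
      rw [s4, hkv]
      have e7 : ((i + 2 : ℕ) : ℚ) = (i : ℚ) + 1 + 1 := by push_cast; ring
      rw [e7]
      field_simp
      ring
  · simp only [Nat.zero_add, pow_one, Nat.choose_one_right]
    have : n + 2 - 1 = n + 1 := by omega
    rw [this]
    push_cast
    ring
  · simp

/-- the sum `T_k(a)` of Voronoi -/
noncomputable def TT (p k a : ℕ) : ℕ := ∑ j ∈ range p, j ^ (k - 1) * (j * a / p)

lemma perm_sum {p : ℕ} (hp : p.Prime) (a : ℕ) (ha : ¬ p ∣ a) (f : ℕ → ℚ) :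
    ∑ j ∈ range p, f (j * a % p) = ∑ j ∈ range p, f j := by
  have hmaps : Set.MapsTo (fun j => j * a % p) (range p : Finset ℕ) (range p : Finset ℕ) := by
    intro j _
    simp only [Finset.coe_range, Set.mem_Iio]
    exact Nat.mod_lt _ hp.pos
  have hinj : Set.InjOn (fun j => j * a % p) (range p : Finset ℕ) := by
    intro i hi j hj hij
    simp only [Finset.coe_range, Set.mem_Iio] at hi hj
    have h1 : i * a ≡ j * a [MOD p] := hij
    have h2 : Nat.Coprime p a := (Nat.Prime.coprime_iff_not_dvd hp).mpr ha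
    have h3 : i ≡ j [MOD p] := Nat.ModEq.cancel_right_of_coprime h2 h1
    have h4 : i % p = j % p := h3
    rwa [Nat.mod_eq_of_lt hi, Nat.mod_eq_of_lt hj] at h4
  have hsurj : Set.SurjOn (fun j => j * a % p) (range p : Finset ℕ) (range p : Finset ℕ) :=
    Finset.surjOn_of_injOn_of_card_le _ hmaps hinj le_rfl
  exact Finset.sum_nbij (fun j => j * a % p) (fun j hj => by simpa using hmaps (by simpa using hj))
    hinj hsurj (fun j _ => rfl)

/-- Voronoi's congruence. -/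
lemma voronoi {p k v k' : ℕ} (hp : p.Prime) (hp5 : 5 ≤ p) (hk : Even k) (h0 : 0 < k)
    (hv : k = p ^ v * k') (a : ℕ) (ha : ¬ p ∣ a) :
    DP p (v + 2) (((a : ℚ) ^ k - 1) * ((p : ℚ) * _root_.bernoulli k) -
      (k : ℚ) * p * (a : ℚ) ^ (k - 1) * (TT p k a : ℚ)) := by
  have hk2 : 2 ≤ k := by
    rcases hk with ⟨j, hj⟩
    omega
  have hA := DP.mul hp (PI.int hp ((a : ℤ) ^ k - 1)) (bern_sum hp hp5 hk h0 hv)
  have hB : DP p (v + 2) (∑ j ∈ range p, ((((j * a % p : ℕ) : ℚ) + p * ((j * a / p : ℕ) : ℚ)) ^ k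
      - ((j * a % p : ℕ) : ℚ) ^ k - (k : ℚ) * p * ((j * a / p : ℕ) : ℚ) * ((j * a % p : ℕ) : ℚ) ^ (k - 1))) := by
    apply DP.sum hp
    intro j _
    exact binom_DP hp hp5 hk2 hv _ _
  have hC : DP p (v + 2) (∑ j ∈ range p, ((k : ℚ) * p * ((j * a / p : ℕ) : ℚ) *
      (((j * a % p : ℕ) : ℚ) ^ (k - 1) - ((j : ℚ) * a) ^ (k - 1)))) := by
    apply DP.sum hp
    intro j _
    have hdvd : (p : ℤ) ∣ ((j * a % p : ℕ) : ℤ) ^ (k - 1) - ((j : ℤ) * a) ^ (k - 1) := by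
      have h1 : ((j * a % p : ℕ) : ℤ) ≡ (j : ℤ) * a [ZMOD p] := by
        push_cast
        exact Int.mod_modEq _ _
      exact (h1.pow (k - 1)).symm.dvd
    obtain ⟨w, hw⟩ := hdvd
    have hw' : ((j * a % p : ℕ) : ℚ) ^ (k - 1) - ((j : ℚ) * a) ^ (k - 1) = (p : ℚ) * w := by
      exact_mod_cast hw
    rw [hw']
    have hkv : (k : ℚ) = (p : ℚ) ^ v * k' := by rw [hv]; push_cast; ring
    refine ⟨k' * ((j * a / p : ℕ) : ℚ) * w, ?_, ?_⟩
    · exact PI.mul hp (PI.mul hp (PI.nat hp _) (PI.nat hp _)) (PI.int hp w)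
    · rw [hkv]
      ring
  have hD := DP.add hp (DP.add hp hA hB) hC
  have hperm := perm_sum hp a ha (fun j => (j : ℚ) ^ k)
  have hdm : ∀ j : ℕ, ((j * a % p : ℕ) : ℚ) + p * ((j * a / p : ℕ) : ℚ) = (j : ℚ) * a := by
    intro j
    have := Nat.mod_add_div (j * a) p
    exact_mod_cast this
  have hBs : (∑ j ∈ range p, ((((j * a % p : ℕ) : ℚ) + p * ((j * a / p : ℕ) : ℚ)) ^ k
      - ((j * a % p : ℕ) : ℚ) ^ k - (k : ℚ) * p * ((j * a / p : ℕ) : ℚ) * ((j * a % p : ℕ) : ℚ) ^ (k - 1)))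
      = (a : ℚ) ^ k * ∑ j ∈ range p, (j : ℚ) ^ k - ∑ j ∈ range p, (j : ℚ) ^ k
        - (k : ℚ) * p * ∑ j ∈ range p, ((j * a / p : ℕ) : ℚ) * ((j * a % p : ℕ) : ℚ) ^ (k - 1) := by
    rw [Finset.sum_sub_distrib, Finset.sum_sub_distrib, ← hperm]
    congr 1
    · congr 1
      · rw [hperm, Finset.mul_sum]
        apply Finset.sum_congr rfl
        intro j _
        rw [hdm j]
        ring
    · rw [Finset.mul_sum]
      apply Finset.sum_congr rfl
      intro j _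
      ring
  have hCs : (∑ j ∈ range p, ((k : ℚ) * p * ((j * a / p : ℕ) : ℚ) *
      (((j * a % p : ℕ) : ℚ) ^ (k - 1) - ((j : ℚ) * a) ^ (k - 1))))
      = (k : ℚ) * p * ∑ j ∈ range p, ((j * a / p : ℕ) : ℚ) * ((j * a % p : ℕ) : ℚ) ^ (k - 1)
        - (k : ℚ) * p * (a : ℚ) ^ (k - 1) * (TT p k a : ℚ) := by
    unfold TT
    push_cast
    rw [Finset.mul_sum, Finset.mul_sum, ← Finset.sum_sub_distrib]
    apply Finset.sum_congr rfl
    intro j _
    ring
  rw [hBs, hCs] at hD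
  have e : (((a : ℚ) ^ k - 1) * ((p : ℚ) * _root_.bernoulli k) -
      (k : ℚ) * p * (a : ℚ) ^ (k - 1) * (TT p k a : ℚ)) =
      (((((a : ℤ) ^ k - 1 : ℤ) : ℚ)) * ((p : ℚ) * _root_.bernoulli k - ∑ j ∈ range p, (j : ℚ) ^ k) +
        ((a : ℚ) ^ k * ∑ j ∈ range p, (j : ℚ) ^ k - ∑ j ∈ range p, (j : ℚ) ^ k
        - (k : ℚ) * p * ∑ j ∈ range p, ((j * a / p : ℕ) : ℚ) * ((j * a % p : ℕ) : ℚ) ^ (k - 1)) +
        ((k : ℚ) * p * ∑ j ∈ range p, ((j * a / p : ℕ) : ℚ) * ((j * a % p : ℕ) : ℚ) ^ (k - 1)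
        - (k : ℚ) * p * (a : ℚ) ^ (k - 1) * (TT p k a : ℚ))) := by
    push_cast
    ring
  rw [e]
  exact hD

/-- Voronoi's congruence, divided by `k p`. -/
lemma voronoi' {p k : ℕ} (hp : p.Prime) (hp5 : 5 ≤ p) (hk : Even k) (h0 : 0 < k)
    (a : ℕ) (ha : ¬ p ∣ a) :
    DP p 1 (((a : ℚ) ^ k - 1) * (_root_.bernoulli k / k) - (a : ℚ) ^ (k - 1) * (TT p k a : ℚ)) := by
  obtain ⟨v, k', hk', hv⟩ := Nat.exists_eq_pow_mul_and_not_dvd h0.ne' p hp.ne_one
  obtain ⟨r, hr, h⟩ := voronoi hp hp5 hk h0 hv a ha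
  have hk0 : (k : ℚ) ≠ 0 := by
    have : k ≠ 0 := by omega
    exact_mod_cast this
  have hp0 : (p : ℚ) ≠ 0 := by exact_mod_cast hp.ne_zero
  have hk'0 : (k' : ℚ) ≠ 0 := by
    have : k' ≠ 0 := by rintro rfl; simp at hk'
    exact_mod_cast this
  refine ⟨r * (1 / k'), ?_, ?_⟩
  · apply PI.mul hp hr
    refine ⟨k', 1, ?_, ?_⟩
    · intro h1
      exact hk' (by exact_mod_cast h1)
    · push_cast
      field_simp
  · have hkv : (k : ℚ) = (p : ℚ) ^ v * k' := by rw [hv]; push_cast; ring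
    have h1 : ((a : ℚ) ^ k - 1) * (_root_.bernoulli k / k) - (a : ℚ) ^ (k - 1) * (TT p k a : ℚ)
        = (((a : ℚ) ^ k - 1) * ((p : ℚ) * _root_.bernoulli k) -
      (k : ℚ) * p * (a : ℚ) ^ (k - 1) * (TT p k a : ℚ)) / (k * p) := by
      field_simp
    rw [h1, h, hkv]
    have hpv : (p : ℚ) ^ v ≠ 0 := pow_ne_zero _ hp0
    field_simp
    ring

lemma exists_root {p k : ℕ} (hp : p.Prime) (hnd : ¬ (p - 1) ∣ k) :
    ∃ a : ℕ, ¬ p ∣ a ∧ ¬ (p : ℤ) ∣ (a : ℤ) ^ k - 1 := by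
  have : Fact p.Prime := ⟨hp⟩
  obtain ⟨g, hg⟩ := IsCyclic.exists_generator (α := (ZMod p)ˣ)
  have ho : orderOf g = p - 1 := by
    rw [orderOf_eq_card_of_forall_mem_zpowers hg, Nat.card_eq_fintype_card, ZMod.card_units]
  refine ⟨(g : ZMod p).val, ?_, ?_⟩
  · intro h
    have : ((g : ZMod p).val : ZMod p) = 0 := (ZMod.natCast_eq_zero_iff _ _).mpr h
    rw [ZMod.natCast_val, ZMod.cast_id', id] at this
    exact g.ne_zero this
  · intro h
    apply hnd
    rw [← ho, orderOf_dvd_iff_pow_eq_one]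
    have h1 : ((((g : ZMod p).val : ℤ) ^ k - 1 : ℤ) : ZMod p) = 0 :=
      (ZMod.intCast_zmod_eq_zero_iff_dvd _ _).mpr h
    push_cast at h1
    rw [ZMod.natCast_val, ZMod.cast_id', id] at h1
    ext
    push_cast
    linear_combination h1

lemma PI_of_mul {p : ℕ} (hp : p.Prime) {z : ℤ} (hz : ¬ (p : ℤ) ∣ z) {q : ℚ} (h : PI p ((z : ℚ) * q)) :
    PI p q := by
  obtain ⟨d, w, hd, hw⟩ := h
  refine ⟨d * z, w, ?_, by push_cast; rw [← hw]; ring⟩
  intro hdvd
  rcases (Nat.prime_iff_prime_int.mp hp).dvd_or_dvd hdvd with h1 | h1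
  · exact hd h1
  · exact hz h1

lemma DP.PI {p m : ℕ} (hp : p.Prime) {q : ℚ} (h : DP p m q) : Pool.Agent.Helper29.PI p q := by
  obtain ⟨r, hr, rfl⟩ := h
  apply Pool.Agent.Helper29.PI.mul hp _ hr
  have := Pool.Agent.Helper29.PI.nat hp (p ^ m)
  push_cast at this
  exact this

lemma pow_congr_aux {p k k' : ℕ} (hp : p.Prime) (h0 : 0 < k) (h0' : 0 < k')
    (hmod : k ≡ k' [MOD (p - 1)]) (j : ℕ) :
    (p : ℤ) ∣ (j : ℤ) ^ k - (j : ℤ) ^ k' := by
  have : Fact p.Prime := ⟨hp⟩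
  rw [← ZMod.intCast_zmod_eq_zero_iff_dvd]
  push_cast
  by_cases hj : (j : ZMod p) = 0
  · rw [hj, zero_pow h0.ne', zero_pow h0'.ne', sub_zero]
  · have h1 : orderOf (Units.mk0 (j : ZMod p) hj) ∣ p - 1 := by
      have := orderOf_dvd_card (x := Units.mk0 (j : ZMod p) hj)
      rwa [ZMod.card_units] at this
    have h2 : k ≡ k' [MOD (orderOf (Units.mk0 (j : ZMod p) hj))] := hmod.of_dvd h1
    have h3 := pow_eq_pow_iff_modEq.mpr h2
    have h4 : ((Units.mk0 (j : ZMod p) hj) ^ k : (ZMod p)ˣ).val = ((Units.mk0 (j : ZMod p) hj) ^ k' : (ZMod p)ˣ).val := by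
      rw [h3]
    push_cast at h4
    rw [Units.val_mk0] at h4
    rw [h4, sub_self]

lemma pow_congr_aux' {p k k' : ℕ} (hp : p.Prime) (h0 : 2 ≤ k) (h0' : 2 ≤ k')
    (hmod : k ≡ k' [MOD (p - 1)]) (j : ℕ) :
    (p : ℤ) ∣ (j : ℤ) ^ (k - 1) - (j : ℤ) ^ (k' - 1) := by
  apply pow_congr_aux hp (by omega) (by omega)
  have h1 : k - 1 + 1 ≡ k' - 1 + 1 [MOD (p - 1)] := by
    rwa [Nat.sub_add_cancel (by omega), Nat.sub_add_cancel (by omega)]
  exact Nat.ModEq.add_right_cancel' 1 h1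

end Kum

open Kum

/-- (KUM') The quotient is integral. -/
theorem kummer_int (p k : ℕ) (hp : p.Prime) (hp5 : 5 ≤ p) (hk : Even k)
    (h0 : 0 < k) (hnd : ¬ (p - 1) ∣ k) : PI p (_root_.bernoulli k / k) := by
  obtain ⟨a, ha, hak⟩ := exists_root hp hnd
  have h1 := (voronoi' hp hp5 hk h0 a ha).PI hp
  apply PI_of_mul hp hak
  have h2 : PI p ((a : ℚ) ^ (k - 1) * (TT p k a : ℚ)) := by
    apply PI.mul hp _ (PI.nat hp _)
    have := PI.nat hp (a ^ (k - 1))
    push_cast at this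
    exact this
  have h3 := PI.add hp h1 h2
  have e : ((((a : ℤ) ^ k - 1 : ℤ)) : ℚ) * (_root_.bernoulli k / k) =
      (((a : ℚ) ^ k - 1) * (_root_.bernoulli k / k) - (a : ℚ) ^ (k - 1) * (TT p k a : ℚ)) +
      (a : ℚ) ^ (k - 1) * (TT p k a : ℚ) := by
    push_cast
    ring
  rw [e]
  exact h3

/-- (KUM) Kummer's congruence. -/
theorem kummer (p k k' : ℕ) (hp : p.Prime) (hp5 : 5 ≤ p) (hk : Even k) (hk' : Even k')
    (h0 : 0 < k) (h0' : 0 < k') (hmod : k ≡ k' [MOD (p - 1)]) (hnd : ¬ (p - 1) ∣ k) :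
    PI p ((_root_.bernoulli k / k - _root_.bernoulli k' / k') / p) := by
  have hk2 : 2 ≤ k := by
    rcases hk with ⟨j, hj⟩
    omega
  have hk2' : 2 ≤ k' := by
    rcases hk' with ⟨j, hj⟩
    omega
  have hnd' : ¬ (p - 1) ∣ k' := fun h => hnd ((Nat.ModEq.dvd_iff hmod dvd_rfl).mpr h)
  obtain ⟨a, ha, hak⟩ := exists_root hp hnd
  have h1 := voronoi' hp hp5 hk h0 a ha
  have h2 := voronoi' hp hp5 hk' h0' a ha
  have hi := kummer_int p k' hp hp5 hk' h0' hnd'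
  have h3 : DP p 1 (((a : ℚ) ^ (k - 1) * (TT p k a : ℚ)) - (a : ℚ) ^ (k' - 1) * (TT p k' a : ℚ)) := by
    have : (p : ℤ) ^ 1 ∣ (a : ℤ) ^ (k - 1) * (TT p k a : ℤ) - (a : ℤ) ^ (k' - 1) * (TT p k' a : ℤ) := by
      rw [pow_one]
      have hT : (p : ℤ) ∣ (TT p k a : ℤ) - (TT p k' a : ℤ) := by
        unfold TT
        push_cast
        rw [← Finset.sum_sub_distrib]
        apply Finset.dvd_sum
        intro j _
        rw [← sub_mul]
        exact Dvd.dvd.mul_right (pow_congr_aux' hp hk2 hk2' hmod j) _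
      have hP := pow_congr_aux' hp hk2 hk2' hmod a
      have e : (a : ℤ) ^ (k - 1) * (TT p k a : ℤ) - (a : ℤ) ^ (k' - 1) * (TT p k' a : ℤ)
          = (a : ℤ) ^ (k - 1) * ((TT p k a : ℤ) - (TT p k' a : ℤ)) +
            ((a : ℤ) ^ (k - 1) - (a : ℤ) ^ (k' - 1)) * (TT p k' a : ℤ) := by ring
      rw [e]
      exact dvd_add (Dvd.dvd.mul_left hT _) (Dvd.dvd.mul_right hP _)
    have := DP.of_dvd hp this
    push_cast at this
    exact this
  have h4 : DP p 1 ((_root_.bernoulli k' / k') * (((a : ℚ) ^ k - (a : ℚ) ^ k'))) := by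
    apply DP.mul hp hi
    have : (p : ℤ) ^ 1 ∣ (a : ℤ) ^ k - (a : ℤ) ^ k' := by
      rw [pow_one]
      exact pow_congr_aux hp h0 h0' hmod a
    have := DP.of_dvd hp this
    push_cast at this
    exact this
  have h5 := DP.sub hp (DP.add hp (DP.sub hp h1 h2) h3) h4
  obtain ⟨r, hr, h⟩ := h5
  have hp0 : (p : ℚ) ≠ 0 := by exact_mod_cast hp.ne_zero
  apply PI_of_mul hp hak
  have e : ((((a : ℤ) ^ k - 1 : ℤ)) : ℚ) * ((_root_.bernoulli k / k - _root_.bernoulli k' / k') / p) = r := by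
    rw [pow_one] at h
    have h' : ((((a : ℤ) ^ k - 1 : ℤ)) : ℚ) * (_root_.bernoulli k / k - _root_.bernoulli k' / k') = (p : ℚ) * r := by
      rw [← h]
      push_cast
      ring
    rw [← mul_div_assoc, h']
    field_simp
  rw [e]
  exact hr

end Pool.Agent.Bern2
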