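import Mathlib
import Pool.Agent.Bern2.BLK1
import Pool.Agent.Bern2.KUM

namespace Pool.Agent.Bern2

open Polynomial Finset Pool.Agent.Helper29 Pool.Agent.Helper98.Bern

lemma blk_modEq_sub {p n e i : ℕ} (hmod : n ≡ e [MOD (p - 1)]) (hie : i ≤ e) (hin : i ≤ n) :
    n - i ≡ e - i [MOD (p - 1)] := by
  apply Nat.ModEq.add_right_cancel' i
  rwa [Nat.sub_add_cancel hin, Nat.sub_add_cancel hie]

lemma blk_not_dvd {p k k0 : ℕ} (h : k ≡ k0 [MOD (p - 1)]) (h0 : 0 < k0) (h1 : k0 < p - 1) :
    ¬ (p - 1) ∣ k := by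
  intro hd
  have h2 : (p - 1) ∣ k0 := (h.dvd_iff dvd_rfl).mp hd
  exact absurd (Nat.le_of_dvd h0 h2) (by omega)

lemma blk_pow_cong {p : ℕ} (hp : p.Prime) {r s : ℕ} (hr : 0 < r) (hs : 0 < s)
    (h : r ≡ s [MOD (p - 1)]) (j : ℕ) : (p : ℤ) ∣ (j : ℤ) ^ r - (j : ℤ) ^ s := by
  have := Fact.mk hp
  rw [← ZMod.intCast_zmod_eq_zero_iff_dvd]
  push_cast
  rw [sub_eq_zero]
  by_cases hj : (j : ZMod p) = 0
  · rw [hj, zero_pow hr.ne', zero_pow hs.ne']
  · have h1 := ZMod.pow_card_sub_one_eq_one hj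
    have key : ∀ a b : ℕ, a ≤ b → a ≡ b [MOD (p - 1)] → (j : ZMod p) ^ a = (j : ZMod p) ^ b := by
      intro a b hab h2
      obtain ⟨t, ht⟩ := (Nat.modEq_iff_dvd' hab).1 h2
      have h3 : b = a + (p - 1) * t := by omega
      rw [h3, pow_add, pow_mul, h1, one_pow, mul_one]
    rcases le_total r s with h2 | h2
    · exact key r s h2 h
    · exact (key s r h2 h.symm).symm

/-- (BLK2a) Values of Bernoulli polynomials at integers: Kummer's congruence. -/
theorem bern_val (p n e i a : ℕ) (hp : p.Prime) (hp5 : 5 ≤ p) (he : 2 ≤ e) (hee : Even e)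
    (hen : Even n) (hep : e + 2 ≤ p)
    (hmod : n ≡ e [MOD (p - 1)]) (hi : i + 2 ≤ e) (hin : i + 2 ≤ n) :
    PI p ((Polynomial.bernoulli (n - i)).eval (a : ℚ)) ∧
    PI p ((((e - i : ℕ) : ℚ) * (Polynomial.bernoulli (n - i)).eval (a : ℚ) -
      ((n - i : ℕ) : ℚ) * (Polynomial.bernoulli (e - i)).eval (a : ℚ)) / p) := by
  have hm := blk_modEq_sub hmod (by omega : i ≤ e) (by omega : i ≤ n)
  set k := n - i with hk
  set k0 := e - i with hk0
  have hk2 : 2 ≤ k := by omega
  have hk02 : 2 ≤ k0 := by omega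
  have hk0p : k0 < p - 1 := by omega
  have hnd : ¬ (p - 1) ∣ k := blk_not_dvd hm (by omega) hk0p
  have hnd0 : ¬ (p - 1) ∣ k0 := blk_not_dvd (Nat.ModEq.refl k0) (by omega) hk0p
  have hp0 : (p : ℚ) ≠ 0 := by exact_mod_cast hp.ne_zero
  have hval : ∀ r : ℕ, 2 ≤ r → (Polynomial.bernoulli r).eval (a : ℚ) =
      _root_.bernoulli r + (r : ℚ) * ∑ j ∈ range a, (j : ℚ) ^ (r - 1) := by
    intro r hr
    obtain ⟨q, rfl⟩ : ∃ q, r = q + 1 := ⟨r - 1, by omega⟩
    have := Polynomial.bernoulli_succ_eval a q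
    rw [Nat.add_sub_cancel, this]
    push_cast
    ring
  rw [hval k hk2, hval k0 hk02]
  constructor
  · apply PI.add hp (PI_bernoulli hp (by omega) k (Or.inr hnd))
    apply PI.mul hp (PI.nat hp _)
    apply PI.sum hp
    intro j _
    have := PI.nat hp (j ^ (k - 1))
    simpa using this
  · have hsplit : ((k0 : ℚ) * (_root_.bernoulli k + (k : ℚ) * ∑ j ∈ range a, (j : ℚ) ^ (k - 1)) -
        (k : ℚ) * (_root_.bernoulli k0 + (k0 : ℚ) * ∑ j ∈ range a, (j : ℚ) ^ (k0 - 1))) / p =
        ((k0 : ℚ) * _root_.bernoulli k - (k : ℚ) * _root_.bernoulli k0) / p +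
        (k0 : ℚ) * (k : ℚ) * ∑ j ∈ range a, (((j : ℚ) ^ (k - 1) - (j : ℚ) ^ (k0 - 1)) / p) := by
      rw [← Finset.sum_div, Finset.sum_sub_distrib]
      field_simp
      ring
    rw [hsplit]
    apply PI.add hp
    · rcases Nat.even_or_odd i with hie | hio
      · have hke : Even k := by
          obtain ⟨x, hx⟩ := hen
          obtain ⟨y, hy⟩ := hie
          exact ⟨x - y, by omega⟩
        have hk0e : Even k0 := by
          obtain ⟨x, hx⟩ := hee
          obtain ⟨y, hy⟩ := hie
          exact ⟨x - y, by omega⟩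
        have h1 := kummer p k k0 hp hp5 hke hk0e (by omega) (by omega) hm hnd
        have hkq : (k : ℚ) ≠ 0 := by
          have : k ≠ 0 := by omega
          exact_mod_cast this
        have hk0q : (k0 : ℚ) ≠ 0 := by
          have : k0 ≠ 0 := by omega
          exact_mod_cast this
        have h2 : ((k0 : ℚ) * _root_.bernoulli k - (k : ℚ) * _root_.bernoulli k0) / p =
            (k : ℚ) * (k0 : ℚ) * ((_root_.bernoulli k / k - _root_.bernoulli k0 / k0) / p) := by
          field_simp
        rw [h2]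
        exact PI.mul hp (PI.mul hp (PI.nat hp _) (PI.nat hp _)) h1
      · have hko : Odd k := by
          obtain ⟨x, hx⟩ := hen
          obtain ⟨y, hy⟩ := hio
          exact ⟨x - y - 1, by omega⟩
        have hk0o : Odd k0 := by
          obtain ⟨x, hx⟩ := hee
          obtain ⟨y, hy⟩ := hio
          exact ⟨x - y - 1, by omega⟩
        rw [bernoulli_eq_zero_of_odd hko (by omega), bernoulli_eq_zero_of_odd hk0o (by omega)]
        simpa using PI.int hp 0
    · apply PI.mul hp (PI.mul hp (PI.nat hp _) (PI.nat hp _))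
      apply PI.sum hp
      intro j _
      have hm1 : k - 1 ≡ k0 - 1 [MOD (p - 1)] := by
        apply Nat.ModEq.add_right_cancel' 1
        rwa [Nat.sub_add_cancel (by omega), Nat.sub_add_cancel (by omega)]
      obtain ⟨z, hz⟩ := blk_pow_cong hp (by omega : 0 < k - 1) (by omega : 0 < k0 - 1) hm1 j
      have hz' : ((j : ℚ) ^ (k - 1) - (j : ℚ) ^ (k0 - 1)) = (p : ℚ) * z := by exact_mod_cast hz
      rw [hz', mul_div_cancel_left₀ _ hp0]
      exact PI.int hp z

lemma blk_hasse (n k : ℕ) (hk : k ≤ n) : hasseDeriv k (Polynomial.bernoulli n) =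
    C ((n.choose k : ℕ) : ℚ) * Polynomial.bernoulli (n - k) := by
  ext j
  rw [hasseDeriv_coeff, coeff_C_mul, coeff_bernoulli, coeff_bernoulli]
  by_cases h : j + k ≤ n
  · rw [if_pos h, if_pos (by omega)]
    have h1 : n.choose (j + k) * (j + k).choose k = n.choose k * (n - k).choose j := by
      have := Nat.choose_mul (n := n) (Nat.le_add_left k j)
      rwa [Nat.add_sub_cancel] at this
    have h2 : n - (j + k) = n - k - j := by omega
    rw [h2]
    have h3 : ((n.choose (j + k) : ℕ) : ℚ) * (((j + k).choose k : ℕ) : ℚ) =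
        ((n.choose k : ℕ) : ℚ) * (((n - k).choose j : ℕ) : ℚ) := by exact_mod_cast h1
    linear_combination (_root_.bernoulli (n - k - j)) * h3
  · rw [if_neg h, if_neg (by omega), mul_zero, mul_zero]

lemma blk_taylor (n k a : ℕ) (hk : k ≤ n) :
    ((Polynomial.bernoulli n).comp (X + C (a : ℚ))).coeff k =
      ((n.choose k : ℕ) : ℚ) * (Polynomial.bernoulli (n - k)).eval (a : ℚ) := by
  rw [← taylor_apply, taylor_coeff, blk_hasse n k hk, eval_mul, eval_C]

lemma blk_dvd_iff {p : ℕ} [Fact p.Prime] (P : ℤ[X]) (a k : ℕ) :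
    (X - C (a : ZMod p)) ^ k ∣ P.map (Int.castRingHom (ZMod p)) ↔
      ∀ j < k, (p : ℤ) ∣ (P.comp (X + C (a : ℤ))).coeff j := by
  rw [X_sub_C_pow_dvd_iff, X_pow_dvd_iff]
  have h1 : (P.map (Int.castRingHom (ZMod p))).comp (X + C (a : ZMod p)) =
      (P.comp (X + C (a : ℤ))).map (Int.castRingHom (ZMod p)) := by
    rw [Polynomial.map_comp]
    simp
  rw [h1]
  constructor
  · intro h j hj
    have := h j hj
    rw [coeff_map] at this
    exact (ZMod.intCast_zmod_eq_zero_iff_dvd _ _).1 this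
  · intro h j hj
    rw [coeff_map]
    exact (ZMod.intCast_zmod_eq_zero_iff_dvd _ _).2 (h j hj)

lemma blk_mul_coeff {p : ℤ} (P Q : ℤ[X]) (k1 k2 i : ℕ) (h1 : ∀ j < k1, p ∣ P.coeff j)
    (h2 : ∀ j < k2, p ∣ Q.coeff j) (hi1 : i < k1) (hi2 : i < k2) : p ^ 2 ∣ (P * Q).coeff i := by
  rw [coeff_mul]
  apply Finset.dvd_sum
  intro x hx
  rw [HasAntidiagonal.mem_antidiagonal] at hx
  rw [pow_two]
  exact mul_dvd_mul (h1 _ (by omega)) (h2 _ (by omega))

/-- an integer which is `p` times a `p`-integral number is divisible by `p` -/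
lemma blk_dvd_of_PI {p : ℕ} (hp : p.Prime) {z : ℤ} (h : PI p ((z : ℚ) / p)) : (p : ℤ) ∣ z := by
  obtain ⟨d, w, hd, hw⟩ := h
  have hp0 : (p : ℚ) ≠ 0 := by exact_mod_cast hp.ne_zero
  have h1 : d * z = p * w := by
    have : (d : ℚ) * z = p * w := by
      rw [← hw]
      field_simp
    exact_mod_cast this
  rcases (Nat.prime_iff_prime_int.mp hp).dvd_or_dvd (Dvd.intro _ h1.symm) with h2 | h2
  · exact absurd h2 hd
  · exact h2

lemma blk_PI_of_mul {p : ℕ} (hp : p.Prime) {N : ℤ} {q : ℚ} (hN : ¬ (p : ℤ) ∣ N)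
    (h : PI p ((N : ℚ) * q)) : PI p q := by
  obtain ⟨d, w, hd, hw⟩ := h
  refine ⟨d * N, w, ?_, ?_⟩
  · intro h1
    rcases (Nat.prime_iff_prime_int.mp hp).dvd_or_dvd h1 with h2 | h2
    · exact hd h2
    · exact hN h2
  · push_cast
    rw [← hw]
    ring

/-- the unit `C(n,i)(n-i)` -/
lemma blk_unit {p m e i : ℕ} (hp : p.Prime) (hem : e < m) (hmp : m < p) (hi : i < e) :
    ¬ (p : ℤ) ∣ (((m * (p - 1) + e).choose i * (m * (p - 1) + e - i) : ℕ) : ℤ) := by
  intro h
  have h' : p ∣ (m * (p - 1) + e).choose i * (m * (p - 1) + e - i) := by exact_mod_cast h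
  set n := m * (p - 1) + e with hn
  have h1 : n.choose i * (n - i) * i.factorial = n.descFactorial (i + 1) := by
    rw [Nat.descFactorial_succ, Nat.descFactorial_eq_factorial_mul_choose]
    ring
  have h2 : p ∣ n.descFactorial (i + 1) := by
    rw [← h1]
    exact Dvd.dvd.mul_right h' _
  rw [Nat.descFactorial_eq_prod_range] at h2
  obtain ⟨l, hl, hpl⟩ := (hp.prime.dvd_finsetProd_iff _).1 h2
  rw [Finset.mem_range] at hl
  have hp1 : 1 ≤ p := hp.one_lt.le
  have hmul : m * (p - 1) + m = m * p := by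
    rw [← Nat.mul_succ]; congr 1; omega
  have hnl : (n - l) + (m - e + l) = m * p := by
    have : e < n := by
      have : 1 * 1 ≤ m * (p - 1) := Nat.mul_le_mul (by omega) (by omega)
      omega
    omega
  have h3 : p ∣ m - e + l := by
    rw [← Nat.dvd_add_right hpl, hnl]
    exact Dvd.intro_left _ rfl
  have := Nat.le_of_dvd (by omega) h3
  omega

/-- (BLK2) The degree of the small factor is close to a multiple of `e`. -/
theorem blk (p m e : ℕ) (hp : p.Prime) (he : 2 ≤ e) (hee : Even e) (hem : e < m) (hmp : m < p)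
    (hen : Even (m * (p - 1) + e))
    (g H : ℚ[X]) (hB : Polynomial.bernoulli (m * (p - 1) + e) = g * H) (hg : g.Monic)
    (hH : H.Monic) (hdeg : e * p < g.natDegree) :
    ∃ f : (ZMod p)[X], IsF p e f ∧ ∃ j : ℕ,
      ∀ (_ : Fact p.Prime), |(H.natDegree : ℤ) - e * j| ≤ (mu p f : ℤ) := by
  have := Fact.mk hp
  have hp5 : 5 ≤ p := by
    rcases Nat.lt_or_ge p 5 with h | h
    · exfalso
      have hp4 : p = 4 := by omega
      subst hp4
      revert hp
      decide
    · exact h
  set n := m * (p - 1) + e with hn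
  have hpI : Prime (p : ℤ) := Nat.prime_iff_prime_int.mp hp
  have hp0 : (p : ℚ) ≠ 0 := by exact_mod_cast hp.ne_zero
  set φ : ℤ →+* ZMod p := Int.castRingHom (ZMod p) with hφ
  have hφ0 : ∀ a : ℤ, φ a = 0 ↔ (p : ℤ) ∣ a := fun a => by
    rw [hφ]
    simpa using ZMod.intCast_zmod_eq_zero_iff_dvd a p
  obtain ⟨D, F, hD, hF, u, hu, hFu⟩ := bern_mod p m e (by omega) hem hmp
  rw [← hn] at hF
  -- the factor `H`
  obtain ⟨H1, hH1p, hH1d, c, hc, hH1c⟩ := exists_primitive hH.ne_zero
  have hdvd : H1.map (algebraMap ℤ ℚ) ∣ F.map (algebraMap ℤ ℚ) := by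
    change H1.map (Int.castRingHom ℚ) ∣ F.map (Int.castRingHom ℚ)
    rw [hH1c, hF, hB]
    refine ⟨C (c⁻¹) * (C ((D * p : ℤ) : ℚ) * g), ?_⟩
    have : C c * C c⁻¹ = (1 : ℚ[X]) := by rw [← C_mul, mul_inv_cancel₀ hc, C_1]
    linear_combination (-(C ((D * p : ℤ) : ℚ) * g * H)) * this
  obtain ⟨G, hG⟩ := hH1p.dvd_of_fraction_map_dvd_fraction_map hdvd
  have hinj : Function.Injective (Int.castRingHom ℚ) := RingHom.injective_int (Int.castRingHom ℚ)
  have hDp : D * p ≠ 0 := by
    intro h
    rcases mul_eq_zero.1 h with h1 | h1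
    · exact hD (h1 ▸ dvd_zero _)
    · exact hp.ne_zero (by exact_mod_cast h1)
  have hDpq : ((D * p : ℤ) : ℚ) ≠ 0 := by exact_mod_cast hDp
  have hFdeg : F.natDegree = n := by
    rw [← natDegree_map_eq_of_injective hinj, hF, natDegree_C_mul hDpq, natDegree_bernoulli]
  have hFlc : F.leadingCoeff = D * p := by
    have h2 := leadingCoeff_map_of_injective hinj F
    rw [hF, leadingCoeff_mul, leadingCoeff_C, (monic_bernoulli n).leadingCoeff, mul_one] at h2
    have h3 : ((F.leadingCoeff : ℤ) : ℚ) = ((D * p : ℤ) : ℚ) := by simpa using h2.symm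
    exact_mod_cast h3
  have hF0 : F ≠ 0 := by
    rintro rfl
    rw [leadingCoeff_zero] at hFlc
    exact hDp hFlc.symm
  have hG0 : G ≠ 0 := by
    rintro rfl
    rw [mul_zero] at hG
    exact hF0 hG
  have hH10 : H1 ≠ 0 := hH1p.ne_zero
  have hlc : H1.leadingCoeff * G.leadingCoeff = D * p := by
    rw [← leadingCoeff_mul, ← hG, hFlc]
  have hdegs : H1.natDegree + G.natDegree = n := by
    rw [← natDegree_mul hH10 hG0, ← hG, hFdeg]
  have hgH : g.natDegree + H.natDegree = n := by
    rw [← natDegree_mul hg.ne_zero hH.ne_zero, ← hB, natDegree_bernoulli]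
  -- reduction of the product
  have hXp : (X ^ p - X : (ZMod p)[X]).natDegree = p := by
    have := FiniteField.X_pow_card_sub_X_natDegree_eq (ZMod p) (p := p) hp.one_lt
    simpa using this
  have hXp0 : (X ^ p - X : (ZMod p)[X]) ≠ 0 := by
    intro h0
    rw [h0, natDegree_zero] at hXp
    exact hp.ne_zero hXp.symm
  have hFm0 : F.map φ ≠ 0 := by
    rw [hFu]
    exact mul_ne_zero (by simpa using hu) (pow_ne_zero _ hXp0)
  have hFmdeg : (F.map φ).natDegree = e * p := by
    rw [hFu, natDegree_C_mul hu, natDegree_pow, hXp]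
  have hprod : H1.map φ * G.map φ = F.map φ := by rw [← Polynomial.map_mul, ← hG]
  have hH1m0 : H1.map φ ≠ 0 := by
    intro h
    rw [h, zero_mul] at hprod
    exact hFm0 hprod.symm
  have hGm0 : G.map φ ≠ 0 := by
    intro h
    rw [h, mul_zero] at hprod
    exact hFm0 hprod.symm
  have hdm : (H1.map φ).natDegree + (G.map φ).natDegree = e * p := by
    rw [← natDegree_mul hH1m0 hGm0, hprod, hFmdeg]
  have hpH1 : ¬ (p : ℤ) ∣ H1.leadingCoeff := by
    intro h
    have hpG : ¬ (p : ℤ) ∣ G.leadingCoeff := by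
      intro h'
      have h2 : (p : ℤ) * p ∣ D * p := by
        rw [← hlc]
        exact mul_dvd_mul h h'
      have h3 : (p : ℤ) ∣ D := (mul_dvd_mul_iff_right hpI.ne_zero).1 h2
      exact hD h3
    have hGd : (G.map φ).natDegree = G.natDegree := by
      apply natDegree_map_of_leadingCoeff_ne_zero
      rw [Ne, hφ0]
      exact hpG
    omega
  have hhd : (H1.map φ).natDegree = H.natDegree := by
    rw [← hH1d]
    apply natDegree_map_of_leadingCoeff_ne_zero
    rw [Ne, hφ0]
    exact hpH1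
  -- the polynomial f
  have hPIe : ∀ i ∈ range (e + 1), PI p ((Polynomial.bernoulli e).coeff i) := by
    intro i hi
    rw [Polynomial.coeff_bernoulli]
    split_ifs with h
    · refine PI.mul hp (PI_bernoulli hp (by omega) _ ?_) (PI.nat hp _)
      rcases Nat.eq_zero_or_pos (e - i) with h0 | h0
      · exact Or.inl h0
      · right
        intro hd
        have := Nat.le_of_dvd h0 hd
        omega
    · simpa using PI.int hp 0
  obtain ⟨D', hD', z, hz⟩ := PI.common hp _ _ hPIe
  set Fe : ℤ[X] := ∑ i ∈ range (e + 1), C (z i) * X ^ i with hFe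
  have hFeq : Fe.map (Int.castRingHom ℚ) = C (D' : ℚ) * Polynomial.bernoulli e := by
    conv_rhs => rw [(Polynomial.bernoulli e).as_sum_range_C_mul_X_pow' (n := e + 1)
      (by rw [natDegree_bernoulli]; omega), Finset.mul_sum]
    rw [hFe, Polynomial.map_sum]
    apply Finset.sum_congr rfl
    intro i hi
    rw [Polynomial.map_mul, Polynomial.map_C, Polynomial.map_pow, Polynomial.map_X, ← mul_assoc,
      ← C_mul, hz i hi]
    rfl
  have hFeco : ∀ i, ((Fe.coeff i : ℤ) : ℚ) = D' * (Polynomial.bernoulli e).coeff i := by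
    intro i
    have h2 := congrArg (fun Q => Q.coeff i) hFeq
    simp only [coeff_map, coeff_C_mul] at h2
    simpa using h2
  have hu' : (φ D') ≠ 0 := by rw [Ne, hφ0]; exact hD'
  set f : (ZMod p)[X] := C (φ D')⁻¹ * Fe.map φ with hf
  have hfdeg : f.natDegree ≤ e := by
    rw [hf]
    refine (natDegree_C_mul_le _ _).trans ((natDegree_map_le).trans ?_)
    rw [← natDegree_map_eq_of_injective hinj, hFeq]
    refine (natDegree_C_mul_le _ _).trans ?_
    rw [natDegree_bernoulli]
  have hfe : f.coeff e = 1 := by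
    have h1 : Fe.coeff e = D' := by
      have := hFeco e
      have h2 : (Polynomial.bernoulli e).coeff e = 1 := by
        have := monic_bernoulli e
        rw [Monic, leadingCoeff, natDegree_bernoulli] at this
        exact this
      rw [h2, mul_one] at this
      exact_mod_cast this
    rw [hf, coeff_C_mul, coeff_map, h1, inv_mul_cancel₀ hu']
  have hfm : f.Monic := monic_of_natDegree_le_of_coeff_eq_one e hfdeg hfe
  have hfd : f.natDegree = e :=
    natDegree_eq_of_le_of_coeff_ne_zero hfdeg (by rw [hfe]; exact one_ne_zero)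
  have hfun : Fe.comp (X + 1) - Fe = C (D' * e) * X ^ (e - 1) := by
    apply Polynomial.map_injective _ hinj
    rw [Polynomial.map_sub, Polynomial.map_comp, hFeq]
    have h1 := Polynomial.bernoulli_comp_one_add_X e
    have h2 : (X + 1 : ℤ[X]).map (Int.castRingHom ℚ) = 1 + X := by
      rw [Polynomial.map_add, Polynomial.map_X, Polynomial.map_one, add_comm]
    rw [h2, mul_comp, C_comp, h1]
    simp only [Polynomial.map_mul, Polynomial.map_C, Polynomial.map_pow, Polynomial.map_X]
    rw [nsmul_eq_mul]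
    have h3 : (Int.castRingHom ℚ) (D' * (e : ℤ)) = (D' : ℚ) * (e : ℚ) := by simp
    rw [h3, C_mul]
    have h4 : ((e : ℕ) : ℚ[X]) = C (e : ℚ) := by simp
    rw [h4]
    ring
  have hfunf : f.comp (X + 1) - f = C (e : ZMod p) * X ^ (e - 1) := by
    have h1 := congrArg (Polynomial.map φ) hfun
    have h2 : φ (D' * (e : ℤ)) = φ D' * (e : ZMod p) := by rw [map_mul, map_natCast]
    have h3 : (X + 1 : ℤ[X]).map φ = X + 1 := by
      rw [Polynomial.map_add, Polynomial.map_X, Polynomial.map_one]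
    rw [Polynomial.map_sub, Polynomial.map_comp, Polynomial.map_mul, Polynomial.map_C,
      Polynomial.map_pow, Polynomial.map_X, h2, h3] at h1
    rw [hf, mul_comp, C_comp, ← mul_sub, h1, ← mul_assoc, ← C_mul, ← mul_assoc,
      inv_mul_cancel₀ hu', one_mul]
  refine ⟨f, ⟨hfm, hfd, hfunf⟩, ?_⟩
  -- multiplicities
  have hroots : (H1.map φ).roots + (G.map φ).roots = e • (Finset.univ : Finset (ZMod p)).val := by
    rw [← roots_mul (by rw [hprod]; exact hFm0), hprod, hFu, roots_C_mul _ hu, roots_pow]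
    congr 1
    have := FiniteField.roots_X_pow_card_sub_X (K := ZMod p)
    rwa [ZMod.card] at this
  have hcount : ∀ a : ZMod p, (H1.map φ).rootMultiplicity a + (G.map φ).rootMultiplicity a = e := by
    intro a
    have h1 := congrArg (Multiset.count a) hroots
    rw [Multiset.count_add, count_roots, count_roots, Multiset.count_nsmul] at h1
    rw [h1, Multiset.count_eq_one_of_mem (Finset.univ.nodup) (Finset.mem_univ a), mul_one]
  have hcard : (H1.map φ).roots.card + (G.map φ).roots.card = e * p := by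
    rw [← Multiset.card_add, hroots, Multiset.card_nsmul]
    congr 1
    change (Finset.univ : Finset (ZMod p)).card = p
    rw [Finset.card_univ, ZMod.card]
  have hc1 := card_roots' (H1.map φ)
  have hc2 := card_roots' (G.map φ)
  have hsumH : ∑ a : ZMod p, (H1.map φ).rootMultiplicity a = H.natDegree := by
    rw [← hhd]
    have h1 : (H1.map φ).roots.card = (H1.map φ).natDegree := by omega
    rw [← h1, ← Multiset.sum_count_eq_card (s := Finset.univ) (fun a _ => Finset.mem_univ a)]
    apply Finset.sum_congr rfl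
    intro a _
    rw [count_roots]
  -- the main claim
  have hclaim : ∀ a : ZMod p, min ((H1.map φ).rootMultiplicity a)
      (e - (H1.map φ).rootMultiplicity a) ≤ f.rootMultiplicity a := by
    intro a
    set a' : ℕ := a.val with ha'
    have haa : (a' : ZMod p) = a := ZMod.natCast_zmod_val a
    rw [le_rootMultiplicity_iff hfm.ne_zero]
    rw [hf]
    apply Dvd.dvd.mul_left
    rw [← haa, blk_dvd_iff]
    intro i hi
    rw [haa, lt_min_iff] at hi
    obtain ⟨hi1, hi2⟩ := hi
    have hka : (G.map φ).rootMultiplicity a = e - (H1.map φ).rootMultiplicity a := by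
      have := hcount a
      omega
    have hH1a := (blk_dvd_iff H1 a' ((H1.map φ).rootMultiplicity a)).1
      (by rw [haa]; exact pow_rootMultiplicity_dvd _ _)
    have hGa := (blk_dvd_iff G a' ((G.map φ).rootMultiplicity a)).1
      (by rw [haa]; exact pow_rootMultiplicity_dvd _ _)
    have hsq := blk_mul_coeff _ _ _ _ i hH1a hGa hi1 (by rw [hka]; exact hi2)
    rw [← mul_comp, ← hG] at hsq
    obtain ⟨w, hw⟩ := hsq
    have hie : i + 2 ≤ e := by
      obtain ⟨x, hx⟩ := hee
      have := hcount a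
      omega
    have hen' : e ≤ n := by omega
    have hcoF : (((F.comp (X + C (a' : ℤ))).coeff i : ℤ) : ℚ) =
        (D * p : ℚ) * ((n.choose i : ℕ) * (Polynomial.bernoulli (n - i)).eval (a' : ℚ)) := by
      rw [← blk_taylor n i a' (by omega)]
      have h1 : ((F.comp (X + C (a' : ℤ))).map (Int.castRingHom ℚ)) =
          C ((D * p : ℤ) : ℚ) * (Polynomial.bernoulli n).comp (X + C (a' : ℚ)) := by
        rw [Polynomial.map_comp, hF, mul_comp, C_comp]
        simp
      have h2 := congrArg (fun Q => Q.coeff i) h1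
      simp only [coeff_map, coeff_C_mul] at h2
      simpa using h2
    have hcoe : (((Fe.comp (X + C (a' : ℤ))).coeff i : ℤ) : ℚ) =
        (D' : ℚ) * ((e.choose i : ℕ) * (Polynomial.bernoulli (e - i)).eval (a' : ℚ)) := by
      rw [← blk_taylor e i a' (by omega)]
      have h1 : ((Fe.comp (X + C (a' : ℤ))).map (Int.castRingHom ℚ)) =
          C (D' : ℚ) * (Polynomial.bernoulli e).comp (X + C (a' : ℚ)) := by
        rw [Polynomial.map_comp, hFeq, mul_comp, C_comp]
        simp
      have h2 := congrArg (fun Q => Q.coeff i) h1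
      simp only [coeff_map, coeff_C_mul] at h2
      simpa using h2
    have hmod : n ≡ e [MOD (p - 1)] := by
      rw [hn]
      exact (Nat.modEq_iff_dvd' (by omega)).2 (by
        rw [Nat.add_sub_cancel]; exact Dvd.intro_left _ rfl) |>.symm
    obtain ⟨-, hbv⟩ := bern_val p n e i a' hp hp5 he hee hen (by omega) hmod hie (by omega)
    set β := (Polynomial.bernoulli (n - i)).eval (a' : ℚ) with hβ
    set β0 := (Polynomial.bernoulli (e - i)).eval (a' : ℚ) with hβ0
    have hNu := blk_unit (p := p) (m := m) (e := e) (i := i) hp hem hmp (by omega)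
    rw [← hn] at hNu
    have hDN : ¬ (p : ℤ) ∣ D * ((n.choose i * (n - i) : ℕ) : ℤ) := by
      intro h
      rcases hpI.dvd_or_dvd h with h1 | h1
      · exact hD h1
      · exact hNu h1
    have hw' : (D : ℚ) * (n.choose i : ℕ) * β = p * w := by
      have h1 : (D * p : ℚ) * ((n.choose i : ℕ) * β) = (p : ℚ) ^ 2 * w := by
        rw [← hcoF, hw]
        push_cast
        ring
      have h2 : (p : ℚ) * ((D : ℚ) * (n.choose i : ℕ) * β) = (p : ℚ) * (p * w) := by
        linear_combination h1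
      exact mul_left_cancel₀ hp0 h2
    have hPIβ : PI p (β0 / p) := by
      apply blk_PI_of_mul hp hDN
      have h1 : ((D * ((n.choose i * (n - i) : ℕ) : ℤ) : ℤ) : ℚ) * (β0 / p) =
          ((e - i : ℕ) : ℚ) * (w : ℚ) + -((D : ℚ) * ((n.choose i : ℕ) : ℚ) *
            ((((e - i : ℕ) : ℚ) * β - ((n - i : ℕ) : ℚ) * β0) / p)) := by
        push_cast
        field_simp
        linear_combination ((e - i : ℕ) : ℚ) * hw'
      rw [h1]
      apply PI.add hp
      · exact PI.mul hp (PI.nat hp _) (PI.int hp _)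
      · exact PI.neg hp (PI.mul hp (PI.mul hp (PI.int hp _) (PI.nat hp _)) hbv)
    apply blk_dvd_of_PI hp
    rw [hcoe]
    have h1 : (D' : ℚ) * ((e.choose i : ℕ) * β0) / p = (D' : ℚ) * ((e.choose i : ℕ) : ℚ) * (β0 / p) := by
      ring
    rw [h1]
    exact PI.mul hp (PI.mul hp (PI.int hp _) (PI.nat hp _)) hPIβ
  -- conclusion
  refine ⟨(Finset.univ.filter (fun a : ZMod p => e < 2 * (H1.map φ).rootMultiplicity a)).card, ?_⟩
  intro _
  have h1 : (H.natDegree : ℤ) - e * ((Finset.univ.filter (fun a : ZMod p =>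
      e < 2 * (H1.map φ).rootMultiplicity a)).card : ℤ) =
      ∑ a : ZMod p, (((H1.map φ).rootMultiplicity a : ℤ) -
        if e < 2 * (H1.map φ).rootMultiplicity a then (e : ℤ) else 0) := by
    rw [Finset.sum_sub_distrib, ← hsumH, Finset.card_filter]
    push_cast
    rw [Finset.mul_sum]
    congr 1
    apply Finset.sum_congr rfl
    intro a _
    split_ifs <;> simp
  rw [h1]
  refine (Finset.abs_sum_le_sum_abs _ _).trans ?_
  unfold mu
  push_cast
  apply Finset.sum_le_sum
  intro a _
  have h2 := hclaim a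
  have h3 := hcount a
  have h4 : |((H1.map φ).rootMultiplicity a : ℤ) -
        if e < 2 * (H1.map φ).rootMultiplicity a then (e : ℤ) else 0| ≤
      ((min ((H1.map φ).rootMultiplicity a) (e - (H1.map φ).rootMultiplicity a) : ℕ) : ℤ) := by
    rw [abs_le]
    split_ifs with h5
    · constructor <;> omega
    · constructor <;> omega
  refine h4.trans ?_
  exact_mod_cast h2

end Pool.Agent.Bern2
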