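import Mathlib
import Pool.Agent.Bern2.LSI

namespace Pool.Agent.Bern2

open Polynomial Finset Pool.Agent.Helper29 Pool.Agent.Helper98.Bern

/-- Orthogonality of additive characters modulo `q`. -/
lemma orth (q : ℕ) (hq : 0 < q) (m : ℤ) :
    ∑ b ∈ range q, ee ((m : ℝ) * ((b : ℝ) / q)) = if (q : ℤ) ∣ m then (q : ℂ) else 0 := by
  have hq' : (q : ℝ) ≠ 0 := by positivity
  have h1 : ∀ b ∈ range q, ee ((m : ℝ) * ((b : ℝ) / q)) = (ee ((m : ℝ) / q)) ^ b := by
    intro b _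
    rw [← ee_nat_mul]
    congr 1
    ring
  rw [Finset.sum_congr rfl h1]
  split_ifs with h
  · obtain ⟨k, hk⟩ := h
    have h2 : ee ((m : ℝ) / q) = 1 := by
      have : (m : ℝ) / q = ((k : ℤ) : ℝ) := by
        rw [hk]; push_cast; field_simp
      rw [this, ee_int]
    simp [h2]
  · have h2 : ee ((m : ℝ) / q) ≠ 1 := by
      intro h3
      unfold ee at h3
      rw [Complex.exp_eq_one_iff] at h3
      obtain ⟨k, hk⟩ := h3
      apply h
      refine ⟨k, ?_⟩
      have hpi : (2 * (Real.pi : ℂ) * Complex.I) ≠ 0 := by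
        simp [Real.pi_ne_zero]
      have h4 : (((m : ℝ) / q : ℝ) : ℂ) = (k : ℂ) := by
        have h5 : (2 * (Real.pi : ℂ) * Complex.I) * (((m : ℝ) / q : ℝ) : ℂ) =
            (2 * (Real.pi : ℂ) * Complex.I) * (k : ℂ) := by
          rw [mul_comm _ (k : ℂ), ← hk]; ring
        exact mul_left_cancel₀ hpi h5
      have h6 : (m : ℝ) / q = (k : ℝ) := by exact_mod_cast h4
      rw [div_eq_iff hq'] at h6
      have h7 : (m : ℝ) = ((q * k : ℤ) : ℝ) := by rw [h6]; push_cast; ring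
      exact_mod_cast h7
    rw [geom_sum_eq h2]
    have h3 : (ee ((m : ℝ) / q)) ^ q = 1 := by
      rw [← ee_nat_mul]
      have : (q : ℝ) * ((m : ℝ) / q) = ((m : ℤ) : ℝ) := by field_simp
      rw [this, ee_int]
    rw [h3]; simp

/-- Splitting the fractions `b/q` according to their reduced denominators. -/
lemma split_frac (q : ℕ) (hq : 0 < q) (F : ℝ → ℂ) :
    ∑ b ∈ range q, F ((b : ℝ) / q) =
      ∑ d ∈ q.divisors, ∑ a ∈ (range d).filter (fun a => a.Coprime d), F ((a : ℝ) / d) := by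
  rw [Finset.sum_sigma']
  symm
  refine Finset.sum_nbij' (i := fun x => x.2 * (q / x.1))
    (j := fun b => ⟨q / Nat.gcd b q, b / Nat.gcd b q⟩) ?_ ?_ ?_ ?_ ?_
  · rintro ⟨d, a⟩ h
    simp only [Finset.mem_sigma, Nat.mem_divisors, Finset.mem_filter, Finset.mem_range] at h ⊢
    obtain ⟨⟨⟨k, rfl⟩, -⟩, h2, h3⟩ := h
    have hd : 0 < d := Nat.pos_of_mul_pos_right hq |> fun _ => by
      rcases Nat.eq_zero_or_pos d with h | h
      · subst h; simp at hq
      · exact h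
    have hk : 0 < k := by
      rcases Nat.eq_zero_or_pos k with h | h
      · subst h; simp at hq
      · exact h
    rw [Nat.mul_div_cancel_left k hd]
    exact Nat.mul_lt_mul_of_pos_right h2 hk
  · intro b hb
    simp only [Finset.mem_sigma, Nat.mem_divisors, Finset.mem_filter, Finset.mem_range] at hb ⊢
    have hg : 0 < Nat.gcd b q := Nat.gcd_pos_of_pos_right b hq
    refine ⟨⟨Nat.div_dvd_of_dvd (Nat.gcd_dvd_right b q), by omega⟩, ?_, ?_⟩
    · exact Nat.div_lt_div_of_lt_of_dvd (Nat.gcd_dvd_right b q) hb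
    · exact Nat.coprime_div_gcd_div_gcd hg
  · rintro ⟨d, a⟩ h
    simp only [Finset.mem_sigma, Nat.mem_divisors, Finset.mem_filter, Finset.mem_range] at h
    obtain ⟨⟨⟨k, rfl⟩, -⟩, h2, h3⟩ := h
    have hd : 0 < d := by
      rcases Nat.eq_zero_or_pos d with h | h
      · subst h; simp at hq
      · exact h
    have hk : 0 < k := by
      rcases Nat.eq_zero_or_pos k with h | h
      · subst h; simp at hq
      · exact h
    have e1 : a * (d * k / d) = a * k := by rw [Nat.mul_div_cancel_left k hd]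
    have e2 : Nat.gcd (a * k) (d * k) = k := by
      rw [Nat.gcd_mul_right, h3.gcd_eq_one, one_mul]
    simp only
    rw [e1, e2, Nat.mul_div_cancel _ hk, Nat.mul_div_cancel _ hk]
  · intro b hb
    simp only [Finset.mem_range] at hb
    have hg : 0 < Nat.gcd b q := Nat.gcd_pos_of_pos_right b hq
    simp only
    have h1 : q / (q / Nat.gcd b q) = Nat.gcd b q :=
      Nat.div_div_self (Nat.gcd_dvd_right b q) (by omega)
    rw [h1]
    exact Nat.div_mul_cancel (Nat.gcd_dvd_left b q)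
  · rintro ⟨d, a⟩ h
    simp only [Finset.mem_sigma, Nat.mem_divisors, Finset.mem_filter, Finset.mem_range] at h
    obtain ⟨⟨⟨k, rfl⟩, -⟩, h2, h3⟩ := h
    have hd : 0 < d := by
      rcases Nat.eq_zero_or_pos d with h | h
      · subst h; simp at hq
      · exact h
    have hk : 0 < k := by
      rcases Nat.eq_zero_or_pos k with h | h
      · subst h; simp at hq
      · exact h
    have hd' : (d : ℝ) ≠ 0 := by positivity
    have hk' : (k : ℝ) ≠ 0 := by positivity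
    simp only
    rw [Nat.mul_div_cancel_left k hd]
    congr 1
    push_cast
    field_simp

lemma FS_zero (A : Finset ℕ) : FS A 0 = (A.card : ℂ) := by
  unfold FS
  have : ∀ e ∈ A, ee (-((e : ℝ) * 0)) = 1 := by
    intro e _
    have := ee_int 0
    simpa using this
  rw [Finset.sum_congr rfl this]
  simp

lemma FS_half (A : Finset ℕ) (hA : ∀ e ∈ A, Even e) : FS A (1 / 2) = (A.card : ℂ) := by
  unfold FS
  have : ∀ e ∈ A, ee (-((e : ℝ) * (1 / 2))) = 1 := by
    intro e he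
    obtain ⟨k, hk⟩ := hA e he
    have h1 : (-((e : ℝ) * (1 / 2))) = ((-(k : ℤ) : ℤ) : ℝ) := by
      rw [hk]; push_cast; ring
    rw [h1, ee_int]
  rw [Finset.sum_congr rfl this]
  simp

lemma ee_half_even (n : ℕ) (h : Even n) : ee ((n : ℝ) * (1 / 2)) = 1 := by
  obtain ⟨k, hk⟩ := h
  have h1 : ((n : ℝ) * (1 / 2)) = ((k : ℤ) : ℝ) := by rw [hk]; push_cast; ring
  rw [h1, ee_int]

lemma ee_half_odd (n : ℕ) (h : ¬ Even n) : ee ((n : ℝ) * (1 / 2)) = -1 := by
  rw [Nat.not_even_iff_odd] at h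
  obtain ⟨k, hk⟩ := h
  have h1 : ((n : ℝ) * (1 / 2)) = 1 / 2 + ((k : ℤ) : ℝ) := by rw [hk]; push_cast; ring
  rw [h1, ee_add_int]
  unfold ee
  have : (2 * (Real.pi : ℂ) * ((1 / 2 : ℝ) : ℂ) * Complex.I) = Real.pi * Complex.I := by
    push_cast; ring
  rw [this, Complex.exp_pi_mul_I]

/-- The indicator of `n % q ∈ A` as an exponential sum. -/
lemma ind_eq (q n : ℕ) (hq : 0 < q) (A : Finset ℕ) (hA : ∀ e ∈ A, e < q) :
    (q : ℂ) * (if n % q ∈ A then (1 : ℂ) else 0) =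
      ∑ b ∈ range q, FS A ((b : ℝ) / q) * ee ((n : ℝ) * ((b : ℝ) / q)) := by
  have h1 : ∀ b ∈ range q, FS A ((b : ℝ) / q) * ee ((n : ℝ) * ((b : ℝ) / q)) =
      ∑ e ∈ A, ee ((((n : ℤ) - (e : ℤ) : ℤ) : ℝ) * ((b : ℝ) / q)) := by
    intro b _
    unfold FS
    rw [Finset.sum_mul]
    refine Finset.sum_congr rfl fun e _ => ?_
    rw [← ee_add]
    congr 1
    push_cast
    ring
  rw [Finset.sum_congr rfl h1, Finset.sum_comm]
  have h2 : ∀ e ∈ A, ∑ b ∈ range q, ee ((((n : ℤ) - (e : ℤ) : ℤ) : ℝ) * ((b : ℝ) / q)) =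
      if e = n % q then (q : ℂ) else 0 := by
    intro e he
    rw [orth q hq]
    have h3 : ((q : ℤ) ∣ (n : ℤ) - (e : ℤ)) ↔ e = n % q := by
      constructor
      · intro h
        have h4 : (e : ℕ) ≡ n [MOD q] := (Nat.modEq_iff_dvd).2 h
        have h5 : e % q = n % q := h4
        rw [Nat.mod_eq_of_lt (hA e he)] at h5
        exact h5
      · intro h
        have h4 : (e : ℕ) ≡ n [MOD q] := by
          unfold Nat.ModEq
          rw [h, Nat.mod_mod]
        exact (Nat.modEq_iff_dvd).1 h4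
    simp only [h3]
  rw [Finset.sum_congr rfl h2, Finset.sum_ite_eq']
  split_ifs <;> simp

/-- One modulus: the fluctuation is a sum over fractions with reduced denominator `> 2`. -/
lemma one_mod (P q n : ℕ) (hq : 0 < q) (hqP : q ≤ 4 * P) (he : Even q) (A : Finset ℕ)
    (hA : ∀ e ∈ A, Even e ∧ e < q) :
    (((if n % q ∈ A then (1 : ℝ) else 0) -
        (if Even n then 2 * (A.card : ℝ) / q else 0) : ℝ) : ℂ) =
      ∑ d ∈ Ioc 2 (4 * P), (if d ∣ q then (1 / (q : ℝ) : ℝ) else 0 : ℝ) *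
        ∑ a ∈ (range d).filter (fun a => a.Coprime d),
          FS A ((a : ℝ) / d) * ee ((n : ℝ) * ((a : ℝ) / d)) := by
  have hq' : (q : ℂ) ≠ 0 := by exact_mod_cast hq.ne'
  have h1 := ind_eq q n hq A (fun e h => (hA e h).2)
  rw [split_frac q hq (fun β => FS A β * ee ((n : ℝ) * β))] at h1
  set G : ℕ → ℂ := fun d => ∑ a ∈ (range d).filter (fun a => a.Coprime d),
          FS A ((a : ℝ) / d) * ee ((n : ℝ) * ((a : ℝ) / d)) with hG
  have h2 : q.divisors = insert 1 (insert 2 ((Ioc 2 (4 * P)).filter (fun d => d ∣ q))) := by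
    ext d
    simp only [Nat.mem_divisors, Finset.mem_insert, Finset.mem_filter, Finset.mem_Ioc]
    constructor
    · rintro ⟨h, -⟩
      have h3 : 0 < d := Nat.pos_of_dvd_of_pos h hq
      have h4 : d ≤ q := Nat.le_of_dvd hq h
      by_cases h5 : d = 1
      · left; exact h5
      · by_cases h6 : d = 2
        · right; left; exact h6
        · right; right; exact ⟨⟨by omega, by omega⟩, h⟩
    · rintro (h | h | h)
      · subst h; exact ⟨one_dvd _, hq.ne'⟩
      · subst h; exact ⟨he.two_dvd, hq.ne'⟩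
      · exact ⟨h.2, hq.ne'⟩
  have h3 : ∑ d ∈ q.divisors, G d = G 1 + (G 2 + ∑ d ∈ (Ioc 2 (4 * P)).filter (fun d => d ∣ q), G d) := by
    rw [h2, Finset.sum_insert (by simp), Finset.sum_insert (by simp)]
  have hG1 : G 1 = (A.card : ℂ) := by
    have : (range 1).filter (fun a => a.Coprime 1) = {0} := by decide
    rw [hG]
    simp only [this, Finset.sum_singleton]
    have h0 : ((0 : ℕ) : ℝ) / ((1 : ℕ) : ℝ) = 0 := by simp
    rw [h0, FS_zero]
    have : ee ((n : ℝ) * 0) = 1 := by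
      have := ee_int 0
      simpa using this
    rw [this, mul_one]
  have hG2 : G 2 = (A.card : ℂ) * (if Even n then 1 else -1) := by
    have : (range 2).filter (fun a => a.Coprime 2) = {1} := by decide
    rw [hG]
    simp only [this, Finset.sum_singleton]
    have h0 : ((1 : ℕ) : ℝ) / ((2 : ℕ) : ℝ) = 1 / 2 := by norm_num
    rw [h0, FS_half A (fun e h => (hA e h).1)]
    congr 1
    split_ifs with h
    · exact ee_half_even n h
    · exact ee_half_odd n h
  have h4 : (q : ℂ) * (if n % q ∈ A then (1 : ℂ) else 0) =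
      (A.card : ℂ) + ((A.card : ℂ) * (if Even n then 1 else -1) +
        ∑ d ∈ (Ioc 2 (4 * P)).filter (fun d => d ∣ q), G d) := by
    rw [h1, ← hG2, ← hG1]
    exact h3
  have h5 : ∑ d ∈ Ioc 2 (4 * P), (((if d ∣ q then (1 / (q : ℝ) : ℝ) else 0 : ℝ)) : ℂ) * G d =
      (1 / (q : ℂ)) * ∑ d ∈ (Ioc 2 (4 * P)).filter (fun d => d ∣ q), G d := by
    rw [Finset.sum_filter, Finset.mul_sum]
    refine Finset.sum_congr rfl fun d _ => ?_
    split_ifs <;> simp
  rw [h5]
  have h6 : ∑ d ∈ (Ioc 2 (4 * P)).filter (fun d => d ∣ q), G d =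
      (q : ℂ) * (if n % q ∈ A then (1 : ℂ) else 0) -
        ((A.card : ℂ) + (A.card : ℂ) * (if Even n then 1 else -1)) := by
    rw [h4]; ring
  rw [h6, mul_sub, ← mul_assoc, one_div, inv_mul_cancel₀ hq', one_mul]
  split_ifs with ha hb hb
  · push_cast
    field_simp
    ring
  · push_cast
    ring
  · push_cast
    field_simp
    ring
  · push_cast
    ring

/-- The total weight of a denominator. -/
lemma wt_bound (P d : ℕ) (hP : 1 ≤ P) (Q : Finset ℕ) (hQ : ∀ q ∈ Q, P ≤ q ∧ q ≤ 4 * P)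
    (hd : 0 < d) (hd2 : d ≤ 4 * P) :
    ∑ q ∈ Q, (if d ∣ q then (1 / (q : ℝ) : ℝ) else 0) ≤ 7 / d := by
  have hd' : (0 : ℝ) < d := by exact_mod_cast hd
  have hP' : (0 : ℝ) < P := by exact_mod_cast (by omega : 0 < P)
  rw [← Finset.sum_filter]
  have h1 : ∀ q ∈ Q.filter (fun q => d ∣ q), (1 / (q : ℝ) : ℝ) ≤ 1 / P := by
    intro q hq
    rw [Finset.mem_filter] at hq
    have := (hQ q hq.1).1
    exact one_div_le_one_div_of_le hP' (by exact_mod_cast this)
  have h2 : ((Q.filter (fun q => d ∣ q)).card : ℝ) ≤ 3 * P / d + 1 := by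
    have h3 : (Q.filter (fun q => d ∣ q)).card ≤ (Icc ((P + d - 1) / d) (4 * P / d)).card := by
      refine Finset.card_le_card_of_injOn (fun q => q / d) ?_ ?_
      · intro q hq
        simp only [Finset.coe_filter, Set.mem_ofPred_eq] at hq
        obtain ⟨hq1, k, rfl⟩ := hq
        have := hQ _ hq1
        simp only [Finset.coe_Icc, Set.mem_Icc]
        rw [Nat.mul_div_cancel_left k hd]
        constructor
        · rw [Nat.div_le_iff_le_mul_add_pred hd]
          omega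
        · rw [Nat.le_div_iff_mul_le hd]
          linarith [mul_comm d k]
      · intro q hq r hr h
        simp only [Finset.coe_filter, Set.mem_ofPred_eq] at hq hr
        obtain ⟨_, k, rfl⟩ := hq
        obtain ⟨_, l, rfl⟩ := hr
        simp only at h
        rw [Nat.mul_div_cancel_left k hd, Nat.mul_div_cancel_left l hd] at h
        rw [h]
    rw [Nat.card_Icc] at h3
    have h4 : ((4 * P / d : ℕ) : ℝ) ≤ 4 * P / d := by
      have := @Nat.cast_div_le ℝ _ _ _ (4 * P) d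
      push_cast at this
      exact this
    have h5 : (P : ℝ) / d ≤ (((P + d - 1) / d : ℕ) : ℝ) := by
      rw [div_le_iff₀ hd']
      have h6 : P ≤ (P + d - 1) / d * d := by
        have h7 := Nat.div_add_mod (P + d - 1) d
        have h8 := Nat.mod_lt (P + d - 1) hd
        rw [mul_comm] at h7
        omega
      exact_mod_cast h6
    have h6 : (P + d - 1) / d ≤ 4 * P / d + 1 := by
      rw [← Nat.add_div_right _ hd]
      exact Nat.div_le_div_right (by omega)
    have h7 : ((4 * P / d + 1 - (P + d - 1) / d : ℕ) : ℝ) =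
        ((4 * P / d : ℕ) : ℝ) + 1 - (((P + d - 1) / d : ℕ) : ℝ) := by
      rw [Nat.cast_sub h6]
      push_cast
      ring
    calc ((Q.filter (fun q => d ∣ q)).card : ℝ) ≤ ((4 * P / d + 1 - (P + d - 1) / d : ℕ) : ℝ) := by
          exact_mod_cast h3
      _ = ((4 * P / d : ℕ) : ℝ) + 1 - (((P + d - 1) / d : ℕ) : ℝ) := h7
      _ ≤ 4 * P / d + 1 - P / d := by linarith
      _ = 3 * P / d + 1 := by ring
  calc ∑ q ∈ Q.filter (fun q => d ∣ q), (1 / (q : ℝ) : ℝ)
      ≤ ∑ q ∈ Q.filter (fun q => d ∣ q), (1 / P : ℝ) := Finset.sum_le_sum h1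
    _ = ((Q.filter (fun q => d ∣ q)).card : ℝ) * (1 / P) := by
        rw [Finset.sum_const, nsmul_eq_mul]
    _ ≤ (3 * P / d + 1) * (1 / P) := by gcongr
    _ = 3 / d + 1 / P := by field_simp
    _ ≤ 3 / d + 4 / d := by
        have : (1 : ℝ) / P ≤ 4 / d := by
          rw [div_le_div_iff₀ hP' hd']
          have : (d : ℝ) ≤ 4 * P := by exact_mod_cast hd2
          linarith
        linarith
    _ = 7 / d := by ring

/-- (VAR) Variance bound for the number of moduli `q` with `n mod q ∈ A`. -/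
theorem var_bound (P N : ℕ) (hP : 1 ≤ P) (Q A : Finset ℕ)
    (hQ : ∀ q ∈ Q, P ≤ q ∧ q ≤ 4 * P ∧ Even q) (hA : ∀ e ∈ A, Even e ∧ e < P) :
    ∑ n ∈ Icc 1 N, (∑ q ∈ Q, ((if n % q ∈ A then (1 : ℝ) else 0) -
        (if Even n then 2 * (A.card : ℝ) / q else 0))) ^ 2 ≤
      5000 * ((N : ℝ) + 16 * (P : ℝ) ^ 2) * ∑ d ∈ Ioc 2 (4 * P), (1 / (d : ℝ) ^ 2) *
        ∑ a ∈ (range d).filter (fun a => a.Coprime d), ‖FS A ((a : ℝ) / d)‖ ^ 2 := by
  classical
  have hP' : (0 : ℝ) < P := by exact_mod_cast (by omega : 0 < P)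
  set w : ℕ → ℝ := fun d => ∑ q ∈ Q, (if d ∣ q then (1 / (q : ℝ) : ℝ) else 0) with hw
  have hw0 : ∀ d, 0 ≤ w d := by
    intro d
    rw [hw]
    refine Finset.sum_nonneg fun q _ => ?_
    split_ifs <;> positivity
  set s : Finset (Σ _ : ℕ, ℕ) :=
    (Ioc 2 (4 * P)).sigma (fun d => (range d).filter (fun a => a.Coprime d)) with hs
  have key : ∀ n : ℕ, ((∑ q ∈ Q, ((if n % q ∈ A then (1 : ℝ) else 0) -
        (if Even n then 2 * (A.card : ℝ) / q else 0)) : ℝ) : ℂ) =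
      ∑ x ∈ s, ((w x.1 : ℂ) * FS A ((x.2 : ℝ) / x.1)) * ee ((n : ℝ) * ((x.2 : ℝ) / x.1)) := by
    intro n
    rw [Complex.ofReal_sum]
    have h1 : ∀ q ∈ Q, (((if n % q ∈ A then (1 : ℝ) else 0) -
        (if Even n then 2 * (A.card : ℝ) / q else 0) : ℝ) : ℂ) =
      ∑ d ∈ Ioc 2 (4 * P), (if d ∣ q then (1 / (q : ℝ) : ℝ) else 0 : ℝ) *
        ∑ a ∈ (range d).filter (fun a => a.Coprime d),
          FS A ((a : ℝ) / d) * ee ((n : ℝ) * ((a : ℝ) / d)) := by
      intro q hq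
      have hq1 := hQ q hq
      exact one_mod P q n (by omega) hq1.2.1 hq1.2.2 A
        (fun e he => ⟨(hA e he).1, lt_of_lt_of_le (hA e he).2 hq1.1⟩)
    rw [Finset.sum_congr rfl h1, Finset.sum_comm, hs, Finset.sum_sigma]
    refine Finset.sum_congr rfl fun d _ => ?_
    rw [← Finset.sum_mul, Finset.mul_sum]
    refine Finset.sum_congr rfl fun a _ => ?_
    rw [hw]
    simp only
    rw [Complex.ofReal_sum]
    ring
  have h2 : ∑ n ∈ Icc 1 N, (∑ q ∈ Q, ((if n % q ∈ A then (1 : ℝ) else 0) -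
        (if Even n then 2 * (A.card : ℝ) / q else 0))) ^ 2 =
      ∑ n ∈ Icc 1 N, ‖∑ x ∈ s, ((w x.1 : ℂ) * FS A ((x.2 : ℝ) / x.1)) *
        ee ((n : ℝ) * ((x.2 : ℝ) / x.1))‖ ^ 2 := by
    refine Finset.sum_congr rfl fun n _ => ?_
    rw [← key n, Complex.norm_real, Real.norm_eq_abs, sq_abs]
  rw [h2]
  have hsep : ∀ i ∈ s, ∀ j ∈ s, i ≠ j → ∀ k : ℤ,
      1 / (16 * (P : ℝ) ^ 2) ≤ |(i.2 : ℝ) / i.1 - (j.2 : ℝ) / j.1 - k| := by
    rintro ⟨d, a⟩ hi ⟨d', a'⟩ hj hij k
    rw [hs] at hi hj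
    simp only [Finset.mem_sigma, Finset.mem_Ioc, Finset.mem_filter, Finset.mem_range] at hi hj
    obtain ⟨⟨hd1, hd2⟩, ha1, ha2⟩ := hi
    obtain ⟨⟨hd1', hd2'⟩, ha1', ha2'⟩ := hj
    have hdp : (0 : ℝ) < d := by exact_mod_cast (by omega : 0 < d)
    have hdp' : (0 : ℝ) < d' := by exact_mod_cast (by omega : 0 < d')
    simp only
    have h3 : (a : ℝ) / d - (a' : ℝ) / d' - k =
        (((a : ℤ) * d' - (a' : ℤ) * d - k * (d * d') : ℤ) : ℝ) / (d * d') := by
      push_cast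
      field_simp
    rw [h3, abs_div, abs_of_pos (mul_pos hdp hdp')]
    have hne : ((a : ℤ) * d' - (a' : ℤ) * d - k * (d * d') : ℤ) ≠ 0 := by
      intro h0
      have h4 : (a : ℤ) * d' = d * (a' + k * d') := by linarith
      have h5 : (a' : ℤ) * d = d' * (a - k * d) := by linarith
      have h6 : (d : ℤ) ∣ d' := by
        have : (d : ℤ) ∣ (a : ℤ) * d' := ⟨_, h4⟩
        exact (Nat.isCoprime_iff_coprime.2 ha2.symm).dvd_of_dvd_mul_left this
      have h7 : (d' : ℤ) ∣ d := by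
        have : (d' : ℤ) ∣ (a' : ℤ) * d := ⟨_, h5⟩
        exact (Nat.isCoprime_iff_coprime.2 ha2'.symm).dvd_of_dvd_mul_left this
      have h8 : d = d' := Nat.dvd_antisymm (by exact_mod_cast h6) (by exact_mod_cast h7)
      subst h8
      have hdz : (0 : ℤ) < d := by exact_mod_cast (by omega : 0 < d)
      have h9 : (a : ℤ) = a' + k * d := by
        have : (d : ℤ) * a = d * (a' + k * d) := by linarith
        exact mul_left_cancel₀ hdz.ne' this
      have h10 : a = a' := by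
        have e1 : ((a : ℕ) : ℤ) % d = a := Int.emod_eq_of_lt (by positivity) (by exact_mod_cast ha1)
        have e2 : ((a' : ℕ) : ℤ) % d = a' := Int.emod_eq_of_lt (by positivity) (by exact_mod_cast ha1')
        have e3 : ((a : ℕ) : ℤ) % d = (a' : ℤ) % d := by
          rw [h9, Int.add_mul_emod_self_right]
        rw [e1, e2] at e3
        exact_mod_cast e3
      apply hij
      rw [h10]
    have h4 : (1 : ℝ) ≤ |(((a : ℤ) * d' - (a' : ℤ) * d - k * (d * d') : ℤ) : ℝ)| := by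
      rw [← Int.cast_abs]
      exact_mod_cast Int.one_le_abs hne
    rw [div_le_div_iff₀ (by positivity) (by positivity)]
    have h5 : (d : ℝ) ≤ 4 * P := by exact_mod_cast hd2
    have h6 : (d' : ℝ) ≤ 4 * P := by exact_mod_cast hd2'
    have h7 : (d : ℝ) * d' ≤ (4 * P) * (4 * P) := mul_le_mul h5 h6 hdp'.le (by positivity)
    have h8 : 1 * (16 * (P : ℝ) ^ 2) ≤
        |(((a : ℤ) * d' - (a' : ℤ) * d - k * (d * d') : ℤ) : ℝ)| * (16 * (P : ℝ) ^ 2) := by
      gcongr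
    nlinarith
  have h3 := large_sieve s (fun x => (x.2 : ℝ) / x.1) (1 / (16 * (P : ℝ) ^ 2)) (by positivity)
    hsep (fun x => (w x.1 : ℂ) * FS A ((x.2 : ℝ) / x.1)) N
  refine le_trans h3 ?_
  have h4 : 1 / (1 / (16 * (P : ℝ) ^ 2)) = 16 * (P : ℝ) ^ 2 := by
    rw [one_div_one_div]
  rw [h4]
  have h5 : ∑ x ∈ s, ‖(w x.1 : ℂ) * FS A ((x.2 : ℝ) / x.1)‖ ^ 2 ≤
      49 * ∑ d ∈ Ioc 2 (4 * P), (1 / (d : ℝ) ^ 2) *
        ∑ a ∈ (range d).filter (fun a => a.Coprime d), ‖FS A ((a : ℝ) / d)‖ ^ 2 := by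
    rw [hs, Finset.sum_sigma, Finset.mul_sum]
    refine Finset.sum_le_sum fun d hd => ?_
    rw [Finset.mem_Ioc] at hd
    have hd' : (0 : ℝ) < d := by exact_mod_cast (by omega : 0 < d)
    have hwd : w d ≤ 7 / d := wt_bound P d hP Q (fun q hq => ⟨(hQ q hq).1, (hQ q hq).2.1⟩)
      (by omega) hd.2
    rw [Finset.mul_sum, Finset.mul_sum]
    refine Finset.sum_le_sum fun a _ => ?_
    rw [norm_mul, mul_pow, Complex.norm_real, Real.norm_eq_abs, sq_abs]
    have h6 : (w d) ^ 2 ≤ (7 / d) ^ 2 := pow_le_pow_left₀ (hw0 d) hwd 2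
    calc (w d) ^ 2 * ‖FS A ((a : ℝ) / d)‖ ^ 2 ≤ (7 / d) ^ 2 * ‖FS A ((a : ℝ) / d)‖ ^ 2 := by
          gcongr
      _ = 49 * (1 / (d : ℝ) ^ 2 * ‖FS A ((a : ℝ) / d)‖ ^ 2) := by
          field_simp
          ring
  have h6 : 0 ≤ ∑ d ∈ Ioc 2 (4 * P), (1 / (d : ℝ) ^ 2) *
        ∑ a ∈ (range d).filter (fun a => a.Coprime d), ‖FS A ((a : ℝ) / d)‖ ^ 2 :=
    Finset.sum_nonneg fun d _ => mul_nonneg (by positivity)
      (Finset.sum_nonneg fun a _ => sq_nonneg _)
  calc 100 * ((N : ℝ) + 16 * (P : ℝ) ^ 2) * ∑ x ∈ s, ‖(w x.1 : ℂ) * FS A ((x.2 : ℝ) / x.1)‖ ^ 2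
      ≤ 100 * ((N : ℝ) + 16 * (P : ℝ) ^ 2) * (49 * ∑ d ∈ Ioc 2 (4 * P), (1 / (d : ℝ) ^ 2) *
        ∑ a ∈ (range d).filter (fun a => a.Coprime d), ‖FS A ((a : ℝ) / d)‖ ^ 2) := by
        gcongr
    _ ≤ _ := by
        nlinarith [mul_nonneg (by positivity : (0 : ℝ) ≤ (N : ℝ) + 16 * (P : ℝ) ^ 2) h6]

end Pool.Agent.Bern2
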