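import Mathlib
import Pool.Agent.Bern2.VAR
import Pool.Agent.Helper98.Bern.CH

namespace Pool.Agent.Bern2

open Polynomial Finset Pool.Agent.Helper29 Pool.Agent.Helper98.Bern

/-- At most `L/d + 1` elements of a set of integers `≤ L` lie in one residue class. -/
lemma class_card (A : Finset ℕ) (L d e : ℕ) (hA : ∀ e ∈ A, e ≤ L) :
    (A.filter (fun e' : ℕ => ((d : ℤ) ∣ (e' : ℤ) - (e : ℤ)))).card ≤ L / d + 1 := by
  have h1 : (A.filter (fun e' : ℕ => ((d : ℤ) ∣ (e' : ℤ) - (e : ℤ)))).card ≤ (range (L / d + 1)).card := by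
    refine Finset.card_le_card_of_injOn (fun x => x / d) ?_ ?_
    · intro x hx
      simp only [Finset.coe_filter, Set.mem_ofPred_eq] at hx
      simp only [Finset.coe_range, Set.mem_Iio]
      have := Nat.div_le_div_right (c := d) (hA x hx.1)
      omega
    · intro x hx y hy h
      simp only [Finset.coe_filter, Set.mem_ofPred_eq] at hx hy
      simp only at h
      have h2 : x ≡ y [MOD d] := by
        rw [Nat.modEq_iff_dvd]
        have := dvd_sub hy.2 hx.2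
        have h3 : ((y : ℤ) - e) - ((x : ℤ) - e) = (y : ℤ) - x := by ring
        rwa [h3] at this
      have h3 : x % d = y % d := h2
      rw [← Nat.div_add_mod x d, ← Nat.div_add_mod y d, h, h3]
  simpa using h1

/-- Parseval: the full sum over the fractions with denominator `d`. -/
lemma sum_norm_FS (A : Finset ℕ) (L d : ℕ) (hd : 0 < d) (hA : ∀ e ∈ A, e ≤ L) :
    ∑ a ∈ range d, ‖FS A ((a : ℝ) / d)‖ ^ 2 ≤ (A.card : ℝ) * (L + d) := by
  have hd' : (0 : ℝ) < d := by exact_mod_cast hd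
  have h1 : ∀ a ∈ range d, ((‖FS A ((a : ℝ) / d)‖ ^ 2 : ℝ) : ℂ) =
      ∑ e ∈ A, ∑ e' ∈ A, ee ((((e' : ℤ) - (e : ℤ) : ℤ) : ℝ) * ((a : ℝ) / d)) := by
    intro a _
    have h2 : ((‖FS A ((a : ℝ) / d)‖ ^ 2 : ℝ) : ℂ) = FS A ((a : ℝ) / d) * star (FS A ((a : ℝ) / d)) := by
      rw [Complex.star_def, Complex.mul_conj, Complex.normSq_eq_norm_sq]
    rw [h2]
    unfold FS
    rw [star_sum, Finset.sum_mul_sum]
    refine Finset.sum_congr rfl fun e _ => Finset.sum_congr rfl fun e' _ => ?_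
    rw [← ee_neg, ← ee_add]
    congr 1
    push_cast
    ring
  have h3 : ((∑ a ∈ range d, ‖FS A ((a : ℝ) / d)‖ ^ 2 : ℝ) : ℂ) =
      ((∑ e ∈ A, (d : ℝ) * ((A.filter (fun e' : ℕ => ((d : ℤ) ∣ (e' : ℤ) - (e : ℤ)))).card : ℝ) : ℝ) : ℂ) := by
    rw [Complex.ofReal_sum, Finset.sum_congr rfl h1, Finset.sum_comm, Complex.ofReal_sum]
    refine Finset.sum_congr rfl fun e _ => ?_
    rw [Finset.sum_comm]
    have h4 : ∀ e' ∈ A, ∑ a ∈ range d, ee ((((e' : ℤ) - (e : ℤ) : ℤ) : ℝ) * ((a : ℝ) / d)) =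
        if ((d : ℤ) ∣ (e' : ℤ) - (e : ℤ)) then (d : ℂ) else 0 := fun e' _ => orth d hd _
    rw [Finset.sum_congr rfl h4, ← Finset.sum_filter, Finset.sum_const, nsmul_eq_mul]
    push_cast
    ring
  have h5 : ∑ a ∈ range d, ‖FS A ((a : ℝ) / d)‖ ^ 2 =
      ∑ e ∈ A, (d : ℝ) * ((A.filter (fun e' : ℕ => ((d : ℤ) ∣ (e' : ℤ) - (e : ℤ)))).card : ℝ) := by
    exact_mod_cast h3
  rw [h5]
  have h6 : ∀ e ∈ A, (d : ℝ) * ((A.filter (fun e' : ℕ => ((d : ℤ) ∣ (e' : ℤ) - (e : ℤ)))).card : ℝ) ≤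
      (L : ℝ) + d := by
    intro e _
    have h7 := class_card A L d e hA
    have h8 : ((A.filter (fun e' : ℕ => ((d : ℤ) ∣ (e' : ℤ) - (e : ℤ)))).card : ℝ) ≤ (L : ℝ) / d + 1 := by
      have h9 : ((L / d : ℕ) : ℝ) ≤ (L : ℝ) / d := Nat.cast_div_le
      calc _ ≤ (((L / d + 1 : ℕ)) : ℝ) := by exact_mod_cast h7
        _ = ((L / d : ℕ) : ℝ) + 1 := by push_cast; ring
        _ ≤ _ := by linarith
    calc _ ≤ (d : ℝ) * ((L : ℝ) / d + 1) := by gcongr
      _ = (L : ℝ) + d := by field_simp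
  calc _ ≤ ∑ e ∈ A, ((L : ℝ) + d) := Finset.sum_le_sum h6
    _ = _ := by rw [Finset.sum_const, nsmul_eq_mul]

/-- The harmonic sum over `(D, M]`. -/
lemma harm_bound (D M : ℕ) : ∑ d ∈ Ioc D M, (1 / (d : ℝ)) ≤ 1 + Real.log M := by
  have h1 := harmonic_le_one_add_log M
  have h2 : ((harmonic M : ℚ) : ℝ) = ∑ i ∈ range M, (1 / ((i + 1 : ℕ) : ℝ)) := by
    rw [harmonic]
    push_cast
    refine Finset.sum_congr rfl fun i _ => ?_
    rw [one_div]
  rw [h2] at h1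
  refine le_trans ?_ h1
  have h3 : ∑ i ∈ range M, (1 / ((i + 1 : ℕ) : ℝ)) = ∑ d ∈ Ioc 0 M, (1 / (d : ℝ)) := by
    rw [Finset.range_eq_Ico, Finset.sum_Ico_add' (fun j => (1 / ((j : ℕ) : ℝ))) 0 M 1]
    rfl
  rw [h3]
  refine Finset.sum_le_sum_of_subset_of_nonneg ?_ (fun i _ _ => by positivity)
  intro i hi
  rw [Finset.mem_Ioc] at hi ⊢
  omega

/-- The sum over the denominators. -/
lemma T_bound (A : Finset ℕ) (P L D0 : ℕ) (B0 : ℝ) (hA : ∀ e ∈ A, e ≤ L) (hD0 : 2 ≤ D0)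
    (hB : ∀ d a : ℕ, 2 < d → d ≤ D0 → a.Coprime d → ‖FS A ((a : ℝ) / d)‖ ≤ B0 * d) :
    ∑ d ∈ Ioc 2 (4 * P), (1 / (d : ℝ) ^ 2) *
        ∑ a ∈ (range d).filter (fun a => a.Coprime d), ‖FS A ((a : ℝ) / d)‖ ^ 2 ≤
      B0 ^ 2 * D0 ^ 2 + A.card * (L / D0 + 1 + Real.log (4 * P)) := by
  have hD0' : (0 : ℝ) < D0 := by exact_mod_cast (by omega : 0 < D0)
  have h1 : ∀ d ∈ Ioc 2 (4 * P), (1 / (d : ℝ) ^ 2) *
        ∑ a ∈ (range d).filter (fun a => a.Coprime d), ‖FS A ((a : ℝ) / d)‖ ^ 2 ≤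
      (if d ≤ D0 then B0 ^ 2 * D0 else 0) +
        (if D0 < d then (A.card : ℝ) * (L * ((d : ℝ) ^ 2)⁻¹ + 1 / d) else 0) := by
    intro d hd
    rw [Finset.mem_Ioc] at hd
    have hd' : (0 : ℝ) < d := by exact_mod_cast (by omega : 0 < d)
    by_cases h : d ≤ D0
    · rw [if_pos h, if_neg (by omega), add_zero]
      have h2 : ∑ a ∈ (range d).filter (fun a => a.Coprime d), ‖FS A ((a : ℝ) / d)‖ ^ 2 ≤
          (d : ℝ) * (B0 * d) ^ 2 := by
        calc _ ≤ ∑ a ∈ (range d).filter (fun a => a.Coprime d), (B0 * d) ^ 2 := by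
              refine Finset.sum_le_sum fun a ha => ?_
              rw [Finset.mem_filter] at ha
              exact pow_le_pow_left₀ (norm_nonneg _) (hB d a hd.1 h ha.2) 2
          _ = (((range d).filter (fun a => a.Coprime d)).card : ℝ) * (B0 * d) ^ 2 := by
              rw [Finset.sum_const, nsmul_eq_mul]
          _ ≤ (d : ℝ) * (B0 * d) ^ 2 := by
              have : (((range d).filter (fun a => a.Coprime d)).card : ℝ) ≤ d := by
                have := Finset.card_filter_le (range d) (fun a => a.Coprime d)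
                rw [Finset.card_range] at this
                exact_mod_cast this
              gcongr
      calc _ ≤ (1 / (d : ℝ) ^ 2) * ((d : ℝ) * (B0 * d) ^ 2) := by gcongr
        _ = B0 ^ 2 * d := by field_simp
        _ ≤ B0 ^ 2 * D0 := by
            have : (d : ℝ) ≤ D0 := by exact_mod_cast h
            gcongr
    · rw [if_neg h, if_pos (by omega), zero_add]
      have h2 : ∑ a ∈ (range d).filter (fun a => a.Coprime d), ‖FS A ((a : ℝ) / d)‖ ^ 2 ≤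
          (A.card : ℝ) * (L + d) :=
        le_trans (Finset.sum_le_sum_of_subset_of_nonneg (Finset.filter_subset _ _)
          (fun _ _ _ => sq_nonneg _)) (sum_norm_FS A L d (by omega) hA)
      calc _ ≤ (1 / (d : ℝ) ^ 2) * ((A.card : ℝ) * (L + d)) := by gcongr
        _ = (A.card : ℝ) * (L * ((d : ℝ) ^ 2)⁻¹ + 1 / d) := by field_simp
  refine le_trans (Finset.sum_le_sum h1) ?_
  rw [Finset.sum_add_distrib, ← Finset.sum_filter, ← Finset.sum_filter]
  have h2 : ∑ d ∈ (Ioc 2 (4 * P)).filter (fun d => d ≤ D0), (B0 ^ 2 * (D0 : ℝ)) ≤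
      B0 ^ 2 * D0 ^ 2 := by
    rw [Finset.sum_const, nsmul_eq_mul]
    have h3 : ((Ioc 2 (4 * P)).filter (fun d => d ≤ D0)).card ≤ D0 := by
      have : (Ioc 2 (4 * P)).filter (fun d => d ≤ D0) ⊆ Ioc 0 D0 := by
        intro d hd
        rw [Finset.mem_filter, Finset.mem_Ioc] at hd
        rw [Finset.mem_Ioc]
        omega
      have h4 := Finset.card_le_card this
      simpa using h4
    have h4 : (((Ioc 2 (4 * P)).filter (fun d => d ≤ D0)).card : ℝ) ≤ D0 := by exact_mod_cast h3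
    calc _ ≤ (D0 : ℝ) * (B0 ^ 2 * D0) := by gcongr
      _ = _ := by ring
  have h3 : ∑ d ∈ (Ioc 2 (4 * P)).filter (fun d => D0 < d),
      ((A.card : ℝ) * (L * ((d : ℝ) ^ 2)⁻¹ + 1 / d)) ≤
      A.card * (L / D0 + 1 + Real.log (4 * P)) := by
    have h4 : (Ioc 2 (4 * P)).filter (fun d => D0 < d) = Ioc D0 (4 * P) := by
      ext d
      rw [Finset.mem_filter, Finset.mem_Ioc, Finset.mem_Ioc]
      omega
    rw [h4, ← Finset.mul_sum, Finset.sum_add_distrib, ← Finset.mul_sum]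
    have h5 : ∑ i ∈ Ioc D0 (4 * P), ((i : ℝ) ^ 2)⁻¹ ≤ 1 / D0 := by
      by_cases h : D0 ≤ 4 * P
      · have h6 := sum_Ioc_inv_sq_le_sub (α := ℝ) (k := D0) (n := 4 * P) (by omega) h
        have h7 : (0 : ℝ) ≤ (((4 * P : ℕ)) : ℝ)⁻¹ := by positivity
        rw [one_div]
        linarith
      · rw [Finset.Ioc_eq_empty (by omega), Finset.sum_empty]
        positivity
    have h6 := harm_bound D0 (4 * P)
    have h7 : Real.log ((4 * P : ℕ) : ℝ) = Real.log (4 * P) := by push_cast; rfl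
    rw [h7] at h6
    have h8 : (L : ℝ) * ∑ i ∈ Ioc D0 (4 * P), ((i : ℝ) ^ 2)⁻¹ ≤ L * (1 / D0) := by gcongr
    have h9 : (L : ℝ) * (1 / D0) = L / D0 := by ring
    have h10 : (L : ℝ) * ∑ i ∈ Ioc D0 (4 * P), ((i : ℝ) ^ 2)⁻¹ +
        ∑ d ∈ Ioc D0 (4 * P), (1 / (d : ℝ)) ≤ L / D0 + 1 + Real.log (4 * P) := by linarith
    exact mul_le_mul_of_nonneg_left h10 (Nat.cast_nonneg _)
  linarith

/-- (CNT) For most even `n` the number of primes `p` with `n mod (p-1) ∈ A` is as expected. -/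
theorem cnt : ∃ c C : ℝ, 0 < c ∧ 0 < C ∧ ∃ N0 : ℕ, ∀ N : ℕ, N0 ≤ N → ∀ (A : Finset ℕ)
    (L D0 : ℕ) (B0 : ℝ), A.Nonempty → (∀ e ∈ A, Even e ∧ e ≤ L) → L ≤ Nat.sqrt N → 2 ≤ D0 →
    0 ≤ B0 →
    (∀ d a : ℕ, 2 < d → d ≤ D0 → a.Coprime d → ‖FS A ((a : ℝ) / d)‖ ≤ B0 * d) →
    (((Ioc (N / 2) N).filter (fun n => Even n ∧
        (((pr N).filter (fun p => n % (p - 1) ∈ A)).card : ℝ) ≤
          c * A.card / Real.log N)).card : ℝ) ≤
      C * N * (Real.log N) ^ 2 * (B0 ^ 2 * D0 ^ 2 / (A.card : ℝ) ^ 2 +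
        L / (A.card * D0) + Real.log N / A.card) := by
  obtain ⟨c0, hc0, P0, hP0⟩ := theta_interval
  refine ⟨c0 / 8, 3 * (5000 * 257) / (c0 / 8) ^ 2, by positivity, by positivity,
    max (P0 ^ 2) 100, fun N hN A L D0 B0 hAne hA hL hD0 hB0 hB => ?_⟩
  have hN1 : P0 ^ 2 ≤ N := le_trans (le_max_left _ _) hN
  have hN2 : 100 ≤ N := le_trans (le_max_right _ _) hN
  set P := PP N with hPdef
  have hPP : P = 2 * (Nat.sqrt N + 1) := rfl
  have hsq : Nat.sqrt N * Nat.sqrt N ≤ N := Nat.sqrt_le N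
  have hsq2 : N < (Nat.sqrt N + 1) * (Nat.sqrt N + 1) := Nat.lt_succ_sqrt N
  have hs10 : 10 ≤ Nat.sqrt N := by
    rw [Nat.le_sqrt]; omega
  have hPP0 : P0 ≤ P := by
    have : P0 ≤ Nat.sqrt N := by
      rw [Nat.le_sqrt, ← sq]; exact hN1
    omega
  have hPr : (0 : ℝ) < P := by exact_mod_cast (by omega : 0 < P)
  have hP2 : P * P ≤ 16 * N := by
    rw [hPP]
    nlinarith
  have h4P : 4 * P ≤ N * N := by
    rw [hPP]
    nlinarith
  have hNr : (100 : ℝ) ≤ N := by exact_mod_cast hN2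
  have hlog1 : 1 ≤ Real.log N := by
    rw [Real.le_log_iff_exp_le (by linarith)]
    have := Real.exp_one_lt_d9
    linarith
  have hlogP : Real.log (4 * P) ≤ 2 * Real.log N := by
    have h1 : ((4 : ℝ) * P) ≤ (N : ℝ) * N := by exact_mod_cast h4P
    calc Real.log (4 * P) ≤ Real.log ((N : ℝ) * N) := Real.log_le_log (by positivity) h1
      _ = 2 * Real.log N := by
          rw [Real.log_mul (by positivity) (by positivity)]; ring
  have hlogPpos : 0 < Real.log (4 * P) := by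
    apply Real.log_pos
    have : (1 : ℝ) ≤ P := by exact_mod_cast (by omega : 1 ≤ P)
    linarith
  set ℓ := Real.log N with hℓ
  set α : ℝ := (A.card : ℝ) with hα
  have hαpos : 0 < α := by
    rw [hα]; exact_mod_cast hAne.card_pos
  have hℓpos : 0 < ℓ := by linarith
  -- number of primes
  have hprcard : c0 * P ≤ ((pr N).card : ℝ) * Real.log (4 * P) := by
    refine le_trans (hP0 P hPP0).1 ?_
    have : ∀ q ∈ (Ioc P (4 * P)).filter Nat.Prime, Real.log q ≤ Real.log (4 * P) := by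
      intro q hq
      rw [Finset.mem_filter, Finset.mem_Ioc] at hq
      apply Real.log_le_log
      · exact_mod_cast (by omega : 0 < q)
      · exact_mod_cast hq.1.2
    calc _ ≤ ∑ q ∈ (Ioc P (4 * P)).filter Nat.Prime, Real.log (4 * P) := Finset.sum_le_sum this
      _ = _ := by rw [Finset.sum_const, nsmul_eq_mul]; rfl
  have hprcard2 : c0 * P / (2 * ℓ) ≤ ((pr N).card : ℝ) := by
    rw [div_le_iff₀ (by positivity)]
    calc c0 * P ≤ ((pr N).card : ℝ) * Real.log (4 * P) := hprcard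
      _ ≤ ((pr N).card : ℝ) * (2 * ℓ) := by gcongr
  -- the moduli
  set Q := (pr N).image (fun p => p - 1) with hQdef
  have hprmem : ∀ p ∈ pr N, P < p ∧ p ≤ 4 * P ∧ p.Prime := by
    intro p hp
    unfold pr at hp
    rw [Finset.mem_filter, Finset.mem_Ioc] at hp
    exact ⟨hp.1.1, hp.1.2, hp.2⟩
  have hQ : ∀ q ∈ Q, P ≤ q ∧ q ≤ 4 * P ∧ Even q := by
    intro q hq
    rw [hQdef, Finset.mem_image] at hq
    obtain ⟨p, hp, rfl⟩ := hq
    obtain ⟨h1, h2, h3⟩ := hprmem p hp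
    refine ⟨by omega, by omega, ?_⟩
    exact h3.even_sub_one (by omega)
  have hAP : ∀ e ∈ A, Even e ∧ e < P := by
    intro e he
    refine ⟨(hA e he).1, ?_⟩
    have := (hA e he).2
    omega
  have hvar := var_bound P N (by omega) Q A hQ hAP
  have hT := T_bound A P L D0 B0 (fun e he => (hA e he).2) hD0 hB
  set T := ∑ d ∈ Ioc 2 (4 * P), (1 / (d : ℝ) ^ 2) *
        ∑ a ∈ (range d).filter (fun a => a.Coprime d), ‖FS A ((a : ℝ) / d)‖ ^ 2 with hTdef
  set Sn : ℕ → ℝ := fun n => ∑ q ∈ Q, ((if n % q ∈ A then (1 : ℝ) else 0) -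
        (if Even n then 2 * α / q else 0)) with hSn
  set Bd := (Ioc (N / 2) N).filter (fun n => Even n ∧
        (((pr N).filter (fun p => n % (p - 1) ∈ A)).card : ℝ) ≤ c0 / 8 * α / ℓ) with hBd
  have hkey : ∀ n ∈ Bd, (c0 / 8 * α / ℓ) ^ 2 ≤ (Sn n) ^ 2 := by
    intro n hn
    rw [hBd, Finset.mem_filter] at hn
    obtain ⟨_, hev, hcard⟩ := hn
    have h1 : Sn n = (((pr N).filter (fun p => n % (p - 1) ∈ A)).card : ℝ) -
        ∑ p ∈ pr N, 2 * α / ((p - 1 : ℕ) : ℝ) := by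
      rw [hSn]
      simp only
      rw [hQdef, Finset.sum_image]
      · rw [Finset.sum_sub_distrib]
        congr 1
        · rw [← Finset.sum_filter, Finset.sum_const, nsmul_eq_mul, mul_one]
        · refine Finset.sum_congr rfl fun p _ => ?_
          rw [if_pos hev]
      · intro p hp p' hp' h
        have h2 := hprmem p hp
        have h3 := hprmem p' hp'
        simp only at h
        omega
    have h2 : ((pr N).card : ℝ) * (2 * α / (4 * P)) ≤ ∑ p ∈ pr N, 2 * α / ((p - 1 : ℕ) : ℝ) := by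
      rw [← nsmul_eq_mul, ← Finset.sum_const]
      refine Finset.sum_le_sum fun p hp => ?_
      obtain ⟨h3, h4, h5⟩ := hprmem p hp
      have h6 : (0 : ℝ) < ((p - 1 : ℕ) : ℝ) := by exact_mod_cast (by omega : 0 < p - 1)
      have h7 : ((p - 1 : ℕ) : ℝ) ≤ 4 * P := by exact_mod_cast (by omega : p - 1 ≤ 4 * P)
      gcongr
    have h3 : c0 / 8 * α / ℓ * 2 ≤ ((pr N).card : ℝ) * (2 * α / (4 * P)) := by
      calc c0 / 8 * α / ℓ * 2 = c0 * P / (2 * ℓ) * (2 * α / (4 * P)) := by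
            field_simp
            ring
        _ ≤ _ := by gcongr
    have h4 : Sn n ≤ -(c0 / 8 * α / ℓ) := by rw [h1]; linarith
    have h5 : 0 < c0 / 8 * α / ℓ := by positivity
    nlinarith
  have hsum : (Bd.card : ℝ) * (c0 / 8 * α / ℓ) ^ 2 ≤
      5000 * ((N : ℝ) + 16 * (P : ℝ) ^ 2) * T := by
    refine le_trans ?_ hvar
    calc (Bd.card : ℝ) * (c0 / 8 * α / ℓ) ^ 2 = ∑ n ∈ Bd, (c0 / 8 * α / ℓ) ^ 2 := by
          rw [Finset.sum_const, nsmul_eq_mul]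
      _ ≤ ∑ n ∈ Bd, (Sn n) ^ 2 := Finset.sum_le_sum hkey
      _ ≤ ∑ n ∈ Icc 1 N, (Sn n) ^ 2 := by
          refine Finset.sum_le_sum_of_subset_of_nonneg ?_ (fun _ _ _ => sq_nonneg _)
          intro n hn
          rw [hBd, Finset.mem_filter, Finset.mem_Ioc] at hn
          rw [Finset.mem_Icc]
          omega
  have hNP : (N : ℝ) + 16 * (P : ℝ) ^ 2 ≤ 257 * N := by
    have : (P : ℝ) * P ≤ 16 * N := by exact_mod_cast hP2
    nlinarith
  have hT2 : T ≤ B0 ^ 2 * D0 ^ 2 + α * (L / D0 + 3 * ℓ) := by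
    refine le_trans hT ?_
    have : α * ((L : ℝ) / D0 + 1 + Real.log (4 * P)) ≤ α * (L / D0 + 3 * ℓ) := by
      apply mul_le_mul_of_nonneg_left _ hαpos.le
      linarith
    linarith
  have hD0' : (0 : ℝ) < D0 := by exact_mod_cast (by omega : 0 < D0)
  have hfin : (Bd.card : ℝ) * (c0 / 8 * α / ℓ) ^ 2 ≤
      5000 * (257 * N) * (3 * (B0 ^ 2 * D0 ^ 2 + α * (L / D0 + ℓ))) := by
    refine le_trans hsum ?_
    have h1 : T ≤ 3 * (B0 ^ 2 * D0 ^ 2 + α * (L / D0 + ℓ)) := by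
      have h2 : 0 ≤ B0 ^ 2 * (D0 : ℝ) ^ 2 := by positivity
      have h3 : 0 ≤ α * ((L : ℝ) / D0) := by positivity
      nlinarith
    have h2 : 0 ≤ 3 * (B0 ^ 2 * (D0 : ℝ) ^ 2 + α * (L / D0 + ℓ)) := by positivity
    calc _ ≤ 5000 * ((N : ℝ) + 16 * (P : ℝ) ^ 2) * (3 * (B0 ^ 2 * D0 ^ 2 + α * (L / D0 + ℓ))) := by
          gcongr
      _ ≤ _ := by gcongr
  have hpos : 0 < (c0 / 8 * α / ℓ) ^ 2 := by positivity
  calc (Bd.card : ℝ) ≤ 5000 * (257 * N) * (3 * (B0 ^ 2 * D0 ^ 2 + α * (L / D0 + ℓ))) /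
        (c0 / 8 * α / ℓ) ^ 2 := by
        rw [le_div_iff₀ hpos]; exact hfin
    _ = _ := by
        field_simp
        ring

end Pool.Agent.Bern2
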