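import Mathlib
import Pool.Agent.Bern2.Defs

namespace Pool.Agent.Bern2

open Polynomial Finset Pool.Agent.Helper29 Pool.Agent.Helper98.Bern

/-- geometric sums on the unit circle -/
theorem EV_geom {z : ℂ} (hz : ‖z‖ = 1) (h1 : z ≠ 1) (m : ℕ) :
    ‖∑ k ∈ range m, z ^ k‖ ≤ 2 / ‖z - 1‖ := by
  have h2 : (0:ℝ) < ‖z - 1‖ := norm_pos_iff.2 (sub_ne_zero.2 h1)
  rw [geom_sum_eq h1, norm_div]
  apply div_le_div_of_nonneg_right _ h2.le
  calc ‖z ^ m - 1‖ ≤ ‖z ^ m‖ + ‖(1:ℂ)‖ := norm_sub_le _ _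
    _ = 2 := by rw [norm_pow, hz]; norm_num

/-- lower bound for the distance to 1 of a nontrivial root of unity -/
theorem EV_dist (d r : ℕ) (hr : 0 < r) (hrd : r < d) : 4 / (d : ℝ) ≤ ‖ee (-((r : ℝ) / d)) - 1‖ := by
  have hd : (0:ℝ) < d := by exact_mod_cast (lt_trans hr hrd)
  have hr' : (1:ℝ) ≤ r := by exact_mod_cast hr
  have hrd' : (r:ℝ) + 1 ≤ d := by exact_mod_cast hrd
  set x : ℝ := (r : ℝ) / d with hx
  have hx0 : 1 / (d:ℝ) ≤ x := by
    rw [hx]; exact div_le_div_of_nonneg_right hr' hd.le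
  have hx1 : x ≤ 1 - 1 / (d:ℝ) := by
    rw [hx, div_le_iff₀ hd]
    field_simp
    linarith
  have hnorm : ‖ee (-x) - 1‖ = 2 * |Real.sin (Real.pi * x)| := by
    have e1 : ee (-x) - 1 = Complex.exp (Complex.I * ((-(2 * Real.pi * x) : ℝ) : ℂ)) - 1 := by
      unfold ee
      congr 2
      push_cast
      ring
    rw [e1, Complex.norm_exp_I_mul_ofReal_sub_one]
    rw [Real.norm_eq_abs, abs_mul, abs_two]
    congr 1
    rw [show -(2 * Real.pi * x) / 2 = -(Real.pi * x) by ring, Real.sin_neg, abs_neg]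
  rw [hnorm]
  have hd0 : 0 ≤ 1 / (d:ℝ) := by positivity
  have hpi := Real.pi_pos
  have hsin : 2 * (1 / (d:ℝ)) ≤ Real.sin (Real.pi * x) := by
    rcases le_total x (1/2) with h | h
    · have h3 := Real.mul_le_sin (x := Real.pi * x) (by positivity) (by nlinarith)
      have h4 : 2 / Real.pi * (Real.pi * x) = 2 * x := by field_simp
      linarith
    · have h3 := Real.mul_le_sin (x := Real.pi * (1 - x)) (by nlinarith) (by nlinarith)
      have h4 : 2 / Real.pi * (Real.pi * (1 - x)) = 2 * (1 - x) := by field_simp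
      have h5 : Real.sin (Real.pi * (1 - x)) = Real.sin (Real.pi * x) := by
        rw [show Real.pi * (1 - x) = Real.pi - Real.pi * x by ring, Real.sin_pi_sub]
      linarith
  have h6 : 4 / (d:ℝ) = 2 * (2 * (1 / d)) := by ring
  rw [h6]
  have h7 := le_abs_self (Real.sin (Real.pi * x))
  linarith

/-- (EV) The exponential sum over the even numbers of an interval, at a fraction with
denominator `d > 2`. -/
theorem FS_even_Icc (u v d a : ℕ) (hd : 2 < d) (ha : a.Coprime d) :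
    ‖FS ((Icc u v).filter (fun e => Even e)) ((a : ℝ) / d)‖ ≤ d / 2 := by
  have hd0 : (0:ℝ) < d := by exact_mod_cast (by omega : 0 < d)
  set β : ℝ := (a : ℝ) / d with hβ
  set u0 : ℕ := (u + 1) / 2 with hu0
  set m : ℕ := v / 2 + 1 - u0 with hm
  have hset : (Icc u v).filter (fun e => Even e) = (range m).image (fun k => 2 * (u0 + k)) := by
    ext e
    simp only [mem_filter, mem_Icc, mem_image, mem_range]
    constructor
    · rintro ⟨⟨h1, h2⟩, ⟨k, hk⟩⟩
      refine ⟨k - u0, ?_, ?_⟩ <;> omega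
    · rintro ⟨k, hk, rfl⟩
      refine ⟨⟨?_, ?_⟩, ⟨u0 + k, by ring⟩⟩ <;> omega
  set r : ℕ := (2 * a) % d with hr
  set z : ℂ := ee (-((r : ℝ) / d)) with hz
  have hz2 : ee (-(2 * β)) = z := by
    obtain ⟨q, hq⟩ : ∃ q : ℕ, 2 * a = d * q + r := ⟨2 * a / d, (Nat.div_add_mod (2 * a) d).symm⟩
    have h1 : 2 * (a : ℝ) = d * (q : ℝ) + r := by exact_mod_cast hq
    have e1 : -(2 * β) = -((r : ℝ) / d) + ((-(q : ℤ) : ℤ) : ℝ) := by
      rw [hβ]
      push_cast
      field_simp
      linarith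
    rw [e1, ee_add_int]
  have hsum : FS ((Icc u v).filter (fun e => Even e)) β =
      ee (-(2 * (u0 : ℝ) * β)) * ∑ k ∈ range m, z ^ k := by
    unfold FS
    rw [hset, sum_image (by intro x _ y _ h; simp only at h; omega), mul_sum]
    apply sum_congr rfl
    intro k _
    rw [← hz2, ← ee_nat_mul, ← ee_add]
    congr 1
    push_cast
    ring
  have hrpos : 0 < r := by
    rw [hr]
    apply Nat.pos_of_ne_zero
    intro h
    have h1 : d ∣ 2 * a := Nat.dvd_of_mod_eq_zero h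
    have h2 : d ∣ 2 := (Nat.Coprime.symm ha).dvd_of_dvd_mul_right h1
    have h3 := Nat.le_of_dvd (by norm_num) h2
    omega
  have hrd : r < d := Nat.mod_lt _ (by omega)
  have hdist := EV_dist d r hrpos hrd
  have h4 : (0:ℝ) < 4 / d := by positivity
  have hne : z ≠ 1 := by
    intro h
    rw [← hz, h, sub_self, norm_zero] at hdist
    linarith
  have hnz : ∀ t : ℝ, ‖ee t‖ = 1 := by
    intro t
    have e1 : ee t = Complex.exp (((2 * Real.pi * t : ℝ) : ℂ) * Complex.I) := by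
      unfold ee; congr 1; push_cast; ring
    rw [e1, Complex.norm_exp_ofReal_mul_I]
  rw [hsum, norm_mul, hnz, one_mul]
  refine (EV_geom (hnz _) hne m).trans ?_
  have h5 : ‖z - 1‖ ≥ 4 / d := hdist
  calc 2 / ‖z - 1‖ ≤ 2 / (4 / (d:ℝ)) := by
        apply div_le_div_of_nonneg_left (by norm_num) h4 h5
    _ = d / 2 := by field_simp; norm_num

end Pool.Agent.Bern2
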