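import Mathlib
import Pool.Agent.Bern2.Defs

namespace Pool.Agent.Bern2

open Polynomial Finset Pool.Agent.Helper29 Pool.Agent.Helper98.Bern

/-- (ORD) Few primes have small order of `2`. -/
theorem ord_count (N y : ℕ) (S : Finset ℕ)
    (hS : ∀ l ∈ S, l.Prime ∧ 2 < l ∧ N < l ^ 2 ∧ orderOf (2 : ZMod l) ≤ y) :
    (S.card : ℝ) * Real.log N ≤ y * (y + 1) := by
  classical
  rcases Nat.eq_zero_or_pos N with hN | hN
  · subst hN
    simp only [Nat.cast_zero, Real.log_zero, mul_zero]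
    positivity
  have hdvd : (∏ l ∈ S, l) ∣ ∏ k ∈ Finset.Icc 1 y, (2 ^ k - 1) := by
    apply Finset.prod_primes_dvd
    · intro l hl
      exact (hS l hl).1.prime
    · intro l hl
      obtain ⟨hp, h2, -, ho⟩ := hS l hl
      haveI : Fact l.Prime := ⟨hp⟩
      have h20 : (2 : ZMod l) ≠ 0 := by
        intro h
        have h' : ((2 : ℕ) : ZMod l) = 0 := by exact_mod_cast h
        rw [ZMod.natCast_eq_zero_iff] at h'
        exact absurd (Nat.le_of_dvd (by norm_num) h') (by omega)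
      have hpos : 0 < orderOf (2 : ZMod l) := by
        rw [orderOf_pos_iff, isOfFinOrder_iff_pow_eq_one]
        exact ⟨l - 1, by have := hp.two_le; omega, ZMod.pow_card_sub_one_eq_one h20⟩
      have hmem : orderOf (2 : ZMod l) ∈ Finset.Icc 1 y := Finset.mem_Icc.2 ⟨hpos, ho⟩
      refine dvd_trans ?_ (Finset.dvd_prod_of_mem _ hmem)
      have h1 : (1 : ℕ) ≤ 2 ^ orderOf (2 : ZMod l) := Nat.one_le_two_pow
      rw [← ZMod.natCast_eq_zero_iff, Nat.cast_sub h1]
      push_cast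
      rw [pow_orderOf_eq_one, sub_self]
  have hposk : ∀ k ∈ Finset.Icc 1 y, 0 < 2 ^ k - 1 := by
    intro k hk
    have : 1 ≤ k := (Finset.mem_Icc.1 hk).1
    have : 2 ≤ 2 ^ k := by
      calc 2 = 2 ^ 1 := by norm_num
        _ ≤ 2 ^ k := Nat.pow_le_pow_right (by norm_num) this
    omega
  have hle : (∏ l ∈ S, l) ≤ ∏ k ∈ Finset.Icc 1 y, (2 ^ k - 1) :=
    Nat.le_of_dvd (Finset.prod_pos hposk) hdvd
  have hle2 : (∏ k ∈ Finset.Icc 1 y, (2 ^ k - 1)) ≤ ∏ k ∈ Finset.Icc 1 y, 2 ^ k :=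
    Finset.prod_le_prod' (fun k _ => Nat.sub_le _ _)
  have hR : ((∏ l ∈ S, l : ℕ) : ℝ) ≤ ((∏ k ∈ Finset.Icc 1 y, 2 ^ k : ℕ) : ℝ) := by
    exact_mod_cast hle.trans hle2
  have hSpos : (0 : ℝ) < ((∏ l ∈ S, l : ℕ) : ℝ) := by
    have : 0 < ∏ l ∈ S, l := Finset.prod_pos (fun l hl => (hS l hl).1.pos)
    exact_mod_cast this
  have hlog := Real.log_le_log hSpos hR
  push_cast at hlog
  rw [Real.log_prod (fun l hl => by
      have := (hS l hl).1.pos
      positivity),
    Real.log_prod (fun k hk => by positivity)] at hlog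
  have hlow : (S.card : ℝ) * (Real.log N / 2) ≤ ∑ l ∈ S, Real.log (l : ℝ) := by
    rw [← nsmul_eq_mul]
    apply Finset.card_nsmul_le_sum
    intro l hl
    obtain ⟨hp, h2, hN2, -⟩ := hS l hl
    have : (N : ℝ) ≤ (l : ℝ) ^ 2 := by exact_mod_cast hN2.le
    have h3 := Real.log_le_log (by exact_mod_cast hN) this
    rw [Real.log_pow] at h3
    push_cast at h3
    linarith
  have hup : ∑ k ∈ Finset.Icc 1 y, Real.log ((2 : ℝ) ^ k) ≤ y * (y + 1) / 2 := by
    have h1 : ∀ k ∈ Finset.Icc 1 y, Real.log ((2 : ℝ) ^ k) ≤ (k : ℝ) := by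
      intro k _
      rw [Real.log_pow]
      have := Real.log_two_lt_d9
      have hk : (0 : ℝ) ≤ k := Nat.cast_nonneg k
      nlinarith
    refine (Finset.sum_le_sum h1).trans (le_of_eq ?_)
    have : ∀ y : ℕ, ∑ k ∈ Finset.Icc 1 y, (k : ℝ) = y * (y + 1) / 2 := by
      intro y
      induction y with
      | zero => simp
      | succ n ih =>
        rw [Finset.sum_Icc_succ_top (by omega), ih]
        push_cast
        ring
    exact this y
  linarith

end Pool.Agent.Bern2
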