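import Mathlib
import Pool.Agent.Bern2.Defs
import Pool.Agent.Helper98.Bern.AL

namespace Pool.Agent.Bern2

open Polynomial Finset Pool.Agent.Helper29 Pool.Agent.Helper98.Bern

/-- A monic quadratic. -/
lemma q0_quad {H : ℚ[X]} (hH : H.Monic) (h2 : H.natDegree = 2) :
    H = X ^ 2 + C (H.coeff 1) * X + C (H.coeff 0) := by
  conv_lhs => rw [H.as_sum_range, h2]
  have h3 : H.coeff 2 = 1 := by
    have := hH.coeff_natDegree
    rwa [h2] at this
  simp only [Finset.sum_range_succ, Finset.sum_range_zero, zero_add, h3]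
  rw [← C_mul_X_pow_eq_monomial, ← C_mul_X_pow_eq_monomial, ← C_mul_X_pow_eq_monomial]
  simp
  ring

/-- The symmetry gives the middle coefficient. -/
lemma q0_sym (l : ℕ) (hl : 4 < l) (g H : ℚ[X]) (hg : Irreducible g)
    (hB : Polynomial.bernoulli (2 * l) = g * H) (hH : H.Monic) (h2 : H.natDegree = 2) :
    H = X ^ 2 - X + C (H.coeff 0) := by
  have hq := q0_quad hH h2
  set b := H.coeff 1 with hb
  set c := H.coeff 0 with hc
  have hcomp : H.comp (1 - X) = X ^ 2 + C (-2 - b) * X + C (1 + b + c) := by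
    rw [hq]
    simp only [add_comp, mul_comp, pow_comp, X_comp, C_comp, C_add, C_sub, C_neg, C_1]
    have : (C 2 : ℚ[X]) = 2 := rfl
    rw [this]
    ring
  have hsym := Polynomial.bernoulli_comp_one_sub_X (2 * l)
  have h1 : ((-1 : ℚ[X])) ^ (2 * l) = 1 := by
    rw [pow_mul]; simp
  rw [h1, one_mul, hB, mul_comp] at hsym
  -- hsym : g.comp (1 - X) * H.comp (1 - X) = g * H
  have hg0 : g ≠ 0 := hg.ne_zero
  have hH0 : H ≠ 0 := hH.ne_zero
  have hdeg : g.natDegree + 2 = 2 * l := by
    have := congrArg natDegree hB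
    rw [natDegree_bernoulli, natDegree_mul hg0 hH0, h2] at this
    exact this.symm
  have hHc2 : (H.comp (1 - X)).coeff 2 = 1 := by
    rw [hcomp]
    simp [coeff_one]
  have hHc1 : (H.comp (1 - X)).coeff 1 = -2 - b := by
    rw [hcomp]
    simp [coeff_X_pow, coeff_C, coeff_one]
  have hHc0 : H.comp (1 - X) ≠ 0 := by
    intro h0
    rw [h0] at hHc2
    simp at hHc2
  have hdvd : g ∣ g.comp (1 - X) * H.comp (1 - X) := ⟨H, hsym⟩
  have hprime : Prime g := hg.prime
  rcases hprime.dvd_or_dvd hdvd with h | h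
  · obtain ⟨u, hu⟩ := h
    have hlin : (1 - X : ℚ[X]).natDegree = 1 := by
      have : (1 - X : ℚ[X]) = -(X - C 1) := by simp
      rw [this, natDegree_neg, natDegree_X_sub_C]
    have hgc : (g.comp (1 - X)).natDegree = g.natDegree := by
      rw [natDegree_comp, hlin, mul_one]
    have hu0 : u ≠ 0 := by
      rintro rfl
      rw [mul_zero] at hu
      rw [hu, zero_mul] at hsym
      exact (mul_ne_zero hg0 hH0) hsym.symm
    have hudeg : u.natDegree = 0 := by
      have := congrArg natDegree hu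
      rw [hgc, natDegree_mul hg0 hu0] at this
      omega
    rw [natDegree_eq_zero] at hudeg
    obtain ⟨a, ha⟩ := hudeg
    rw [hu, ← ha, mul_assoc] at hsym
    have h3 : C a * H.comp (1 - X) = H := mul_left_cancel₀ hg0 hsym
    have h4 := congrArg (fun Q => Q.coeff 2) h3
    simp only [coeff_C_mul, hHc2] at h4
    have h5 : H.coeff 2 = 1 := by
      have := hH.coeff_natDegree
      rwa [h2] at this
    rw [h5, mul_one] at h4
    have h6 := congrArg (fun Q => Q.coeff 1) h3
    simp only [coeff_C_mul, hHc1, h4, one_mul] at h6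
    have h7 : b = -1 := by linarith
    rw [hq, h7]
    simp
    ring
  · exfalso
    have h3 := natDegree_le_of_dvd h hHc0
    have h4 : (H.comp (1 - X)).natDegree ≤ 2 := by
      rw [hcomp]
      compute_degree
    omega

/-- (Q0) The shape of a quadratic cofactor. -/
theorem q0 (l : ℕ) (hl : 4 < l) (g H : ℚ[X]) (hg : Irreducible g)
    (hB : Polynomial.bernoulli (2 * l) = g * H) (hH : H.Monic) (h2 : H.natDegree = 2)
    (hc : ∃ z d : ℤ, Odd z ∧ Odd d ∧ 2 * (d : ℚ) * H.coeff 0 = z) :
    ∃ w : ℤ, w ≡ 1 [ZMOD 4] ∧ H = QW w := by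
  have hsh := q0_sym l hl g H hg hB hH h2
  have hg0 : g ≠ 0 := hg.ne_zero
  have hH0 : H ≠ 0 := hH.ne_zero
  have hgm : g.Monic := by
    have := monic_bernoulli (2 * l)
    rw [hB] at this
    exact hH.of_mul_monic_right this
  have hdeg : g.natDegree + 2 = 2 * l := by
    have := congrArg natDegree hB
    rw [natDegree_bernoulli, natDegree_mul hg0 hH0, h2] at this
    exact this.symm
  obtain ⟨G0, hGp, hGd, a, ha, hGm⟩ := exists_primitive hg0
  obtain ⟨H0, hHp, hHd, b, hb, hHm⟩ := exists_primitive hH0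
  have hFp : (G0 * H0).IsPrimitive := hGp.mul hHp
  -- leading coefficients
  have hb1 : (H0.coeff 2 : ℚ) = b := by
    have h3 := congrArg (fun Q => Q.coeff 2) hHm
    simp only [coeff_map, coeff_C_mul] at h3
    have h5 : H.coeff 2 = 1 := by
      have := hH.coeff_natDegree
      rwa [h2] at this
    rw [h5, mul_one] at h3
    simpa using h3
  have ha1 : (G0.coeff (2 * l - 2) : ℚ) = a := by
    have h3 := congrArg (fun Q => Q.coeff (2 * l - 2)) hGm
    simp only [coeff_map, coeff_C_mul] at h3
    have h5 : g.coeff (2 * l - 2) = 1 := by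
      have := hgm.coeff_natDegree
      rwa [show g.natDegree = 2 * l - 2 by omega] at this
    rw [h5, mul_one] at h3
    simpa using h3
  set h := H0.coeff 2 with hh
  set γ := G0.coeff (2 * l - 2) with hγ
  set k := H0.coeff 0 with hk
  have hkc : (k : ℚ) = h * H.coeff 0 := by
    have h3 := congrArg (fun Q => Q.coeff 0) hHm
    simp only [coeff_map, coeff_C_mul] at h3
    rw [hb1]
    simpa using h3
  have hH1 : H0.coeff 1 = -h := by
    have h3 := congrArg (fun Q => Q.coeff 1) hHm
    simp only [coeff_map, coeff_C_mul] at h3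
    rw [hsh] at h3
    simp [coeff_X_pow, coeff_X] at h3
    have h4 : ((H0.coeff 1 : ℤ) : ℚ) = ((-h : ℤ) : ℚ) := by
      push_cast
      rw [h3, hb1]
    exact_mod_cast h4
  have hh0 : h ≠ 0 := by
    intro h0
    rw [h0] at hb1
    exact hb (by simpa using hb1.symm)
  -- integer coefficients of F
  have hFco : ∀ i, (((G0 * H0).coeff i : ℤ) : ℚ) =
      ((γ * h : ℤ) : ℚ) * (Polynomial.bernoulli (2 * l)).coeff i := by
    intro i
    have h3 : (G0 * H0).map (Int.castRingHom ℚ) = C (a * b) * Polynomial.bernoulli (2 * l) := by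
      rw [Polynomial.map_mul, hGm, hHm, hB, C_mul]
      ring
    have h4 := congrArg (fun Q => Q.coeff i) h3
    simp only [coeff_map, coeff_C_mul] at h4
    push_cast
    rw [ha1, hb1]
    simpa using h4
  -- odd primes divide `γ h` at most once
  have hsq : ∀ p : ℕ, p.Prime → 3 ≤ p → ¬ (p : ℤ) ^ 2 ∣ γ * h := by
    rintro p hp hp3 ⟨t, ht⟩
    have hpI : Prime (p : ℤ) := Nat.prime_iff_prime_int.mp hp
    have hall : ∀ i, (p : ℤ) ∣ (G0 * H0).coeff i := by
      intro i
      have hA : PI p ((p : ℚ) * (Polynomial.bernoulli (2 * l)).coeff i) := by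
        rw [Polynomial.coeff_bernoulli]
        split_ifs with h
        · rw [← mul_assoc]
          exact PI.mul hp (PI_bernoulli_mul hp hp3 _) (PI.nat hp _)
        · rw [mul_zero]
          simpa using PI.int hp 0
      obtain ⟨d, w, hd, hw⟩ := hA
      have h3 : d * (G0 * H0).coeff i = (p : ℤ) * (t * w) := by
        have h4 : ((d * (G0 * H0).coeff i : ℤ) : ℚ) = ((p : ℤ) * (t * w) : ℤ) := by
          rw [Int.cast_mul, hFco i, ht]
          push_cast
          rw [← hw]
          ring
        exact_mod_cast h4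
      rcases hpI.dvd_or_dvd (Dvd.intro _ h3.symm) with h5 | h5
      · exact absurd h5 hd
      · exact h5
    have h6 : C (p : ℤ) ∣ (G0 * H0) := (C_dvd_iff_dvd_coeff _ _).mpr hall
    exact hpI.not_isUnit (hFp _ h6)
  -- no prime divides both `h` and `k`
  have hcop : ∀ p : ℕ, p.Prime → (p : ℤ) ∣ h → ¬ (p : ℤ) ∣ k := by
    intro p hp hph hpk
    have hpI : Prime (p : ℤ) := Nat.prime_iff_prime_int.mp hp
    have hall : ∀ i, (p : ℤ) ∣ H0.coeff i := by
      intro i
      rcases Nat.lt_or_ge 2 i with hi | hi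
      · rw [coeff_eq_zero_of_natDegree_lt (by omega)]
        exact dvd_zero _
      · interval_cases i
        · exact hpk
        · rw [hH1]; exact (dvd_neg).mpr hph
        · exact hph
    have h6 : C (p : ℤ) ∣ H0 := (C_dvd_iff_dvd_coeff _ _).mpr hall
    exact hpI.not_isUnit (hHp _ h6)
  -- primes at least five do not divide `h`
  have hbig : ∀ p : ℕ, p.Prime → 5 ≤ p → ¬ (p : ℤ) ∣ h := by
    intro p hp hp5 hph
    have hpI : Prime (p : ℤ) := Nat.prime_iff_prime_int.mp hp
    have hpγ : ¬ (p : ℤ) ∣ γ := by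
      intro h3
      apply hsq p hp (by omega)
      rw [pow_two]
      exact mul_dvd_mul h3 hph
    -- the coefficient of `X ^ (2 l - 2)`
    have hco : (G0 * H0).coeff (2 * l - 2) =
        γ * k + h * (G0.coeff (2 * l - 4) - G0.coeff (2 * l - 3)) := by
      have hH0q : H0 = C h * X ^ 2 + C (-h) * X + C k := by
        conv_lhs => rw [H0.as_sum_range, hHd, h2]
        simp only [Finset.sum_range_succ, Finset.sum_range_zero, zero_add]
        rw [← C_mul_X_pow_eq_monomial, ← C_mul_X_pow_eq_monomial, ← C_mul_X_pow_eq_monomial, hH1,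
          ← hk, ← hh]
        simp
        ring
      have e1 : G0 * H0 = C h * (G0 * X ^ 2) + C (-h) * (G0 * X) + C k * G0 := by
        rw [hH0q]
        ring
      rw [e1, coeff_add, coeff_add, coeff_C_mul, coeff_C_mul, coeff_C_mul]
      rw [show 2 * l - 2 = (2 * l - 4) + 2 by omega, coeff_mul_X_pow,
        show (2 * l - 4) + 2 = (2 * l - 3) + 1 by omega, coeff_mul_X,
        show (2 * l - 3) + 1 = 2 * l - 2 by omega, ← hγ]
      ring
    have hval : 6 * (G0 * H0).coeff (2 * l - 2) = γ * h * (l * (2 * l - 1)) := by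
      have h4 : ((6 * (G0 * H0).coeff (2 * l - 2) : ℤ) : ℚ) =
          ((γ * h * (l * (2 * l - 1)) : ℤ) : ℚ) := by
        rw [Int.cast_mul, hFco, Polynomial.coeff_bernoulli, if_pos (by omega),
          show 2 * l - (2 * l - 2) = 2 by omega, _root_.bernoulli_two]
        have h5 : ((2 * l).choose (2 * l - 2) : ℚ) = l * (2 * l - 1) := by
          rw [Nat.choose_symm_of_eq_add (show 2 * l = (2 * l - 2) + 2 by omega),
            Nat.cast_choose_two]
          push_cast
          ring
        rw [h5]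
        push_cast
        ring
      exact_mod_cast h4
    have hd1 : (p : ℤ) ∣ 6 * (G0 * H0).coeff (2 * l - 2) := by
      rw [hval]
      exact Dvd.dvd.mul_right (Dvd.dvd.mul_left hph _) _
    have h6 : ¬ (p : ℤ) ∣ 6 := by
      intro h6
      have h7 : p ∣ 6 := by exact_mod_cast h6
      have h8 : p ∣ 2 * 3 := h7
      rcases (Nat.Prime.dvd_mul hp).mp h8 with h9 | h9
      · have := Nat.le_of_dvd (by norm_num) h9
        omega
      · have := Nat.le_of_dvd (by norm_num) h9
        omega
    have hd2 := (hpI.dvd_or_dvd hd1).resolve_left h6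
    rw [hco] at hd2
    have hd3 : (p : ℤ) ∣ γ * k := (Int.dvd_add_left (Dvd.dvd.mul_right hph _)).mp hd2
    rcases hpI.dvd_or_dvd hd3 with h9 | h9
    · exact hpγ h9
    · exact hcop p hp hph h9
  -- the prime two
  obtain ⟨z, d, hz, hd, hzd⟩ := hc
  have htwo : 2 * d * k = z * h := by
    have h4 : ((2 * d * k : ℤ) : ℚ) = ((z * h : ℤ) : ℚ) := by
      push_cast
      rw [hkc, ← hzd]
      ring
    exact_mod_cast h4
  have hP2 : Prime (2 : ℤ) := Int.prime_two
  have h2h : (2 : ℤ) ∣ h := by
    have : (2 : ℤ) ∣ z * h := ⟨d * k, by rw [← htwo]; ring⟩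
    rcases hP2.dvd_or_dvd this with h3 | h3
    · exfalso
      exact (Int.not_even_iff_odd.mpr hz) (even_iff_two_dvd.mpr h3)
    · exact h3
  have h2k : ¬ (2 : ℤ) ∣ k := by
    have := hcop 2 Nat.prime_two (by exact_mod_cast h2h)
    exact_mod_cast this
  have h4h : ¬ (2 : ℤ) * 2 ∣ h := by
    rintro ⟨t, ht⟩
    rw [ht] at htwo
    have h3 : d * k = 2 * (z * t) := by linarith
    have h5 : (2 : ℤ) ∣ d * k := ⟨_, h3⟩
    rcases hP2.dvd_or_dvd h5 with h6 | h6
    · exact (Int.not_even_iff_odd.mpr hd) (even_iff_two_dvd.mpr h6)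
    · exact h2k h6
  -- `h` divides six
  have hh6 : h ∣ 6 := by
    have hsf : Squarefree h.natAbs := by
      rw [Nat.squarefree_iff_prime_squarefree]
      intro p hp hpp
      have hpp' : (p : ℤ) * p ∣ h := by
        have : ((p * p : ℕ) : ℤ) ∣ h := Int.natCast_dvd.mpr hpp
        exact_mod_cast this
      rcases Nat.lt_or_ge p 3 with h3 | h3
      · have : p = 2 := by
          have := hp.two_le
          omega
        subst this
        exact h4h (by exact_mod_cast hpp')
      · apply hsq p hp h3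
        rw [pow_two]
        exact Dvd.dvd.mul_left hpp' _
    have hsub : h.natAbs.primeFactors ⊆ {2, 3} := by
      intro p hp
      have hpp := Nat.prime_of_mem_primeFactors hp
      have hpd := Nat.dvd_of_mem_primeFactors hp
      have hpd' : (p : ℤ) ∣ h := Int.natCast_dvd.mpr hpd
      have hlt : p < 5 := by
        by_contra hcon
        exact hbig p hpp (by omega) hpd'
      have := hpp.two_le
      interval_cases p
      · simp
      · simp
      · exact absurd hpp (by norm_num)
    have hd6 : h.natAbs ∣ 6 := by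
      rw [← Nat.prod_primeFactors_of_squarefree hsf]
      have := Finset.prod_dvd_prod_of_subset _ _ (fun p : ℕ => p) hsub
      simpa using this
    exact Int.natAbs_dvd.mp (by exact_mod_cast hd6)
  obtain ⟨s, hs⟩ := hh6
  -- `6 c = k s`
  have hsodd : ¬ (2 : ℤ) ∣ s := by
    intro h3
    obtain ⟨t, ht⟩ := h2h
    obtain ⟨r, hr⟩ := h3
    have h5 : (6 : ℤ) = 4 * (t * r) := by
      rw [hs, ht, hr]
      ring
    omega
  have hA : 6 * H.coeff 0 = ((k * s : ℤ) : ℚ) := by
    have h3 : ((6 : ℤ) : ℚ) = ((h * s : ℤ) : ℚ) := by rw [hs]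
    push_cast at h3 ⊢
    rw [hkc, h3]
    ring
  have hAodd : Odd (k * s) := by
    rw [← Int.not_even_iff_odd, even_iff_two_dvd]
    intro h3
    rcases hP2.dvd_or_dvd h3 with h4 | h4
    · exact h2k h4
    · exact hsodd h4
  refine ⟨3 - 2 * (k * s), ?_, ?_⟩
  · obtain ⟨t, ht⟩ := hAodd
    rw [ht]
    exact (Int.modEq_iff_dvd).mpr ⟨t, by ring⟩
  · rw [QW]
    conv_lhs => rw [hsh]
    congr 2
    rw [show (3 - (3 - 2 * (k * s)) : ℤ) = 2 * (k * s) by ring]
    have h3 : H.coeff 0 = ((k * s : ℤ) : ℚ) / 6 := by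
      rw [← hA]
      ring
    rw [h3]
    push_cast
    ring

end Pool.Agent.Bern2
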