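import Mathlib
import Pool.Agent.Bern2.Defs

namespace Pool.Agent.Bern2

open Polynomial Finset Pool.Agent.Helper29 Pool.Agent.Helper98.Bern

namespace QAaux

/-- Values of Bernoulli polynomials at `1/2`. -/
lemma half_val (k : ℕ) : (Polynomial.bernoulli k).eval (1 / 2) =
    (2 / 2 ^ k - 1) * _root_.bernoulli k := by
  have h := bernoulliFun_eval_half k
  rw [bernoulliFun] at h
  have h2 : (Polynomial.map (algebraMap ℚ ℝ) (Polynomial.bernoulli k)).eval (2⁻¹ : ℝ) =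
      ((Polynomial.bernoulli k).eval (1 / 2) : ℚ) := by
    have : (2⁻¹ : ℝ) = algebraMap ℚ ℝ (1 / 2) := by
      simp
    rw [this, Polynomial.eval_map_algebraMap, Polynomial.aeval_algebraMap_apply]
    simp
  rw [h2] at h
  have h3 : (((Polynomial.bernoulli k).eval (1 / 2) : ℚ) : ℝ) =
      (((2 / 2 ^ k - 1) * _root_.bernoulli k : ℚ) : ℝ) := by
    rw [h]
    push_cast
    ring
  exact Rat.cast_injective h3

lemma half_odd (k : ℕ) (hk : Odd k) : (Polynomial.bernoulli k).eval (1 / 2) = 0 := by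
  rcases Nat.lt_or_ge 1 k with h1 | h1
  · rw [half_val, bernoulli_eq_zero_of_odd hk h1, mul_zero]
  · have : k = 1 := by
      obtain ⟨j, hj⟩ := hk
      omega
    subst this
    rw [half_val]
    norm_num

lemma sign_bernoulli (k : ℕ) (hk : k ≠ 0) : 0 < (-1 : ℚ) ^ (k + 1) * _root_.bernoulli (2 * k) := by
  have h := hasSum_zeta_nat hk
  have h1 : (0 : ℝ) < (-1 : ℝ) ^ (k + 1) * (2 : ℝ) ^ (2 * k - 1) * Real.pi ^ (2 * k) *
        _root_.bernoulli (2 * k) / (2 * k).factorial := by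
    refine lt_of_lt_of_le ?_ (le_hasSum h 1 (fun j _ => by positivity))
    norm_num
  have h2 : (-1 : ℝ) ^ (k + 1) * (2 : ℝ) ^ (2 * k - 1) * Real.pi ^ (2 * k) *
        _root_.bernoulli (2 * k) / (2 * k).factorial =
      ((-1 : ℝ) ^ (k + 1) * _root_.bernoulli (2 * k)) *
        ((2 : ℝ) ^ (2 * k - 1) * Real.pi ^ (2 * k) / (2 * k).factorial) := by
    ring
  rw [h2] at h1
  have h3 : (0 : ℝ) < (2 : ℝ) ^ (2 * k - 1) * Real.pi ^ (2 * k) / (2 * k).factorial := by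
    positivity
  have h4 : (0 : ℝ) < (-1 : ℝ) ^ (k + 1) * _root_.bernoulli (2 * k) :=
    (pos_iff_pos_of_mul_pos h1).2 h3
  exact_mod_cast h4

lemma sign_half (k : ℕ) : 0 < (-1 : ℚ) ^ k * (Polynomial.bernoulli (2 * k)).eval (1 / 2) := by
  rcases Nat.eq_zero_or_pos k with rfl | hk
  · simp
  · have h := sign_bernoulli k hk.ne'
    rw [half_val]
    have h1 : (-1 : ℚ) ^ k * ((2 / 2 ^ (2 * k) - 1) * _root_.bernoulli (2 * k)) =
        (1 - 2 / 2 ^ (2 * k)) * ((-1 : ℚ) ^ (k + 1) * _root_.bernoulli (2 * k)) := by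
      rw [pow_succ]
      ring
    rw [h1]
    apply mul_pos _ h
    have h2 : (2 : ℚ) ^ 2 ≤ 2 ^ (2 * k) := pow_le_pow_right₀ (by norm_num) (by omega)
    have h3 : (2 : ℚ) / 2 ^ (2 * k) ≤ 2 / 4 := by
      apply div_le_div_of_nonneg_left (by norm_num) (by norm_num)
      linarith
    linarith

lemma hasse_bernoulli (n k : ℕ) (hk : k ≤ n) :
    hasseDeriv k (Polynomial.bernoulli n) = C (n.choose k : ℚ) * Polynomial.bernoulli (n - k) := by
  ext i
  rw [hasseDeriv_coeff, coeff_C_mul, coeff_bernoulli, coeff_bernoulli]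
  by_cases h : i + k ≤ n
  · rw [if_pos h, if_pos (by omega)]
    have h1 : n - (i + k) = n - k - i := by omega
    rw [h1]
    have h2 := Nat.choose_mul (n := n) (k := i + k) (s := k) (by omega)
    rw [Nat.add_sub_cancel] at h2
    have h3 : (n.choose (i + k) : ℚ) * (i + k).choose k = n.choose k * (n - k).choose i := by
      exact_mod_cast h2
    linear_combination (_root_.bernoulli (n - k - i)) * h3
  · rw [if_neg h, if_neg (by omega), mul_zero, mul_zero]

lemma taylor_half (n : ℕ) (K : Type*) [Field K] [Algebra ℚ K] (z : K) :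
    aeval (z + algebraMap ℚ K (1 / 2)) (Polynomial.bernoulli n) =
      ∑ k ∈ range (n + 1), algebraMap ℚ K ((n.choose k : ℚ) *
        (Polynomial.bernoulli (n - k)).eval (1 / 2)) * z ^ k := by
  have h1 : aeval z (taylor (1 / 2 : ℚ) (Polynomial.bernoulli n)) =
      aeval (z + algebraMap ℚ K (1 / 2)) (Polynomial.bernoulli n) := by
    rw [taylor_apply, aeval_comp]
    simp
  rw [← h1, aeval_eq_sum_range' (n := n + 1)]
  · apply Finset.sum_congr rfl
    intro k hk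
    rw [Finset.mem_range] at hk
    rw [taylor_coeff, hasse_bernoulli n k (by omega), Algebra.smul_def, eval_mul, eval_C]
  · rw [natDegree_taylor, natDegree_bernoulli]
    omega

lemma sum_even_odd {M : Type*} [AddCommMonoid M] (f : ℕ → M) (l : ℕ) :
    ∑ k ∈ range (2 * l + 1), f k = ∑ j ∈ range (l + 1), f (2 * j) + ∑ j ∈ range l, f (2 * j + 1) := by
  induction l with
  | zero => simp
  | succ n ih =>
    rw [show 2 * (n + 1) + 1 = 2 * n + 1 + 1 + 1 by ring, Finset.sum_range_succ,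
      Finset.sum_range_succ, ih, Finset.sum_range_succ (fun j => f (2 * j)) (n + 1),
      Finset.sum_range_succ (fun j => f (2 * j + 1)) n]
    rw [show 2 * (n + 1) = 2 * n + 1 + 1 by ring]
    abel

lemma aeval_QW (K : Type*) [Field K] [Algebra ℚ K] (z : K) (w : ℤ)
    (hz : z ^ 2 = algebraMap ℚ K ((w : ℚ) / 12)) :
    aeval (z + algebraMap ℚ K (1 / 2)) (QW w) = 0 := by
  have h : aeval (z + algebraMap ℚ K (1 / 2)) (QW w) =
      (z + algebraMap ℚ K (1 / 2)) ^ 2 - (z + algebraMap ℚ K (1 / 2)) +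
        algebraMap ℚ K (((3 - w : ℤ) : ℚ) / 12) := by
    simp [QW]
  rw [h]
  have h2 : (z + algebraMap ℚ K (1 / 2)) ^ 2 - (z + algebraMap ℚ K (1 / 2)) =
      z ^ 2 + algebraMap ℚ K (- (1 / 4)) + z * algebraMap ℚ K (2 * (1 / 2) - 1) := by
    rw [map_sub, map_mul, map_neg, map_ofNat, map_one]
    have h3 : algebraMap ℚ K (1 / 2) ^ 2 = algebraMap ℚ K (1 / 4) := by
      rw [← map_pow]; norm_num
    have h4 : algebraMap ℚ K (1 / 2) = 2 * algebraMap ℚ K (1 / 4) := by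
      rw [show (1 / 2 : ℚ) = 2 * (1 / 4) by norm_num, map_mul, map_ofNat]
    linear_combination h3 - h4
  rw [h2, hz]
  rw [show (2 * (1 / 2) - 1 : ℚ) = 0 by norm_num, map_zero, mul_zero, add_zero, ← map_add,
    ← map_add]
  rw [show ((w : ℚ) / 12 + -(1 / 4) + ((3 - w : ℤ) : ℚ) / 12) = 0 by push_cast; ring, map_zero]

lemma sum_eq_zero_of_dvd (l : ℕ) (w : ℤ) (hdiv : QW w ∣ Polynomial.bernoulli (2 * l)) :
    ∑ j ∈ range (l + 1), (((2 * l).choose (2 * j) : ℚ) *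
      (Polynomial.bernoulli (2 * l - 2 * j)).eval (1 / 2)) * ((w : ℚ) / 12) ^ j = 0 := by
  obtain ⟨z, hz⟩ := IsAlgClosed.exists_pow_nat_eq (algebraMap ℚ ℂ ((w : ℚ) / 12))
    (n := 2) (by norm_num)
  have h0 : aeval (z + algebraMap ℚ ℂ (1 / 2)) (Polynomial.bernoulli (2 * l)) = 0 := by
    obtain ⟨G, hG⟩ := hdiv
    rw [hG, map_mul, aeval_QW ℂ z w hz, zero_mul]
  rw [taylor_half, sum_even_odd] at h0
  have h1 : ∑ j ∈ range l, algebraMap ℚ ℂ (((2 * l).choose (2 * j + 1) : ℚ) *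
        (Polynomial.bernoulli (2 * l - (2 * j + 1))).eval (1 / 2)) * z ^ (2 * j + 1) = 0 := by
    apply Finset.sum_eq_zero
    intro j hj
    rw [Finset.mem_range] at hj
    rw [half_odd _ ⟨l - j - 1, by omega⟩]
    simp
  rw [h1, add_zero] at h0
  have h2 : algebraMap ℚ ℂ (∑ j ∈ range (l + 1), (((2 * l).choose (2 * j) : ℚ) *
      (Polynomial.bernoulli (2 * l - 2 * j)).eval (1 / 2)) * ((w : ℚ) / 12) ^ j) = 0 := by
    rw [map_sum, ← h0]
    apply Finset.sum_congr rfl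
    intro j _
    rw [map_mul, map_pow, ← hz, ← pow_mul]
  exact (map_eq_zero_iff _ (algebraMap ℚ ℂ).injective).1 h2

end QAaux

open QAaux

/-- (QA1) Bernoulli polynomials of even degree do not vanish at `1/2 + i y`. -/
theorem qa_pos (l : ℕ) (hl : 1 ≤ l) (w : ℤ) (hdiv : QW w ∣ Polynomial.bernoulli (2 * l)) :
    0 < w := by
  by_contra hw
  push Not at hw
  have h := sum_eq_zero_of_dvd l w hdiv
  have hw' : (0 : ℚ) ≤ -((w : ℚ) / 12) := by
    have : (w : ℚ) ≤ 0 := by exact_mod_cast hw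
    linarith
  have h1 : ∑ j ∈ range (l + 1), (((2 * l).choose (2 * j) : ℚ) *
      ((-1 : ℚ) ^ (l - j) * (Polynomial.bernoulli (2 * (l - j))).eval (1 / 2))) *
        (-((w : ℚ) / 12)) ^ j = 0 := by
    have h2 : ∑ j ∈ range (l + 1), (((2 * l).choose (2 * j) : ℚ) *
      ((-1 : ℚ) ^ (l - j) * (Polynomial.bernoulli (2 * (l - j))).eval (1 / 2))) *
        (-((w : ℚ) / 12)) ^ j = (-1) ^ l * ∑ j ∈ range (l + 1), (((2 * l).choose (2 * j) : ℚ) *
      (Polynomial.bernoulli (2 * l - 2 * j)).eval (1 / 2)) * ((w : ℚ) / 12) ^ j := by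
      rw [Finset.mul_sum]
      apply Finset.sum_congr rfl
      intro j hj
      rw [Finset.mem_range] at hj
      have h3 : (-1 : ℚ) ^ l = (-1) ^ (l - j) * (-1) ^ j := by
        rw [← pow_add]; congr 1; omega
      rw [show 2 * l - 2 * j = 2 * (l - j) by omega, neg_pow ((w : ℚ) / 12) j, h3]
      ring
    rw [h2, h, mul_zero]
  have h4 : 0 < ∑ j ∈ range (l + 1), (((2 * l).choose (2 * j) : ℚ) *
      ((-1 : ℚ) ^ (l - j) * (Polynomial.bernoulli (2 * (l - j))).eval (1 / 2))) *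
        (-((w : ℚ) / 12)) ^ j := by
    apply Finset.sum_pos'
    · intro j _
      have := sign_half (l - j)
      positivity
    · refine ⟨0, by simp, ?_⟩
      have := sign_half l
      simpa using this
  linarith

namespace QAaux

lemma bernoulliFun_one_add (n : ℕ) (x : ℝ) :
    bernoulliFun n (1 + x) = bernoulliFun n x + n * x ^ (n - 1) := by
  have h := bernoulli_comp_one_add_X n
  have h2 := congrArg (fun f : ℚ[X] => aeval x f) h
  simp only [aeval_comp] at h2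
  rw [bernoulliFun, bernoulliFun, eval_map_algebraMap, eval_map_algebraMap]
  simpa using h2

lemma bernoulliFun_add_nat (n : ℕ) (x : ℝ) (m : ℕ) :
    bernoulliFun n (x + m) = bernoulliFun n x + n * ∑ i ∈ range m, (x + i) ^ (n - 1) := by
  induction m with
  | zero => simp
  | succ m ih =>
    rw [Finset.sum_range_succ, show x + ((m + 1 : ℕ) : ℝ) = 1 + (x + m) by push_cast; ring,
      bernoulliFun_one_add, ih]
    ring

lemma abs_bernoulliFun_le (l : ℕ) (hl : 1 ≤ l) (θ : ℝ) (hθ : θ ∈ Set.Icc (0 : ℝ) 1) :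
    |bernoulliFun (2 * l) θ| ≤ 4 * ((l : ℝ) ^ 2 / 19) ^ l := by
  have h := hasSum_one_div_nat_pow_mul_cos (k := l) (by omega) hθ
  have h1 := HasSum.norm_le_of_bounded h hasSum_zeta_two (fun n => by
    rw [Real.norm_eq_abs, abs_mul]
    have hc : |Real.cos (2 * Real.pi * n * θ)| ≤ 1 := Real.abs_cos_le_one _
    rcases Nat.eq_zero_or_pos n with rfl | hn
    · have : (2 * l) ≠ 0 := by omega
      simp [this]
    · have hn1 : (1 : ℝ) ≤ n := by exact_mod_cast hn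
      have h2 : (n : ℝ) ^ 2 ≤ (n : ℝ) ^ (2 * l) := pow_le_pow_right₀ hn1 (by omega)
      have h3 : |1 / (n : ℝ) ^ (2 * l)| = 1 / (n : ℝ) ^ (2 * l) := abs_of_nonneg (by positivity)
      rw [h3]
      calc 1 / (n : ℝ) ^ (2 * l) * |Real.cos (2 * Real.pi * n * θ)|
          ≤ 1 / (n : ℝ) ^ (2 * l) * 1 := by
            apply mul_le_mul_of_nonneg_left hc (by positivity)
        _ ≤ 1 / (n : ℝ) ^ 2 := by
            rw [mul_one]
            exact one_div_le_one_div_of_le (by positivity) h2)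
  have hpi : Real.pi ^ 2 / 6 ≤ 2 := by
    have := Real.pi_lt_d2
    have h0 := Real.pi_pos
    nlinarith
  have hpi2 : (38 : ℝ) ≤ (2 * Real.pi) ^ 2 := by
    have := Real.pi_gt_d2
    nlinarith
  have hfac : ((2 * l).factorial : ℝ) ≤ (2 * (l : ℝ) ^ 2) ^ l := by
    have h1 := Nat.factorial_two_mul_le l
    have h2 := Nat.factorial_le_pow l
    have h3 : (2 * l).factorial ≤ (2 * l) ^ l * l ^ l := h1.trans (Nat.mul_le_mul_left _ h2)
    have h4 : ((2 * l).factorial : ℝ) ≤ (2 * (l : ℝ)) ^ l * (l : ℝ) ^ l := by exact_mod_cast h3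
    refine h4.trans (le_of_eq ?_)
    rw [← mul_pow]
    congr 1
    ring
  have hB : (Polynomial.map (algebraMap ℚ ℝ) (Polynomial.bernoulli (2 * l))).eval θ =
      bernoulliFun (2 * l) θ := rfl
  rw [hB, Real.norm_eq_abs, abs_mul] at h1
  have hf : (0 : ℝ) < ((2 * l).factorial : ℝ) := by positivity
  have hA : |(-1 : ℝ) ^ (l + 1) * (2 * Real.pi) ^ (2 * l) / 2 / (2 * l).factorial| =
      (2 * Real.pi) ^ (2 * l) / 2 / (2 * l).factorial := by
    rw [abs_div, abs_div, abs_mul, abs_pow, abs_neg, abs_one, one_pow, one_mul,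
      abs_of_pos hf, abs_of_pos (by norm_num : (0 : ℝ) < 2),
      abs_of_nonneg (by positivity : (0 : ℝ) ≤ (2 * Real.pi) ^ (2 * l))]
  rw [hA] at h1
  have h5 := h1.trans hpi
  set Bv := |bernoulliFun (2 * l) θ| with hBv
  have hBv0 : 0 ≤ Bv := abs_nonneg _
  have h6 : (2 * Real.pi) ^ (2 * l) * Bv ≤ 4 * (2 * l).factorial := by
    have h7 : (2 * Real.pi) ^ (2 * l) / 2 / (2 * l).factorial * Bv * (2 * (2 * l).factorial) ≤
        2 * (2 * (2 * l).factorial) := mul_le_mul_of_nonneg_right h5 (by positivity)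
    have h8 : (2 * Real.pi) ^ (2 * l) / 2 / (2 * l).factorial * Bv * (2 * (2 * l).factorial) =
        (2 * Real.pi) ^ (2 * l) * Bv := by
      field_simp
    rw [h8] at h7
    linarith
  have h9 : (38 : ℝ) ^ l ≤ (2 * Real.pi) ^ (2 * l) := by
    rw [pow_mul]
    exact pow_le_pow_left₀ (by norm_num) hpi2 l
  have h10 : (38 : ℝ) ^ l * Bv ≤ 4 * (2 * (l : ℝ) ^ 2) ^ l :=
    calc (38 : ℝ) ^ l * Bv ≤ (2 * Real.pi) ^ (2 * l) * Bv :=
          mul_le_mul_of_nonneg_right h9 hBv0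
      _ ≤ 4 * (2 * l).factorial := h6
      _ ≤ 4 * (2 * (l : ℝ) ^ 2) ^ l := by linarith
  have h11 : (2 * (l : ℝ) ^ 2) ^ l = 38 ^ l * ((l : ℝ) ^ 2 / 19) ^ l := by
    rw [← mul_pow]
    congr 1
    ring
  rw [h11] at h10
  have h12 : (0 : ℝ) < 38 ^ l := by positivity
  nlinarith

end QAaux

/-- (QA2) Large real numbers are not zeros of Bernoulli polynomials. -/
theorem qa_lt : ∃ l0 : ℕ, ∀ l : ℕ, l0 ≤ l → ∀ w : ℤ, QW w ∣ Polynomial.bernoulli (2 * l) →
    w < (l : ℤ) ^ 2 := by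
  refine ⟨52, fun l hl w hdiv => ?_⟩
  by_contra hw
  push Not at hw
  have hlR : (52 : ℝ) ≤ l := by exact_mod_cast hl
  have hwR : (l : ℝ) ^ 2 ≤ w := by exact_mod_cast hw
  set s := Real.sqrt ((w : ℝ) / 12) with hs
  have hw0 : (0 : ℝ) ≤ (w : ℝ) / 12 := by
    have : (0 : ℝ) ≤ (l : ℝ) ^ 2 := by positivity
    linarith
  have hs2 : s ^ 2 = (w : ℝ) / 12 := Real.sq_sqrt hw0
  have hs0 : 0 ≤ s := Real.sqrt_nonneg _
  have hroot : bernoulliFun (2 * l) (s + 1 / 2) = 0 := by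
    have h1 := aeval_QW ℝ s w (by rw [hs2]; simp)
    obtain ⟨G, hG⟩ := hdiv
    have h2 : aeval (s + algebraMap ℚ ℝ (1 / 2)) (Polynomial.bernoulli (2 * l)) = 0 := by
      rw [hG, map_mul, h1, zero_mul]
    rw [bernoulliFun, eval_map_algebraMap, ← h2]
    simp
  have hsl : 0.2886 * (l : ℝ) ≤ s := by
    apply le_of_sq_le_sq _ hs0
    rw [hs2]
    nlinarith
  set x0 := s + 1 / 2 with hx0
  have hx0pos : 0 ≤ x0 := by positivity
  set m := ⌊x0⌋₊ with hm
  have hm1 : (m : ℝ) ≤ x0 := Nat.floor_le hx0pos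
  have hm2 : x0 < m + 1 := Nat.lt_floor_add_one x0
  have hmpos : 1 ≤ m := by
    have : (1 : ℝ) ≤ x0 := by
      rw [hx0]; nlinarith
    exact Nat.le_floor (by exact_mod_cast this)
  have hθ : (x0 - m) ∈ Set.Icc (0 : ℝ) 1 := ⟨by linarith, by linarith⟩
  have hB := bernoulliFun_add_nat (2 * l) (x0 - m) m
  rw [sub_add_cancel, hroot] at hB
  have habs := abs_bernoulliFun_le l (by omega) (x0 - m) hθ
  have hsum : (x0 - 1) ^ (2 * l - 1) ≤ ∑ i ∈ range m, (x0 - m + i) ^ (2 * l - 1) := by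
    have h1 : (x0 - 1) ^ (2 * l - 1) = (fun i : ℕ => (x0 - m + i) ^ (2 * l - 1)) (m - 1) := by
      simp only
      congr 1
      rw [Nat.cast_sub hmpos]
      push_cast
      ring
    rw [h1]
    apply Finset.single_le_sum (f := fun i : ℕ => (x0 - m + i) ^ (2 * l - 1))
    · intro i _
      have : 0 ≤ x0 - m + (i : ℝ) := by
        have := hθ.1
        positivity
      positivity
    · rw [Finset.mem_range]; omega
  have hc : 0.2775 * (l : ℝ) ≤ x0 - 1 := by
    rw [hx0]; nlinarith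
  have hpow : (0.2775 * (l : ℝ)) ^ (2 * l - 1) ≤ (x0 - 1) ^ (2 * l - 1) :=
    pow_le_pow_left₀ (by positivity) hc _
  have hlower := neg_abs_le (bernoulliFun (2 * l) (x0 - m))
  have hl0 : (0 : ℝ) < l := by linarith
  have h13 : ((2 * l : ℕ) : ℝ) * (0.2775 * (l : ℝ)) ^ (2 * l - 1) ≤ 4 * ((l : ℝ) ^ 2 / 19) ^ l := by
    have h14 : ((2 * l : ℕ) : ℝ) * (0.2775 * (l : ℝ)) ^ (2 * l - 1) ≤
        ((2 * l : ℕ) : ℝ) * ∑ i ∈ range m, (x0 - m + i) ^ (2 * l - 1) :=
      mul_le_mul_of_nonneg_left (hpow.trans hsum) (by positivity)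
    linarith
  have h15 : ((2 * l : ℕ) : ℝ) * (0.2775 * (l : ℝ)) ^ (2 * l - 1) * (0.2775 * (l : ℝ)) =
      2 * l * ((0.2775 * (l : ℝ)) ^ 2) ^ l := by
    rw [mul_assoc, ← pow_succ, show 2 * l - 1 + 1 = 2 * l by omega, pow_mul]
    push_cast
    ring
  have h16 : ((l : ℝ) ^ 2 / 13) ^ l ≤ ((0.2775 * (l : ℝ)) ^ 2) ^ l := by
    apply pow_le_pow_left₀ (by positivity)
    nlinarith [sq_nonneg (l : ℝ)]
  have h17 : ((l : ℝ) ^ 2 / 19) ^ l ≤ ((l : ℝ) ^ 2 / 13) ^ l := by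
    apply pow_le_pow_left₀ (by positivity)
    nlinarith [sq_nonneg (l : ℝ)]
  have h18 : ((2 * l : ℕ) : ℝ) * (0.2775 * (l : ℝ)) ^ (2 * l - 1) * (0.2775 * (l : ℝ)) ≤
      4 * ((l : ℝ) ^ 2 / 19) ^ l * (0.2775 * (l : ℝ)) :=
    mul_le_mul_of_nonneg_right h13 (by positivity)
  rw [h15] at h18
  have h19 : (0 : ℝ) < (l : ℝ) * ((l : ℝ) ^ 2 / 13) ^ l := by positivity
  have h20 : 2 * l * ((l : ℝ) ^ 2 / 13) ^ l ≤ 2 * l * ((0.2775 * (l : ℝ)) ^ 2) ^ l :=
    mul_le_mul_of_nonneg_left h16 (by positivity)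
  have h21 : 4 * ((l : ℝ) ^ 2 / 19) ^ l * (0.2775 * (l : ℝ)) ≤
      4 * ((l : ℝ) ^ 2 / 13) ^ l * (0.2775 * (l : ℝ)) := by
    apply mul_le_mul_of_nonneg_right _ (by positivity)
    linarith
  nlinarith

end Pool.Agent.Bern2
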