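import Mathlib
import Pool.Agent.Bern2.Defs

namespace Pool.Agent.Bern2

open Polynomial Finset Pool.Agent.Helper29 Pool.Agent.Helper98.Bern

/-- `LB` as a linear map. -/
noncomputable def qeL : ℚ[X] →ₗ[ℚ] ℚ :=
  Polynomial.lsum (fun j => (LinearMap.id : ℚ →ₗ[ℚ] ℚ).smulRight (_root_.bernoulli j))

theorem qeL_eq (f : ℚ[X]) : LB f = qeL f := by
  unfold LB qeL
  rw [Polynomial.lsum_apply]
  rfl

theorem qeL_pow (n : ℕ) : qeL (X ^ n) = _root_.bernoulli n := by
  rw [← qeL_eq]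
  unfold LB
  rw [← Polynomial.monomial_one_right_eq_X_pow, Polynomial.sum_monomial_index]
  · simp
  · simp

/-- `L(A^m)` -/
noncomputable def qeA (m : ℕ) : ℚ := qeL (AA ^ m)

theorem qeA_sum (m : ℕ) : qeA m = ∑ i ∈ range (m + 1), (m.choose i : ℚ) * _root_.bernoulli (m + i) := by
  unfold qeA AA
  rw [add_pow, map_sum]
  apply Finset.sum_congr rfl
  intro i hi
  have hi' : i ≤ m := Nat.lt_succ_iff.1 (mem_range.1 hi)
  have h1 : ((X : ℚ[X]) ^ 2) ^ i * X ^ (m - i) * (m.choose i : ℚ[X]) =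
      (m.choose i : ℚ) • X ^ (m + i) := by
    have h2 : 2 * i + (m - i) = m + i := by omega
    rw [← pow_mul, ← pow_add, Polynomial.smul_eq_C_mul, mul_comm, h2]
    simp
  rw [h1, map_smul, qeL_pow, smul_eq_mul]

theorem qe_b6 : _root_.bernoulli 6 = 1 / 42 := by
  have h4 : _root_.bernoulli' 4 = -1 / 30 := bernoulli'_four
  have h5 : _root_.bernoulli' 5 = 0 := bernoulli'_eq_zero_of_odd (by decide) (by norm_num)
  rw [bernoulli_eq_bernoulli'_of_ne_one (by norm_num), bernoulli'_def]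
  norm_num [Finset.sum_range_succ, h4, h5, Nat.choose]

theorem qe_b8 : _root_.bernoulli 8 = -1 / 30 := by
  have h4 : _root_.bernoulli' 4 = -1 / 30 := bernoulli'_four
  have h5 : _root_.bernoulli' 5 = 0 := bernoulli'_eq_zero_of_odd (by decide) (by norm_num)
  have h6 : _root_.bernoulli' 6 = 1 / 42 := by
    rw [← bernoulli_eq_bernoulli'_of_ne_one (by norm_num), qe_b6]
  have h7 : _root_.bernoulli' 7 = 0 := bernoulli'_eq_zero_of_odd (by decide) (by norm_num)
  rw [bernoulli_eq_bernoulli'_of_ne_one (by norm_num), bernoulli'_def]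
  norm_num [Finset.sum_range_succ, h4, h5, h6, h7, Nat.choose]

theorem qe_b10 : _root_.bernoulli 10 = 5 / 66 := by
  have h4 : _root_.bernoulli' 4 = -1 / 30 := bernoulli'_four
  have h5 : _root_.bernoulli' 5 = 0 := bernoulli'_eq_zero_of_odd (by decide) (by norm_num)
  have h6 : _root_.bernoulli' 6 = 1 / 42 := by
    rw [← bernoulli_eq_bernoulli'_of_ne_one (by norm_num), qe_b6]
  have h7 : _root_.bernoulli' 7 = 0 := bernoulli'_eq_zero_of_odd (by decide) (by norm_num)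
  have h8 : _root_.bernoulli' 8 = -1 / 30 := by
    rw [← bernoulli_eq_bernoulli'_of_ne_one (by norm_num), qe_b8]
  have h9 : _root_.bernoulli' 9 = 0 := bernoulli'_eq_zero_of_odd (by decide) (by norm_num)
  rw [bernoulli_eq_bernoulli'_of_ne_one (by norm_num), bernoulli'_def]
  norm_num [Finset.sum_range_succ, h4, h5, h6, h7, h8, h9, Nat.choose]

theorem qe_b4 : _root_.bernoulli 4 = -1 / 30 := by
  rw [bernoulli_eq_bernoulli'_of_ne_one (by norm_num)]; exact bernoulli'_four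

theorem qe_odd {n : ℕ} (h : Odd n) (h1 : 1 < n) : _root_.bernoulli n = 0 :=
  bernoulli_eq_zero_of_odd h h1

theorem qeA_vals : qeA 0 = 1 ∧ qeA 1 = -1 / 3 ∧ qeA 2 = 2 / 15 ∧ qeA 3 = -8 / 105 ∧
    qeA 4 = 8 / 105 ∧ qeA 5 = -32 / 231 := by
  have h3 := qe_odd (n := 3) (by decide) (by norm_num)
  have h5 := qe_odd (n := 5) (by decide) (by norm_num)
  have h7 := qe_odd (n := 7) (by decide) (by norm_num)
  have h9 := qe_odd (n := 9) (by decide) (by norm_num)
  have h4 := qe_b4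
  have h6 := qe_b6
  have h8 := qe_b8
  have h10 := qe_b10
  have h2 := bernoulli_two
  have h1 := _root_.bernoulli_one
  have h0 := _root_.bernoulli_zero
  refine ⟨?_, ?_, ?_, ?_, ?_, ?_⟩ <;>
  · rw [qeA_sum]
    norm_num [Finset.sum_range_succ, Nat.choose, h0, h1, h2, h3, h4, h5, h6, h7, h8, h9, h10]

theorem qe_PI_half (n : ℕ) (hn : 2 ≤ n) :
    PI 2 (_root_.bernoulli n + (1 + (-1) ^ n) / 4) := by
  have hp : Nat.Prime 2 := Nat.prime_two
  rcases Nat.even_or_odd n with he | ho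
  · obtain ⟨k, hk⟩ := he
    have hk2 : n = 2 * k := by omega
    subst hk2
    obtain ⟨z, hz⟩ := Bernoulli.vonStaudt_clausen k
    have h2mem : 2 ∈ (range (2 * k + 2)).filter (fun q => q.Prime ∧ (q - 1) ∣ 2 * k) := by
      rw [mem_filter, mem_range]
      exact ⟨by omega, hp, by norm_num⟩
    have h1 : _root_.bernoulli (2 * k) + (1 + (-1) ^ (2 * k)) / 4 = (z : ℚ) +
        -(∑ q ∈ ((range (2 * k + 2)).filter (fun q => q.Prime ∧ (q - 1) ∣ 2 * k)).erase 2,
          ((1 : ℚ) / q)) := by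
      have h3 := Finset.add_sum_erase _ (fun q : ℕ => ((1 : ℚ) / q)) h2mem
      have h4 : ((-1 : ℚ)) ^ (2 * k) = 1 := by rw [pow_mul]; norm_num
      rw [h4]
      rw [← h3] at hz
      push_cast at hz
      linear_combination -hz
    rw [h1]
    apply PI.add hp (PI.int hp z)
    apply PI.neg hp
    apply PI.sum hp
    intro q hq
    rw [mem_erase, mem_filter] at hq
    refine ⟨q, 1, ?_, ?_⟩
    · intro h
      have : 2 ∣ q := by exact_mod_cast h
      exact hq.1 ((Nat.prime_dvd_prime_iff_eq hp hq.2.2.1).mp this).symm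
    · have hq0 : (q : ℚ) ≠ 0 := by exact_mod_cast hq.2.2.1.ne_zero
      push_cast
      field_simp
  · rw [qe_odd ho (by omega), ho.neg_one_pow]
    simpa using PI.int hp 0

theorem qe_PI_A (m : ℕ) : PI 2 (qeA m) := by
  have hp : Nat.Prime 2 := Nat.prime_two
  obtain ⟨h0, h1, -⟩ := qeA_vals
  rcases Nat.lt_or_ge m 2 with hm | hm
  · interval_cases m
    · rw [h0]; simpa using PI.int hp 1
    · rw [h1]; exact ⟨3, -1, by norm_num, by norm_num⟩
  · have h2 : qeA m = (∑ i ∈ range (m + 1), (m.choose i : ℚ) *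
        (_root_.bernoulli (m + i) + (1 + (-1) ^ (m + i)) / 4)) + -((2 ^ (m - 2) : ℕ) : ℚ) := by
      rw [qeA_sum]
      have h3 : ∑ i ∈ range (m + 1), (m.choose i : ℚ) *
          (_root_.bernoulli (m + i) + (1 + (-1) ^ (m + i)) / 4) =
          ∑ i ∈ range (m + 1), (m.choose i : ℚ) * _root_.bernoulli (m + i) +
          (1 / 4) * (∑ i ∈ range (m + 1), (m.choose i : ℚ)) +
          ((-1) ^ m / 4) * (∑ i ∈ range (m + 1), (-1) ^ i * (m.choose i : ℚ)) := by
        rw [Finset.mul_sum, Finset.mul_sum, ← Finset.sum_add_distrib, ← Finset.sum_add_distrib]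
        apply Finset.sum_congr rfl
        intro i _
        rw [pow_add]
        ring
      have h4 : (∑ i ∈ range (m + 1), (m.choose i : ℚ)) = 2 ^ m := by
        exact_mod_cast Nat.sum_range_choose m
      have h5 : (∑ i ∈ range (m + 1), (-1) ^ i * (m.choose i : ℚ)) = 0 := by
        exact_mod_cast Int.alternating_sum_range_choose_of_ne (n := m) (by omega)
      rw [h3, h4, h5]
      obtain ⟨j, rfl⟩ : ∃ j, m = j + 2 := ⟨m - 2, by omega⟩
      have h6 : j + 2 - 2 = j := by omega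
      rw [h6]
      push_cast
      rw [pow_add]
      ring
    rw [h2]
    apply PI.add hp
    · apply PI.sum hp
      intro i hi
      exact PI.mul hp (PI.nat hp _) (qe_PI_half _ (by omega))
    · exact PI.neg hp (PI.nat hp _)

/-! ### combinatorial identities -/

theorem qe_choose (n j : ℕ) : (n.choose j : ℚ) = (∏ l ∈ range j, ((n : ℚ) - l)) / (j.factorial : ℚ) := by
  induction j with
  | zero => simp
  | succ j ih =>
    have h1 : ((n.choose (j + 1) : ℕ) : ℚ) * ((j : ℚ) + 1) = (n.choose j : ℚ) * ((n : ℚ) - j) := by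
      rcases Nat.lt_or_ge n j with h | h
      · rw [Nat.choose_eq_zero_of_lt (by omega : n < j + 1), Nat.choose_eq_zero_of_lt h]
        simp
      · have h2 := Nat.choose_succ_right_eq n j
        rw [← Nat.cast_sub h]
        exact_mod_cast h2
    have h2 : ((j : ℚ) + 1) ≠ 0 := by positivity
    have h3 : ((j.factorial : ℕ) : ℚ) ≠ 0 := by exact_mod_cast Nat.factorial_ne_zero j
    rw [Finset.prod_range_succ, Nat.factorial_succ]
    push_cast
    rw [eq_div_iff (by positivity)]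
    rw [ih] at h1
    field_simp at h1
    linear_combination h1

/-- `∏_{i<k} (2i+1)` -/
def qeD (k : ℕ) : ℕ := ∏ i ∈ range k, (2 * i + 1)

theorem qeD_odd (k : ℕ) : Odd (qeD k) := by
  induction k with
  | zero => simp [qeD]
  | succ k ih =>
    unfold qeD
    rw [Finset.prod_range_succ]
    exact ih.mul ⟨k, rfl⟩

noncomputable def qek (k : ℕ) : ℚ := 4 ^ k / ((k.factorial : ℚ) * (qeD (k + 1) : ℚ))

noncomputable def qea (k : ℕ) (x : ℚ) : ℚ :=
  qek k * ∏ i ∈ range k, ((x - i) * (2 * x - 2 * i - 1))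

noncomputable def qeb (k j : ℕ) (x : ℚ) : ℚ :=
  4 ^ j / (j.factorial : ℚ) * ∏ l ∈ range j, (x - k - l)

theorem qea_eq (t k : ℕ) : ((2 * t).choose (2 * k) : ℚ) / (2 * k + 1) * 4 ^ k = qea k t := by
  have h : ∀ k : ℕ, ((2 * t).choose (2 * k) : ℚ) =
      (∏ i ∈ range k, (((t : ℚ) - i) * (2 * t - 2 * i - 1))) / ((k.factorial : ℚ) * (qeD k : ℚ)) := by
    intro k
    rw [qe_choose]
    induction k with
    | zero => simp [qeD]
    | succ k ih =>
      have h1 : 2 * (k + 1) = 2 * k + 1 + 1 := by ring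
      have h2 : ((k.factorial : ℕ) : ℚ) ≠ 0 := by exact_mod_cast Nat.factorial_ne_zero k
      have h3 : (((2 * k).factorial : ℕ) : ℚ) ≠ 0 := by exact_mod_cast Nat.factorial_ne_zero (2 * k)
      have h4 : ((qeD k : ℕ) : ℚ) ≠ 0 := by
        have := (qeD_odd k).pos
        positivity
      rw [h1, Finset.prod_range_succ, Finset.prod_range_succ, Nat.factorial_succ,
        Nat.factorial_succ, Finset.prod_range_succ _ k, Nat.factorial_succ]
      have h5 : qeD (k + 1) = qeD k * (2 * k + 1) := by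
        unfold qeD
        rw [Finset.prod_range_succ]
      rw [h5]
      rw [div_eq_div_iff h3 (by positivity)] at ih
      push_cast at ih ⊢
      rw [div_eq_div_iff (by positivity) (by positivity)]
      linear_combination (2 * (t - k) * (2 * t - (2 * k + 1)) * (k + 1) * (2 * k + 1) : ℚ) * ih
  have h2 : ((k.factorial : ℕ) : ℚ) ≠ 0 := by exact_mod_cast Nat.factorial_ne_zero k
  have h4 : ((qeD k : ℕ) : ℚ) ≠ 0 := by
    have := (qeD_odd k).pos
    positivity
  have h5 : qeD (k + 1) = qeD k * (2 * k + 1) := by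
    unfold qeD
    rw [Finset.prod_range_succ]
  have h6 : ((2 * k + 1 : ℕ) : ℚ) ≠ 0 := by positivity
  unfold qea qek
  rw [h k, h5]
  generalize (∏ i ∈ range k, (((t : ℚ) - i) * (2 * t - 2 * i - 1))) = P
  push_cast at h6 ⊢
  field_simp

theorem qeb_eq (t k j : ℕ) (hk : k ≤ t) : (4 : ℚ) ^ j * ((t - k).choose j : ℚ) = qeb k j t := by
  unfold qeb
  rw [qe_choose, Nat.cast_sub hk]
  ring

/-- `L(A^j (ψ+A)^(2k+1))` -/
noncomputable def qeG (k j : ℕ) (ψ : ℚ) : ℚ :=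
  ∑ m ∈ range (2 * k + 1 + 1), ψ ^ m * ((2 * k + 1).choose m : ℚ) * qeA (j + (2 * k + 1 - m))

theorem qeG_eq (k j : ℕ) (ψ : ℚ) : qeL (AA ^ j * (C ψ + AA) ^ (2 * k + 1)) = qeG k j ψ := by
  unfold qeG
  rw [add_pow, Finset.mul_sum, map_sum]
  apply Finset.sum_congr rfl
  intro m _
  have h1 : AA ^ j * (C ψ ^ m * AA ^ (2 * k + 1 - m) * ((2 * k + 1).choose m : ℚ[X])) =
      (ψ ^ m * ((2 * k + 1).choose m : ℚ)) • AA ^ (j + (2 * k + 1 - m)) := by
    rw [Polynomial.smul_eq_C_mul, C_mul, C_pow, pow_add]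
    simp only [map_natCast]
    ring
  rw [h1, map_smul, smul_eq_mul]
  rfl

theorem qe_Et (t M : ℕ) (hM : t < M) (ψ θ : ℚ) :
    Et t ψ θ = ∑ p ∈ range M ×ˢ range M, qea p.1 t * qeb p.1 p.2 t * θ ^ p.1 * qeG p.1 p.2 ψ := by
  rw [Finset.sum_product]
  unfold Et
  have h1 : ∀ k ∈ range (t + 1), ((2 * t).choose (2 * k) : ℚ) / (2 * k + 1) * (4 * θ) ^ k *
      LB ((1 + 4 * AA) ^ (t - k) * (C ψ + AA) ^ (2 * k + 1)) =
      ∑ j ∈ range M, qea k t * qeb k j t * θ ^ k * qeG k j ψ := by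
    intro k hk
    have hk' : k ≤ t := Nat.lt_succ_iff.1 (mem_range.1 hk)
    have h2 : LB ((1 + 4 * AA) ^ (t - k) * (C ψ + AA) ^ (2 * k + 1)) =
        ∑ j ∈ range (t - k + 1), (4 : ℚ) ^ j * ((t - k).choose j : ℚ) * qeG k j ψ := by
      rw [qeL_eq, add_comm (1 : ℚ[X]), add_pow, Finset.sum_mul, map_sum]
      apply Finset.sum_congr rfl
      intro j _
      have h3 : (4 * AA) ^ j * 1 ^ (t - k - j) * ((t - k).choose j : ℚ[X]) *
          (C ψ + AA) ^ (2 * k + 1) =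
          ((4 : ℚ) ^ j * ((t - k).choose j : ℚ)) • (AA ^ j * (C ψ + AA) ^ (2 * k + 1)) := by
        rw [Polynomial.smul_eq_C_mul, C_mul, C_pow]
        simp only [map_natCast]
        have h4 : (C (4 : ℚ) : ℚ[X]) = 4 := rfl
        rw [h4]
        ring
      rw [h3, map_smul, smul_eq_mul, qeG_eq]
    have h3 : ∑ j ∈ range (t - k + 1), (4 : ℚ) ^ j * ((t - k).choose j : ℚ) * qeG k j ψ =
        ∑ j ∈ range M, (4 : ℚ) ^ j * ((t - k).choose j : ℚ) * qeG k j ψ := by
      apply Finset.sum_subset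
      · intro j hj
        rw [mem_range] at hj ⊢
        omega
      · intro j _ hj
        rw [mem_range, not_lt] at hj
        rw [Nat.choose_eq_zero_of_lt (by omega : t - k < j)]
        simp
    rw [h2, h3, Finset.mul_sum]
    apply Finset.sum_congr rfl
    intro j _
    rw [qeb_eq t k j hk', ← qea_eq, mul_pow]
    ring
  rw [Finset.sum_congr rfl h1]
  apply Finset.sum_subset
  · intro k hk
    rw [mem_range] at hk ⊢
    omega
  · intro k _ hk
    rw [mem_range, not_lt] at hk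
    apply Finset.sum_eq_zero
    intro j _
    rw [← qea_eq, Nat.choose_eq_zero_of_lt (by omega : 2 * t < 2 * k)]
    simp

/-! ### 2-integrality of the constants -/

theorem qe_PI_fact (k : ℕ) (hk : 1 ≤ k) : PI 2 (2 ^ (k - 1) / (k.factorial : ℚ)) := by
  obtain ⟨v, k', hk', hf⟩ := Nat.exists_eq_pow_mul_and_not_dvd (Nat.factorial_ne_zero k) 2 (by norm_num)
  have hv : v ≤ k - 1 := by
    have h1 := Nat.emultiplicity_two_factorial_lt (n := k) (by omega)
    have h2 : (v : ℕ∞) ≤ emultiplicity 2 k.factorial :=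
      le_emultiplicity_of_pow_dvd (Dvd.intro _ hf.symm)
    have h3 : (v : ℕ∞) < k := lt_of_le_of_lt h2 h1
    have h4 : v < k := by exact_mod_cast h3
    omega
  have hk0 : (k' : ℚ) ≠ 0 := by
    rintro h0
    have : k' = 0 := by exact_mod_cast h0
    subst this
    simp at hk'
  refine ⟨k', 2 ^ (k - 1 - v), ?_, ?_⟩
  · intro h1
    exact hk' (by exact_mod_cast h1)
  · rw [hf]
    push_cast
    have : (2 : ℚ) ^ (k - 1) = 2 ^ v * 2 ^ (k - 1 - v) := by
      rw [← pow_add]; congr 1; omega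
    rw [this]
    field_simp

theorem qe_PI_pow (r : ℕ) : PI 2 ((2 : ℚ) ^ r) := by
  have := PI.nat Nat.prime_two (2 ^ r)
  exact_mod_cast this

theorem qe_PI_four (k : ℕ) (hk : 1 ≤ k) : PI 2 (4 ^ k / (k.factorial : ℚ) / 4) ∧
    (3 ≤ k → PI 2 (4 ^ k / (k.factorial : ℚ) / 16)) ∧ PI 2 (4 ^ k / (k.factorial : ℚ)) := by
  have hp := Nat.prime_two
  have h1 := qe_PI_fact k hk
  have h4 : (4 : ℚ) ^ k = 2 ^ (k - 1) * (2 ^ (k - 1) * 4) := by
    obtain ⟨j, rfl⟩ : ∃ j, k = j + 1 := ⟨k - 1, by omega⟩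
    rw [Nat.add_sub_cancel, pow_succ, show (4 : ℚ) = 2 * 2 by norm_num, mul_pow]
    ring
  refine ⟨?_, ?_, ?_⟩
  · have h2 : (4 : ℚ) ^ k / (k.factorial : ℚ) / 4 = 2 ^ (k - 1) / (k.factorial : ℚ) * 2 ^ (k - 1) := by
      rw [h4]; ring
    rw [h2]
    exact PI.mul hp h1 (qe_PI_pow _)
  · intro h3
    have h2 : (4 : ℚ) ^ k / (k.factorial : ℚ) / 16 = 2 ^ (k - 1) / (k.factorial : ℚ) * 2 ^ (k - 3) := by
      rw [h4]
      have : (2 : ℚ) ^ (k - 1) = 2 ^ (k - 3) * 4 := by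
        rw [show (4 : ℚ) = 2 ^ 2 by norm_num, ← pow_add]; congr 1; omega
      rw [this]; ring
    rw [h2]
    exact PI.mul hp h1 (qe_PI_pow _)
  · have h2 : (4 : ℚ) ^ k / (k.factorial : ℚ) =
        2 ^ (k - 1) / (k.factorial : ℚ) * (2 ^ (k - 1) * 2 ^ 2) := by
      rw [h4]; ring
    rw [h2]
    exact PI.mul hp h1 (PI.mul hp (qe_PI_pow _) (qe_PI_pow _))

theorem qe_PI_D (k : ℕ) : PI 2 (1 / (qeD k : ℚ)) := by
  refine ⟨qeD k, 1, ?_, ?_⟩
  · intro h
    have h1 : 2 ∣ qeD k := by exact_mod_cast h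
    have := qeD_odd k
    rw [← Nat.not_even_iff_odd] at this
    exact this (even_iff_two_dvd.2 h1)
  · have := (qeD_odd k).pos
    have h0 : (qeD k : ℚ) ≠ 0 := by positivity
    push_cast
    field_simp

theorem qe_PI_qek (k : ℕ) (hk : 1 ≤ k) : PI 2 (qek k / 4) ∧ (3 ≤ k → PI 2 (qek k / 16)) ∧
    PI 2 (qek k) := by
  have hp := Nat.prime_two
  obtain ⟨h1, h2, h3⟩ := qe_PI_four k hk
  have hD := qe_PI_D (k + 1)
  have e : qek k = 4 ^ k / (k.factorial : ℚ) * (1 / (qeD (k + 1) : ℚ)) := by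
    unfold qek
    rw [div_mul_div_comm, mul_one]
  refine ⟨?_, ?_, ?_⟩
  · have : qek k / 4 = 4 ^ k / (k.factorial : ℚ) / 4 * (1 / (qeD (k + 1) : ℚ)) := by rw [e]; ring
    rw [this]; exact PI.mul hp h1 hD
  · intro h
    have : qek k / 16 = 4 ^ k / (k.factorial : ℚ) / 16 * (1 / (qeD (k + 1) : ℚ)) := by rw [e]; ring
    rw [this]; exact PI.mul hp (h2 h) hD
  · rw [e]; exact PI.mul hp h3 hD

/-! ### divisibility by functions -/

def Dv {ι : Type*} (S : Subring (ι → ℚ)) (g f : ι → ℚ) : Prop := ∃ Ω ∈ S, f = g * Ω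

namespace Dv
variable {ι : Type*} {S : Subring (ι → ℚ)} {g g' f f' : ι → ℚ}

theorem add (h : Dv S g f) (h' : Dv S g f') : Dv S g (f + f') := by
  obtain ⟨Ω, hΩ, e⟩ := h
  obtain ⟨Ω', hΩ', e'⟩ := h'
  exact ⟨Ω + Ω', S.add_mem hΩ hΩ', by rw [e, e']; ring⟩

theorem zero : Dv S g 0 := ⟨0, S.zero_mem, by ring⟩

theorem sum {κ : Type*} (s : Finset κ) (F : κ → ι → ℚ) (h : ∀ p ∈ s, Dv S g (F p)) :
    Dv S g (∑ p ∈ s, F p) := by
  classical
  induction s using Finset.induction_on with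
  | empty => simpa using zero
  | insert a s ha ih =>
    rw [Finset.sum_insert ha]
    exact (h a (Finset.mem_insert_self _ _)).add (ih fun i hi => h i (Finset.mem_insert_of_mem hi))

theorem mul (h : Dv S g f) (h' : Dv S g' f') : Dv S (g * g') (f * f') := by
  obtain ⟨Ω, hΩ, e⟩ := h
  obtain ⟨Ω', hΩ', e'⟩ := h'
  exact ⟨Ω * Ω', S.mul_mem hΩ hΩ', by rw [e, e']; ring⟩

theorem mul_mem (h : Dv S g f) (h' : f' ∈ S) : Dv S g (f * f') := by
  obtain ⟨Ω, hΩ, e⟩ := h
  exact ⟨Ω * f', S.mul_mem hΩ h', by rw [e]; ring⟩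

theorem mem_mul (h : f' ∈ S) (h' : Dv S g f) : Dv S g (f' * f) := by
  rw [mul_comm]; exact h'.mul_mem h

theorem of_eq (h : Dv S g f) (e : f' = f) : Dv S g f' := e ▸ h

end Dv

section
variable {ι : Type*} (S : Subring (ι → ℚ)) (hc : ∀ r : ℚ, PI 2 r → (fun _ => r) ∈ S)
  (t : ι → ℕ) (ht : (fun i => (t i : ℚ)) ∈ S) (ψ : ι → ℚ) (hψ : ψ ∈ S)

include hc in
theorem qe_nat (n : ℕ) : (fun _ => (n : ℚ)) ∈ S := hc _ (PI.nat Nat.prime_two n)

include hc in
theorem qe_two : (fun _ => (2 : ℚ)) ∈ S := by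
  have h := qe_nat S hc 2
  exact_mod_cast h

theorem qe_prod (n : ℕ) (f : ℕ → ι → ℚ) (hf : ∀ l, f l ∈ S) :
    (fun i => ∏ l ∈ range n, f l i) ∈ S := by
  have : (fun i => ∏ l ∈ range n, f l i) = ∏ l ∈ range n, f l := by
    ext i
    rw [Finset.prod_apply]
  rw [this]
  exact S.prod_mem (fun l _ => hf l)

include hc ht in
theorem qe_fa (l : ℕ) : (fun i => (((t i : ℚ) - l) * (2 * (t i : ℚ) - 2 * l - 1))) ∈ S := by
  refine S.mul_mem (S.sub_mem ht (qe_nat S hc l)) (S.sub_mem (S.sub_mem ?_ ?_) ?_)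
  · exact S.mul_mem (qe_two S hc) ht
  · exact S.mul_mem (qe_two S hc) (qe_nat S hc l)
  · have h2 := qe_nat S hc 1
    exact_mod_cast h2

include hc ht in
theorem qe_a_mem (k : ℕ) : (fun i => qea k (t i)) ∈ S := by
  rcases Nat.eq_zero_or_pos k with h | h
  · subst h
    have : (fun i => qea 0 (t i)) = (fun _ => ((1 : ℕ) : ℚ)) := by
      ext i
      simp [qea, qek, qeD]
    rw [this]
    exact qe_nat S hc 1
  · exact S.mul_mem (hc _ (qe_PI_qek k h).2.2) (qe_prod S k _ (qe_fa S hc t ht))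

include hc ht in
theorem qe_a_four_t (k : ℕ) (hk : 1 ≤ k) : Dv S (4 * fun i => (t i : ℚ)) (fun i => qea k (t i)) := by
  obtain ⟨j, rfl⟩ : ∃ j, k = j + 1 := ⟨k - 1, by omega⟩
  refine ⟨fun i => qek (j + 1) / 4 * ((∏ l ∈ range j, (((t i : ℚ) - (l + 1 : ℕ)) *
    (2 * (t i : ℚ) - 2 * (l + 1 : ℕ) - 1))) * (2 * (t i : ℚ) - 1)), ?_, ?_⟩
  · refine S.mul_mem (hc _ (qe_PI_qek (j + 1) hk).1) (S.mul_mem
      (qe_prod S j _ (fun l => qe_fa S hc t ht (l + 1))) (S.sub_mem ?_ ?_))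
    · exact S.mul_mem (qe_two S hc) ht
    · have h2 := qe_nat S hc 1
      exact_mod_cast h2
  · ext i
    simp only [Pi.mul_apply, Pi.ofNat_apply]
    unfold qea
    rw [Finset.prod_range_succ']
    push_cast
    ring

include hc ht in
theorem qe_a_sixteen (k : ℕ) (hk : 3 ≤ k) : Dv S 16 (fun i => qea k (t i)) := by
  refine ⟨fun i => qek k / 16 * (∏ l ∈ range k, (((t i : ℚ) - l) *
    (2 * (t i : ℚ) - 2 * l - 1))), ?_, ?_⟩
  · exact S.mul_mem (hc _ ((qe_PI_qek k (by omega)).2.1 hk)) (qe_prod S k _ (qe_fa S hc t ht))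
  · ext i
    simp only [Pi.mul_apply, Pi.ofNat_apply]
    unfold qea
    ring

include hc ht in
theorem qe_fb (k l : ℕ) : (fun i => ((t i : ℚ) - k - l)) ∈ S :=
  S.sub_mem (S.sub_mem ht (qe_nat S hc k)) (qe_nat S hc l)

include hc ht in
theorem qe_b_mem (k j : ℕ) : (fun i => qeb k j (t i)) ∈ S := by
  rcases Nat.eq_zero_or_pos j with h | h
  · subst h
    have : (fun i => qeb k 0 (t i)) = (fun _ => ((1 : ℕ) : ℚ)) := by
      ext i
      simp [qeb]
    rw [this]
    exact qe_nat S hc 1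
  · exact S.mul_mem (hc _ (qe_PI_four j h).2.2) (qe_prod S j _ (qe_fb S hc t ht k))

include hc ht in
theorem qe_b_four (k j : ℕ) (hj : 1 ≤ j) : Dv S 4 (fun i => qeb k j (t i)) := by
  refine ⟨fun i => 4 ^ j / (j.factorial : ℚ) / 4 * ∏ l ∈ range j, ((t i : ℚ) - k - l), ?_, ?_⟩
  · exact S.mul_mem (hc _ (qe_PI_four j hj).1) (qe_prod S j _ (qe_fb S hc t ht k))
  · ext i
    simp only [Pi.mul_apply, Pi.ofNat_apply]
    unfold qeb
    ring

include hc ht in
theorem qe_b_sixteen (k j : ℕ) (hj : 3 ≤ j) : Dv S 16 (fun i => qeb k j (t i)) := by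
  refine ⟨fun i => 4 ^ j / (j.factorial : ℚ) / 16 * ∏ l ∈ range j, ((t i : ℚ) - k - l), ?_, ?_⟩
  · exact S.mul_mem (hc _ ((qe_PI_four j (by omega)).2.1 hj)) (qe_prod S j _ (qe_fb S hc t ht k))
  · ext i
    simp only [Pi.mul_apply, Pi.ofNat_apply]
    unfold qeb
    ring

include hc ht in
theorem qe_b_four_t (j : ℕ) (hj : 1 ≤ j) :
    Dv S (4 * fun i => (t i : ℚ)) (fun i => qeb 0 j (t i)) := by
  obtain ⟨n, rfl⟩ : ∃ n, j = n + 1 := ⟨j - 1, by omega⟩
  refine ⟨fun i => 4 ^ (n + 1) / ((n + 1).factorial : ℚ) / 4 *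
    ∏ l ∈ range n, ((t i : ℚ) - (0 : ℕ) - (l + 1 : ℕ)), ?_, ?_⟩
  · exact S.mul_mem (hc _ (qe_PI_four (n + 1) hj).1)
      (qe_prod S n _ (fun l => qe_fb S hc t ht 0 (l + 1)))
  · ext i
    simp only [Pi.mul_apply, Pi.ofNat_apply]
    unfold qeb
    rw [Finset.prod_range_succ']
    push_cast
    ring

include hc hψ in
theorem qe_G_mem (k j : ℕ) : (fun i => qeG k j (ψ i)) ∈ S := by
  have : (fun i => qeG k j (ψ i)) = ∑ m ∈ range (2 * k + 1 + 1),
      (ψ ^ m * (fun _ => ((2 * k + 1).choose m : ℚ)) * (fun _ => qeA (j + (2 * k + 1 - m)))) := by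
    ext i
    rw [Finset.sum_apply]
    rfl
  rw [this]
  exact S.sum_mem (fun m _ => S.mul_mem (S.mul_mem (S.pow_mem hψ m) (qe_nat S hc _))
    (hc _ (qe_PI_A _)))

end

theorem qeG_vals (ψ : ℚ) : qeG 0 0 ψ = ψ - 1 / 3 ∧ qeG 0 1 ψ = -ψ / 3 + 2 / 15 ∧
    qeG 0 2 ψ = 2 * (ψ / 15 - 4 / 105) ∧
    qeG 1 0 ψ = ψ ^ 3 - ψ ^ 2 + 2 / 5 * ψ - 8 / 105 ∧
    qeG 2 0 ψ = ψ ^ 4 * (ψ + 1) + 2 * (-(4 / 3) * ψ ^ 4 + 2 / 3 * ψ ^ 3 - 8 / 21 * ψ ^ 2
      + 4 / 21 * ψ - 16 / 231) := by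
  obtain ⟨h0, h1, h2, h3, h4, h5⟩ := qeA_vals
  refine ⟨?_, ?_, ?_, ?_, ?_⟩ <;>
  · unfold qeG
    norm_num [Finset.sum_range_succ, Nat.choose, h0, h1, h2, h3, h4, h5]
    try ring

/-- (QE) 2-adic expansion of the equation, uniformly over a subring of functions. -/
theorem qe {ι : Type*} (S : Subring (ι → ℚ)) (hc : ∀ r : ℚ, PI 2 r → (fun _ => r) ∈ S)
    (t : ι → ℕ) (T : ℕ) (hT : ∀ i, t i ≤ T) (ht : (fun i => (t i : ℚ)) ∈ S)
    (ψ θ : ι → ℚ) (hψ : ψ ∈ S) (hθ : θ ∈ S) :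
    (∃ Ω ∈ S, ∀ i, Et (t i) (ψ i) (θ i) = ψ i - 1 / 3 + 4 * t i * Ω i) ∧
    (∃ Ω ∈ S, ∀ i, Et (t i) (ψ i) (θ i) = ψ i - 1 / 3 + 4 * t i * (-(ψ i) / 3 + 2 / 15) +
      4 / 3 * t i * (2 * t i - 1) * θ i * (ψ i ^ 3 - ψ i ^ 2 + 2 / 5 * ψ i - 8 / 105) +
      8 / 15 * (t i * (t i - 1) * (2 * t i - 1) * (2 * t i - 3)) * θ i ^ 2 *
        (ψ i ^ 4 * (ψ i + 1)) + 16 * Ω i) := by
  classical
  set M := T + 3 with hM
  -- the terms
  set τ : ℕ × ℕ → ι → ℚ := fun p i => qea p.1 (t i) * qeb p.1 p.2 (t i) * θ i ^ p.1 *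
    qeG p.1 p.2 (ψ i) with hτ
  have hEt : ∀ i, Et (t i) (ψ i) (θ i) = ∑ p ∈ range M ×ˢ range M, τ p i := by
    intro i
    exact qe_Et (t i) M (by have := hT i; omega) (ψ i) (θ i)
  have hvals := qeG_vals
  have hfac : ∀ p, τ p = (fun i => qea p.1 (t i)) * (fun i => qeb p.1 p.2 (t i)) * θ ^ p.1 *
      (fun i => qeG p.1 p.2 (ψ i)) := fun p => rfl
  have hθG : ∀ p : ℕ × ℕ, θ ^ p.1 * (fun i => qeG p.1 p.2 (ψ i)) ∈ S := fun p =>
    S.mul_mem (S.pow_mem hθ _) (qe_G_mem S hc ψ hψ _ _)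
  have h00 : τ (0, 0) = fun i => ψ i - 1 / 3 := by
    ext i
    simp only [hτ, (hvals (ψ i)).1]
    simp [qea, qeb, qek, qeD]
  constructor
  · -- first statement
    have h1 : ∀ p ∈ (range M ×ˢ range M).erase (0, 0), Dv S (4 * fun i => (t i : ℚ)) (τ p) := by
      intro p hp
      have hp0 : p ≠ (0, 0) := (Finset.mem_erase.1 hp).1
      have h2 : Dv S (4 * fun i => (t i : ℚ)) ((fun i => qea p.1 (t i)) *
          (fun i => qeb p.1 p.2 (t i))) := by
        rcases Nat.eq_zero_or_pos p.1 with h | h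
        · have hp2 : 1 ≤ p.2 := by
            rcases Nat.eq_zero_or_pos p.2 with h' | h'
            · exact absurd (Prod.ext h h') hp0
            · exact h'
          rw [h]
          exact Dv.mem_mul (qe_a_mem S hc t ht 0) (qe_b_four_t S hc t ht p.2 hp2)
        · exact (qe_a_four_t S hc t ht p.1 h).mul_mem (qe_b_mem S hc t ht p.1 p.2)
      exact (h2.mul_mem (hθG p)).of_eq (by rw [hfac, mul_assoc ((fun i => qea p.1 (t i)) * _)])
    obtain ⟨Ω, hΩ, e⟩ := Dv.sum _ _ h1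
    refine ⟨Ω, hΩ, fun i => ?_⟩
    have h0 : (0, 0) ∈ range M ×ˢ range M := by
      exact mem_product.2 ⟨mem_range.2 (by omega), mem_range.2 (by omega)⟩
    rw [hEt, ← Finset.add_sum_erase _ _ h0, h00]
    have h3 := congrFun e i
    rw [Finset.sum_apply] at h3
    rw [h3]
    simp only [Pi.mul_apply, Pi.ofNat_apply]
  · -- second statement
    set main : ℕ × ℕ → ι → ℚ := fun p i =>
      if p = (0, 0) then ψ i - 1 / 3 else if p = (0, 1) then 4 * t i * (-(ψ i) / 3 + 2 / 15)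
      else if p = (1, 0) then
        4 / 3 * t i * (2 * t i - 1) * θ i * (ψ i ^ 3 - ψ i ^ 2 + 2 / 5 * ψ i - 8 / 105)
      else if p = (2, 0) then 8 / 15 * (t i * (t i - 1) * (2 * t i - 1) * (2 * t i - 3)) * θ i ^ 2 *
        (ψ i ^ 4 * (ψ i + 1)) else 0 with hmain
    have hsum : ∀ i, ∑ p ∈ range M ×ˢ range M, main p i =
        ψ i - 1 / 3 + 4 * t i * (-(ψ i) / 3 + 2 / 15) +
      4 / 3 * t i * (2 * t i - 1) * θ i * (ψ i ^ 3 - ψ i ^ 2 + 2 / 5 * ψ i - 8 / 105) +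
      8 / 15 * (t i * (t i - 1) * (2 * t i - 1) * (2 * t i - 3)) * θ i ^ 2 *
        (ψ i ^ 4 * (ψ i + 1)) := by
      intro i
      have hsub : ({(0, 0), (0, 1), (1, 0), (2, 0)} : Finset (ℕ × ℕ)) ⊆ range M ×ˢ range M := by
        intro p hp
        simp only [Finset.mem_insert, Finset.mem_singleton] at hp
        rw [mem_product, mem_range, mem_range]
        rcases hp with h | h | h | h <;> rw [h] <;> constructor <;> simp only <;> omega
      rw [← Finset.sum_subset hsub]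
      · rw [Finset.sum_insert (by decide), Finset.sum_insert (by decide),
          Finset.sum_insert (by decide), Finset.sum_singleton]
        simp [hmain]
        ring
      · intro p _ hp
        simp only [Finset.mem_insert, Finset.mem_singleton, not_or] at hp
        simp only [hmain]
        rw [if_neg hp.1, if_neg hp.2.1, if_neg hp.2.2.1, if_neg hp.2.2.2]
    have h16 : (4 : ι → ℚ) * 4 = 16 := by norm_num
    have h1 : ∀ p ∈ range M ×ˢ range M, Dv S 16 (τ p - main p) := by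
      intro p _
      by_cases hp0 : p = (0, 0)
      · subst hp0
        refine Dv.zero.of_eq ?_
        ext i
        simp [hmain, h00]
      by_cases hp1 : p = (0, 1)
      · subst hp1
        refine Dv.zero.of_eq ?_
        ext i
        simp only [hmain, hτ, Pi.sub_apply, (hvals (ψ i)).2.1]
        simp [qea, qeb, qek, qeD]
      by_cases hp2 : p = (1, 0)
      · subst hp2
        refine Dv.zero.of_eq ?_
        ext i
        simp only [hmain, hτ, Pi.sub_apply, (hvals (ψ i)).2.2.2.1]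
        simp [qea, qeb, qek, qeD, Finset.prod_range_succ]
        ring
      by_cases hp3 : p = (2, 0)
      · subst hp3
        have hg : (fun i => (-(4 / 3) * ψ i ^ 4 + 2 / 3 * ψ i ^ 3 - 8 / 21 * ψ i ^ 2
            + 4 / 21 * ψ i - 16 / 231)) ∈ S := by
          have c1 : PI 2 (-(4 / 3 : ℚ)) := ⟨3, -4, by norm_num, by norm_num⟩
          have c2 : PI 2 (2 / 3 : ℚ) := ⟨3, 2, by norm_num, by norm_num⟩
          have c3 : PI 2 (8 / 21 : ℚ) := ⟨21, 8, by norm_num, by norm_num⟩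
          have c4 : PI 2 (4 / 21 : ℚ) := ⟨21, 4, by norm_num, by norm_num⟩
          have c5 : PI 2 (16 / 231 : ℚ) := ⟨231, 16, by norm_num, by norm_num⟩
          exact S.sub_mem (S.add_mem (S.sub_mem (S.add_mem (S.mul_mem (hc _ c1) (S.pow_mem hψ 4))
            (S.mul_mem (hc _ c2) (S.pow_mem hψ 3))) (S.mul_mem (hc _ c3) (S.pow_mem hψ 2)))
            (S.mul_mem (hc _ c4) hψ)) (hc _ c5)
        have c6 : PI 2 (1 / 15 : ℚ) := ⟨15, 1, by norm_num, by norm_num⟩
        refine ⟨(fun _ => (1 / 15 : ℚ)) * (((fun i => (((t i : ℚ) - (0 : ℕ)) *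
          (2 * (t i : ℚ) - 2 * (0 : ℕ) - 1))) * (fun i => (((t i : ℚ) - (1 : ℕ)) *
          (2 * (t i : ℚ) - 2 * (1 : ℕ) - 1)))) * (θ ^ 2 * (fun i => (-(4 / 3) * ψ i ^ 4 +
          2 / 3 * ψ i ^ 3 - 8 / 21 * ψ i ^ 2 + 4 / 21 * ψ i - 16 / 231)))),
          S.mul_mem (hc _ c6) (S.mul_mem (S.mul_mem (qe_fa S hc t ht 0) (qe_fa S hc t ht 1))
            (S.mul_mem (S.pow_mem hθ 2) hg)), ?_⟩
        ext i
        simp only [hmain, hτ, Pi.sub_apply, (hvals (ψ i)).2.2.2.2, Pi.mul_apply, Pi.ofNat_apply,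
          Pi.pow_apply]
        simp [qea, qeb, qek, qeD, Finset.prod_range_succ, Nat.factorial]
        ring
      · -- all other terms
        have hm0 : main p = 0 := by
          ext i
          simp only [hmain]
          rw [if_neg hp0, if_neg hp1, if_neg hp2, if_neg hp3]
          rfl
        rw [hm0, sub_zero]
        have hab : ∀ {g}, Dv S g ((fun i => qea p.1 (t i)) * (fun i => qeb p.1 p.2 (t i))) →
            Dv S g (τ p) := by
          intro g h2
          exact (h2.mul_mem (hθG p)).of_eq (by rw [hfac, mul_assoc ((fun i => qea p.1 (t i)) * _)])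
        by_cases h3 : 3 ≤ p.1
        · exact hab ((qe_a_sixteen S hc t ht p.1 h3).mul_mem (qe_b_mem S hc t ht p.1 p.2))
        by_cases h4 : 3 ≤ p.2
        · exact hab (Dv.mem_mul (qe_a_mem S hc t ht p.1) (qe_b_sixteen S hc t ht p.1 p.2 h4))
        by_cases h5 : p.1 = 0
        · -- p = (0,2)
          have h6 : p.2 = 2 := by
            have h7 : p.2 ≠ 0 := fun h => hp0 (Prod.ext h5 h)
            have h8 : p.2 ≠ 1 := fun h => hp1 (Prod.ext h5 h)
            omega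
          have hp : p = (0, 2) := Prod.ext h5 h6
          subst hp
          have c1 : PI 2 (1 / 15 : ℚ) := ⟨15, 1, by norm_num, by norm_num⟩
          have c2 : PI 2 (4 / 105 : ℚ) := ⟨105, 4, by norm_num, by norm_num⟩
          refine ⟨((fun i => ((t i : ℚ) - (0 : ℕ) - (0 : ℕ))) *
            (fun i => ((t i : ℚ) - (0 : ℕ) - (1 : ℕ)))) *
            (ψ * (fun _ => (1 / 15 : ℚ)) - (fun _ => (4 / 105 : ℚ))),
            S.mul_mem (S.mul_mem (qe_fb S hc t ht 0 0) (qe_fb S hc t ht 0 1))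
              (S.sub_mem (S.mul_mem hψ (hc _ c1)) (hc _ c2)), ?_⟩
          ext i
          simp only [hτ, (hvals (ψ i)).2.2.1, Pi.mul_apply, Pi.ofNat_apply, Pi.sub_apply]
          simp [qea, qeb, qek, qeD, Finset.prod_range_succ, Nat.factorial]
          ring
        · have h6 : 1 ≤ p.2 := by
            rcases Nat.eq_zero_or_pos p.2 with h | h
            · exfalso
              have h7 : p.1 ≠ 1 := fun h' => hp2 (Prod.ext h' h)
              have h8 : p.1 ≠ 2 := fun h' => hp3 (Prod.ext h' h)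
              omega
            · exact h
          have h7 : 1 ≤ p.1 := by omega
          have ha : Dv S 4 (fun i => qea p.1 (t i)) := by
            obtain ⟨Ω, hΩ, e⟩ := qe_a_four_t S hc t ht p.1 h7
            exact ⟨(fun i => (t i : ℚ)) * Ω, S.mul_mem ht hΩ, by rw [e, mul_assoc]⟩
          rw [← h16]
          exact hab (ha.mul (qe_b_four S hc t ht p.1 p.2 h6))
    obtain ⟨Ω, hΩ, e⟩ := Dv.sum _ _ h1
    refine ⟨Ω, hΩ, fun i => ?_⟩
    rw [hEt, ← hsum i]
    have h3 := congrFun e i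
    rw [Finset.sum_apply] at h3
    simp only [Pi.sub_apply, Finset.sum_sub_distrib, Pi.mul_apply, Pi.ofNat_apply] at h3
    linear_combination h3

end Pool.Agent.Bern2
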