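import Mathlib
import Pool.Agent.Bern2.QE

namespace Pool.Agent.Bern2

open Polynomial Finset Pool.Agent.Helper29 Pool.Agent.Helper98.Bern

/-- the 2-integral rationals -/
def R2 : Subring ℚ where
  carrier := {q | PI 2 q}
  mul_mem' := fun ha hb => PI.mul Nat.prime_two ha hb
  one_mem' := by have := PI.int Nat.prime_two 1; simpa using this
  add_mem' := fun ha hb => PI.add Nat.prime_two ha hb
  zero_mem' := by have := PI.int Nat.prime_two 0; simpa using this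
  neg_mem' := fun ha => PI.neg Nat.prime_two ha

theorem mem_R2 {q : ℚ} : q ∈ R2 ↔ PI 2 q := Iff.rfl

theorem R2_div {m : ℤ} (hm : ¬ (2:ℤ) ∣ m) (z : ℤ) : (z : ℚ) / m ∈ R2 := by
  refine ⟨m, z, hm, ?_⟩
  have : (m : ℚ) ≠ 0 := by
    intro h
    apply hm
    have : m = 0 := by exact_mod_cast h
    rw [this]; exact dvd_zero _
  field_simp

/-- `(1/2)` is not 2-integral -/
theorem R2_half (q : ℚ) (hq : q ∈ R2) : 2 * q ≠ 1 := by
  obtain ⟨d, z, hd, h⟩ := hq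
  intro h1
  apply hd
  refine ⟨z, ?_⟩
  have : (d : ℚ) = 2 * z := by rw [← h]; linear_combination -(d : ℚ) * h1
  exact_mod_cast this

theorem R2_c2 : ((2 : R2) : ℚ) = 2 := rfl

/-- curves with 2-integral coefficients, up to `2^k` -/
def DD (t : Fin 3 → ℕ) (k : ℕ) : Subring (Fin 3 → ℚ) where
  carrier := {f | ∃ (a b c : R2) (h : Fin 3 → R2), ∀ i, f i = a + b * t i + c * (t i : ℚ) ^ 2 + 2 ^ k * h i}
  mul_mem' := by
    rintro f f' ⟨a, b, c, h, hf⟩ ⟨a', b', c', h', hf'⟩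
    refine ⟨a * a' + (b * c' + c * b') * ((t 0) * (t 1) * (t 2)) + c * c' * (t 0 + t 1 + t 2) * ((t 0) * (t 1) * (t 2)),
      a * b' + b * a' - (b * c' + c * b') * ((t 0) * (t 1) + (t 1) * (t 2) + (t 2) * (t 0))
        + c * c' * ((t 0) * (t 1) * (t 2) - (t 0 + t 1 + t 2) * ((t 0) * (t 1) + (t 1) * (t 2) + (t 2) * (t 0))),
      a * c' + b * b' + c * a' + (b * c' + c * b') * (t 0 + t 1 + t 2)
        + c * c' * ((t 0 + t 1 + t 2) ^ 2 - ((t 0) * (t 1) + (t 1) * (t 2) + (t 2) * (t 0))),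
      fun i => (a + b * t i + c * (t i) ^ 2) * h' i + (a' + b' * t i + c' * (t i) ^ 2) * h i + 2 ^ k * h i * h' i, ?_⟩
    intro i
    rw [Pi.mul_apply, hf i, hf' i]
    rcases (by decide : ∀ i : Fin 3, i = 0 ∨ i = 1 ∨ i = 2) i with rfl | rfl | rfl <;> · push_cast [R2_c2]; ring
  one_mem' := ⟨1, 0, 0, 0, fun i => by simp⟩
  add_mem' := by
    rintro f f' ⟨a, b, c, h, hf⟩ ⟨a', b', c', h', hf'⟩
    refine ⟨a + a', b + b', c + c', h + h', fun i => ?_⟩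
    rw [Pi.add_apply, hf i, hf' i, Pi.add_apply]
    push_cast; ring
  zero_mem' := ⟨0, 0, 0, 0, fun i => by simp⟩
  neg_mem' := by
    rintro f ⟨a, b, c, h, hf⟩
    refine ⟨-a, -b, -c, -h, fun i => ?_⟩
    rw [Pi.neg_apply, hf i, Pi.neg_apply]
    push_cast; ring

theorem mem_DD {t : Fin 3 → ℕ} {k : ℕ} {f : Fin 3 → ℚ} : f ∈ DD t k ↔
    ∃ (a b c : R2) (h : Fin 3 → R2), ∀ i, f i = a + b * t i + c * (t i : ℚ) ^ 2 + 2 ^ k * h i := Iff.rfl

theorem DD_const {t : Fin 3 → ℕ} {k : ℕ} {r : ℚ} (hr : r ∈ R2) : (fun _ => r) ∈ DD t k :=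
  ⟨⟨r, hr⟩, 0, 0, 0, fun i => by simp⟩

theorem DD_t (t : Fin 3 → ℕ) (k : ℕ) : (fun i => (t i : ℚ)) ∈ DD t k :=
  ⟨0, 1, 0, 0, fun i => by simp⟩

theorem DD_zero {t : Fin 3 → ℕ} {f : Fin 3 → ℚ} (h : ∀ i, f i ∈ R2) : f ∈ DD t 0 :=
  ⟨0, 0, 0, fun i => ⟨f i, h i⟩, fun i => by simp⟩

theorem DD_two {t : Fin 3 → ℕ} {k : ℕ} {f : Fin 3 → ℚ} (h : f ∈ DD t k) :
    (fun i => 2 * f i) ∈ DD t (k + 1) := by
  obtain ⟨a, b, c, h, hf⟩ := h
  refine ⟨2 * a, 2 * b, 2 * c, h, fun i => ?_⟩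
  show 2 * f i = _
  rw [hf i]; push_cast [R2_c2]; ring

theorem DD_four {t : Fin 3 → ℕ} {k : ℕ} {f : Fin 3 → ℚ} (h : f ∈ DD t k) :
    (fun i => 4 * f i) ∈ DD t (k + 1) := by
  have h2 : (fun i => 2 * f i) ∈ DD t k := (DD t k).mul_mem (DD_const (r := 2) (by
    have := PI.int Nat.prime_two 2; simpa using this)) h
  have := DD_two h2
  convert this using 2
  ring

/-- the curves -/
theorem DD_inf {t : Fin 3 → ℕ} (hinj : Function.Injective t) {f : Fin 3 → ℚ} (hf : ∀ k, f ∈ DD t k) :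
    ∃ (a b c : R2), ∀ i, f i = a + b * t i + c * (t i : ℚ) ^ 2 := by
  have h01 : t 0 ≠ t 1 := fun h => by have := hinj h; simp at this
  have h12 : t 1 ≠ t 2 := fun h => by have := hinj h; simp at this
  have h20 : t 2 ≠ t 0 := fun h => by have := hinj h; simp at this
  set V : ℤ := ((t 0 : ℤ) - t 1) * ((t 1 : ℤ) - t 2) * ((t 2 : ℤ) - t 0) with hV
  have hV0 : V ≠ 0 := by
    rw [hV]
    refine mul_ne_zero (mul_ne_zero ?_ ?_) ?_ <;> · rw [sub_ne_zero]; exact_mod_cast ‹_›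
  obtain ⟨k, m, hVm, hm⟩ : ∃ (k : ℕ) (m : ℤ), V = 2 ^ k * m ∧ ¬ (2:ℤ) ∣ m :=
    ⟨_, (Int.finiteMultiplicity_iff.2
      ⟨by norm_num, hV0⟩ : FiniteMultiplicity 2 V).exists_eq_pow_mul_and_not_dvd⟩
  obtain ⟨a, b, c, h, hf'⟩ := hf k
  have hmi : (1 : ℚ) / m ∈ R2 := by simpa using R2_div hm 1
  set u : R2 := ⟨1 / m, hmi⟩ with hu
  have hm0 : (m : ℚ) ≠ 0 := by
    intro h; apply hm
    have : m = 0 := by exact_mod_cast h
    rw [this]; exact dvd_zero _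
  have hum : (u : ℚ) * m = 1 := by rw [hu]; field_simp
  have hV' : ((t 0 : ℚ) - t 1) * ((t 1 : ℚ) - t 2) * ((t 2 : ℚ) - t 0) = 2 ^ k * m := by
    have := congrArg (Int.cast (R := ℚ)) hVm
    rw [hV] at this; push_cast at this; exact this
  have hk : (2 : ℚ) ^ k = u * (((t 0 : ℚ) - t 1) * ((t 1 : ℚ) - t 2) * ((t 2 : ℚ) - t 0)) := by
    rw [hV']; linear_combination (-(2:ℚ) ^ k) * hum
  -- Lagrange : 2^k h = - u * sum h_j (t_{j+1} - t_{j+2}) (t - t_{j+1}) (t - t_{j+2})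
  refine ⟨a - u * (h 0 * (t 1 - t 2) * (t 1 * t 2) + h 1 * (t 2 - t 0) * (t 2 * t 0) + h 2 * (t 0 - t 1) * (t 0 * t 1)),
    b + u * (h 0 * (t 1 - t 2) * (t 1 + t 2) + h 1 * (t 2 - t 0) * (t 2 + t 0) + h 2 * (t 0 - t 1) * (t 0 + t 1)),
    c - u * (h 0 * (t 1 - t 2) + h 1 * (t 2 - t 0) + h 2 * (t 0 - t 1)), fun i => ?_⟩
  rw [hf' i, hk]
  rcases (by decide : ∀ i : Fin 3, i = 0 ∨ i = 1 ∨ i = 2) i with rfl | rfl | rfl <;> · push_cast; ring


/-- (T3) The case `w = l` is impossible. -/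
theorem not_w_eq (t : ℕ) (ht : 1 ≤ t) (h4 : (2 * t + 1) % 4 = 1) :
    Et t ((((2 * t + 1 : ℕ) : ℚ) + 3) / 12) (3 / ((2 * t + 1 : ℕ) : ℚ)) ≠ 0 := by
  intro h0
  let S : Subring (Unit → ℚ) := R2.comap (Pi.evalRingHom (fun _ : Unit => ℚ) ())
  have hS : ∀ f : Unit → ℚ, f () ∈ R2 → f ∈ S := fun f hf => hf
  have hS' : ∀ f : Unit → ℚ, f ∈ S → f () ∈ R2 := fun f hf => hf
  obtain ⟨u, rfl⟩ : ∃ u, t = 2 * u := ⟨t / 2, by omega⟩
  have hψ : ((((2 * (2 * u) + 1 : ℕ) : ℚ) + 3) / 12) ∈ R2 := by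
    have := R2_div (m := 3) (by norm_num) ((u : ℤ) + 1)
    convert this using 1
    push_cast; field_simp; ring
  have hθ : (3 / ((2 * (2 * u) + 1 : ℕ) : ℚ)) ∈ R2 := by
    have := R2_div (m := 2 * (2 * u) + 1) (by omega) 3
    convert this using 1
    push_cast; ring
  obtain ⟨Ω, hΩ, hE⟩ := (qe S (fun r hr => hS _ hr) (fun _ => 2 * u) (2 * u) (fun _ => le_rfl)
    (hS _ (by have := PI.nat Nat.prime_two (2 * u); exact this))
    (fun _ => ((((2 * (2 * u) + 1 : ℕ) : ℚ) + 3) / 12)) (fun _ => (3 / ((2 * (2 * u) + 1 : ℕ) : ℚ)))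
    (hS _ hψ) (hS _ hθ)).1
  have h1 := hE ()
  rw [h0] at h1
  have hu : (u : ℚ) ≠ 0 := by
    have : u ≠ 0 := by omega
    exact_mod_cast this
  have h2 : 2 * (-12 * Ω ()) = 1 := by
    have h3 : (u : ℚ) * (2 * (-12 * Ω ()) - 1) = 0 := by
      push_cast at h1
      linear_combination (3 : ℚ) * h1
    rcases mul_eq_zero.1 h3 with h | h
    · exact absurd h hu
    · linarith
  exact R2_half _ (R2.mul_mem (by have := PI.int Nat.prime_two (-12); simpa [mem_R2] using this) (hS' _ hΩ)) h2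


theorem R2_int (z : ℤ) : (z : ℚ) ∈ R2 := PI.int Nat.prime_two z

/-- an integer that is `2^n` times a 2-integral rational is divisible by `2^n` -/
theorem R2_dvd {n : ℕ} {E : ℤ} {y : ℚ} (hy : y ∈ R2) (h : (E : ℚ) = 2 ^ n * y) : (2 : ℤ) ^ n ∣ E := by
  obtain ⟨d, z, hd, hz⟩ := hy
  have h1 : d * E = 2 ^ n * z := by
    have : (d : ℚ) * E = 2 ^ n * z := by rw [h, ← hz]; ring
    exact_mod_cast this
  have hco : IsCoprime ((2 : ℤ) ^ n) d := by
    apply IsCoprime.pow_left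
    exact (Int.prime_two.coprime_iff_not_dvd).2 (by exact_mod_cast hd)
  exact hco.dvd_of_dvd_mul_left ⟨z, h1⟩

/-- membership in an infimum -/
theorem DD_iInf_four {t : Fin 3 → ℕ} {f g : Fin 3 → ℚ} (h0 : ∀ i, f i ∈ R2) (hg : ∀ k, f ∈ DD t k → g ∈ DD t k)
    {c : ℚ} (hc : c ∈ R2) (hfg : ∀ i, f i = c + 4 * g i) (k : ℕ) : f ∈ DD t k := by
  induction k with
  | zero => exact DD_zero h0
  | succ k ih =>
    have h1 := (DD t (k + 1)).add_mem (DD_const (t := t) (k := k + 1) hc) (DD_four (hg k ih))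
    convert h1 using 1
    funext i
    exact hfg i

/-- (QC) The curvature statement. -/
theorem curvature (t : Fin 3 → ℕ) (s w : Fin 3 → ℤ) (r : ℕ) (hinj : Function.Injective t)
    (hmod : ∀ i j, t i ≡ t j [MOD 2 ^ r]) (hw4 : ∀ i, w i ≡ 1 [ZMOD 4])
    (hs : ∀ i, w i = 1 + (2 * (t i : ℤ) + 1) * s i)
    (hE : ∀ i, Et (t i) (((w i : ℚ) + 3) / 12) (3 / (w i : ℚ)) = 0) :
    s 0 * ((t 1 : ℤ) - t 2) + s 1 * ((t 2 : ℤ) - t 0) + s 2 * ((t 0 : ℤ) - t 1) ≠ 0 ∧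
    (2 : ℤ) ^ (3 * r + 5) ∣
      s 0 * ((t 1 : ℤ) - t 2) + s 1 * ((t 2 : ℤ) - t 0) + s 2 * ((t 0 : ℤ) - t 1) := by
  have hw2 : ∀ i, ∃ v : ℤ, w i = 4 * v + 1 := by
    intro i
    obtain ⟨v, hv⟩ := (hw4 i).symm.dvd
    exact ⟨v, by linarith⟩
  set ψ : Fin 3 → ℚ := fun i => ((w i : ℚ) + 3) / 12 with hψdef
  set θ : Fin 3 → ℚ := fun i => 3 / (w i : ℚ) with hθdef
  have hψ0 : ∀ i, ψ i ∈ R2 := by
    intro i
    obtain ⟨v, hv⟩ := hw2 i
    have := R2_div (m := 3) (by norm_num) (v + 1)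
    convert this using 1
    simp only [hψdef, hv]
    push_cast; ring
  have hθ0 : ∀ i, θ i ∈ R2 := by
    intro i
    obtain ⟨v, hv⟩ := hw2 i
    have := R2_div (m := w i) (by omega) 3
    convert this using 1
    simp [hθdef]
  have hwne : ∀ i, (w i : ℚ) ≠ 0 := by
    intro i
    obtain ⟨v, hv⟩ := hw2 i
    have : w i ≠ 0 := by omega
    exact_mod_cast this
  have hθψ : ∀ i, θ i = -1 + 4 * (ψ i * θ i) := by
    intro i
    have := hwne i
    simp only [hψdef, hθdef]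
    field_simp
    ring
  have hE' : ∀ i, Et (t i) (ψ i) (θ i) = 0 := hE
  have hTle : ∀ i, t i ≤ t 0 + t 1 + t 2 := by
    intro i
    rcases (by decide : ∀ i : Fin 3, i = 0 ∨ i = 1 ∨ i = 2) i with rfl | rfl | rfl <;> omega
  have hm1 : (-1 : ℚ) ∈ R2 := by simpa using R2_int (-1)
  have h13 : (1 / 3 : ℚ) ∈ R2 := by simpa using R2_div (m := 3) (by norm_num) 1
  have hboth : ∀ k, ψ ∈ DD t k ∧ θ ∈ DD t k := by
    intro k
    induction k with
    | zero => exact ⟨DD_zero hψ0, DD_zero hθ0⟩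
    | succ k ih =>
      obtain ⟨⟨Ω, hΩ, h1⟩, -⟩ := qe (DD t k) (fun r hr => DD_const hr) t (t 0 + t 1 + t 2) hTle (DD_t t k) ψ θ ih.1 ih.2
      constructor
      · have h2 := (DD t (k + 1)).add_mem (DD_const (t := t) (k := k + 1) h13)
          (DD_four ((DD t k).neg_mem ((DD t k).mul_mem (DD_t t k) hΩ)))
        convert h2 using 1
        funext i
        have := h1 i
        rw [hE' i] at this
        simp only [Pi.add_apply, Pi.neg_apply, Pi.mul_apply]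
        linarith
      · have h2 := (DD t (k + 1)).add_mem (DD_const (t := t) (k := k + 1) hm1)
          (DD_four ((DD t k).mul_mem ih.1 ih.2))
        convert h2 using 1
        funext i
        exact hθψ i
  set S : Subring (Fin 3 → ℚ) := ⨅ k, DD t k with hSdef
  have hS : ∀ f, f ∈ S ↔ ∀ k, f ∈ DD t k := fun f => Subring.mem_iInf
  have hconst : ∀ r : ℚ, r ∈ R2 → (fun _ => r) ∈ S := fun r hr => (hS _).2 fun k => DD_const hr
  have htS : (fun i => (t i : ℚ)) ∈ S := (hS _).2 fun k => DD_t t k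
  have hψS : ψ ∈ S := (hS _).2 fun k => (hboth k).1
  have hθS : θ ∈ S := (hS _).2 fun k => (hboth k).2
  set x : Fin 3 → ℚ := fun i => 1 / (2 * (t i : ℚ) + 1) with hxdef
  have hxne : ∀ i, (2 * (t i : ℚ) + 1) ≠ 0 := fun i => by positivity
  have hx0 : ∀ i, x i ∈ R2 := by
    intro i
    have := R2_div (m := 2 * (t i : ℤ) + 1) (by omega) 1
    convert this using 1
    simp only [hxdef]; push_cast; ring
  have hxS : x ∈ S := by
    refine (hS _).2 fun k => ?_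
    induction k with
    | zero => exact DD_zero hx0
    | succ k ih =>
      have h2 := (DD t (k + 1)).add_mem (DD t (k + 1)).one_mem
          (DD_two ((DD t k).neg_mem ((DD t k).mul_mem (DD_t t k) ih)))
      convert h2 using 1
      funext i
      have := hxne i
      simp only [hxdef, Pi.add_apply, Pi.neg_apply, Pi.mul_apply, Pi.one_apply]
      field_simp
      ring
  obtain ⟨⟨Ω1, hΩ1, h1⟩, Ω, hΩ, h2⟩ := qe S (fun r hr => hconst r hr) t (t 0 + t 1 + t 2) hTle htS ψ θ hψS hθS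
  -- `ψ = 1/3 + 4 α`
  set α : Fin 3 → ℚ := -((fun i => (t i : ℚ)) * Ω1) with hαdef
  have hαS : α ∈ S := S.neg_mem (S.mul_mem htS hΩ1)
  have hψα : ∀ i, ψ i = 1 / 3 + 4 * α i := by
    intro i
    have := h1 i
    rw [hE' i] at this
    simp only [hαdef, Pi.neg_apply, Pi.mul_apply]
    linarith
  have hc : ∀ (n : ℤ) (m : ℤ), ¬ (2:ℤ) ∣ m → (fun _ : Fin 3 => (n : ℚ) / m) ∈ S := fun n m hm =>
    hconst _ (R2_div hm n)
  set T : Fin 3 → ℚ := fun i => (t i : ℚ) with hTdef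
  set δ : Fin 3 → ℚ := (fun _ => ((1 : ℤ) : ℚ) / (3 : ℤ)) * (T * α)
    - (fun _ => ((1 : ℤ) : ℚ) / (3 : ℤ)) * (T * ((T + T - 1) * θ)) *
      ((fun _ => ((-4 : ℤ) : ℚ) / (945 : ℤ)) + (fun _ => ((1 : ℤ) : ℚ) / (15 : ℤ)) * α
        + (fun _ => ((16 : ℤ) : ℚ) / (1 : ℤ)) * (α * α * α))
    - (fun _ => ((2 : ℤ) : ℚ) / (15 : ℤ)) * (T * (T - 1) * (T + T - 1) * (T + T - (fun _ => ((3 : ℤ) : ℚ) / (1 : ℤ)))) *
      (θ * θ) * (ψ * ψ * ψ * ψ) * ((fun _ => ((1 : ℤ) : ℚ) / (3 : ℤ)) + α) - Ω with hδdef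
  have hδS : δ ∈ S := by
    have c13 := hc 1 3 (by norm_num)
    have c4 := hc (-4) 945 (by norm_num)
    have c115 := hc 1 15 (by norm_num)
    have c16 := hc 16 1 (by norm_num)
    have c215 := hc 2 15 (by norm_num)
    have c31 := hc 3 1 (by norm_num)
    have hT1 : T + T - 1 ∈ S := S.sub_mem (S.add_mem htS htS) S.one_mem
    refine S.sub_mem (S.sub_mem (S.sub_mem (S.mul_mem c13 (S.mul_mem htS hαS)) ?_) ?_) hΩ
    · exact S.mul_mem (S.mul_mem c13 (S.mul_mem htS (S.mul_mem hT1 hθS)))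
        (S.add_mem (S.add_mem c4 (S.mul_mem c115 hαS)) (S.mul_mem c16 (S.mul_mem (S.mul_mem hαS hαS) hαS)))
    · exact S.mul_mem (S.mul_mem (S.mul_mem (S.mul_mem c215 (S.mul_mem (S.mul_mem (S.mul_mem htS
        (S.sub_mem htS S.one_mem)) hT1) (S.sub_mem (S.add_mem htS htS) c31))) (S.mul_mem hθS hθS))
        (S.mul_mem (S.mul_mem (S.mul_mem hψS hψS) hψS) hψS)) (S.add_mem c13 hαS)
  have hψδ : ∀ i, ψ i = 1 / 3 - 4 / 45 * t i + 16 * δ i := by
    intro i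
    have e2 := h2 i
    rw [hE' i] at e2
    have e3 := hψα i
    simp only [hδdef, hTdef, Pi.add_apply, Pi.sub_apply, Pi.mul_apply, Pi.one_apply]
    push_cast
    generalize ψ i = p at *
    generalize α i = a at *
    generalize θ i = q at *
    generalize Ω i = o at *
    generalize (t i : ℚ) = u at *
    subst e3
    linear_combination -e2
  have hsx : ∀ i, (s i : ℚ) = -(8 / 15) * (1 - x i) + 192 * (δ * x) i := by
    intro i
    have e1 : (w i : ℚ) = 1 + (2 * (t i : ℚ) + 1) * s i := by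
      have := congrArg (Int.cast (R := ℚ)) (hs i)
      push_cast at this; exact this
    have e2 : (w i : ℚ) = 12 * ψ i - 3 := by simp only [hψdef]; ring
    have e3 := hψδ i
    have e4 : x i * (2 * (t i : ℚ) + 1) = 1 := by
      have := hxne i
      simp only [hxdef]; field_simp
    have e5 : (s i : ℚ) = x i * (w i - 1) := by
      rw [e1]; linear_combination (-(s i : ℚ)) * e4
    rw [e5, e2, e3, Pi.mul_apply]
    linear_combination (-(8 / 15 : ℚ)) * e4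
  obtain ⟨a, b, c, habc⟩ := DD_inf hinj ((hS _).1 (S.mul_mem hδS hxS))
  have h01 : t 0 ≠ t 1 := fun h => by have := hinj h; simp at this
  have h12 : t 1 ≠ t 2 := fun h => by have := hinj h; simp at this
  have h20 : t 2 ≠ t 0 := fun h => by have := hinj h; simp at this
  -- differences are divisible by `2^r`
  have hdiff : ∀ i j, ∃ u : ℤ, (t i : ℤ) - t j = 2 ^ r * u := by
    intro i j
    have := (Nat.modEq_iff_dvd.1 (hmod j i))
    obtain ⟨u, hu⟩ := this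
    exact ⟨u, by push_cast at hu; exact hu⟩
  obtain ⟨u0, hu0⟩ := hdiff 0 1
  obtain ⟨u1, hu1⟩ := hdiff 1 2
  obtain ⟨u2, hu2⟩ := hdiff 2 0
  -- the unit part
  set p : ℚ := ((1 : ℤ) : ℚ) / ((15 * ((2 * (t 0 : ℤ) + 1) * (2 * (t 1 : ℤ) + 1) * (2 * (t 2 : ℤ) + 1)) : ℤ) : ℚ) with hp
  have hodd : ¬ (2:ℤ) ∣ (15 * ((2 * (t 0 : ℤ) + 1) * (2 * (t 1 : ℤ) + 1) * (2 * (t 2 : ℤ) + 1)) : ℤ) := by
    rw [← even_iff_two_dvd, Int.not_even_iff_odd]
    refine Odd.mul (by decide) (Odd.mul (Odd.mul ?_ ?_) ?_) <;> exact ⟨_, rfl⟩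
  have hpR : p ∈ R2 := R2_div hodd 1
  have hpe : p * (15 * ((2 * (t 0 : ℚ) + 1) * (2 * (t 1 : ℚ) + 1) * (2 * (t 2 : ℚ) + 1))) = 1 := by
    have n0 := hxne 0
    have n1 := hxne 1
    have n2 := hxne 2
    rw [hp]; push_cast; field_simp
  have hEq : ((s 0 * ((t 1 : ℤ) - t 2) + s 1 * ((t 2 : ℤ) - t 0) + s 2 * ((t 0 : ℤ) - t 1) : ℤ) : ℚ)
      = -32 * (((t 0 : ℚ) - t 1) * ((t 1 : ℚ) - t 2) * ((t 2 : ℚ) - t 0)) * (p + 6 * c) := by
    push_cast
    rw [hsx 0, hsx 1, hsx 2, habc 0, habc 1, habc 2]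
    have n0 := hxne 0
    have n1 := hxne 1
    have n2 := hxne 2
    have hx : x 0 * ((t 1 : ℚ) - t 2) + x 1 * ((t 2 : ℚ) - t 0) + x 2 * ((t 0 : ℚ) - t 1)
      = -60 * (((t 0 : ℚ) - t 1) * ((t 1 : ℚ) - t 2) * ((t 2 : ℚ) - t 0)) * p := by
      rw [hp]
      simp only [hxdef]
      push_cast
      field_simp
      ring
    linear_combination (8 / 15 : ℚ) * hx
  have hcR : (c : ℚ) ∈ R2 := c.2
  have h6R : (6 : ℚ) ∈ R2 := by simpa using R2_int 6
  have hsumR : p + 6 * c ∈ R2 := R2.add_mem hpR (R2.mul_mem h6R hcR)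
  constructor
  · intro h0
    rw [h0] at hEq
    have hV : (((t 0 : ℚ) - t 1) * ((t 1 : ℚ) - t 2) * ((t 2 : ℚ) - t 0)) ≠ 0 := by
      refine mul_ne_zero (mul_ne_zero ?_ ?_) ?_ <;> · rw [sub_ne_zero]; exact_mod_cast ‹_›
    have h3 : p + 6 * c = 0 := by
      rcases mul_eq_zero.1 (by simpa using hEq.symm : (-32 * (((t 0 : ℚ) - t 1) * ((t 1 : ℚ) - t 2) * ((t 2 : ℚ) - t 0))) * (p + 6 * c) = 0) with h | h
      · exfalso
        rcases mul_eq_zero.1 h with h | h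
        · norm_num at h
        · exact hV h
      · exact h
    have hPi : (15 * ((2 * (t 0 : ℚ) + 1) * (2 * (t 1 : ℚ) + 1) * (2 * (t 2 : ℚ) + 1))) ∈ R2 := by
      have := R2_int (15 * ((2 * (t 0 : ℤ) + 1) * (2 * (t 1 : ℤ) + 1) * (2 * (t 2 : ℤ) + 1)))
      push_cast at this; exact this
    have h4 : 2 * (((-3 : ℤ) : ℚ) * c * (15 * ((2 * (t 0 : ℚ) + 1) * (2 * (t 1 : ℚ) + 1) * (2 * (t 2 : ℚ) + 1)))) = 1 := by
      push_cast
      linear_combination hpe - (15 * ((2 * (t 0 : ℚ) + 1) * (2 * (t 1 : ℚ) + 1) * (2 * (t 2 : ℚ) + 1))) * h3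
    exact R2_half _ (R2.mul_mem (R2.mul_mem (R2_int (-3)) hcR) hPi) h4
  · refine R2_dvd (y := ((-(u0 * u1 * u2) : ℤ) : ℚ) * (p + 6 * c)) (R2.mul_mem (R2_int _) hsumR) ?_
    rw [hEq]
    have q0 : (t 0 : ℚ) - t 1 = 2 ^ r * u0 := by
      have := congrArg (Int.cast (R := ℚ)) hu0
      push_cast at this; exact this
    have q1 : (t 1 : ℚ) - t 2 = 2 ^ r * u1 := by
      have := congrArg (Int.cast (R := ℚ)) hu1
      push_cast at this; exact this
    have q2 : (t 2 : ℚ) - t 0 = 2 ^ r * u2 := by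
      have := congrArg (Int.cast (R := ℚ)) hu2
      push_cast at this; exact this
    rw [q0, q1, q2]
    push_cast
    ring

end Pool.Agent.Bern2
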