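import Mathlib
import Pool.Agent.Bern2.QC

namespace Pool.Agent.Bern2

open Polynomial Finset Pool.Agent.Helper29 Pool.Agent.Helper98.Bern

theorem qct_exists_r (N : ℕ) : ∃ r : ℕ, 8 * (N + 1) ^ 2 < 2 ^ (3 * r + 5) ∧
    2 ^ (3 * r) ≤ 2 * (N + 1) ^ 2 := by
  have hex : ∃ r : ℕ, 8 * (N + 1) ^ 2 < 2 ^ (3 * r + 5) := by
    refine ⟨8 * (N + 1) ^ 2, ?_⟩
    calc 8 * (N + 1) ^ 2 < 2 ^ (8 * (N + 1) ^ 2) := Nat.lt_two_pow_self
      _ ≤ 2 ^ (3 * (8 * (N + 1) ^ 2) + 5) := Nat.pow_le_pow_right (by norm_num) (by omega)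
  classical
  refine ⟨Nat.find hex, Nat.find_spec hex, ?_⟩
  rcases Nat.eq_zero_or_pos (Nat.find hex) with h | h
  · rw [h]
    have : 1 ≤ (N + 1) ^ 2 := Nat.one_le_pow _ _ (by omega)
    simp
    omega
  · have h1 := Nat.find_min hex (m := Nat.find hex - 1) (by omega)
    rw [not_lt] at h1
    have h2 : 3 * (Nat.find hex - 1) + 5 = 3 * Nat.find hex + 2 := by omega
    rw [h2, pow_add] at h1
    omega

/-- (QCT) Few `t` admit a solution with `w = 1 + (2t+1)s`, `0 ≤ s ≤ 2t`. -/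
theorem quad_count (N : ℕ) (S : Finset ℕ) (hN : ∀ t ∈ S, t ≤ N)
    (hS : ∀ t ∈ S, ∃ s w : ℤ, 0 ≤ s ∧ s ≤ 2 * t ∧ w = 1 + (2 * (t : ℤ) + 1) * s ∧
      w ≡ 1 [ZMOD 4] ∧ Et t (((w : ℚ) + 3) / 12) (3 / (w : ℚ)) = 0) :
    (S.card : ℝ) ≤ 10 * ((N : ℝ) + 1) ^ (2 / 3 : ℝ) := by
  obtain ⟨r, hr1, hr2⟩ := qct_exists_r N
  have hcard : S.card ≤ 2 * 2 ^ r := by
    by_contra hcon
    rw [not_le] at hcon
    have hmaps : ∀ t ∈ S, t % 2 ^ r ∈ range (2 ^ r) := fun t _ =>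
      mem_range.2 (Nat.mod_lt _ (by positivity))
    obtain ⟨y, hy, hy2⟩ := Finset.exists_lt_card_fiber_of_mul_lt_card_of_maps_to hmaps (n := 2)
      (by rw [card_range]; omega)
    obtain ⟨a, ha, b, hb, c, hc, hab, hac, hbc⟩ := Finset.two_lt_card.1 hy2
    rw [mem_filter] at ha hb hc
    obtain ⟨sa, wa, ha1, ha2, ha3, ha4, ha5⟩ := hS a ha.1
    obtain ⟨sb, wb, hb1, hb2, hb3, hb4, hb5⟩ := hS b hb.1
    obtain ⟨sc, wc, hc1, hc2, hc3, hc4, hc5⟩ := hS c hc.1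
    have key := curvature ![a, b, c] ![sa, sb, sc] ![wa, wb, wc] r
      (by
        intro i j hij
        fin_cases i <;> fin_cases j <;> simp_all)
      (by
        have e1 : ∀ i, (![a, b, c] : Fin 3 → ℕ) i % 2 ^ r = y := by
          intro i
          fin_cases i
          · exact ha.2
          · exact hb.2
          · exact hc.2
        intro i j
        unfold Nat.ModEq
        rw [e1 i, e1 j])
      (by intro i; fin_cases i; exacts [ha4, hb4, hc4])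
      (by intro i; fin_cases i; exacts [ha3, hb3, hc3])
      (by intro i; fin_cases i; exacts [ha5, hb5, hc5])
    obtain ⟨hne, hdvd⟩ := key
    simp only [Matrix.cons_val_zero, Matrix.cons_val_one, Matrix.cons_val_two, Matrix.head_cons,
      Matrix.tail_cons, Matrix.cons_val] at hne hdvd
    have hlb := Int.le_of_dvd (abs_pos.2 hne) ((dvd_abs _ _).2 hdvd)
    have haN : (a : ℤ) ≤ N := by exact_mod_cast hN a ha.1
    have hbN : (b : ℤ) ≤ N := by exact_mod_cast hN b hb.1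
    have hcN : (c : ℤ) ≤ N := by exact_mod_cast hN c hc.1
    have ha0 : (0 : ℤ) ≤ a := by positivity
    have hb0 : (0 : ℤ) ≤ b := by positivity
    have hc0 : (0 : ℤ) ≤ c := by positivity
    have hbd : ∀ s x y : ℤ, 0 ≤ s → s ≤ 2 * N → 0 ≤ x → x ≤ N → 0 ≤ y → y ≤ N →
        |s * (x - y)| ≤ 2 * N * N := by
      intro s x y hs0 hs1 hx0 hx1 hy0 hy1
      rw [abs_mul]
      have h1 : |s| ≤ 2 * N := by rw [abs_of_nonneg hs0]; exact hs1
      have h2 : |x - y| ≤ N := by rw [abs_le]; constructor <;> linarith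
      exact mul_le_mul h1 h2 (abs_nonneg _) (by positivity)
    have h1 := hbd sa b c ha1 (by linarith) hb0 hbN hc0 hcN
    have h2 := hbd sb c a hb1 (by linarith) hc0 hcN ha0 haN
    have h3 := hbd sc a b hc1 (by linarith) ha0 haN hb0 hbN
    have h4 : |sa * ((b : ℤ) - c) + sb * ((c : ℤ) - a) + sc * ((a : ℤ) - b)| ≤ 6 * N * N := by
      refine (abs_add_three _ _ _).trans ?_
      linarith
    have h5 : (8 * (N + 1) ^ 2 : ℤ) < 2 ^ (3 * r + 5) := by exact_mod_cast hr1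
    nlinarith
  -- real estimate
  have hx0 : (0:ℝ) < (N:ℝ) + 1 := by positivity
  have h1 : ((2:ℝ) ^ r) ^ 3 ≤ (2 * ((N : ℝ) + 1) ^ (2 / 3 : ℝ)) ^ 3 := by
    have h2 : ((2:ℝ) ^ r) ^ 3 ≤ 2 * ((N:ℝ) + 1) ^ 2 := by
      rw [← pow_mul, mul_comm r 3]
      exact_mod_cast hr2
    have h3 : (2 * ((N : ℝ) + 1) ^ (2 / 3 : ℝ)) ^ 3 = 8 * ((N:ℝ) + 1) ^ 2 := by
      rw [mul_pow, ← Real.rpow_natCast (((N : ℝ) + 1) ^ (2 / 3 : ℝ)) 3, ← Real.rpow_mul hx0.le]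
      norm_num
    rw [h3]
    have h4 : (0:ℝ) ≤ ((N:ℝ) + 1) ^ 2 := by positivity
    linarith
  have h2 : (2:ℝ) ^ r ≤ 2 * ((N : ℝ) + 1) ^ (2 / 3 : ℝ) :=
    (pow_le_pow_iff_left₀ (by positivity) (by positivity) (by norm_num)).1 h1
  have h3 : (S.card : ℝ) ≤ 2 * 2 ^ r := by exact_mod_cast hcard
  have h4 : (0:ℝ) ≤ ((N : ℝ) + 1) ^ (2 / 3 : ℝ) := by positivity
  linarith

end Pool.Agent.Bern2
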