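import Mathlib
import Pool.Agent.Bern2.KUM
import Pool.Agent.Helper98.Bern.AL

namespace Pool.Agent.Bern2

open Polynomial Finset Pool.Agent.Helper29 Pool.Agent.Helper98.Bern

namespace QLaux

section

variable (l : ℕ) [hF : Fact l.Prime]

lemma norm_of_PI {q : ℚ} (h : PI l q) : ‖(q : ℚ_[l])‖ ≤ 1 := by
  obtain ⟨d, z, hd, hdz⟩ := h
  have h1 : ((d : ℤ) : ℚ_[l]) * (q : ℚ_[l]) = ((z : ℤ) : ℚ_[l]) := by
    have : (((d : ℚ) * q : ℚ) : ℚ_[l]) = ((z : ℚ) : ℚ_[l]) := by rw [hdz]
    push_cast at this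
    exact this
  have h2 : ‖((d : ℤ) : ℚ_[l])‖ = 1 := by
    have h3 := Padic.norm_int_le_one (p := l) d
    have h4 : ¬ ‖((d : ℤ) : ℚ_[l])‖ < 1 := by
      rw [Padic.norm_intCast_lt_one_iff]
      exact hd
    exact le_antisymm h3 (not_lt.1 h4)
  have h5 := congrArg norm h1
  rw [norm_mul, h2, one_mul] at h5
  rw [h5]
  exact Padic.norm_int_le_one (p := l) z

/-- shift invariance -/
lemma eval_const {f : (ZMod l)[X]} (h : f.comp (1 + X) = f) (a : ZMod l) : f.eval a = f.eval 0 := by
  have h1 : ∀ n : ℕ, f.eval (n : ZMod l) = f.eval 0 := by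
    intro n
    induction n with
    | zero => simp
    | succ n ih =>
      have := congrArg (Polynomial.eval (n : ZMod l)) h
      rw [eval_comp] at this
      simp only [eval_add, eval_one, eval_X] at this
      rw [← ih, ← this]
      congr 1
      push_cast
      ring
  have := h1 a.val
  rwa [ZMod.natCast_zmod_val] at this

lemma eq_C {f : (ZMod l)[X]} (h : f.comp (1 + X) = f) (hd : f.natDegree < l) :
    f = C (f.eval 0) := by
  have h1 : f - C (f.eval 0) = 0 := by
    apply Polynomial.eq_zero_of_natDegree_lt_card_of_eval_eq_zero (f - C (f.eval 0))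
      (f := (id : ZMod l → ZMod l)) Function.injective_id
    · intro i
      rw [eval_sub, eval_C, id, eval_const l h, sub_self]
    · rw [ZMod.card]
      rw [natDegree_sub_C]
      exact hd
  exact sub_eq_zero.1 h1

lemma monic_V : (X ^ l - X : (ZMod l)[X]).Monic := by
  apply monic_X_pow_sub
  rw [degree_X]
  exact_mod_cast hF.out.one_lt

lemma natDegree_V : (X ^ l - X : (ZMod l)[X]).natDegree = l :=
  FiniteField.X_pow_card_sub_X_natDegree_eq _ hF.out.one_lt

lemma V_dvd {f : (ZMod l)[X]} (h : ∀ a, f.eval a = 0) : (X ^ l - X : (ZMod l)[X]) ∣ f := by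
  rw [← modByMonic_eq_zero_iff_dvd (monic_V l)]
  apply Polynomial.eq_zero_of_natDegree_lt_card_of_eval_eq_zero _
      (f := (id : ZMod l → ZMod l)) Function.injective_id
  · intro i
    have h1 := modByMonic_add_div f (X ^ l - X : (ZMod l)[X])
    have h2 := congrArg (Polynomial.eval (id i)) h1
    rw [eval_add, eval_mul, h] at h2
    have h3 : eval (id i) (X ^ l - X : (ZMod l)[X]) = 0 := by
      simp [ZMod.pow_card]
    rw [h3, zero_mul, add_zero] at h2
    exact h2
  · rw [ZMod.card]
    have h1 := natDegree_modByMonic_lt f (monic_V l) (by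
      intro h
      have h2 := natDegree_V l
      rw [h, natDegree_one] at h2
      exact hF.out.ne_zero h2.symm)
    rwa [natDegree_V] at h1

lemma V_comp : (X ^ l - X : (ZMod l)[X]).comp (1 + X) = X ^ l - X := by
  simp only [sub_comp, pow_comp, X_comp]
  rw [add_pow_char, one_pow]
  ring

lemma V_comp' (h2 : l ≠ 2) : (X ^ l - X : (ZMod l)[X]).comp (1 - X) = -(X ^ l - X) := by
  simp only [sub_comp, pow_comp, X_comp]
  rw [sub_pow_char, one_pow]
  ring

/-- The only monic invariant symmetric polynomial of degree `2 l`. -/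
lemma eq_V_sq (h2 : l ≠ 2) {f : (ZMod l)[X]} (hm : f.Monic) (hd : f.natDegree = 2 * l)
    (hinv : f.comp (1 + X) = f) (hsym : f.comp (1 - X) = f) (h0 : f.eval 0 = 0) :
    f = (X ^ l - X) ^ 2 := by
  have hl := hF.out
  have hmV : ((X ^ l - X : (ZMod l)[X]) ^ 2).Monic := (monic_V l).pow 2
  have hdV : ((X ^ l - X : (ZMod l)[X]) ^ 2).natDegree = 2 * l := by
    rw [(monic_V l).natDegree_pow, natDegree_V]
  obtain ⟨E, hE⟩ : (X ^ l - X : (ZMod l)[X]) ∣ f - (X ^ l - X) ^ 2 := by
    apply V_dvd
    intro a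
    rw [eval_sub, eval_const l hinv, h0]
    simp [ZMod.pow_card]
  have hV0 : (X ^ l - X : (ZMod l)[X]) ≠ 0 := (monic_V l).ne_zero
  by_cases hE0 : E = 0
  · rw [hE0, mul_zero] at hE
    exact sub_eq_zero.1 hE
  have hEinv : E.comp (1 + X) = E := by
    have h1 := congrArg (fun g : (ZMod l)[X] => g.comp (1 + X)) hE
    simp only [mul_comp, V_comp] at h1
    rw [sub_comp, hinv, pow_comp, V_comp, hE] at h1
    exact (mul_left_cancel₀ hV0 h1).symm
  have hEd : E.natDegree < l := by
    have h1 : (f - (X ^ l - X) ^ 2).degree < f.degree :=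
      degree_sub_lt (by rw [degree_eq_natDegree hm.ne_zero, degree_eq_natDegree hmV.ne_zero, hd, hdV])
        hm.ne_zero (by rw [hm.leadingCoeff, hmV.leadingCoeff])
    rw [hE, degree_mul, degree_eq_natDegree hV0, degree_eq_natDegree hE0,
      degree_eq_natDegree hm.ne_zero, hd, natDegree_V] at h1
    have h2 : l + E.natDegree < 2 * l := by exact_mod_cast h1
    omega
  have hEC := eq_C l hEinv hEd
  have h1 := congrArg (fun g : (ZMod l)[X] => g.comp (1 - X)) hE
  simp only [mul_comp] at h1
  rw [sub_comp, hsym, pow_comp, V_comp' l h2, neg_sq, hE, hEC, C_comp] at h1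
  have h3 : (X ^ l - X : (ZMod l)[X]) * (C (eval 0 E) * 2) = 0 := by
    linear_combination h1
  have h4 : (C (eval 0 E) * 2 : (ZMod l)[X]) = 0 := by
    rcases mul_eq_zero.1 h3 with h | h
    · exact absurd h hV0
    · exact h
  have h5 : (2 : (ZMod l)[X]) ≠ 0 := by
    have h6 : (2 : ZMod l) ≠ 0 := by
      intro h
      have h' : ((2 : ℕ) : ZMod l) = 0 := by exact_mod_cast h
      rw [ZMod.natCast_eq_zero_iff] at h'
      exact h2 ((Nat.prime_dvd_prime_iff_eq hl Nat.prime_two).1 h')
    have : (2 : (ZMod l)[X]) = C 2 := (map_ofNat C 2).symm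
    rw [this]
    simpa using h6
  have h7 : (C (eval 0 E) : (ZMod l)[X]) = 0 := by
    rcases mul_eq_zero.1 h4 with h | h
    · exact h
    · exact absurd h h5
  rw [hEC, h7, mul_zero] at hE
  exact sub_eq_zero.1 hE

end

lemma PI_coeff {l : ℕ} (hl : l.Prime) (h5 : 5 ≤ l) (k : ℕ) :
    PI l ((Polynomial.bernoulli (2 * l)).coeff k) := by
  rw [coeff_bernoulli]
  split_ifs with hk
  · rcases Nat.eq_zero_or_pos k with h0 | h0
    · subst h0
      simp only [Nat.choose_zero_right, Nat.cast_one, mul_one, Nat.sub_zero]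
      apply PI_bernoulli hl (by omega)
      right
      intro h
      have h1 : (l - 1) ∣ 2 * l - 2 * (l - 1) := Nat.dvd_sub h (dvd_mul_left _ _)
      have h2 : 2 * l - 2 * (l - 1) = 2 := by omega
      rw [h2] at h1
      have := Nat.le_of_dvd (by norm_num) h1
      omega
    rcases Nat.lt_or_ge k (2 * l) with hk2 | hk2
    · by_cases hkl : k = l
      · subst hkl
        have hodd : Odd k := hl.odd_of_ne_two (by omega)
        rw [show 2 * k - k = k by omega, bernoulli_eq_zero_of_odd hodd (by omega), zero_mul]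
        simpa using PI.int hl 0
      · have hdvd : l ∣ (2 * l).choose k := by
          haveI : Fact l.Prime := ⟨hl⟩
          have h1 : ((2 * l).choose k) ≡ ((2 * l) % l).choose (k % l) *
              ((2 * l) / l).choose (k / l) [MOD l] := Choose.choose_modEq_choose_mod_mul_choose_div_nat
          rw [Nat.mul_mod_left] at h1
          have h2 : k % l ≠ 0 := by
            intro h
            obtain ⟨c, hc⟩ := Nat.dvd_of_mod_eq_zero h
            have hc1 : c < 2 := by
              by_contra hc2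
              push Not at hc2
              have : l * 2 ≤ l * c := Nat.mul_le_mul_left _ hc2
              omega
            interval_cases c
            · omega
            · omega
          rw [Nat.choose_eq_zero_of_lt (by omega : 0 < k % l), zero_mul] at h1
          exact (Nat.modEq_zero_iff_dvd).1 h1
        obtain ⟨c, hc⟩ := hdvd
        have h1 : _root_.bernoulli (2 * l - k) * ((2 * l).choose k : ℚ) =
            (c : ℚ) * ((l : ℚ) * _root_.bernoulli (2 * l - k)) := by
          rw [hc]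
          push_cast
          ring
        rw [h1]
        exact PI.mul hl (PI.nat hl c) (PI_bernoulli_mul hl (by omega) _)
    · have : k = 2 * l := by omega
      subst this
      simpa using PI.int hl 1
  · simpa using PI.int hl 0

/-- Values of `B_{2l}` modulo `l^2`. -/
lemma value_mod {l : ℕ} (hl : l.Prime) (h5 : 5 ≤ l) (a : ℕ) :
    ∃ r : ℚ, PI l r ∧ 6 * (Polynomial.bernoulli (2 * l)).eval (a : ℚ) =
      l * (6 * (a : ℚ) ^ 2 - 6 * a + 1) + l ^ 2 * r := by
  have hl0 : (l : ℚ) ≠ 0 := by exact_mod_cast hl.ne_zero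
  have hk := kummer l (2 * l) 2 hl h5 (even_two_mul l) even_two (by omega) (by omega) (by
      have h1 : 2 * l = 2 + (l - 1) * 2 := by omega
      rw [h1]
      exact (Nat.modEq_iff_dvd' (by omega)).2 ⟨2, by omega⟩ |>.symm) (by
      intro h
      have h1 : (l - 1) ∣ 2 * l - 2 * (l - 1) := Nat.dvd_sub h (dvd_mul_left _ _)
      have h2 : 2 * l - 2 * (l - 1) = 2 := by omega
      rw [h2] at h1
      have := Nat.le_of_dvd (by norm_num) h1
      omega)
  rw [_root_.bernoulli_two] at hk
  push_cast at hk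
  have hferm : ∀ k : ℕ, ∃ z : ℤ, (k : ℤ) ^ (2 * l - 1) - k = l * z := by
    intro k
    haveI : Fact l.Prime := ⟨hl⟩
    have h1 : (((k : ℤ) ^ (2 * l - 1) - k : ℤ) : ZMod l) = 0 := by
      push_cast
      rw [show 2 * l - 1 = l + (l - 1) by omega, pow_add, ZMod.pow_card]
      by_cases hk0 : (k : ZMod l) = 0
      · rw [hk0]; simp
      · rw [ZMod.pow_card_sub_one_eq_one hk0, mul_one, sub_self]
    rw [ZMod.intCast_zmod_eq_zero_iff_dvd] at h1
    exact h1
  choose zf hzf using hferm
  have hsum : ∑ k ∈ range a, (k : ℚ) ^ (2 * l - 1) = ∑ k ∈ range a, (k : ℚ) +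
      l * ∑ k ∈ range a, (zf k : ℚ) := by
    rw [Finset.mul_sum, ← Finset.sum_add_distrib]
    apply Finset.sum_congr rfl
    intro k _
    have h1 : (((k : ℤ) ^ (2 * l - 1) - k : ℤ) : ℚ) = ((l * zf k : ℤ) : ℚ) := by rw [hzf k]
    push_cast at h1
    linarith
  have hgauss : ∀ a : ℕ, ∑ k ∈ range a, (k : ℚ) = (a ^ 2 - a) / 2 := by
    intro a
    induction a with
    | zero => simp
    | succ a ih =>
      rw [Finset.sum_range_succ, ih]
      push_cast
      ring
  have hev : (Polynomial.bernoulli (2 * l)).eval (a : ℚ) = _root_.bernoulli (2 * l) +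
      2 * l * (∑ k ∈ range a, (k : ℚ) ^ (2 * l - 1)) := by
    have h1 := Polynomial.bernoulli_succ_eval a (2 * l - 1)
    have h2 : (2 * l - 1).succ = 2 * l := by omega
    rw [h2] at h1
    rw [h1]
    congr 2
    have h3 : ((2 * l - 1 : ℕ) : ℚ) = 2 * l - 1 := by
      rw [Nat.cast_sub (by omega)]
      push_cast
      ring
    rw [h3]
    ring
  refine ⟨12 * ((_root_.bernoulli (2 * l) / (2 * l) - 6⁻¹ / 2) / l) +
    12 * ∑ k ∈ range a, (zf k : ℚ), ?_, ?_⟩
  · apply PI.add hl
    · exact PI.mul hl (by simpa using PI.int hl 12) hk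
    · apply PI.mul hl (by simpa using PI.int hl 12)
      apply PI.sum hl
      intro k _
      exact PI.int hl _
  · rw [hev, hsum, hgauss]
    field_simp
    ring

end QLaux

open QLaux

/-- (QL) The condition modulo `l` on a quadratic factor of `B_{2l}`. -/
theorem ql (l : ℕ) (hl : l.Prime) (h5 : 5 ≤ l) (w : ℤ)
    (hdiv : QW w ∣ Polynomial.bernoulli (2 * l)) :
    (l : ℤ) ^ 2 ∣ w - l ∨ (l : ℤ) ∣ w - 1 := by
  haveI : Fact l.Prime := ⟨hl⟩
  have hinj : Function.Injective (algebraMap ℤ_[l] ℚ_[l]) := IsFractionRing.injective ℤ_[l] ℚ_[l]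
  -- integral lift of `B`
  obtain ⟨BZ, hBZ⟩ : ∃ BZ : ℤ_[l][X], BZ.map (algebraMap ℤ_[l] ℚ_[l]) =
      (Polynomial.bernoulli (2 * l)).map (algebraMap ℚ ℚ_[l]) := by
    have h1 : (Polynomial.bernoulli (2 * l)).map (algebraMap ℚ ℚ_[l]) ∈
        lifts (algebraMap ℤ_[l] ℚ_[l]) := by
      rw [lifts_iff_coeff_lifts]
      intro n
      refine ⟨⟨(((Polynomial.bernoulli (2 * l)).coeff n : ℚ) : ℚ_[l]),
        norm_of_PI l (PI_coeff hl h5 n)⟩, ?_⟩
      rw [coeff_map]
      simp
    rw [mem_lifts] at h1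
    exact h1
  have h12 : ∃ c : ℤ_[l], (12 : ℤ_[l]) * c = ((3 - w : ℤ) : ℤ_[l]) ∧
      (algebraMap ℤ_[l] ℚ_[l] c) = algebraMap ℚ ℚ_[l] (((3 - w : ℤ) : ℚ) / 12) := by
    have hPI : PI l (((3 - w : ℤ) : ℚ) / 12) := by
      refine ⟨12, 3 - w, ?_, by push_cast; ring⟩
      intro h
      have h1 : l ∣ 12 := by exact_mod_cast h
      have h2 : l ∣ 2 ^ 2 * 3 := h1
      rcases (hl.dvd_mul).1 h2 with h3 | h3
      · have := Nat.le_of_dvd (by norm_num) (hl.dvd_of_dvd_pow h3)
        omega
      · have := Nat.le_of_dvd (by norm_num) h3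
        omega
    refine ⟨⟨_, norm_of_PI l hPI⟩, ?_, ?_⟩
    · apply Subtype.ext
      have h12' : ((12 : ℤ_[l]) : ℚ_[l]) = 12 := rfl
      rw [PadicInt.coe_mul, h12', PadicInt.coe_intCast]
      push_cast
      ring
    · simp
  obtain ⟨c, hc12, hc⟩ := h12
  set QZ : ℤ_[l][X] := X ^ 2 - X + C c with hQZ
  have hQZm : QZ.Monic := by
    rw [hQZ, sub_add]
    apply monic_X_pow_sub
    refine (degree_sub_le _ _).trans_lt ?_
    rw [degree_X]
    refine max_lt (by norm_num) (degree_C_le.trans_lt (by norm_num))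
  have hQZmap : QZ.map (algebraMap ℤ_[l] ℚ_[l]) = (QW w).map (algebraMap ℚ ℚ_[l]) := by
    rw [hQZ, QW]
    simp only [Polynomial.map_add, Polynomial.map_sub, Polynomial.map_pow, map_X, map_C]
    rw [hc]
  obtain ⟨GZ, hGZ⟩ : QZ ∣ BZ := by
    rw [← Polynomial.map_dvd_map (algebraMap ℤ_[l] ℚ_[l]) hinj hQZm, hQZmap, hBZ]
    exact Polynomial.map_dvd (algebraMap ℚ ℚ_[l]) hdiv
  have hmapinj : Function.Injective (Polynomial.map (algebraMap ℤ_[l] ℚ_[l])) :=
    Polynomial.map_injective _ hinj
  have hBm : BZ.Monic := by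
    apply monic_of_injective hinj
    rw [hBZ]
    exact (monic_bernoulli _).map _
  have hBd : BZ.natDegree = 2 * l := by
    rw [← natDegree_map_eq_of_injective hinj, hBZ, natDegree_map, natDegree_bernoulli]
  have hBinv : BZ.comp (1 + X) = BZ + C ((2 * l : ℕ) : ℤ_[l]) * X ^ (2 * l - 1) := by
    apply hmapinj
    rw [Polynomial.map_comp, hBZ]
    have h1 : ((1 + X : ℤ_[l][X]).map (algebraMap ℤ_[l] ℚ_[l])) =
        (1 + X : ℚ[X]).map (algebraMap ℚ ℚ_[l]) := by simp
    rw [h1, ← Polynomial.map_comp, bernoulli_comp_one_add_X, Polynomial.map_add,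
      Polynomial.map_add, hBZ, Polynomial.map_mul, map_C, map_natCast, Polynomial.map_pow, map_X,
      nsmul_eq_mul, Polynomial.map_mul, Polynomial.map_natCast, Polynomial.map_pow, map_X]
    simp only [Nat.cast_mul, Nat.cast_ofNat, map_mul, map_natCast, map_ofNat]
  have hBsym : BZ.comp (1 - X) = BZ := by
    apply hmapinj
    rw [Polynomial.map_comp, hBZ]
    have h1 : ((1 - X : ℤ_[l][X]).map (algebraMap ℤ_[l] ℚ_[l])) =
        (1 - X : ℚ[X]).map (algebraMap ℚ ℚ_[l]) := by simp
    rw [h1, ← Polynomial.map_comp, bernoulli_comp_one_sub_X]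
    rw [Even.neg_one_pow (even_two_mul l), one_mul]
  have hval : ∀ a : ℕ, ∃ r : ℤ_[l], 6 * BZ.eval (a : ℤ_[l]) =
      l * (6 * (a : ℤ_[l]) ^ 2 - 6 * a + 1) + l ^ 2 * r := by
    intro a
    obtain ⟨r, hr, hra⟩ := value_mod hl h5 a
    refine ⟨⟨(r : ℚ_[l]), norm_of_PI l hr⟩, ?_⟩
    apply Subtype.ext
    have h1 : ((BZ.eval (a : ℤ_[l]) : ℤ_[l]) : ℚ_[l]) =
        (((Polynomial.bernoulli (2 * l)).eval (a : ℚ) : ℚ) : ℚ_[l]) := by
      have h2 : ((BZ.eval (a : ℤ_[l]) : ℤ_[l]) : ℚ_[l]) =
          (BZ.map (algebraMap ℤ_[l] ℚ_[l])).eval (a : ℚ_[l]) := by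
        have h3 := Polynomial.eval_natCast_map (algebraMap ℤ_[l] ℚ_[l]) BZ a
        rw [h3]
        rfl
      rw [h2, hBZ, Polynomial.eval_natCast_map]
      simp
    have h4 : ((6 * (Polynomial.bernoulli (2 * l)).eval (a : ℚ) : ℚ) : ℚ_[l]) =
      ((l * (6 * (a : ℚ) ^ 2 - 6 * a + 1) + l ^ 2 * r : ℚ) : ℚ_[l]) := by rw [hra]
    push_cast at h4 ⊢
    rw [h1]
    exact h4
  -- reduction modulo `l`
  let φ : ℤ_[l] →+* ZMod l := PadicInt.toZMod
  have hφ : ∀ x : ℤ_[l], φ x = 0 → ∃ y, x = l * y := by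
    intro x hx
    have h1 : x ∈ RingHom.ker (PadicInt.toZMod : ℤ_[l] →+* ZMod l) := hx
    rw [PadicInt.ker_toZMod, PadicInt.maximalIdeal_eq_span_p, Ideal.mem_span_singleton] at h1
    exact h1
  have hφl : φ (l : ℤ_[l]) = 0 := by
    rw [map_natCast]
    exact ZMod.natCast_self l
  have hl0 : (l : ℤ_[l]) ≠ 0 := by exact_mod_cast hl.ne_zero
  have hbar : BZ.map φ = (X ^ l - X) ^ 2 := by
    apply eq_V_sq l (by omega)
    · exact hBm.map _
    · rw [hBm.natDegree_map, hBd]
    · have h1 := congrArg (Polynomial.map φ) hBinv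
      rw [Polynomial.map_comp, Polynomial.map_add, Polynomial.map_add, Polynomial.map_mul,
        map_C] at h1
      have h2 : φ ((2 * l : ℕ) : ℤ_[l]) = 0 := by
        rw [map_natCast]
        push_cast
        rw [ZMod.natCast_self, mul_zero]
      rw [h2, C_0, zero_mul, add_zero, Polynomial.map_one, map_X] at h1
      exact h1
    · have h1 := congrArg (Polynomial.map φ) hBsym
      rw [Polynomial.map_comp, Polynomial.map_sub, Polynomial.map_one, map_X] at h1
      exact h1
    · obtain ⟨r, hr⟩ := hval 0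
      have h1 := congrArg φ hr
      rw [map_add, map_mul, map_mul, map_mul, map_pow, hφl] at h1
      simp only [Nat.cast_zero, zero_mul] at h1
      have h2 : φ (eval 0 BZ) = eval 0 (BZ.map φ) := by
        rw [← coeff_zero_eq_eval_zero, ← coeff_zero_eq_eval_zero, coeff_map]
      rw [h2, map_ofNat, zero_pow (by norm_num), zero_mul, zero_add] at h1
      have h3 : (6 : ZMod l) ≠ 0 := by
        intro h
        have h' : ((6 : ℕ) : ZMod l) = 0 := by exact_mod_cast h
        rw [ZMod.natCast_eq_zero_iff] at h'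
        have h2 : l ∣ 2 * 3 := h'
        rcases (hl.dvd_mul).1 h2 with h3 | h3
        · have := Nat.le_of_dvd (by norm_num) h3
          omega
        · have := Nat.le_of_dvd (by norm_num) h3
          omega
      exact (mul_eq_zero.1 h1).resolve_left h3
  have hfac : QZ.map φ * GZ.map φ = (X ^ l - X) ^ 2 := by
    rw [← Polynomial.map_mul, ← hGZ, hbar]
  have hc' : (12 : ZMod l) * φ c = 3 - (w : ZMod l) := by
    have h1 := congrArg φ hc12
    rw [map_mul, map_ofNat, map_intCast] at h1
    rw [h1]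
    push_cast
    ring
  have hQbar : QZ.map φ = X ^ 2 - X + C (φ c) := by
    rw [hQZ]
    simp
  have hevalφ : ∀ (P : ℤ_[l][X]) (a : ℕ), φ (P.eval (a : ℤ_[l])) = (P.map φ).eval (a : ZMod l) := by
    intro P a
    rw [Polynomial.eval_natCast_map]
  by_cases hlw : (l : ℤ) ∣ w
  · -- double root at 1/2
    left
    obtain ⟨w', hw'⟩ := hlw
    have hw0 : (w : ZMod l) = 0 := by
      rw [hw']
      push_cast
      rw [ZMod.natCast_self, zero_mul]
    obtain ⟨t, ht⟩ : ∃ t, l = 2 * t + 1 := hl.odd_of_ne_two (by omega)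
    -- a = (l^2+1)/2
    obtain ⟨a, ha⟩ : ∃ a, 2 * a = l ^ 2 + 1 := ⟨2 * t ^ 2 + 2 * t + 1, by rw [ht]; ring⟩
    have haZ : (2 : ℤ_[l]) * a = l ^ 2 + 1 := by exact_mod_cast congrArg (Nat.cast : ℕ → ℤ_[l]) ha
    have haM : (2 : ZMod l) * a = 1 := by
      have h1 : (2 : ZMod l) * a = l ^ 2 + 1 := by
        exact_mod_cast congrArg (Nat.cast : ℕ → ZMod l) ha
      rw [h1, ZMod.natCast_self]
      ring
    have hQ12 : 12 * QZ.eval (a : ℤ_[l]) = 3 * l ^ 4 - w := by
      rw [hQZ]
      simp only [eval_add, eval_sub, eval_pow, eval_X, eval_C]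
      have h1 : (12 : ℤ_[l]) * ((a : ℤ_[l]) ^ 2 - a + c) =
          3 * (2 * a) ^ 2 - 6 * (2 * a) + 12 * c := by ring
      rw [h1, haZ, hc12]
      push_cast
      ring
    -- second derivatives at 1/2
    have hG1 : (GZ.map φ).eval (a : ZMod l) = 1 := by
      have hd2 : (derivative (derivative (QZ.map φ * GZ.map φ))).eval (a : ZMod l) =
          (derivative (derivative ((X ^ l - X : (ZMod l)[X]) ^ 2))).eval (a : ZMod l) := by
        rw [hfac]
      have hQd : derivative (QZ.map φ) = 2 * X - 1 := by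
        rw [hQbar]
        simp only [derivative_add, derivative_sub, derivative_X_pow, derivative_X, derivative_C,
          add_zero]
        norm_num
        exact map_ofNat C 2
      have hQe : (QZ.map φ).eval (a : ZMod l) = 0 := by
        rw [hQbar]
        simp only [eval_add, eval_sub, eval_pow, eval_X, eval_C]
        have h1 : (12 : ZMod l) * ((a : ZMod l) ^ 2 - a + φ c) =
          3 * (2 * a) ^ 2 - 6 * (2 * a) + 12 * φ c := by ring
        rw [haM, hc', hw0] at h1
        have h2 : (12 : ZMod l) * ((a : ZMod l) ^ 2 - a + φ c) = 0 := by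
          rw [h1]; ring
        have h3 : (12 : ZMod l) ≠ 0 := by
          intro h
          have h' : ((12 : ℕ) : ZMod l) = 0 := by exact_mod_cast h
          rw [ZMod.natCast_eq_zero_iff] at h'
          have h2 : l ∣ 2 ^ 2 * 3 := h'
          rcases (hl.dvd_mul).1 h2 with h3 | h3
          · have := Nat.le_of_dvd (by norm_num) (hl.dvd_of_dvd_pow h3)
            omega
          · have := Nat.le_of_dvd (by norm_num) h3
            omega
        exact (mul_eq_zero.1 h2).resolve_left h3
      have hVd : derivative (X ^ l - X : (ZMod l)[X]) = -1 := by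
        rw [derivative_sub, derivative_X_pow, derivative_X, ZMod.natCast_self, C_0, zero_mul,
          zero_sub]
      have hR : derivative (derivative ((X ^ l - X : (ZMod l)[X]) ^ 2)) = 2 := by
        rw [sq, derivative_mul, hVd]
        simp only [derivative_add, derivative_mul, derivative_neg, derivative_one, neg_zero,
          zero_mul, mul_zero, add_zero, zero_add, hVd]
        norm_num
      have hL : derivative (derivative (QZ.map φ * GZ.map φ)) =
          2 * GZ.map φ + 2 * ((2 * X - 1) * derivative (GZ.map φ)) +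
            QZ.map φ * derivative (derivative (GZ.map φ)) := by
        rw [derivative_mul, derivative_add, derivative_mul, derivative_mul, hQd]
        have h3 : derivative (2 * X - 1 : (ZMod l)[X]) = 2 := by
          rw [derivative_sub, derivative_one, sub_zero]
          have : (2 * X : (ZMod l)[X]) = C 2 * X := by rw [map_ofNat C 2]
          rw [this, derivative_C_mul, derivative_X, mul_one, map_ofNat C 2]
        rw [h3]
        ring
      rw [hR, hL] at hd2
      simp only [eval_add, eval_mul, eval_sub, eval_X, eval_one, eval_ofNat] at hd2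
      rw [hQe, haM] at hd2
      have h2 : (2 : ZMod l) ≠ 0 := by
        intro h
        have h' : ((2 : ℕ) : ZMod l) = 0 := by exact_mod_cast h
        rw [ZMod.natCast_eq_zero_iff] at h'
        have := Nat.le_of_dvd (by norm_num) h'
        omega
      apply mul_left_cancel₀ h2
      linear_combination hd2
    obtain ⟨s, hs⟩ := hφ (GZ.eval (a : ℤ_[l]) - 1) (by
      rw [map_sub, hevalφ, hG1, map_one, sub_self])
    obtain ⟨r, hr⟩ := hval a
    have h6 : (12 : ℤ_[l]) * BZ.eval (a : ℤ_[l]) = l * (3 * l ^ 4 - 1) + 2 * (l ^ 2 * r) := by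
      have h7 : (12 : ℤ_[l]) * BZ.eval (a : ℤ_[l]) = 2 * (6 * BZ.eval (a : ℤ_[l])) := by ring
      rw [h7, hr]
      have h8 : (2 : ℤ_[l]) * (l * (6 * (a : ℤ_[l]) ^ 2 - 6 * a + 1) + l ^ 2 * r) =
          l * (3 * (2 * a) ^ 2 - 6 * (2 * a) + 2) + 2 * (l ^ 2 * r) := by ring
      rw [h8, haZ]
      ring
    have h9 : BZ.eval (a : ℤ_[l]) = QZ.eval (a : ℤ_[l]) * GZ.eval (a : ℤ_[l]) := by
      rw [hGZ, eval_mul]
    have hG : GZ.eval (a : ℤ_[l]) = 1 + l * s := by linear_combination hs
    rw [h9, hG, ← mul_assoc, hQ12] at h6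
    have hwZ : (w : ℤ_[l]) = l * w' := by
      rw [hw']; push_cast; ring
    rw [hwZ] at h6
    have h10 : (l : ℤ_[l]) * ((3 * l ^ 3 - w') * (1 + l * s)) =
        l * ((3 * l ^ 4 - 1) + 2 * (l * r)) := by
      linear_combination h6
    have h11 := mul_left_cancel₀ hl0 h10
    have h12 := congrArg φ h11
    simp only [map_mul, map_add, map_sub, map_pow, map_one, hφl, map_intCast, map_ofNat] at h12
    have h13 : (w' : ZMod l) = 1 := by
      linear_combination -h12
    have h14 : ((w' - 1 : ℤ) : ZMod l) = 0 := by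
      push_cast
      rw [h13, sub_self]
    rw [ZMod.intCast_zmod_eq_zero_iff_dvd] at h14
    obtain ⟨v, hv⟩ := h14
    refine ⟨v, ?_⟩
    rw [hw']
    linear_combination (l : ℤ) * hv
  · right
    -- a root of `QZ` modulo `l`
    have hsplit : Splits ((X ^ l - X : (ZMod l)[X]) ^ 2) := by
      apply Splits.pow
      rw [splits_iff_card_roots]
      have := FiniteField.roots_X_pow_card_sub_X (ZMod l)
      rw [ZMod.card] at this
      rw [this, natDegree_V]
      simp [ZMod.card]
    have hQs : Splits (QZ.map φ) := by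
      apply hsplit.of_dvd ((monic_V l).pow 2).ne_zero
      exact ⟨_, hfac.symm⟩
    obtain ⟨α, hα⟩ := hQs.exists_eval_eq_zero (by
      have h1 : (QZ.map φ).degree = QZ.degree := hQZm.degree_map _
      rw [h1]
      have h2 : QZ.natDegree = 2 := by
        rw [hQZ]
        compute_degree!
      rw [degree_eq_natDegree hQZm.ne_zero, h2]
      norm_num)
    set a : ℕ := α.val with ha
    have haα : (a : ZMod l) = α := ZMod.natCast_zmod_val α
    have hα' : α ^ 2 - α + φ c = 0 := by
      rw [hQbar] at hα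
      simpa using hα
    have hdisc : (12 : ZMod l) * (2 * α - 1) ^ 2 = 4 * w := by
      linear_combination 48 * hα' - 4 * hc'
    have hne : (2 * α - 1) ≠ 0 := by
      intro h
      rw [h] at hdisc
      have h1 : (4 : ZMod l) * w = 0 := by rw [← hdisc]; ring
      have h4 : (4 : ZMod l) ≠ 0 := by
        intro h
        have h' : ((4 : ℕ) : ZMod l) = 0 := by exact_mod_cast h
        rw [ZMod.natCast_eq_zero_iff] at h'
        have := Nat.le_of_dvd (by norm_num) h'
        have h2 : l ∣ 2 ^ 2 := h'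
        have := Nat.le_of_dvd (by norm_num) (hl.dvd_of_dvd_pow h2)
        omega
      have h2 := (mul_eq_zero.1 h1).resolve_left h4
      rw [ZMod.intCast_zmod_eq_zero_iff_dvd] at h2
      exact hlw h2
    have hGα : (GZ.map φ).eval α = 0 := by
      have hd : (derivative (QZ.map φ * GZ.map φ)).eval α =
          (derivative ((X ^ l - X : (ZMod l)[X]) ^ 2)).eval α := by
        rw [hfac]
      rw [derivative_mul, hQbar] at hd
      have hVα : eval α (X ^ l - X : (ZMod l)[X]) = 0 := by
        simp [ZMod.pow_card]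
      have hR : (derivative ((X ^ l - X : (ZMod l)[X]) ^ 2)).eval α = 0 := by
        rw [sq, derivative_mul, eval_add, eval_mul, eval_mul, hVα]
        ring
      rw [hR, eval_add, eval_mul, eval_mul] at hd
      have hQd : derivative (X ^ 2 - X + C (φ c) : (ZMod l)[X]) = 2 * X - 1 := by
        simp only [derivative_add, derivative_sub, derivative_X_pow, derivative_X, derivative_C,
          add_zero]
        norm_num
        exact map_ofNat C 2
      rw [hQd] at hd
      simp only [eval_add, eval_mul, eval_sub, eval_X, eval_one, eval_ofNat, eval_pow,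
        eval_C] at hd
      rw [hα', zero_mul, add_zero] at hd
      exact (mul_eq_zero.1 hd).resolve_left hne
    obtain ⟨s, hs⟩ := hφ (GZ.eval (a : ℤ_[l])) (by rw [hevalφ, haα, hGα])
    obtain ⟨s', hs'⟩ := hφ (QZ.eval (a : ℤ_[l])) (by rw [hevalφ, haα, hα])
    obtain ⟨r, hr⟩ := hval a
    have h9 : BZ.eval (a : ℤ_[l]) = QZ.eval (a : ℤ_[l]) * GZ.eval (a : ℤ_[l]) := by
      rw [hGZ, eval_mul]
    rw [h9, hs, hs'] at hr
    have h10 : (l : ℤ_[l]) * (6 * (a : ℤ_[l]) ^ 2 - 6 * a + 1) = l * (l * (6 * s * s' - r)) := by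
      linear_combination -hr
    have h11 := congrArg φ (mul_left_cancel₀ hl0 h10)
    simp only [map_mul, map_add, map_sub, map_pow, map_one, hφl, map_natCast, map_ofNat] at h11
    rw [haα] at h11
    have h12 : (w : ZMod l) = 1 := by
      linear_combination 2 * h11 - 12 * hα' + hc'
    have h14 : ((w - 1 : ℤ) : ZMod l) = 0 := by
      push_cast
      rw [h12, sub_self]
    rw [ZMod.intCast_zmod_eq_zero_iff_dvd] at h14
    exact h14

end Pool.Agent.Bern2
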