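import Mathlib
import Pool.Agent.Bern2.Defs

namespace Pool.Agent.Bern2

open Polynomial Finset Pool.Agent.Helper29 Pool.Agent.Helper98.Bern

/-- The Wronskian determinant. -/
noncomputable def wr {K : Type*} [CommRing K] {m : ℕ} (v : Fin m → K[X]) : K[X] :=
  Matrix.det (Matrix.of fun i j : Fin m => derivative^[(j : ℕ)] (v i))

/-- (WR1a) Base change. -/
theorem wr_comb {K : Type*} [CommRing K] {m : ℕ} (v : Fin m → K[X]) (B : Matrix (Fin m) (Fin m) K) :
    wr (fun i => ∑ j, C (B i j) * v j) = C B.det * wr v := by
  have h : (Matrix.of fun i j : Fin m => derivative^[(j : ℕ)] (∑ k, C (B i k) * v k))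
      = (C : K →+* K[X]).mapMatrix B *
        (Matrix.of fun i j : Fin m => derivative^[(j : ℕ)] (v i)) := by
    ext1 i j
    rw [Matrix.mul_apply]
    simp only [Matrix.of_apply, RingHom.mapMatrix_apply, Matrix.map_apply]
    rw [iterate_derivative_sum]
    apply Finset.sum_congr rfl
    intro k _
    rw [iterate_derivative_C_mul]
  unfold wr
  rw [h, Matrix.det_mul, RingHom.map_det]

/-- (WR1b) Vanishing order of the Wronskian. -/
theorem wr_dvd {K : Type*} [Field K] {m : ℕ} (v : Fin m → K[X]) (a : K) (k : Fin m → ℕ)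
    (hk : ∀ i, (X - C a) ^ k i ∣ v i) :
    (X - C a) ^ (∑ i, (k i - (m - 1))) ∣ wr v := by
  unfold wr
  rw [Matrix.det_apply]
  apply Finset.dvd_sum
  intro σ _
  apply dvd_smul_of_dvd
  rw [← Equiv.sum_comp σ (fun i => k i - (m - 1)), ← Finset.prod_pow_eq_pow_sum]
  apply Finset.prod_dvd_prod_of_dvd
  intro i _
  simp only [Matrix.of_apply]
  refine dvd_trans (pow_dvd_pow _ ?_)
    (pow_sub_dvd_iterate_derivative_of_pow_dvd (i : ℕ) (hk (σ i)))
  have := i.2
  omega

/-- (WR1c) Degree bound. -/
theorem wr_natDegree_le {K : Type*} [Field K] {m : ℕ} (v : Fin m → K[X]) (d : Fin m → ℕ)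
    (hd : ∀ i, (v i).natDegree ≤ d i) (hm : ∀ i, m ≤ d i + 1) :
    (wr v).natDegree + m * (m - 1) / 2 ≤ ∑ i, d i := by
  have hs : ∀ σ : Equiv.Perm (Fin m), ∑ i, (d (σ i) - (i : ℕ)) + m * (m - 1) / 2 = ∑ i, d i := by
    intro σ
    rw [← Finset.sum_range_id, ← Fin.sum_univ_eq_sum_range (fun i => i) m,
      ← Finset.sum_add_distrib, ← Equiv.sum_comp σ d]
    apply Finset.sum_congr rfl
    intro i _
    have h1 := hm (σ i)
    have h2 := i.2
    omega
  have key : (wr v).natDegree ≤ ∑ i, d i - m * (m - 1) / 2 := by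
    unfold wr
    rw [Matrix.det_apply]
    apply natDegree_sum_le_of_forall_le
    intro σ _
    refine (natDegree_smul_le _ _).trans ?_
    refine (natDegree_prod_le _ _).trans ?_
    have h := hs σ
    have h2 : ∑ i, ((Matrix.of fun i j : Fin m => derivative^[(j : ℕ)] (v i)) (σ i) i).natDegree
        ≤ ∑ i, (d (σ i) - (i : ℕ)) := by
      apply Finset.sum_le_sum
      intro i _
      simp only [Matrix.of_apply]
      refine (natDegree_iterate_derivative _ _).trans ?_
      have := hd (σ i)
      omega
    exact h2.trans (by omega)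
  have h := hs 1
  omega

/-- The top formal coefficient of a product. -/
lemma coeff_prod_le {K ι : Type*} [CommRing K] (s : Finset ι) (f : ι → K[X]) (e : ι → ℕ)
    (h : ∀ i ∈ s, (f i).natDegree ≤ e i) :
    (∏ i ∈ s, f i).coeff (∑ i ∈ s, e i) = ∏ i ∈ s, (f i).coeff (e i) := by
  classical
  induction s using Finset.induction_on with
  | empty => simp
  | insert a s ha ih =>
    rw [Finset.prod_insert ha, Finset.sum_insert ha, Finset.prod_insert ha,
      coeff_mul_add_eq_of_natDegree_le (h a (Finset.mem_insert_self a s)), ih]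
    · intro i hi
      exact h i (Finset.mem_insert_of_mem hi)
    · refine (natDegree_prod_le _ _).trans (Finset.sum_le_sum ?_)
      intro i hi
      exact h i (Finset.mem_insert_of_mem hi)

/-- (WR1d) Nonvanishing if the degrees are distinct modulo `p`. -/
theorem wr_ne_zero {p : ℕ} [Fact p.Prime] {m : ℕ} (v : Fin m → (ZMod p)[X])
    (h0 : ∀ i, v i ≠ 0) (hinj : Function.Injective (fun i => (v i).natDegree))
    (hp : ∀ i, (v i).natDegree < p) : wr v ≠ 0 := by
  classical
  -- the homogenised matrix
  let N : Matrix (Fin m) (Fin m) (ZMod p)[X] :=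
    Matrix.of fun i j => X ^ (j : ℕ) * derivative^[(j : ℕ)] (v i)
  have hN : N.det = (∏ j : Fin m, (X : (ZMod p)[X]) ^ (j : ℕ)) * wr v := by
    unfold wr
    rw [← Matrix.det_mul_row]
    rfl
  have hdeg : ∀ i j, (N i j).natDegree ≤ (v i).natDegree := by
    intro i j
    simp only [N, Matrix.of_apply]
    by_cases hj : (j : ℕ) ≤ (v i).natDegree
    · refine natDegree_mul_le.trans ?_
      rw [natDegree_X_pow]
      have := natDegree_iterate_derivative (v i) (j : ℕ)
      omega
    · rw [iterate_derivative_eq_zero (by omega), mul_zero, natDegree_zero]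
      exact Nat.zero_le _
  have hcoeff : ∀ i j, (N i j).coeff (v i).natDegree
      = (v i).leadingCoeff * (((v i).natDegree.descFactorial j : ℕ) : ZMod p) := by
    intro i j
    simp only [N, Matrix.of_apply]
    by_cases hj : (j : ℕ) ≤ (v i).natDegree
    · rw [coeff_X_pow_mul', if_pos hj, coeff_iterate_derivative, Nat.sub_add_cancel hj,
        nsmul_eq_mul, mul_comm]
      rfl
    · rw [iterate_derivative_eq_zero (by omega), mul_zero, coeff_zero,
        Nat.descFactorial_of_lt (by omega), Nat.cast_zero, mul_zero]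
  have hdet : N.det.coeff (∑ i, (v i).natDegree)
      = (Matrix.of fun i j : Fin m => (v i).leadingCoeff *
          (((v i).natDegree.descFactorial j : ℕ) : ZMod p)).det := by
    rw [Matrix.det_apply, Matrix.det_apply, finsetSum_coeff]
    apply Finset.sum_congr rfl
    intro σ _
    rw [coeff_smul, ← Equiv.sum_comp σ (fun i => (v i).natDegree), coeff_prod_le]
    · congr 1
      apply Finset.prod_congr rfl
      intro i _
      rw [hcoeff]
      rfl
    · intro i _
      exact hdeg _ _
  have hvan : (Matrix.of fun i j : Fin m => (v i).leadingCoeff *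
          (((v i).natDegree.descFactorial j : ℕ) : ZMod p)).det ≠ 0 := by
    have e1 : (Matrix.of fun i j : Fin m => (v i).leadingCoeff *
          (((v i).natDegree.descFactorial j : ℕ) : ZMod p))
        = Matrix.of fun i j : Fin m => (v i).leadingCoeff *
          (Matrix.of fun i j : Fin m =>
            (descPochhammer (ZMod p) (j : ℕ)).eval (((v i).natDegree : ℕ) : ZMod p)) i j := by
      ext1 i j
      simp only [Matrix.of_apply]
      rw [descPochhammer_eval_eq_descFactorial]
    rw [e1, Matrix.det_mul_column]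
    apply mul_ne_zero
    · rw [Finset.prod_ne_zero_iff]
      intro i _
      exact leadingCoeff_ne_zero.mpr (h0 i)
    · rw [← Matrix.det_eval_matrixOfPolynomials_eq_det_vandermonde
        (fun i : Fin m => (((v i).natDegree : ℕ) : ZMod p))
        (fun j : Fin m => descPochhammer (ZMod p) (j : ℕ))
        (fun j => descPochhammer_natDegree _ _) (fun j => monic_descPochhammer _ _)]
      rw [Matrix.det_vandermonde_ne_zero_iff]
      intro i j hij
      apply hinj
      have h1 : (v i).natDegree % p = (v j).natDegree % p := by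
        have := (ZMod.natCast_eq_natCast_iff' _ _ _).mp hij
        exact this
      rwa [Nat.mod_eq_of_lt (hp i), Nat.mod_eq_of_lt (hp j)] at h1
  intro hw
  apply hvan
  rw [← hdet, hN, hw, mul_zero, coeff_zero]

end Pool.Agent.Bern2
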