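import Mathlib
import Pool.Agent.Bern2.WR1

namespace Pool.Agent.Bern2

open Polynomial Finset Pool.Agent.Helper29 Pool.Agent.Helper98.Bern

section Aux

variable {p : ℕ} [Fact p.Prime]

/-- The shifted power `(X + j)^N`. -/
noncomputable def gj (p N : ℕ) (j : ℕ) : (ZMod p)[X] := (X + C (j : ZMod p)) ^ N

/-- Finite difference. -/
noncomputable def TT (q : (ZMod p)[X]) : (ZMod p)[X] := q.comp (X + C 1) - q

lemma gj_comp (N j : ℕ) : (gj p N j).comp (X + C 1) = gj p N (j + 1) := by
  unfold gj
  rw [pow_comp, add_comp, X_comp, C_comp, add_assoc, ← C_add, Nat.cast_add, Nat.cast_one,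
    add_comm (1 : ZMod p)]

/-- Iterated differences of `X^N` as combinations of the shifted powers. -/
lemma D_repr (N : ℕ) (j : ℕ) : ∃ c : ℕ → ZMod p, c j = 1 ∧ (∀ i, j < i → c i = 0) ∧
    TT^[j] (gj p N 0) = ∑ i ∈ range (j + 1), C (c i) * gj p N i := by
  induction j with
  | zero =>
    refine ⟨fun i => if i = 0 then 1 else 0, by simp, ?_, ?_⟩
    · intro i hi
      simp only
      rw [if_neg (by omega)]
    · simp
  | succ j ih =>
    obtain ⟨c, h1, h2, h3⟩ := ih
    let c' : ℕ → ZMod p := fun i => Nat.casesOn i (- c 0) (fun k => c k - c (k + 1))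
    refine ⟨c', ?_, ?_, ?_⟩
    · show c j - c (j + 1) = 1
      rw [h1, h2 _ (Nat.lt_succ_self j), sub_zero]
    · intro i hi
      cases i with
      | zero => omega
      | succ k =>
        show c k - c (k + 1) = 0
        rw [h2 k (by omega), h2 (k + 1) (by omega), sub_zero]
    · rw [Function.iterate_succ_apply', h3]
      have e1 : TT (∑ i ∈ range (j + 1), C (c i) * gj p N i)
          = ∑ i ∈ range (j + 1), C (c i) * gj p N (i + 1)
            - ∑ i ∈ range (j + 1), C (c i) * gj p N i := by
        unfold TT
        congr 1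
        rw [Polynomial.sum_comp]
        apply Finset.sum_congr rfl
        intro i _
        rw [mul_comp, C_comp, gj_comp]
      rw [e1, Finset.sum_range_succ' (fun i => C (c' i) * gj p N i) (j + 1)]
      have e2 : ∀ k, c' (k + 1) = c k - c (k + 1) := fun k => rfl
      have e3 : c' 0 = - c 0 := rfl
      simp only [e2, e3, C_sub, sub_mul, Finset.sum_sub_distrib]
      have e4 : ∑ i ∈ range (j + 1), C (c (i + 1)) * gj p N (i + 1)
          = ∑ i ∈ range (j + 1), C (c i) * gj p N i - C (c 0) * gj p N 0 := by
        have h4 := Finset.sum_range_succ' (fun i => C (c i) * gj p N i) (j + 1)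
        have h5 := Finset.sum_range_succ (fun i => C (c i) * gj p N i) (j + 1)
        rw [h2 (j + 1) (Nat.lt_succ_self j), C_0, zero_mul, add_zero] at h5
        rw [h5] at h4
        rw [h4]
        ring
      rw [e4, C_neg]
      ring

/-- The finite difference lowers the degree by exactly one. -/
lemma TT_natDegree (q : (ZMod p)[X]) (hq : q ≠ 0) (h1 : 1 ≤ q.natDegree)
    (h2 : q.natDegree < p) : (TT q).natDegree + 1 = q.natDegree ∧ TT q ≠ 0 := by
  obtain ⟨d, hd⟩ : ∃ d, q.natDegree = d + 1 := ⟨q.natDegree - 1, by omega⟩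
  -- coefficients of the shift
  have hco : ∀ k, (q.comp (X + C 1)).coeff k
      = ∑ i ∈ range (d + 2), q.coeff i * ((i.choose k : ℕ) : ZMod p) := by
    intro k
    conv_lhs => rw [q.as_sum_range' (d + 2) (by omega)]
    rw [Polynomial.sum_comp, finsetSum_coeff]
    apply Finset.sum_congr rfl
    intro i _
    rw [← C_mul_X_pow_eq_monomial, mul_comp, C_comp, X_pow_comp, coeff_C_mul, C_1,
      coeff_X_add_one_pow]
  have hhigh : ∀ k, d + 1 ≤ k → (TT q).coeff k = 0 := by
    intro k hk
    unfold TT
    rw [coeff_sub, hco]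
    rcases hk.eq_or_lt with h | h
    · subst h
      rw [Finset.sum_eq_single (d + 1)]
      · simp
      · intro i hi hne
        rw [Nat.choose_eq_zero_of_lt (by rw [mem_range] at hi; omega), Nat.cast_zero, mul_zero]
      · intro h
        exact absurd (mem_range.mpr (by omega)) h
    · rw [coeff_eq_zero_of_natDegree_lt (by omega), sub_zero]
      apply Finset.sum_eq_zero
      intro i hi
      rw [Nat.choose_eq_zero_of_lt (by rw [mem_range] at hi; omega), Nat.cast_zero, mul_zero]
  have htop : (TT q).coeff d = ((d + 1 : ℕ) : ZMod p) * q.leadingCoeff := by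
    unfold TT
    rw [coeff_sub, hco, Finset.sum_range_succ, Finset.sum_range_succ]
    rw [Finset.sum_eq_zero]
    · rw [Nat.choose_self, Nat.choose_succ_self_right, leadingCoeff, hd]
      push_cast
      ring
    · intro i hi
      rw [Nat.choose_eq_zero_of_lt (mem_range.mp hi), Nat.cast_zero, mul_zero]
  have htop' : (TT q).coeff d ≠ 0 := by
    rw [htop]
    apply mul_ne_zero
    · intro h
      rw [ZMod.natCast_eq_zero_iff] at h
      have := Nat.le_of_dvd (by omega) h
      omega
    · exact leadingCoeff_ne_zero.mpr hq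
  constructor
  · rw [hd]
    congr 1
    apply le_antisymm
    · rw [natDegree_le_iff_coeff_eq_zero]
      intro k hk
      exact hhigh k hk
    · exact le_natDegree_of_ne_zero htop'
  · intro h
    rw [h] at htop'
    simp at htop'

omit [Fact p.Prime] in
lemma gj_monic (N j : ℕ) : (gj p N j).Monic := (monic_X_add_C _).pow _

lemma gj_natDegree (N j : ℕ) : (gj p N j).natDegree = N := by
  unfold gj
  rw [natDegree_pow, natDegree_X_add_C, mul_one]

lemma D_natDegree (N : ℕ) (hN : N < p) (j : ℕ) (hj : j ≤ N) :
    (TT^[j] (gj p N 0)).natDegree + j = N ∧ TT^[j] (gj p N 0) ≠ 0 := by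
  induction j with
  | zero =>
    simp only [Function.iterate_zero, id]
    exact ⟨gj_natDegree N 0, (gj_monic N 0).ne_zero⟩
  | succ j ih =>
    obtain ⟨h1, h2⟩ := ih (by omega)
    rw [Function.iterate_succ_apply']
    obtain ⟨h3, h4⟩ := TT_natDegree (TT^[j] (gj p N 0)) h2 (by omega) (by omega)
    exact ⟨by omega, h4⟩

/-- Shifts of `f`. -/
lemma shift {e : ℕ} {f : (ZMod p)[X]} (hf : IsF p e f) (h : ℕ) :
    f.comp (X + C (h : ZMod p)) = f + C (e : ZMod p) * ∑ j ∈ range h, gj p (e - 1) j := by
  induction h with
  | zero => simp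
  | succ h ih =>
    have e1 : f.comp (X + C ((h + 1 : ℕ) : ZMod p))
        = (f.comp (X + 1)).comp (X + C (h : ZMod p)) := by
      rw [comp_assoc]
      congr 1
      rw [add_comp, X_comp, one_comp]
      push_cast
      rw [C_add, C_1]
      ring
    have e2 : f.comp (X + 1) = f + C (e : ZMod p) * X ^ (e - 1) := by
      rw [← hf.2.2]
      ring
    rw [e1, e2, add_comp, ih, mul_comp, C_comp, X_pow_comp, Finset.sum_range_succ]
    unfold gj
    ring

/-- Multiplicity of the shift. -/
lemma mult_shift (f : (ZMod p)[X]) (x y : ZMod p) :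
    (X - C x) ^ (f.rootMultiplicity (x + y)) ∣ f.comp (X + C y) := by
  have h := f.pow_rootMultiplicity_dvd (x + y)
  have h2 := map_dvd (compRingHom (X + C y)) h
  rw [map_pow, coe_compRingHom_apply, coe_compRingHom_apply, sub_comp, X_comp, C_comp] at h2
  have e1 : (X : (ZMod p)[X]) + C y - C (x + y) = X - C x := by
    rw [C_add]
    ring
  rwa [e1] at h2

end Aux

section Main

variable {p : ℕ} [Fact p.Prime]

/-- The base family. -/
noncomputable def fam (f : (ZMod p)[X]) (N M : ℕ) : Fin (M + 1) → (ZMod p)[X] :=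
  Fin.cons f (fun k : Fin M => gj p N k)

/-- The matrix with first row and column trivial and a given lower block. -/
def bm (M : ℕ) (c : ℕ → ℕ → ZMod p) : Matrix (Fin (M + 1)) (Fin (M + 1)) (ZMod p) :=
  Matrix.of fun i k => Fin.cases (Fin.cases (1 : ZMod p) (fun _ => 0) k)
    (fun i' => Fin.cases (0 : ZMod p) (fun k' => c i' k') k) i

/-- The Wronskian of the base family is not zero and has small degree. -/
lemma W0_facts {e : ℕ} {f : (ZMod p)[X]} (hf : IsF p e f) (M : ℕ) (he : 2 * M + 1 ≤ e)
    (hep : e + 2 ≤ p) : wr (fam f (e - 1) M) ≠ 0 ∧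
      (wr (fam f (e - 1) M)).natDegree ≤ M * (e - 1 - M) + e := by
  classical
  choose c hc1 hc2 hc3 using fun j => D_repr (p := p) (e - 1) j
  let v' : Fin (M + 1) → (ZMod p)[X] := Fin.cons f (fun k : Fin M => TT^[(k : ℕ)] (gj p (e - 1) 0))
  have hv0 : v' 0 = f := rfl
  have hvs : ∀ k : Fin M, v' k.succ = TT^[(k : ℕ)] (gj p (e - 1) 0) := fun k => rfl
  have hcomb : v' = fun i => ∑ j, C (bm M c i j) * fam f (e - 1) M j := by
    funext i
    refine Fin.cases ?_ (fun i' => ?_) i
    · rw [Fin.sum_univ_succ]
      simp only [bm, fam, Matrix.of_apply, Fin.cases_zero, Fin.cases_succ, Fin.cons_zero,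
        Fin.cons_succ, C_1, C_0, one_mul, zero_mul, Finset.sum_const_zero, add_zero]
      exact hv0
    · rw [Fin.sum_univ_succ]
      simp only [bm, fam, Matrix.of_apply, Fin.cases_zero, Fin.cases_succ, Fin.cons_zero,
        Fin.cons_succ, C_0, zero_mul, zero_add]
      rw [hvs, hc3, Fin.sum_univ_eq_sum_range (fun k => C (c i' k) * gj p (e - 1) k) M]
      apply Finset.sum_subset
      · intro x hx
        rw [mem_range] at hx ⊢
        have := i'.2
        omega
      · intro x _ hx
        rw [mem_range] at hx
        rw [hc2 _ _ (by omega), C_0, zero_mul]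
  have hdet : (bm M c).det = 1 := by
    rw [Matrix.det_of_isLowerTriangular]
    · rw [Fin.prod_univ_succ]
      simp [bm, hc1]
    · intro i k hik
      have hik' : i < k := hik
      revert hik'
      refine Fin.cases ?_ (fun k' => ?_) k
      · intro h
        exact absurd h (Fin.not_lt_zero _)
      · refine Fin.cases ?_ (fun i' => ?_) i
        · intro _
          simp [bm]
        · intro h
          simp only [bm, Matrix.of_apply, Fin.cases_succ]
          apply hc2
          exact Fin.succ_lt_succ_iff.mp h
  have hw : wr v' = wr (fam f (e - 1) M) := by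
    rw [hcomb, wr_comb, hdet, C_1, one_mul]
  have hdeg : ∀ i : Fin (M + 1), (v' i).natDegree = e - (i : ℕ) ∧ v' i ≠ 0 := by
    intro i
    refine Fin.cases ?_ (fun i' => ?_) i
    · rw [hv0]
      exact ⟨by rw [hf.2.1]; simp, hf.1.ne_zero⟩
    · rw [hvs]
      have hi := i'.2
      obtain ⟨h1, h2⟩ := D_natDegree (p := p) (e - 1) (by omega) i' (by omega)
      refine ⟨?_, h2⟩
      rw [Fin.val_succ]
      omega
  constructor
  · rw [← hw]
    apply wr_ne_zero
    · intro i
      exact (hdeg i).2
    · intro i k hik
      simp only [(hdeg i).1, (hdeg k).1] at hik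
      have h1 := i.2
      have h2 := k.2
      apply Fin.ext
      omega
    · intro i
      rw [(hdeg i).1]
      omega
  · rw [← hw]
    have h := wr_natDegree_le v' (fun i => e - (i : ℕ)) (fun i => (hdeg i).1.le)
      (fun i => by have := i.2; omega)
    have hs : ∑ i : Fin (M + 1), (e - (i : ℕ)) + (M + 1) * M / 2 = (M + 1) * e := by
      have e1 : (M + 1) * M / 2 = ∑ i : Fin (M + 1), (i : ℕ) := by
        rw [Fin.sum_univ_eq_sum_range (fun i => i) (M + 1), Finset.sum_range_id]
        rfl
      rw [e1, ← Finset.sum_add_distrib]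
      have e2 : ∀ i ∈ (Finset.univ : Finset (Fin (M + 1))), (e - (i : ℕ)) + (i : ℕ) = e := by
        intro i _
        have := i.2
        omega
      rw [Finset.sum_congr rfl e2]
      simp
    have h3 : 2 * ((M + 1) * M / 2) = (M + 1) * M := by
      apply Nat.mul_div_cancel'
      rw [mul_comm]
      exact (Nat.even_mul_succ_self M).two_dvd
    have h4 : (M + 1) * (M + 1 - 1) / 2 = (M + 1) * M / 2 := rfl
    rw [h4] at h
    -- arithmetic
    obtain ⟨t, ht⟩ : ∃ t, e = M + 1 + t := ⟨e - (M + 1), by omega⟩
    have h5 : e - 1 - M = t := by omega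
    rw [h5]
    have h6 : (wr v').natDegree + (M + 1) * M ≤ (M + 1) * e := by omega
    rw [ht] at h6 ⊢
    nlinarith

/-- The number of roots with multiplicity is at most the degree. -/
lemma sum_mult_le (q : (ZMod p)[X]) : ∑ a : ZMod p, q.rootMultiplicity a ≤ q.natDegree := by
  classical
  have h1 : ∑ a : ZMod p, q.rootMultiplicity a = Multiset.card q.roots := by
    rw [← Multiset.sum_count_eq_card (s := Finset.univ) (fun a _ => Finset.mem_univ a)]
    apply Finset.sum_congr rfl
    intro a _
    rw [count_roots]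
  rw [h1]
  exact q.card_roots'

lemma sum_ite_range (g : ℕ → (ZMod p)[X]) (e : ZMod p) {h M : ℕ} (hh : h ≤ M) :
    ∑ k ∈ range h, C e * g k = ∑ k ∈ range M, C (if k < h then e else 0) * g k := by
  calc ∑ k ∈ range h, C e * g k = ∑ k ∈ range h, C (if k < h then e else 0) * g k := by
        apply Finset.sum_congr rfl
        intro k hk
        rw [if_pos (mem_range.mp hk)]
    _ = ∑ k ∈ range M, C (if k < h then e else 0) * g k := by
        apply Finset.sum_subset
        · intro k hk
          rw [mem_range] at hk ⊢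
          omega
        · intro k _ hk
          rw [if_neg (fun h => hk (mem_range.mpr h)), C_0, zero_mul]

/-- Order of vanishing, first bound. -/
lemma ord_a {e : ℕ} {f : (ZMod p)[X]} (hf : IsF p e f) (M : ℕ) (he : 2 * M + 1 ≤ e)
    (hep : e + 2 ≤ p) (x : ZMod p) :
    ∑ h : Fin (M + 1), (f.rootMultiplicity (x + ((h : ℕ) : ZMod p)) - M) ≤
      (wr (fam f (e - 1) M)).rootMultiplicity x := by
  classical
  have h0 := (W0_facts hf M he hep).1
  rw [le_rootMultiplicity_iff h0]
  have he0 : (e : ZMod p) ≠ 0 := by
    intro h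
    rw [ZMod.natCast_eq_zero_iff] at h
    have := Nat.le_of_dvd (by omega) h
    omega
  let F : Fin (M + 1) → (ZMod p)[X] := fun h => f.comp (X + C ((h : ℕ) : ZMod p))
  let B : Matrix (Fin (M + 1)) (Fin (M + 1)) (ZMod p) :=
    Matrix.of fun i k => Fin.cases (1 : ZMod p)
      (fun k' => if (k' : ℕ) < (i : ℕ) then (e : ZMod p) else 0) k
  have hcomb : F = fun i => ∑ j, C (B i j) * fam f (e - 1) M j := by
    funext i
    rw [Fin.sum_univ_succ]
    simp only [B, fam, Matrix.of_apply, Fin.cases_zero, Fin.cases_succ, Fin.cons_zero,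
      Fin.cons_succ, C_1, one_mul]
    rw [Fin.sum_univ_eq_sum_range
      (fun k => C (if k < (i : ℕ) then (e : ZMod p) else 0) * gj p (e - 1) k) M]
    show f.comp (X + C ((i : ℕ) : ZMod p)) = _
    rw [shift hf, Finset.mul_sum, sum_ite_range (gj p (e - 1)) _ (Nat.lt_succ_iff.mp i.2)]
  have hdet : B.det ≠ 0 := by
    rw [Matrix.det_of_isLowerTriangular]
    · rw [Finset.prod_ne_zero_iff]
      intro i _
      refine Fin.cases ?_ (fun i' => ?_) i
      · simp [B]
      · simp [B, he0]
    · intro i k hik
      have hik' : i < k := hik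
      revert hik'
      refine Fin.cases ?_ (fun k' => ?_) k
      · intro h
        exact absurd h (Fin.not_lt_zero _)
      · intro h
        simp only [B, Matrix.of_apply, Fin.cases_succ]
        rw [if_neg]
        have h' : (i : ℕ) < (k'.succ : Fin (M + 1)) := h
        rw [Fin.val_succ] at h'
        omega
  have hd := wr_dvd F x (fun h => f.rootMultiplicity (x + ((h : ℕ) : ZMod p)))
    (fun h => mult_shift f x _)
  rw [hcomb, wr_comb] at hd
  have hu : IsUnit (C B.det : (ZMod p)[X]) := (isUnit_iff_ne_zero.mpr hdet).map C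
  have hd2 := (hu.dvd_mul_left).mp hd
  exact hd2

/-- Order of vanishing, second bound. -/
lemma ord_b {e : ℕ} {f : (ZMod p)[X]} (hf : IsF p e f) (M : ℕ) (he : 2 * M + 1 ≤ e)
    (hep : e + 2 ≤ p) (j h : ℕ) (hj : j < M) (hh : h ≤ M) :
    (e - 1 - M) + (f.rootMultiplicity (-(j : ZMod p) + (h : ZMod p)) - M) ≤
      (wr (fam f (e - 1) M)).rootMultiplicity (-(j : ZMod p)) := by
  classical
  have h0 := (W0_facts hf M he hep).1
  rw [le_rootMultiplicity_iff h0]
  let B : Matrix (Fin (M + 1)) (Fin (M + 1)) (ZMod p) :=
    Matrix.of fun i k => Fin.cases (Fin.cases (1 : ZMod p)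
      (fun k' => if (k' : ℕ) < h then (e : ZMod p) else 0) k)
      (fun i' => if i'.succ = k then 1 else 0) i
  have hcomb : fam (f.comp (X + C (h : ZMod p))) (e - 1) M
      = fun i => ∑ j, C (B i j) * fam f (e - 1) M j := by
    funext i
    refine Fin.cases ?_ (fun i' => ?_) i
    · rw [Fin.sum_univ_succ]
      simp only [B, fam, Matrix.of_apply, Fin.cases_zero, Fin.cases_succ, Fin.cons_zero,
        Fin.cons_succ, C_1, one_mul]
      rw [Fin.sum_univ_eq_sum_range
        (fun k => C (if k < h then (e : ZMod p) else 0) * gj p (e - 1) k) M]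
      rw [shift hf, Finset.mul_sum, sum_ite_range (gj p (e - 1)) _ hh]
    · rw [Finset.sum_eq_single i'.succ]
      · simp [B, fam]
      · intro k _ hk
        simp only [B, Matrix.of_apply, Fin.cases_succ]
        rw [if_neg (fun h => hk h.symm), C_0, zero_mul]
      · intro h
        exact absurd (mem_univ _) h
  have hdet : B.det = 1 := by
    rw [Matrix.det_of_isUpperTriangular]
    · apply Finset.prod_eq_one
      intro i _
      refine Fin.cases ?_ (fun i' => ?_) i
      · simp [B]
      · simp [B]
    · intro i k hik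
      have hik' : k < i := hik
      revert hik'
      refine Fin.cases ?_ (fun i' => ?_) i
      · intro h
        exact absurd h (Fin.not_lt_zero _)
      · intro h
        simp only [B, Matrix.of_apply, Fin.cases_succ]
        rw [if_neg (fun h' => (ne_of_lt h) h'.symm)]
  have hd := wr_dvd (fam (f.comp (X + C (h : ZMod p))) (e - 1) M) (-(j : ZMod p))
    (Fin.cons (f.rootMultiplicity (-(j : ZMod p) + (h : ZMod p)))
      (fun k : Fin M => if (k : ℕ) = j then e - 1 else 0)) (by
    intro i
    refine Fin.cases ?_ (fun i' => ?_) i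
    · simp only [fam, Fin.cons_zero]
      exact mult_shift f _ _
    · simp only [fam, Fin.cons_succ]
      by_cases hi : (i' : ℕ) = j
      · rw [if_pos hi, hi]
        unfold gj
        rw [C_neg, sub_neg_eq_add]
      · rw [if_neg hi, pow_zero]
        exact one_dvd _)
  rw [hcomb, wr_comb, hdet, C_1, one_mul] at hd
  refine dvd_trans (pow_dvd_pow _ ?_) hd
  rw [Fin.sum_univ_succ]
  simp only [Fin.cons_zero, Fin.cons_succ]
  have h1 : (e - 1 - M) ≤ ∑ x : Fin M, ((if (x : ℕ) = j then e - 1 else 0) - (M + 1 - 1)) := by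
    have h2 := Finset.single_le_sum
      (f := fun x : Fin M => ((if (x : ℕ) = j then e - 1 else 0) - (M + 1 - 1)))
      (fun i _ => Nat.zero_le _) (Finset.mem_univ (⟨j, hj⟩ : Fin M))
    simp only at h2
    refine le_trans ?_ h2
    rw [if_pos trivial]
    omega
  have h3 : M + 1 - 1 = M := rfl
  rw [h3] at h1 ⊢
  omega

/-- Two zeros of high multiplicity at small distance. -/
lemma window {e : ℕ} {f : (ZMod p)[X]} (hf : IsF p e f) (M h : ℕ) (he : 2 * M + 2 ≤ e)
    (hep : e + 2 ≤ p) (a : ZMod p) (h1 : 1 ≤ h) (h2 : h ≤ 2 * M)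
    (ha : 2 * M + 1 ≤ f.rootMultiplicity a)
    (hb : 2 * M + 1 ≤ f.rootMultiplicity (a + (h : ZMod p))) : h = 1 ∧ a = 0 := by
  classical
  have hp := (Fact.out : p.Prime)
  set N := e - 1 with hN
  have he0 : (e : ZMod p) ≠ 0 := by
    intro h
    rw [ZMod.natCast_eq_zero_iff] at h
    have := Nat.le_of_dvd (by omega) h
    omega
  have hinj : ∀ i j : ℕ, i < p → j < p → a + (i : ZMod p) = a + (j : ZMod p) → i = j := by
    intro i j hi hj hij
    have h3 := add_left_cancel hij
    rw [ZMod.natCast_eq_natCast_iff', Nat.mod_eq_of_lt hi, Nat.mod_eq_of_lt hj] at h3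
    exact h3
  let T : Finset ℕ := (range h).filter (fun j => a + (j : ZMod p) ≠ 0)
  rcases T.eq_empty_or_nonempty with hT | ⟨j1, hj1⟩
  · have h3 : ∀ j < h, a + (j : ZMod p) = 0 := by
      intro j hj
      by_contra hne
      have : j ∈ T := Finset.mem_filter.mpr ⟨mem_range.mpr hj, hne⟩
      rw [hT] at this
      exact absurd this (Finset.notMem_empty j)
    have h4 := h3 0 (by omega)
    refine ⟨?_, by simpa using h4⟩
    by_contra hne
    have h5 := h3 1 (by omega)
    have h6 := hinj 0 1 (by omega) (by omega) (by rw [h4, h5])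
    omega
  · exfalso
    -- divisibility
    have hd1 : (X - C a) ^ (2 * M + 1) ∣ f :=
      dvd_trans (pow_dvd_pow _ ha) (f.pow_rootMultiplicity_dvd a)
    have hd2 : (X - C a) ^ (2 * M + 1) ∣ f.comp (X + C (h : ZMod p)) :=
      dvd_trans (pow_dvd_pow _ hb) (mult_shift f a _)
    have hd3 : (X - C a) ^ (2 * M + 1) ∣ ∑ j ∈ range h, gj p N j := by
      have h3 := (dvd_add_right hd1).mp (by rw [← shift hf]; exact hd2)
      have hu : IsUnit (C (e : ZMod p) : (ZMod p)[X]) := (isUnit_iff_ne_zero.mpr he0).map C
      exact (hu.dvd_mul_left).mp h3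
    have hd4 : (X : (ZMod p)[X]) ^ (2 * M + 1) ∣
        ∑ j ∈ range h, (X + C (a + (j : ZMod p))) ^ N := by
      have h3 := map_dvd (compRingHom (X + C a)) hd3
      rw [map_pow, coe_compRingHom_apply, coe_compRingHom_apply, sub_comp, X_comp, C_comp,
        add_sub_cancel_right, Polynomial.sum_comp] at h3
      convert h3 using 1
      apply Finset.sum_congr rfl
      intro j _
      unfold gj
      rw [pow_comp, add_comp, X_comp, C_comp, C_add, add_assoc]
    have hco : ∀ i, i ≤ 2 * M → ∑ j ∈ range h, (a + (j : ZMod p)) ^ (N - i) = 0 := by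
      intro i hi
      have h3 := (X_pow_dvd_iff.mp hd4) i (by omega)
      rw [finsetSum_coeff] at h3
      simp only [coeff_X_add_C_pow] at h3
      rw [← Finset.sum_mul] at h3
      rcases mul_eq_zero.mp h3 with h4 | h4
      · exact h4
      · exfalso
        rw [ZMod.natCast_eq_zero_iff] at h4
        have h5 : p ∣ N.factorial :=
          dvd_trans h4 (Dvd.intro _ (by
            have := Nat.choose_mul_factorial_mul_factorial (n := N) (k := i) (by omega)
            rw [mul_assoc] at this
            exact this))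
        rw [hp.dvd_factorial] at h5
        omega
    have hT2 : ∀ k, k ≤ 2 * M →
        ∑ j ∈ T, (a + (j : ZMod p)) ^ (N - 2 * M) * (a + (j : ZMod p)) ^ k = 0 := by
      intro k hk
      have h3 := hco (2 * M - k) (by omega)
      rw [← h3]
      symm
      rw [← Finset.sum_filter_add_sum_filter_not (range h)
        (fun j : ℕ => a + (j : ZMod p) ≠ 0)]
      have h4 : ∑ x ∈ (range h).filter (fun j : ℕ => ¬ (a + (j : ZMod p) ≠ 0)),
          (a + (x : ZMod p)) ^ (N - (2 * M - k)) = 0 := by
        apply Finset.sum_eq_zero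
        intro j hj
        have h5 := (Finset.mem_filter.mp hj).2
        rw [not_not] at h5
        rw [h5, zero_pow (by omega)]
      rw [h4, add_zero]
      apply Finset.sum_congr rfl
      intro j _
      rw [← pow_add]
      congr 1
      omega
    -- the interpolating polynomial
    let Q : (ZMod p)[X] := ∏ j ∈ T.erase j1, (X - C (a + (j : ZMod p)))
    have hQdeg : Q.natDegree < 2 * M + 1 := by
      have h3 : Q.natDegree ≤ (T.erase j1).card := by
        refine (natDegree_prod_le _ _).trans ?_
        rw [Finset.card_eq_sum_ones]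
        apply Finset.sum_le_sum
        intro j _
        rw [natDegree_X_sub_C]
      have h4 : (T.erase j1).card ≤ h := by
        refine (Finset.card_le_card (Finset.erase_subset _ _)).trans ?_
        refine (Finset.card_filter_le _ _).trans ?_
        rw [card_range]
      omega
    have hsum : ∑ j ∈ T, (a + (j : ZMod p)) ^ (N - 2 * M) * Q.eval (a + (j : ZMod p)) = 0 := by
      have h3 : ∀ j ∈ T, (a + (j : ZMod p)) ^ (N - 2 * M) * Q.eval (a + (j : ZMod p))
          = ∑ k ∈ range (2 * M + 1), Q.coeff k *
            ((a + (j : ZMod p)) ^ (N - 2 * M) * (a + (j : ZMod p)) ^ k) := by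
        intro j _
        rw [eval_eq_sum_range' hQdeg, Finset.mul_sum]
        apply Finset.sum_congr rfl
        intro k _
        ring
      rw [Finset.sum_congr rfl h3, Finset.sum_comm]
      apply Finset.sum_eq_zero
      intro k hk
      rw [← Finset.mul_sum, hT2 k (by rw [mem_range] at hk; omega), mul_zero]
    rw [Finset.sum_eq_single_of_mem j1 hj1] at hsum
    · rcases mul_eq_zero.mp hsum with h3 | h3
      · exact (Finset.mem_filter.mp hj1).2 ((pow_eq_zero_iff (by omega)).mp h3)
      · simp only [Q] at h3
        rw [eval_prod, Finset.prod_eq_zero_iff] at h3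
        obtain ⟨j, hj, hj2⟩ := h3
        rw [eval_sub, eval_X, eval_C, sub_eq_zero] at hj2
        have hjT := Finset.mem_erase.mp hj
        have hj3 := mem_range.mp (Finset.mem_filter.mp hjT.2).1
        have hj4 := mem_range.mp (Finset.mem_filter.mp hj1).1
        exact hjT.1 (hinj j j1 (by omega) (by omega) hj2.symm)
    · intro j hj hne
      have h3 : Q.eval (a + (j : ZMod p)) = 0 := by
        simp only [Q]
        rw [eval_prod]
        apply Finset.prod_eq_zero (Finset.mem_erase.mpr ⟨hne, hj⟩)
        rw [eval_sub, eval_X, eval_C, sub_self]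
      rw [h3, mul_zero]

/-- The bounds for the excess multiplicities. -/
lemma excess {e : ℕ} {f : (ZMod p)[X]} (hf : IsF p e f) (M : ℕ) (he : 2 * M + 1 ≤ e)
    (hep : e + 2 ≤ p) :
    (∀ a : ZMod p, (M + 1) * (f.rootMultiplicity a - M) ≤ e) ∧
    (∀ W : Finset (ZMod p), (∀ i < 2 * M, ((i : ZMod p) - ((M - 1 : ℕ) : ZMod p)) ∈ W) →
      ∑ a ∈ Wᶜ, (M + 1) * (f.rootMultiplicity a - M) ≤ e) := by
  classical
  set W0 := wr (fam f (e - 1) M) with hW0
  obtain ⟨hne, hdeg⟩ := W0_facts hf M he hep
  let J : Finset (ZMod p) := (range M).image (fun j : ℕ => -(j : ZMod p))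
  have hJcard : J.card = M := by
    rw [Finset.card_image_of_injOn, card_range]
    intro i hi j hj hij
    rw [Finset.mem_coe, mem_range] at hi hj
    have h3 := neg_injective hij
    rw [ZMod.natCast_eq_natCast_iff', Nat.mod_eq_of_lt (by omega),
      Nat.mod_eq_of_lt (by omega)] at h3
    exact h3
  let c : ZMod p → ℕ := fun x => W0.rootMultiplicity x - (if x ∈ J then e - 1 - M else 0)
  have hJ : ∀ x ∈ J, ∀ h ≤ M, (e - 1 - M) + (f.rootMultiplicity (x + (h : ZMod p)) - M) ≤
      W0.rootMultiplicity x := by
    intro x hx h hh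
    obtain ⟨j, hj, rfl⟩ := Finset.mem_image.mp hx
    exact ord_b hf M he hep j h (mem_range.mp hj) hh
  have hc : ∑ x, c x ≤ e := by
    have h1 : ∑ x, c x + ∑ x, (if x ∈ J then e - 1 - M else 0)
        = ∑ x, W0.rootMultiplicity x := by
      rw [← Finset.sum_add_distrib]
      apply Finset.sum_congr rfl
      intro x _
      apply Nat.sub_add_cancel
      by_cases hx : x ∈ J
      · rw [if_pos hx]
        have := hJ x hx 0 (Nat.zero_le _)
        omega
      · rw [if_neg hx]
        exact Nat.zero_le _
    have h2 : ∑ x, (if x ∈ J then e - 1 - M else 0) = M * (e - 1 - M) := by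
      rw [Finset.sum_ite_mem, Finset.univ_inter, Finset.sum_const, hJcard, smul_eq_mul]
    have h3 := (sum_mult_le W0).trans hdeg
    omega
  have hcJ : ∀ x, x ∉ J → c x = W0.rootMultiplicity x := by
    intro x hx
    show W0.rootMultiplicity x - (if x ∈ J then e - 1 - M else 0) = _
    rw [if_neg hx, Nat.sub_zero]
  have hA : ∀ x, ∑ h ∈ range (M + 1), (f.rootMultiplicity (x + (h : ZMod p)) - M) ≤
      W0.rootMultiplicity x := by
    intro x
    rw [← Fin.sum_univ_eq_sum_range
      (fun h => f.rootMultiplicity (x + (h : ZMod p)) - M) (M + 1)]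
    exact ord_a hf M he hep x
  have hB : ∀ x, ∀ h ≤ M, f.rootMultiplicity (x + (h : ZMod p)) - M ≤ c x := by
    intro x h hh
    by_cases hx : x ∈ J
    · have := hJ x hx h hh
      show _ ≤ W0.rootMultiplicity x - (if x ∈ J then e - 1 - M else 0)
      rw [if_pos hx]
      omega
    · rw [hcJ x hx]
      refine le_trans ?_ (hA x)
      exact Finset.single_le_sum
        (f := fun h : ℕ => f.rootMultiplicity (x + (h : ZMod p)) - M)
        (fun i _ => Nat.zero_le _) (mem_range.mpr (by omega))
  constructor
  · intro a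
    calc (M + 1) * (f.rootMultiplicity a - M)
        = ∑ h ∈ range (M + 1), (f.rootMultiplicity a - M) := by
          rw [Finset.sum_const, card_range, smul_eq_mul]
      _ ≤ ∑ h ∈ range (M + 1), c (a - (h : ZMod p)) := by
          apply Finset.sum_le_sum
          intro h hh
          have := hB (a - (h : ZMod p)) h (by rw [mem_range] at hh; omega)
          rwa [sub_add_cancel] at this
      _ = ∑ x ∈ (range (M + 1)).image (fun h : ℕ => a - (h : ZMod p)), c x := by
          rw [Finset.sum_image]
          intro i hi j hj hij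
          rw [Finset.mem_coe, mem_range] at hi hj
          have h3 := sub_right_injective hij
          rw [ZMod.natCast_eq_natCast_iff', Nat.mod_eq_of_lt (by omega),
            Nat.mod_eq_of_lt (by omega)] at h3
          exact h3
      _ ≤ ∑ x, c x := Finset.sum_le_sum_of_subset (Finset.subset_univ _)
      _ ≤ e := hc
  · intro W hW
    have hWJ : ∀ a, a ∉ W → ∀ h ≤ M, a - (h : ZMod p) ∉ J := by
      intro a ha h hh hmem
      obtain ⟨j, hj, hj2⟩ := Finset.mem_image.mp hmem
      rw [mem_range] at hj
      apply ha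
      have h3 := hW (h + (M - 1 - j)) (by omega)
      have h4 : ((h + (M - 1 - j) : ℕ) : ZMod p) - ((M - 1 : ℕ) : ZMod p) = a := by
        have h5 : (h + (M - 1 - j) : ℕ) + j = h + (M - 1) := by omega
        have h6 := congrArg (fun n : ℕ => (n : ZMod p)) h5
        simp only [Nat.cast_add] at h6
        rw [Nat.cast_add]
        linear_combination h6 + hj2
      rwa [h4] at h3
    calc ∑ a ∈ Wᶜ, (M + 1) * (f.rootMultiplicity a - M)
        = ∑ a ∈ Wᶜ, ∑ h ∈ range (M + 1), (f.rootMultiplicity ((a - (h : ZMod p)) + h) - M) := by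
          apply Finset.sum_congr rfl
          intro a _
          simp only [sub_add_cancel]
          rw [Finset.sum_const, card_range, smul_eq_mul]
      _ = ∑ h ∈ range (M + 1), ∑ a ∈ Wᶜ,
            (f.rootMultiplicity ((a - (h : ZMod p)) + h) - M) := Finset.sum_comm
      _ ≤ ∑ h ∈ range (M + 1), ∑ x ∈ Jᶜ, (f.rootMultiplicity (x + h) - M) := by
          apply Finset.sum_le_sum
          intro h hh
          rw [mem_range] at hh
          have h3 : ∑ a ∈ Wᶜ, (f.rootMultiplicity ((a - (h : ZMod p)) + h) - M)
              = ∑ x ∈ Wᶜ.image (fun a => a - (h : ZMod p)),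
                (f.rootMultiplicity (x + h) - M) := by
            rw [Finset.sum_image]
            intro i _ j _ hij
            exact sub_left_injective hij
          rw [h3]
          apply Finset.sum_le_sum_of_subset
          intro x hx
          obtain ⟨a, ha, rfl⟩ := Finset.mem_image.mp hx
          rw [Finset.mem_compl] at ha ⊢
          exact hWJ a ha h (by omega)
      _ = ∑ x ∈ Jᶜ, ∑ h ∈ range (M + 1), (f.rootMultiplicity (x + h) - M) := Finset.sum_comm
      _ ≤ ∑ x ∈ Jᶜ, c x := by
          apply Finset.sum_le_sum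
          intro x hx
          rw [Finset.mem_compl] at hx
          rw [hcJ x hx]
          exact hA x
      _ ≤ ∑ x, c x := Finset.sum_le_sum_of_subset (Finset.subset_univ _)
      _ ≤ e := hc

end Main

/-- (WR2) Total multiplicity of the zeros in `F_p` versus the number of zeros. -/
theorem wro (p : ℕ) [Fact p.Prime] (e M : ℕ) (hM : 1 ≤ M) (he : 2 ≤ e) (hep : e + 2 ≤ p)
    (f : (ZMod p)[X]) (hf : IsF p e f) :
    (M + 1) * mu p f ≤ (M + 1) * M * nz p f + 3 * e + 6 * M ^ 2 * (M + 1) := by
  classical
  by_cases hsmall : e ≤ 6 * M ^ 2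
  · have h1 : mu p f ≤ e := by
      have := sum_mult_le f
      rw [hf.2.1] at this
      exact this
    have h2 : (M + 1) * mu p f ≤ (M + 1) * (6 * M ^ 2) :=
      Nat.mul_le_mul_left _ (h1.trans hsmall)
    nlinarith [Nat.zero_le ((M + 1) * M * nz p f)]
  · push Not at hsmall
    have hM2 : M ≤ M ^ 2 := by nlinarith
    have he1 : 2 * M + 2 ≤ e := by nlinarith
    obtain ⟨hx1, hx2⟩ := excess hf M (by omega) hep
    let w : ℕ → ZMod p := fun i => (i : ZMod p) - ((M - 1 : ℕ) : ZMod p)
    let W : Finset (ZMod p) := (range (2 * M)).image w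
    have hout := hx2 W (fun i hi => Finset.mem_image.mpr ⟨i, mem_range.mpr hi, rfl⟩)
    have hwinj : Set.InjOn w (range (2 * M)) := by
      intro i hi j hj hij
      rw [Finset.mem_coe, mem_range] at hi hj
      have h3 := sub_left_injective hij
      rw [ZMod.natCast_eq_natCast_iff', Nat.mod_eq_of_lt (by omega),
        Nat.mod_eq_of_lt (by omega)] at h3
      exact h3
    let S : Finset ℕ := (range (2 * M)).filter (fun i => 2 * M + 1 ≤ f.rootMultiplicity (w i))
    have hS : ∀ i ∈ S, ∀ i' ∈ S, i < i' → i' = M := by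
      intro i hi i' hi' hlt
      obtain ⟨h1, h2⟩ := Finset.mem_filter.mp hi
      obtain ⟨h3, h4⟩ := Finset.mem_filter.mp hi'
      rw [mem_range] at h1 h3
      have h5 : w i + ((i' - i : ℕ) : ZMod p) = w i' := by
        simp only [w]
        rw [Nat.cast_sub hlt.le]
        ring
      obtain ⟨h6, h7⟩ := window hf M (i' - i) he1 hep (w i) (by omega) (by omega) h2
        (by rw [h5]; exact h4)
      have h8 : w (M - 1) = 0 := by simp [w]
      have h9 : i = M - 1 := by
        apply hwinj
        · rw [Finset.mem_coe, mem_range]; omega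
        · rw [Finset.mem_coe, mem_range]; omega
        · rw [h7, h8]
      omega
    have hScard : S.card ≤ 2 := by
      rcases S.eq_empty_or_nonempty with h | h
      · rw [h]; simp
      · have h1 : S ⊆ {S.min' h, M} := by
          intro i hi
          rw [Finset.mem_insert, Finset.mem_singleton]
          rcases (Finset.min'_le S i hi).eq_or_lt with h2 | h2
          · left; exact h2.symm
          · right; exact hS _ (Finset.min'_mem S h) i hi h2
        exact (Finset.card_le_card h1).trans (Finset.card_le_two)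
    have hin : ∑ a ∈ W, (M + 1) * (f.rootMultiplicity a - M) ≤
        2 * e + 2 * M * ((M + 1) * M) := by
      simp only [W]
      rw [Finset.sum_image hwinj]
      calc ∑ i ∈ range (2 * M), (M + 1) * (f.rootMultiplicity (w i) - M)
          ≤ ∑ i ∈ range (2 * M), ((if i ∈ S then e else 0) + (M + 1) * M) := by
            apply Finset.sum_le_sum
            intro i hi
            by_cases h : i ∈ S
            · rw [if_pos h]
              exact (hx1 (w i)).trans (Nat.le_add_right _ _)
            · rw [if_neg h, zero_add]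
              apply Nat.mul_le_mul_left
              have h2 : ¬ 2 * M + 1 ≤ f.rootMultiplicity (w i) := fun h3 =>
                h (Finset.mem_filter.mpr ⟨hi, h3⟩)
              omega
        _ = (∑ i ∈ range (2 * M), (if i ∈ S then e else 0)) + 2 * M * ((M + 1) * M) := by
            rw [Finset.sum_add_distrib, Finset.sum_const, card_range, smul_eq_mul]
        _ ≤ 2 * e + 2 * M * ((M + 1) * M) := by
            apply Nat.add_le_add_right
            rw [Finset.sum_ite_mem, Finset.sum_const, smul_eq_mul]
            apply Nat.mul_le_mul_right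
            exact (Finset.card_le_card Finset.inter_subset_right).trans hScard
    have htot : ∑ a, (M + 1) * (f.rootMultiplicity a - M) ≤
        3 * e + 2 * M * ((M + 1) * M) := by
      rw [← Finset.sum_add_sum_compl W]
      omega
    have hmu : (M + 1) * mu p f ≤ (M + 1) * M * nz p f +
        ∑ a, (M + 1) * (f.rootMultiplicity a - M) := by
      have h1 : (M + 1) * M * nz p f
          = ∑ a : ZMod p, (if f.eval a = 0 then (M + 1) * M else 0) := by
        unfold nz
        rw [← Finset.sum_filter, Finset.sum_const, smul_eq_mul, mul_comm]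
      unfold mu
      rw [h1, Finset.mul_sum, ← Finset.sum_add_distrib]
      apply Finset.sum_le_sum
      intro a _
      by_cases ha : f.eval a = 0
      · rw [if_pos ha, ← Nat.mul_add]
        apply Nat.mul_le_mul_left
        omega
      · rw [if_neg ha, rootMultiplicity_eq_zero ha]
        simp
    nlinarith

end Pool.Agent.Bern2
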