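import Mathlib
import Pool.Agent.Bern2.Defs

namespace Pool.Agent.Bern2

open Polynomial Finset Pool.Agent.Helper29 Pool.Agent.Helper98.Bern

theorem zer_pow_count (p : ℕ) [Fact p.Prime] (y : (ZMod p)ˣ) (M : ℕ) (hM : 1 ≤ M)
    (hy : M ≤ orderOf y) :
    (((range (p - 1)).filter (fun r => y ^ r = 1)).card : ℝ) ≤ ((p : ℝ) - 1) / M := by
  have hp1 : 1 ≤ p := (Fact.out : p.Prime).one_lt.le
  have hd : orderOf y ∣ p - 1 := ZMod.orderOf_units_dvd_card_sub_one y
  obtain ⟨k, hk⟩ := hd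
  have hd0 : 0 < orderOf y := lt_of_lt_of_le (by omega) hy
  have hsub : (range (p - 1)).filter (fun r => y ^ r = 1) ⊆ (range k).image (fun i => orderOf y * i) := by
    intro r hr
    rw [mem_filter, mem_range] at hr
    obtain ⟨i, hi⟩ := orderOf_dvd_of_pow_eq_one hr.2
    rw [mem_image]
    refine ⟨i, ?_, hi.symm⟩
    rw [mem_range]
    have : orderOf y * i < orderOf y * k := by rw [← hi, ← hk]; exact hr.1
    exact lt_of_mul_lt_mul_left this (Nat.zero_le _)
  have hc : ((range (p - 1)).filter (fun r => y ^ r = 1)).card ≤ k := by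
    refine (card_le_card hsub).trans (card_image_le.trans ?_)
    rw [card_range]
  rw [le_div_iff₀ (by exact_mod_cast hM)]
  have h1 : k * M ≤ p - 1 := by
    rw [hk, mul_comm]
    exact Nat.mul_le_mul_right k hy
  have h2 : ((k * M : ℕ) : ℝ) ≤ ((p - 1 : ℕ) : ℝ) := by exact_mod_cast h1
  rw [Nat.cast_sub hp1] at h2
  push_cast at h2
  refine le_trans ?_ h2
  apply mul_le_mul_of_nonneg_right _ (Nat.cast_nonneg _)
  exact_mod_cast hc

theorem zer_pow_mod (p : ℕ) [Fact p.Prime] (y : (ZMod p)ˣ) (t : ℕ) :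
    (y : ZMod p) ^ (t % (p - 1)) = (y : ZMod p) ^ t := by
  have h : y ^ (t % (p - 1)) = y ^ t := by
    have h1 : orderOf y ∣ p - 1 := ZMod.orderOf_units_dvd_card_sub_one y
    rw [pow_eq_pow_iff_modEq]
    exact (Nat.mod_modEq t (p - 1)).of_dvd h1
  have h2 := congrArg (fun u : (ZMod p)ˣ => (u : ZMod p)) h
  simpa using h2

/-- pairs counted by their difference -/
theorem zer_sq (n : ℕ) (hn : 0 < n) (S : Finset ℕ) (hS : S ⊆ range n) :
    S.card ^ 2 ≤ ∑ r ∈ range n, (S.filter (fun t => (t + r) % n ∈ S)).card := by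
  have h0 : S.card ^ 2 = (S ×ˢ S).card := by rw [card_product, sq]
  rw [h0]
  rw [card_eq_sum_card_fiberwise (f := fun q : ℕ × ℕ => (q.2 + n - q.1) % n) (t := range n)
    (fun q _ => by
      simp only [coe_range, Set.mem_Iio]
      exact Nat.mod_lt _ hn)]
  apply sum_le_sum
  intro r hr
  apply card_le_card_of_injOn (fun q : ℕ × ℕ => q.1)
  · intro q hq
    simp only [coe_filter, mem_product, Set.mem_setOf_eq] at hq ⊢
    refine ⟨hq.1.1, ?_⟩
    have a1 : q.1 < n := mem_range.mp (hS hq.1.1)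
    have a2 : q.2 < n := mem_range.mp (hS hq.1.2)
    have e : (q.1 + r) % n = q.2 := by
      rw [← hq.2, Nat.add_mod_mod]
      have : q.1 + (q.2 + n - q.1) = q.2 + n := by omega
      rw [this, Nat.add_mod_right, Nat.mod_eq_of_lt a2]
    rw [e]
    exact hq.1.2
  · intro q hq q' hq' he
    simp only [coe_filter, mem_product, Set.mem_setOf_eq] at hq hq' he
    have a1 : q.1 < n := mem_range.mp (hS hq.1.1)
    have a2 : q.2 < n := mem_range.mp (hS hq.1.2)
    have b2 : q'.2 < n := mem_range.mp (hS hq'.1.2)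
    have e : (q.1 + r) % n = q.2 := by
      rw [← hq.2, Nat.add_mod_mod]
      have : q.1 + (q.2 + n - q.1) = q.2 + n := by omega
      rw [this, Nat.add_mod_right, Nat.mod_eq_of_lt a2]
    have e' : (q'.1 + r) % n = q'.2 := by
      rw [← hq'.2, Nat.add_mod_mod]
      have : q'.1 + (q'.2 + n - q'.1) = q'.2 + n := by omega
      rw [this, Nat.add_mod_right, Nat.mod_eq_of_lt b2]
    refine Prod.ext he ?_
    rw [← e, ← e', he]

theorem expo_aux (p : ℕ) [Fact p.Prime] (M : ℕ) (hM : 1 ≤ M) : ∀ (h : ℕ)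
    (c x : Fin (h + 1) → (ZMod p)ˣ) (_ : ∀ i j, i ≠ j → M ≤ orderOf (x i / x j)),
    (((range (p - 1)).filter (fun t => ∑ i, (c i : ZMod p) * (x i : ZMod p) ^ t = 0)).card : ℝ) ≤
      (h + 1) * (M : ℝ) ^ (-(1 : ℝ) / 2 ^ h) * (p - 1) := by
  have hp1 : 1 < p := (Fact.out : p.Prime).one_lt
  have hM0 : (0:ℝ) < M := by exact_mod_cast hM
  have hM1 : (1:ℝ) ≤ M := by exact_mod_cast hM
  have hpc : ((p - 1 : ℕ) : ℝ) = (p : ℝ) - 1 := by rw [Nat.cast_sub hp1.le]; simp
  have hN0 : (0:ℝ) ≤ (p : ℝ) - 1 := by rw [← hpc]; positivity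
  intro h
  induction h with
  | zero =>
    intro c x _
    have : (range (p - 1)).filter (fun t => ∑ i, (c i : ZMod p) * (x i : ZMod p) ^ t = 0) = ∅ := by
      rw [filter_eq_empty_iff]
      intro t _
      simp
    rw [this]
    simp only [card_empty, Nat.cast_zero]
    positivity
  | succ h ih =>
    intro c x hx
    set S := (range (p - 1)).filter (fun t => ∑ i, (c i : ZMod p) * (x i : ZMod p) ^ t = 0) with hS
    have hSsub : S ⊆ range (p - 1) := filter_subset _ _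
    set B : ℝ := (h + 1) * (M : ℝ) ^ (-(1 : ℝ) / 2 ^ h) * (p - 1) with hB
    have hB0 : 0 ≤ B := by positivity
    -- the bad shifts
    set bad : Finset ℕ := (univ : Finset (Fin (h + 1))).biUnion
      (fun i => (range (p - 1)).filter (fun r => (x i.castSucc / x (Fin.last (h + 1))) ^ r = 1)) with hbad
    have hbadc : (bad.card : ℝ) ≤ (h + 1) * (((p : ℝ) - 1) / M) := by
      have h1 : (bad.card : ℝ) ≤ ∑ i : Fin (h + 1),
          (((range (p - 1)).filter (fun r => (x i.castSucc / x (Fin.last (h + 1))) ^ r = 1)).card : ℝ) := by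
        exact_mod_cast card_biUnion_le
      refine h1.trans ?_
      refine (sum_le_sum (fun i _ => zer_pow_count p _ M hM (hx _ _ (Fin.castSucc_ne_last i)))).trans ?_
      rw [sum_const, card_univ, Fintype.card_fin, nsmul_eq_mul]
      push_cast
      exact le_rfl
    have hgood : ∀ r ∈ range (p - 1), r ∉ bad →
        ((S.filter (fun t => (t + r) % (p - 1) ∈ S)).card : ℝ) ≤ B := by
      intro r hr hrb
      have hne : ∀ i : Fin (h + 1), (x i.castSucc : ZMod p) ^ r - (x (Fin.last (h + 1)) : ZMod p) ^ r ≠ 0 := by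
        intro i hi
        apply hrb
        rw [hbad, mem_biUnion]
        refine ⟨i, mem_univ _, ?_⟩
        rw [mem_filter]
        refine ⟨hr, ?_⟩
        rw [div_pow, div_eq_one]
        apply Units.ext
        push_cast
        exact sub_eq_zero.mp hi
      have := ih (fun i => c i.castSucc * Units.mk0 _ (hne i)) (fun i => x i.castSucc)
        (fun i j hij => hx _ _ (fun hh => hij (Fin.castSucc_injective _ hh)))
      refine le_trans ?_ this
      have hcc : (S.filter (fun t => (t + r) % (p - 1) ∈ S)).card ≤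
          ((range (p - 1)).filter (fun t => ∑ i : Fin (h + 1),
            ((c i.castSucc * Units.mk0 _ (hne i) : (ZMod p)ˣ) : ZMod p) * (x i.castSucc : ZMod p) ^ t = 0)).card := by
        apply card_le_card
        intro t ht
        rw [mem_filter] at ht
        obtain ⟨ht1, ht2⟩ := ht
        rw [hS, mem_filter] at ht1 ht2
        rw [mem_filter]
        refine ⟨ht1.1, ?_⟩
        have e2 : ∑ i, (c i : ZMod p) * (x i : ZMod p) ^ (t + r) = 0 := by
          rw [← ht2.2]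
          apply sum_congr rfl
          intro i _
          rw [zer_pow_mod]
        have e3 : ∑ i, (c i : ZMod p) * ((x i : ZMod p) ^ r - (x (Fin.last (h + 1)) : ZMod p) ^ r) *
            (x i : ZMod p) ^ t = 0 := by
          have : ∑ i, (c i : ZMod p) * ((x i : ZMod p) ^ r - (x (Fin.last (h + 1)) : ZMod p) ^ r) *
            (x i : ZMod p) ^ t = ∑ i, (c i : ZMod p) * (x i : ZMod p) ^ (t + r) -
              (x (Fin.last (h + 1)) : ZMod p) ^ r * ∑ i, (c i : ZMod p) * (x i : ZMod p) ^ t := by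
            rw [mul_sum, ← sum_sub_distrib]
            apply sum_congr rfl
            intro i _
            rw [pow_add]
            ring
          rw [this, e2, ht1.2]
          simp
        rw [Fin.sum_univ_castSucc] at e3
        rw [sub_self, mul_zero, zero_mul, add_zero] at e3
        rw [← e3]
        apply sum_congr rfl
        intro i _
        simp
      exact_mod_cast hcc
    have hallb : ∀ r ∈ range (p - 1), ((S.filter (fun t => (t + r) % (p - 1) ∈ S)).card : ℝ) ≤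
        (if r ∈ bad then ((p : ℝ) - 1) else 0) + B := by
      intro r hr
      by_cases hb : r ∈ bad
      · rw [if_pos hb]
        have h1 : (S.filter (fun t => (t + r) % (p - 1) ∈ S)).card ≤ p - 1 := by
          refine (card_le_card (filter_subset _ _)).trans ((card_le_card hSsub).trans ?_)
          rw [card_range]
        have h2 : ((S.filter (fun t => (t + r) % (p - 1) ∈ S)).card : ℝ) ≤ (p : ℝ) - 1 := by
          rw [← hpc]; exact_mod_cast h1
        linarith
      · rw [if_neg hb, zero_add]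
        exact hgood r hr hb
    have hsq : (S.card : ℝ) ^ 2 ≤ ((p : ℝ) - 1) * ((h + 1) * (((p : ℝ) - 1) / M)) + ((p : ℝ) - 1) * B := by
      have h1 : ((S.card ^ 2 : ℕ) : ℝ) ≤ ((∑ r ∈ range (p - 1), (S.filter (fun t => (t + r) % (p - 1) ∈ S)).card : ℕ) : ℝ) := by
        exact_mod_cast zer_sq (p - 1) (by omega) S hSsub
      push_cast at h1
      refine h1.trans ((sum_le_sum hallb).trans ?_)
      rw [sum_add_distrib, sum_const, card_range, nsmul_eq_mul, hpc]
      have h3 : ∑ r ∈ range (p - 1), (if r ∈ bad then ((p : ℝ) - 1) else 0) ≤ ((p : ℝ) - 1) * ((h + 1) * (((p : ℝ) - 1) / M)) := by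
        rw [← sum_filter, sum_const, nsmul_eq_mul, mul_comm]
        apply mul_le_mul_of_nonneg_left _ hN0
        refine le_trans ?_ hbadc
        have : ((range (p - 1)).filter (fun r => r ∈ bad)).card ≤ bad.card := by
          apply card_le_card
          intro r hr
          exact (mem_filter.mp hr).2
        exact_mod_cast this
      linarith
    have hpw : (M : ℝ) ^ (-(1 : ℝ) / 2 ^ (h + 1)) * (M : ℝ) ^ (-(1 : ℝ) / 2 ^ (h + 1)) = (M : ℝ) ^ (-(1 : ℝ) / 2 ^ h) := by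
      rw [← Real.rpow_add hM0]
      congr 1
      rw [pow_succ]
      field_simp
      ring
    have hinv : 1 / (M : ℝ) ≤ (M : ℝ) ^ (-(1 : ℝ) / 2 ^ h) := by
      rw [one_div, ← Real.rpow_neg_one]
      apply Real.rpow_le_rpow_of_exponent_le hM1
      rw [neg_div]
      apply neg_le_neg
      rw [div_le_one (by positivity)]
      exact one_le_pow₀ (by norm_num)
    set u : ℝ := (M : ℝ) ^ (-(1 : ℝ) / 2 ^ h) with hu
    have hu0 : 0 ≤ u := by positivity
    set w : ℝ := (M : ℝ) ^ (-(1 : ℝ) / 2 ^ (h + 1)) with hw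
    have hw0 : 0 ≤ w := by positivity
    have hfin : (S.card : ℝ) ^ 2 ≤ (((h + 1 : ℕ) + 1 : ℝ) * w * (p - 1)) ^ 2 := by
      refine hsq.trans ?_
      have e1 : (((h + 1 : ℕ) + 1 : ℝ) * w * ((p:ℝ) - 1)) ^ 2 = ((h:ℝ) + 2) ^ 2 * u * ((p:ℝ) - 1) ^ 2 := by
        rw [← hpw]; push_cast; ring
      rw [e1, hB]
      have e2 : ((p : ℝ) - 1) * (((h:ℝ) + 1) * (((p : ℝ) - 1) / M)) + ((p : ℝ) - 1) * (((h:ℝ) + 1) * u * ((p:ℝ) - 1))
          = ((h:ℝ) + 1) * (1 / M + u) * ((p:ℝ) - 1) ^ 2 := by ring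
      rw [e2]
      apply mul_le_mul_of_nonneg_right _ (by positivity)
      have e3 : ((h:ℝ) + 1) * (1 / M + u) ≤ ((h:ℝ) + 1) * (u + u) := by
        apply mul_le_mul_of_nonneg_left _ (by positivity)
        linarith
      refine e3.trans ?_
      nlinarith [mul_nonneg hu0 (sq_nonneg ((h:ℝ) + 1)), mul_nonneg hu0 (Nat.cast_nonneg (α := ℝ) h)]
    have := abs_le_of_sq_le_sq hfin (by positivity)
    exact (le_abs_self _).trans this

/-- (ZER1) The number of exponents `t` modulo `p - 1` with `∑ c_i x_i^t = 0`, if all ratios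
`x_i / x_j` have order at least `M`. -/
theorem expo_count (p : ℕ) [Fact p.Prime] (h M : ℕ) (hh : 1 ≤ h) (hM : 1 ≤ M)
    (c x : Fin h → (ZMod p)ˣ)
    (hx : ∀ i j, i ≠ j → M ≤ orderOf (x i / x j)) :
    (((range (p - 1)).filter (fun t => ∑ i, (c i : ZMod p) * (x i : ZMod p) ^ t = 0)).card : ℝ) ≤
      h * (M : ℝ) ^ (-(1 : ℝ) / 2 ^ (h - 1)) * (p - 1) := by
  obtain ⟨k, rfl⟩ : ∃ k, h = k + 1 := ⟨h - 1, by omega⟩
  have := expo_aux p M hM k c x hx
  simpa using this

theorem zer_win (p H : ℕ) [Fact p.Prime] (hH : 2 ≤ H) (Z : Finset (ZMod p)) (hZ : 2 * p < H * Z.card) :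
    ∃ h, 1 ≤ h ∧ h < H ∧ p < H ^ 2 * ((univ : Finset (ZMod p)).filter (fun b => b ∈ Z ∧ b + (h : ZMod p) ∈ Z)).card := by
  classical
  by_contra hcon
  push Not at hcon
  set W : ZMod p → Finset ℕ := fun a => (range H).filter (fun i => a + (i : ZMod p) ∈ Z) with hW
  have h1 : ∑ a : ZMod p, (W a).card = H * Z.card := by
    have : ∑ a : ZMod p, (W a).card = ∑ i ∈ range H, ((univ : Finset (ZMod p)).filter (fun a => a + (i : ZMod p) ∈ Z)).card := by
      simp only [hW, card_filter]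
      rw [sum_comm]
    rw [this]
    have h2 : ∀ i ∈ range H, ((univ : Finset (ZMod p)).filter (fun a => a + (i : ZMod p) ∈ Z)).card = Z.card := by
      intro i _
      apply card_bij (fun a _ => a + (i : ZMod p))
      · intro a ha
        exact (mem_filter.mp ha).2
      · intro a _ b _ hab
        exact add_right_cancel hab
      · intro b hb
        refine ⟨b - (i : ZMod p), ?_, by ring⟩
        rw [mem_filter]
        refine ⟨mem_univ _, ?_⟩
        simpa using hb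
    rw [sum_congr rfl h2, sum_const, card_range, smul_eq_mul]
  set Q : Finset (ℕ × ℕ) := (range H ×ˢ range H).filter (fun q => q.1 < q.2) with hQ
  have h3 : ∀ a : ZMod p, (W a).card ≤ 1 + (Q.filter (fun q => a + (q.1 : ZMod p) ∈ Z ∧ a + (q.2 : ZMod p) ∈ Z)).card := by
    intro a
    by_cases hne : (W a).Nonempty
    · set m := (W a).min' hne with hm
      have hmW : m ∈ W a := min'_mem _ _
      have h4 : ((W a).erase m).card ≤ (Q.filter (fun q => a + (q.1 : ZMod p) ∈ Z ∧ a + (q.2 : ZMod p) ∈ Z)).card := by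
        apply card_le_card_of_injOn (fun j => (m, j))
        · intro j hj
          have hj' : j ∈ (W a).erase m := hj
          rw [mem_erase] at hj'
          have hjW : j ∈ W a := hj'.2
          have hlt : m < j := lt_of_le_of_ne (min'_le _ _ hjW) (Ne.symm hj'.1)
          simp only [hW, mem_filter] at hmW hjW
          simp only [hQ, coe_filter, mem_filter, mem_product, Set.mem_setOf_eq]
          exact ⟨⟨⟨hmW.1, hjW.1⟩, hlt⟩, hmW.2, hjW.2⟩
        · intro j _ j' _ he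
          exact (Prod.mk.inj he).2
      have h5 : (W a).card = ((W a).erase m).card + 1 := by
        rw [card_erase_add_one hmW]
      omega
    · rw [not_nonempty_iff_eq_empty] at hne
      rw [hne]
      simp
  have h6 : ∑ a : ZMod p, (Q.filter (fun q => a + (q.1 : ZMod p) ∈ Z ∧ a + (q.2 : ZMod p) ∈ Z)).card
      = ∑ q ∈ Q, ((univ : Finset (ZMod p)).filter (fun b => b ∈ Z ∧ b + ((q.2 - q.1 : ℕ) : ZMod p) ∈ Z)).card := by
    have : ∑ a : ZMod p, (Q.filter (fun q => a + (q.1 : ZMod p) ∈ Z ∧ a + (q.2 : ZMod p) ∈ Z)).card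
        = ∑ q ∈ Q, ((univ : Finset (ZMod p)).filter (fun a => a + (q.1 : ZMod p) ∈ Z ∧ a + (q.2 : ZMod p) ∈ Z)).card := by
      simp only [card_filter]
      rw [sum_comm]
    rw [this]
    apply sum_congr rfl
    intro q hq
    have hlt : q.1 < q.2 := (mem_filter.mp hq).2
    have hc : ((q.2 - q.1 : ℕ) : ZMod p) = (q.2 : ZMod p) - q.1 := by
      rw [Nat.cast_sub hlt.le]
    apply card_bij (fun a _ => a + (q.1 : ZMod p))
    · intro a ha
      rw [mem_filter] at ha ⊢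
      refine ⟨mem_univ _, ha.2.1, ?_⟩
      rw [hc]
      have : a + (q.1 : ZMod p) + ((q.2 : ZMod p) - q.1) = a + q.2 := by ring
      rw [this]
      exact ha.2.2
    · intro a _ b _ hab
      exact add_right_cancel hab
    · intro b hb
      rw [mem_filter] at hb
      refine ⟨b - (q.1 : ZMod p), ?_, by ring⟩
      rw [mem_filter]
      refine ⟨mem_univ _, ?_, ?_⟩
      · have : b - (q.1 : ZMod p) + q.1 = b := by ring
        rw [this]; exact hb.2.1
      · have : b - (q.1 : ZMod p) + q.2 = b + ((q.2 : ZMod p) - q.1) := by ring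
        rw [this, ← hc]; exact hb.2.2
  have h7 : H ^ 2 * ∑ q ∈ Q, ((univ : Finset (ZMod p)).filter (fun b => b ∈ Z ∧ b + ((q.2 - q.1 : ℕ) : ZMod p) ∈ Z)).card
      ≤ H ^ 2 * p := by
    rw [mul_sum]
    have h8 : ∀ q ∈ Q, H ^ 2 * ((univ : Finset (ZMod p)).filter (fun b => b ∈ Z ∧ b + ((q.2 - q.1 : ℕ) : ZMod p) ∈ Z)).card ≤ p := by
      intro q hq
      rw [hQ, mem_filter, mem_product, mem_range, mem_range] at hq
      exact hcon (q.2 - q.1) (by omega) (by omega)
    refine (sum_le_sum h8).trans ?_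
    rw [sum_const, smul_eq_mul]
    apply Nat.mul_le_mul_right
    refine (card_filter_le _ _).trans ?_
    rw [card_product, card_range, sq]
  have h9 : ∑ q ∈ Q, ((univ : Finset (ZMod p)).filter (fun b => b ∈ Z ∧ b + ((q.2 - q.1 : ℕ) : ZMod p) ∈ Z)).card ≤ p :=
    le_of_mul_le_mul_left h7 (by positivity)
  have h10 : H * Z.card ≤ p + p := by
    rw [← h1]
    refine (sum_le_sum (fun a _ => h3 a)).trans ?_
    rw [sum_add_distrib, h6]
    simp only [sum_const, card_univ, ZMod.card, smul_eq_mul, mul_one]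
    omega
  omega

theorem zer_diff (p e : ℕ) [Fact p.Prime] (f : (ZMod p)[X])
    (hf : f.comp (X + 1) - f = C (e : ZMod p) * X ^ (e - 1)) (a : ZMod p) (h : ℕ) :
    f.eval (a + (h : ZMod p)) - f.eval a = (e : ZMod p) * ∑ j ∈ range h, (a + (j : ZMod p)) ^ (e - 1) := by
  induction h with
  | zero => simp
  | succ h ih =>
    rw [sum_range_succ, mul_add, ← ih]
    have h1 := congrArg (Polynomial.eval (a + (h : ZMod p))) hf
    simp only [eval_sub, eval_comp, eval_add, eval_X, eval_one, eval_mul, eval_C, eval_pow] at h1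
    rw [← h1]
    push_cast
    ring_nf

open Classical in
/-- number of elements of small order -/
theorem zer_small (p M : ℕ) [Fact p.Prime] :
    ((univ : Finset (ZMod p)).filter (fun z => ∃ r, 1 ≤ r ∧ r < M ∧ z ^ r = 1)).card ≤ M ^ 2 := by
  classical
  have hsub : (univ : Finset (ZMod p)).filter (fun z => ∃ r, 1 ≤ r ∧ r < M ∧ z ^ r = 1) ⊆
      (Ico 1 M).biUnion (fun r => Polynomial.nthRootsFinset r (1 : ZMod p)) := by
    intro z hz
    rw [mem_filter] at hz
    obtain ⟨r, hr1, hr2, hr3⟩ := hz.2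
    rw [mem_biUnion]
    refine ⟨r, mem_Ico.mpr ⟨hr1, hr2⟩, ?_⟩
    rw [mem_nthRootsFinset (by omega)]
    exact hr3
  refine (card_le_card hsub).trans (card_biUnion_le.trans ?_)
  have h1 : ∀ r ∈ Ico 1 M, (Polynomial.nthRootsFinset r (1 : ZMod p)).card ≤ M := by
    intro r hr
    have h2 : (Polynomial.nthRootsFinset r (1 : ZMod p)).card ≤ Multiset.card (nthRoots r (1 : ZMod p)) := by
      unfold nthRootsFinset
      exact @Multiset.toFinset_card_le _ (Classical.decEq _) _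
    exact h2.trans ((card_nthRoots _ _).trans (mem_Ico.mp hr).2.le)
  refine (sum_le_sum h1).trans ?_
  rw [sum_const, smul_eq_mul, Nat.card_Ico, sq]
  exact Nat.mul_le_mul_right _ (Nat.sub_le _ _)

/-- the bad base points -/
noncomputable def zbad (p h M : ℕ) [Fact p.Prime] : Finset (ZMod p) := by
  classical
  exact (range h).image (fun j : ℕ => -(j : ZMod p)) ∪
    ((range h ×ˢ range h).filter (fun q => q.1 ≠ q.2)).biUnion (fun q =>
      (univ : Finset (ZMod p)).filter (fun b => b + (q.2 : ZMod p) ≠ 0 ∧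
        ∃ r, 1 ≤ r ∧ r < M ∧ ((b + (q.1 : ZMod p)) / (b + (q.2 : ZMod p))) ^ r = 1))

theorem zbad_card (p h M : ℕ) [Fact p.Prime] (hp : h ≤ p) : (zbad p h M).card ≤ h + h ^ 2 * M ^ 2 := by
  classical
  unfold zbad
  refine (card_union_le _ _).trans ?_
  apply add_le_add
  · exact card_image_le.trans (by rw [card_range])
  · refine card_biUnion_le.trans ?_
    have h1 : ∀ q ∈ (range h ×ˢ range h).filter (fun q => q.1 ≠ q.2),
        ((univ : Finset (ZMod p)).filter (fun b => b + (q.2 : ZMod p) ≠ 0 ∧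
        ∃ r, 1 ≤ r ∧ r < M ∧ ((b + (q.1 : ZMod p)) / (b + (q.2 : ZMod p))) ^ r = 1)).card ≤ M ^ 2 := by
      intro q hq
      rw [mem_filter, mem_product, mem_range, mem_range] at hq
      refine le_trans ?_ (zer_small p M)
      apply card_le_card_of_injOn (fun b => (b + (q.1 : ZMod p)) / (b + (q.2 : ZMod p)))
      · intro b hb
        simp only [coe_filter, mem_univ, true_and, Set.mem_setOf_eq] at hb ⊢
        exact hb.2
      · intro b hb b' hb' he
        simp only [coe_filter, mem_univ, true_and, Set.mem_setOf_eq] at hb hb'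
        have he' : (b + (q.1 : ZMod p)) / (b + (q.2 : ZMod p)) = (b' + (q.1 : ZMod p)) / (b' + (q.2 : ZMod p)) := he
        rw [div_eq_div_iff hb.1 hb'.1] at he'
        have h2 : (b - b') * ((q.2 : ZMod p) - q.1) = 0 := by linear_combination he'
        rcases mul_eq_zero.mp h2 with h3 | h3
        · exact sub_eq_zero.mp h3
        · exfalso
          apply hq.2
          have h4 : (q.2 : ZMod p) = (q.1 : ZMod p) := sub_eq_zero.mp h3
          rw [ZMod.natCast_eq_natCast_iff'] at h4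
          rw [Nat.mod_eq_of_lt (by omega), Nat.mod_eq_of_lt (by omega)] at h4
          exact h4.symm
    refine (sum_le_sum h1).trans ?_
    rw [sum_const, smul_eq_mul]
    apply Nat.mul_le_mul_right
    refine (card_filter_le _ _).trans ?_
    rw [card_product, card_range, sq]


theorem zer_good (p h M H : ℕ) [Fact p.Prime] (hh : 1 ≤ h) (hhH : h ≤ H) (hM : 1 ≤ M) (b : ZMod p)
    (hb : b ∉ zbad p h M) :
    (((range (p - 1)).filter (fun t => ∑ j ∈ range h, (b + (j : ZMod p)) ^ t = 0)).card : ℝ) ≤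
      H * (M : ℝ) ^ (-(1 : ℝ) / 2 ^ H) * p := by
  classical
  have hp1 : 1 < p := (Fact.out : p.Prime).one_lt
  have hM1 : (1:ℝ) ≤ M := by exact_mod_cast hM
  have hM0 : (0:ℝ) < M := by exact_mod_cast hM
  have hp2 : (1:ℝ) < p := by exact_mod_cast hp1
  unfold zbad at hb
  rw [mem_union, not_or, mem_image, mem_biUnion] at hb
  push Not at hb
  have hne : ∀ j : Fin h, b + ((j : ℕ) : ZMod p) ≠ 0 := by
    intro j hj
    apply hb.1 j (mem_range.mpr j.2)
    exact (eq_neg_of_add_eq_zero_left hj).symm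
  have key := expo_count p h M hh hM (fun _ => 1) (fun j => Units.mk0 _ (hne j)) (by
    intro i j hij
    by_contra hlt
    push Not at hlt
    have h1 := hb.2 ((i : ℕ), (j : ℕ)) (by
      rw [mem_filter, mem_product]
      exact ⟨⟨mem_range.mpr i.2, mem_range.mpr j.2⟩, fun hh => hij (Fin.ext hh)⟩)
    apply h1
    rw [mem_filter]
    refine ⟨mem_univ _, hne j, orderOf (Units.mk0 _ (hne i) / Units.mk0 _ (hne j)), ?_, hlt, ?_⟩
    · exact orderOf_pos _
    · have h2 := pow_orderOf_eq_one (Units.mk0 _ (hne i) / Units.mk0 _ (hne j))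
      have h3 : ((Units.mk0 _ (hne i) / Units.mk0 _ (hne j) : (ZMod p)ˣ) : ZMod p) ^
          orderOf (Units.mk0 _ (hne i) / Units.mk0 _ (hne j)) = 1 := by
        rw [← Units.val_pow_eq_pow_val, h2, Units.val_one]
      rw [Units.val_div_eq_div_val, Units.val_mk0, Units.val_mk0] at h3
      exact h3)
  have e1 : (range (p - 1)).filter (fun t => ∑ j ∈ range h, (b + (j : ZMod p)) ^ t = 0) =
      (range (p - 1)).filter (fun t => ∑ i : Fin h, (((fun _ => 1 : Fin h → (ZMod p)ˣ) i : (ZMod p)ˣ) : ZMod p) *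
        ((fun j => Units.mk0 _ (hne j) : Fin h → (ZMod p)ˣ) i : ZMod p) ^ t = 0) := by
    apply filter_congr
    intro t _
    rw [sum_range]
    simp
  rw [e1]
  refine key.trans ?_
  have e2 : (M : ℝ) ^ (-(1 : ℝ) / 2 ^ (h - 1)) ≤ (M : ℝ) ^ (-(1 : ℝ) / 2 ^ H) := by
    apply Real.rpow_le_rpow_of_exponent_le hM1
    rw [neg_div, neg_div]
    apply neg_le_neg
    apply one_div_le_one_div_of_le (by positivity)
    exact pow_le_pow_right₀ (by norm_num) (by omega)
  have e3 : (h : ℝ) ≤ H := by exact_mod_cast hhH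
  gcongr
  linarith

theorem zer_h (p h M H : ℕ) [Fact p.Prime] (hh : 1 ≤ h) (hhH : h ≤ H) (hM : 1 ≤ M) (hhp : h ≤ p) :
    (((Icc 2 (p - 2)).filter (fun e => p < H ^ 2 * ((univ : Finset (ZMod p)).filter
      (fun b => ∑ j ∈ range h, (b + (j : ZMod p)) ^ (e - 1) = 0)).card)).card : ℝ) ≤
      (H : ℝ) ^ 2 * (((H : ℝ) + H ^ 2 * M ^ 2) + H * (M : ℝ) ^ (-(1 : ℝ) / 2 ^ H) * p) := by
  classical
  have hp1 : 1 < p := (Fact.out : p.Prime).one_lt
  have hp0 : (0:ℝ) < p := by exact_mod_cast (by omega : 0 < p)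
  set E := (Icc 2 (p - 2)).filter (fun e => p < H ^ 2 * ((univ : Finset (ZMod p)).filter
      (fun b => ∑ j ∈ range h, (b + (j : ZMod p)) ^ (e - 1) = 0)).card) with hE
  have h1 : E.card * p ≤ ∑ e ∈ Icc 2 (p - 2), H ^ 2 * ((univ : Finset (ZMod p)).filter
      (fun b => ∑ j ∈ range h, (b + (j : ZMod p)) ^ (e - 1) = 0)).card := by
    have h2 : E.card * p ≤ ∑ e ∈ E, H ^ 2 * ((univ : Finset (ZMod p)).filter
      (fun b => ∑ j ∈ range h, (b + (j : ZMod p)) ^ (e - 1) = 0)).card := by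
      rw [← smul_eq_mul]
      apply card_nsmul_le_sum
      intro e he
      exact (mem_filter.mp he).2.le
    exact h2.trans (sum_le_sum_of_subset (filter_subset _ _))
  have h3 : ∑ e ∈ Icc 2 (p - 2), H ^ 2 * ((univ : Finset (ZMod p)).filter
      (fun b => ∑ j ∈ range h, (b + (j : ZMod p)) ^ (e - 1) = 0)).card =
      H ^ 2 * ∑ b : ZMod p, ((Icc 2 (p - 2)).filter (fun e => ∑ j ∈ range h, (b + (j : ZMod p)) ^ (e - 1) = 0)).card := by
    rw [← mul_sum]
    congr 1
    simp only [card_filter]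
    rw [sum_comm]
  have h4 : ∀ b : ZMod p, ((Icc 2 (p - 2)).filter (fun e => ∑ j ∈ range h, (b + (j : ZMod p)) ^ (e - 1) = 0)).card ≤
      ((range (p - 1)).filter (fun t => ∑ j ∈ range h, (b + (j : ZMod p)) ^ t = 0)).card := by
    intro b
    apply card_le_card_of_injOn (fun e => e - 1)
    · intro e he
      simp only [coe_filter, mem_Icc, Set.mem_setOf_eq, mem_range] at he ⊢
      exact ⟨by omega, he.2⟩
    · intro e he e' he' hee
      simp only [coe_filter, mem_Icc, Set.mem_setOf_eq] at he he' hee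
      omega
  have h5 : ∀ b : ZMod p, ((((Icc 2 (p - 2)).filter (fun e => ∑ j ∈ range h, (b + (j : ZMod p)) ^ (e - 1) = 0)).card : ℕ) : ℝ) ≤
      (if b ∈ zbad p h M then (p : ℝ) else 0) + H * (M : ℝ) ^ (-(1 : ℝ) / 2 ^ H) * p := by
    intro b
    by_cases hb : b ∈ zbad p h M
    · rw [if_pos hb]
      have h6 : ((Icc 2 (p - 2)).filter (fun e => ∑ j ∈ range h, (b + (j : ZMod p)) ^ (e - 1) = 0)).card ≤ p := by
        refine (h4 b).trans ((card_filter_le _ _).trans ?_)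
        rw [card_range]; omega
      have h7 : ((((Icc 2 (p - 2)).filter (fun e => ∑ j ∈ range h, (b + (j : ZMod p)) ^ (e - 1) = 0)).card : ℕ) : ℝ) ≤ p := by
        exact_mod_cast h6
      have h8 : 0 ≤ H * (M : ℝ) ^ (-(1 : ℝ) / 2 ^ H) * p := by positivity
      linarith
    · rw [if_neg hb, zero_add]
      refine le_trans ?_ (zer_good p h M H hh hhH hM b hb)
      exact_mod_cast h4 b
  have h9 : (E.card : ℝ) * p ≤ (H : ℝ) ^ 2 * (((zbad p h M).card : ℝ) * p + p * (H * (M : ℝ) ^ (-(1 : ℝ) / 2 ^ H) * p)) := by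
    have h10 : ((E.card * p : ℕ) : ℝ) ≤ ((H ^ 2 * ∑ b : ZMod p, ((Icc 2 (p - 2)).filter (fun e => ∑ j ∈ range h, (b + (j : ZMod p)) ^ (e - 1) = 0)).card : ℕ) : ℝ) := by
      rw [← h3]
      exact_mod_cast h1
    push_cast at h10
    refine h10.trans ?_
    apply mul_le_mul_of_nonneg_left _ (by positivity)
    refine (sum_le_sum (fun b _ => h5 b)).trans ?_
    rw [sum_add_distrib, ← sum_filter, sum_const, sum_const, card_univ, ZMod.card, nsmul_eq_mul, nsmul_eq_mul]
    have h11 : (univ : Finset (ZMod p)).filter (fun b => b ∈ zbad p h M) = zbad p h M := by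
      ext b; simp
    rw [h11]
  have h12 : (E.card : ℝ) ≤ (H : ℝ) ^ 2 * (((zbad p h M).card : ℝ) + (H * (M : ℝ) ^ (-(1 : ℝ) / 2 ^ H) * p)) := by
    apply le_of_mul_le_mul_right _ hp0
    refine h9.trans (le_of_eq ?_)
    ring
  refine h12.trans ?_
  apply mul_le_mul_of_nonneg_left _ (by positivity)
  have h13 : ((zbad p h M).card : ℝ) ≤ (H : ℝ) + H ^ 2 * M ^ 2 := by
    have h14 : (zbad p h M).card ≤ H + H ^ 2 * M ^ 2 := by
      refine (zbad_card p h M hhp).trans ?_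
      have : h ^ 2 ≤ H ^ 2 := Nat.pow_le_pow_left hhH 2
      have := Nat.mul_le_mul_right (M ^ 2) this
      omega
    exact_mod_cast h14
  linarith

/-- (ZER2) For most exponents `e` the polynomials with `f(X+1) - f(X) = e X^(e-1)` have few
zeros in `F_p`. -/
theorem zer (H : ℕ) (hH : 2 ≤ H) : ∃ c : ℝ, 0 < c ∧ ∃ p0 : ℕ, ∀ (p : ℕ) [Fact p.Prime],
    p0 ≤ p → ((Nat.card {e : ℕ // 2 ≤ e ∧ e + 2 ≤ p ∧ ∃ f : (ZMod p)[X],
      f.comp (X + 1) - f = C (e : ZMod p) * X ^ (e - 1) ∧ 2 * p < H * nz p f} : ℕ) : ℝ) ≤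
        (p : ℝ) ^ (1 - c) := by
  classical
  refine ⟨1 / 2 ^ (H + 3), by positivity, (6 * H ^ 5) ^ (2 ^ (H + 3)), ?_⟩
  intro p _ hp
  have hp1 : 1 < p := (Fact.out : p.Prime).one_lt
  have hp0 : (0:ℝ) < p := by exact_mod_cast (by omega : 0 < p)
  have hp1' : (1:ℝ) ≤ p := by exact_mod_cast hp1.le
  have hH0 : (0:ℝ) < H := by exact_mod_cast (by omega : 0 < H)
  have hH1 : (1:ℝ) ≤ H := by exact_mod_cast (by omega : 1 ≤ H)
  have hHp : H ≤ p := by
    refine le_trans ?_ hp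
    have h1 : H ≤ 6 * H ^ 5 := by
      have : H ^ 1 ≤ H ^ 5 := Nat.pow_le_pow_right (by omega) (by norm_num)
      rw [pow_one] at this
      omega
    have h2 : (6 * H ^ 5) ^ 1 ≤ (6 * H ^ 5) ^ (2 ^ (H + 3)) :=
      Nat.pow_le_pow_right (by positivity) (Nat.one_le_two_pow)
    rw [pow_one] at h2
    omega
  -- the parameter M
  set M : ℕ := ⌈(p : ℝ) ^ ((1:ℝ) / 4)⌉₊ with hMdef
  have hq1 : 1 ≤ (p : ℝ) ^ ((1:ℝ) / 4) := Real.one_le_rpow hp1' (by norm_num)
  have hMlow : (p : ℝ) ^ ((1:ℝ) / 4) ≤ M := Nat.le_ceil _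
  have hMup : (M : ℝ) ≤ 2 * (p : ℝ) ^ ((1:ℝ) / 4) := by
    have := Nat.ceil_lt_add_one (a := (p : ℝ) ^ ((1:ℝ) / 4)) (by positivity)
    linarith
  have hM1 : 1 ≤ M := by
    have : (1:ℝ) ≤ M := hq1.trans hMlow
    exact_mod_cast this
  -- the bad exponents are covered
  have hcov : {e : ℕ | 2 ≤ e ∧ e + 2 ≤ p ∧ ∃ f : (ZMod p)[X],
      f.comp (X + 1) - f = C (e : ZMod p) * X ^ (e - 1) ∧ 2 * p < H * nz p f} ⊆
      (((Ico 1 H).biUnion (fun h => (Icc 2 (p - 2)).filter (fun e => p < H ^ 2 * ((univ : Finset (ZMod p)).filter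
      (fun b => ∑ j ∈ range h, (b + (j : ZMod p)) ^ (e - 1) = 0)).card)) : Finset ℕ) : Set ℕ) := by
    rintro e ⟨he1, he2, f, hf, hnz⟩
    unfold nz at hnz
    obtain ⟨h, hh1, hh2, hh3⟩ := zer_win p H hH ((univ : Finset (ZMod p)).filter (fun a => f.eval a = 0)) (by convert hnz)
    rw [mem_coe, mem_biUnion]
    refine ⟨h, mem_Ico.mpr ⟨hh1, hh2⟩, ?_⟩
    rw [mem_filter]
    refine ⟨mem_Icc.mpr ⟨he1, by omega⟩, ?_⟩
    refine lt_of_lt_of_le hh3 (Nat.mul_le_mul_left _ (card_le_card ?_))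
    intro b hb
    rw [mem_filter, mem_filter, mem_filter] at hb
    rw [mem_filter]
    refine ⟨mem_univ _, ?_⟩
    have h1 := zer_diff p e f hf b h
    rw [hb.2.1.2, hb.2.2.2, sub_self] at h1
    have h2 : (e : ZMod p) ≠ 0 := by
      intro h0
      rw [ZMod.natCast_eq_zero_iff] at h0
      have := Nat.le_of_dvd (by omega) h0
      omega
    rcases mul_eq_zero.mp h1.symm with h3 | h3
    · exact absurd h3 h2
    · exact h3
  have hcard : (Nat.card {e : ℕ // 2 ≤ e ∧ e + 2 ≤ p ∧ ∃ f : (ZMod p)[X],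
      f.comp (X + 1) - f = C (e : ZMod p) * X ^ (e - 1) ∧ 2 * p < H * nz p f}) ≤
      ((Ico 1 H).biUnion (fun h => (Icc 2 (p - 2)).filter (fun e => p < H ^ 2 * ((univ : Finset (ZMod p)).filter
      (fun b => ∑ j ∈ range h, (b + (j : ZMod p)) ^ (e - 1) = 0)).card))).card := by
    have h1 : Nat.card {e : ℕ // 2 ≤ e ∧ e + 2 ≤ p ∧ ∃ f : (ZMod p)[X],
      f.comp (X + 1) - f = C (e : ZMod p) * X ^ (e - 1) ∧ 2 * p < H * nz p f} =
      Set.ncard {e : ℕ | 2 ≤ e ∧ e + 2 ≤ p ∧ ∃ f : (ZMod p)[X],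
      f.comp (X + 1) - f = C (e : ZMod p) * X ^ (e - 1) ∧ 2 * p < H * nz p f} := rfl
    rw [h1, ← Set.ncard_coe_finset]
    exact Set.ncard_le_ncard hcov (Finset.finite_toSet _)
  have hreal : ((Nat.card {e : ℕ // 2 ≤ e ∧ e + 2 ≤ p ∧ ∃ f : (ZMod p)[X],
      f.comp (X + 1) - f = C (e : ZMod p) * X ^ (e - 1) ∧ 2 * p < H * nz p f} : ℕ) : ℝ) ≤
      H * ((H : ℝ) ^ 2 * (((H : ℝ) + H ^ 2 * M ^ 2) + H * (M : ℝ) ^ (-(1 : ℝ) / 2 ^ H) * p)) := by
    have h1 := hcard.trans card_biUnion_le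
    have h2 : ((Nat.card {e : ℕ // 2 ≤ e ∧ e + 2 ≤ p ∧ ∃ f : (ZMod p)[X],
      f.comp (X + 1) - f = C (e : ZMod p) * X ^ (e - 1) ∧ 2 * p < H * nz p f} : ℕ) : ℝ) ≤
      ∑ h ∈ Ico 1 H, (((Icc 2 (p - 2)).filter (fun e => p < H ^ 2 * ((univ : Finset (ZMod p)).filter
      (fun b => ∑ j ∈ range h, (b + (j : ZMod p)) ^ (e - 1) = 0)).card)).card : ℝ) := by
      exact_mod_cast h1
    refine h2.trans ?_
    refine (sum_le_sum (fun h hh => zer_h p h M H (mem_Ico.mp hh).1 (mem_Ico.mp hh).2.le hM1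
      ((mem_Ico.mp hh).2.le.trans hHp))).trans ?_
    rw [sum_const, Nat.card_Ico, nsmul_eq_mul]
    apply mul_le_mul_of_nonneg_right _ (by positivity)
    have : H - 1 ≤ H := Nat.sub_le _ _
    exact_mod_cast this
  refine hreal.trans ?_
  -- sizes
  set s : ℝ := (p : ℝ) ^ (1 - (1:ℝ) / 2 ^ (H + 2)) with hs
  have hpow2 : (4:ℝ) ≤ 2 ^ (H + 2) := by
    have : (2:ℝ) ^ 2 ≤ 2 ^ (H + 2) := pow_le_pow_right₀ (by norm_num) (by omega)
    linarith
  have hexp : (1:ℝ) / 2 ^ (H + 2) ≤ 1 / 4 := one_div_le_one_div_of_le (by norm_num) hpow2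
  have b1 : (1:ℝ) ≤ s := Real.one_le_rpow hp1' (by linarith)
  have b2 : (M:ℝ) ^ 2 ≤ 4 * s := by
    have h1 : (M:ℝ) ^ 2 ≤ (2 * (p : ℝ) ^ ((1:ℝ) / 4)) ^ 2 := by gcongr
    have h2 : (2 * (p : ℝ) ^ ((1:ℝ) / 4)) ^ 2 = 4 * (p : ℝ) ^ ((1:ℝ) / 2) := by
      rw [mul_pow, ← Real.rpow_natCast ((p : ℝ) ^ ((1:ℝ) / 4)), ← Real.rpow_mul hp0.le]
      norm_num
    have h3 : (p : ℝ) ^ ((1:ℝ) / 2) ≤ s := Real.rpow_le_rpow_of_exponent_le hp1' (by linarith)
    linarith
  have b3 : (M : ℝ) ^ (-(1 : ℝ) / 2 ^ H) * p ≤ s := by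
    have h1 : (M : ℝ) ^ (-(1 : ℝ) / 2 ^ H) ≤ ((p : ℝ) ^ ((1:ℝ) / 4)) ^ (-(1 : ℝ) / 2 ^ H) := by
      apply Real.rpow_le_rpow_of_nonpos (by positivity) hMlow
      rw [neg_div]
      have : (0:ℝ) ≤ 1 / 2 ^ H := by positivity
      linarith
    have h2 : ((p : ℝ) ^ ((1:ℝ) / 4)) ^ (-(1 : ℝ) / 2 ^ H) * p = s := by
      rw [← Real.rpow_mul hp0.le]
      nth_rewrite 2 [← Real.rpow_one (p : ℝ)]
      rw [← Real.rpow_add hp0, hs]
      congr 1
      rw [pow_add]
      field_simp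
      ring
    rw [← h2]
    exact mul_le_mul_of_nonneg_right h1 hp0.le
  have b4 : (6 * (H:ℝ) ^ 5) ≤ (p : ℝ) ^ ((1:ℝ) / 2 ^ (H + 3)) := by
    have h1 : ((6 * (H:ℝ) ^ 5)) ^ (2 ^ (H + 3)) ≤ (p : ℝ) := by exact_mod_cast hp
    have h2 : (((6 * (H:ℝ) ^ 5)) ^ (2 ^ (H + 3))) ^ ((1:ℝ) / 2 ^ (H + 3)) ≤ (p : ℝ) ^ ((1:ℝ) / 2 ^ (H + 3)) :=
      Real.rpow_le_rpow (by positivity) h1 (by positivity)
    have h3 : (((6 * (H:ℝ) ^ 5)) ^ (2 ^ (H + 3))) ^ ((1:ℝ) / 2 ^ (H + 3)) = 6 * (H:ℝ) ^ 5 := by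
      rw [← Real.rpow_natCast, ← Real.rpow_mul (by positivity)]
      push_cast
      rw [mul_one_div_cancel (by positivity), Real.rpow_one]
    rw [h3] at h2
    exact h2
  have b5 : (p : ℝ) ^ (1 - (1:ℝ) / 2 ^ (H + 3)) = s * (p : ℝ) ^ ((1:ℝ) / 2 ^ (H + 3)) := by
    rw [hs, ← Real.rpow_add hp0]
    congr 1
    have : (2:ℝ) ^ (H + 3) = 2 * 2 ^ (H + 2) := by rw [pow_succ]; ring
    rw [this]
    field_simp
    ring
  rw [b5]
  have hHH : (H:ℝ) ≤ H ^ 2 := by nlinarith
  have b6 : (((H : ℝ) + H ^ 2 * M ^ 2) + H * (M : ℝ) ^ (-(1 : ℝ) / 2 ^ H) * p) ≤ 6 * (H:ℝ) ^ 2 * s := by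
    have c1 : (H:ℝ) ≤ H ^ 2 * s := by nlinarith
    have c2 : (H:ℝ) ^ 2 * M ^ 2 ≤ H ^ 2 * (4 * s) := by gcongr
    have c3 : H * (M : ℝ) ^ (-(1 : ℝ) / 2 ^ H) * p ≤ H ^ 2 * s := by
      rw [mul_assoc]
      apply mul_le_mul hHH b3 (by positivity) (by positivity)
    linarith
  calc H * ((H : ℝ) ^ 2 * (((H : ℝ) + H ^ 2 * M ^ 2) + H * (M : ℝ) ^ (-(1 : ℝ) / 2 ^ H) * p))
      ≤ H * ((H : ℝ) ^ 2 * (6 * (H:ℝ) ^ 2 * s)) := by gcongr
    _ = s * (6 * (H:ℝ) ^ 5) := by ring
    _ ≤ s * (p : ℝ) ^ ((1:ℝ) / 2 ^ (H + 3)) := by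
        apply mul_le_mul_of_nonneg_left b4 (by positivity)

end Pool.Agent.Bern2
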