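import Mathlib
import Pool.Agent.Bern2.WR2
import Pool.Agent.Bern2.ZER

namespace Pool.Agent.Bern2

open Polynomial Finset Pool.Agent.Helper29 Pool.Agent.Helper98.Bern

/-- The bad exponents. -/
noncomputable def badE (p : ℕ) (δ : ℝ) : Finset ℕ := by
  classical
  exact if hp : p.Prime then
    haveI : Fact p.Prime := ⟨hp⟩
    (Icc 2 (p - 2)).filter (fun e => ∃ f : (ZMod p)[X], IsF p e f ∧ δ * p < mu p f)
  else ∅

/-- (MULT) There are few bad exponents. -/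
theorem mult (δ : ℝ) (hδ : 0 < δ) : ∃ c : ℝ, 0 < c ∧ ∃ p0 : ℕ, ∀ p : ℕ, p.Prime →
    p0 ≤ p → ((badE p δ).card : ℝ) ≤ (p : ℝ) ^ (1 - c) := by
  classical
  obtain ⟨M, hM⟩ := exists_nat_ge (9 / δ)
  have hM0 : (0 : ℝ) < M := lt_of_lt_of_le (by positivity) hM
  have hM1 : 1 ≤ M := by exact_mod_cast hM0
  obtain ⟨H, hH⟩ := exists_nat_ge (6 * M / δ + 2)
  have hH2 : 2 ≤ H := by
    have : (2 : ℝ) ≤ H := by
      have : (0 : ℝ) ≤ 6 * M / δ := by positivity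
      linarith
    exact_mod_cast this
  obtain ⟨c, hc, p1, hp1⟩ := zer H hH2
  obtain ⟨p2, hp2⟩ := exists_nat_ge (18 * (M : ℝ) ^ 2 / δ)
  refine ⟨c, hc, max p1 p2, fun p hp hpp => ?_⟩
  have : Fact p.Prime := ⟨hp⟩
  have hpp1 : p1 ≤ p := le_trans (le_max_left _ _) hpp
  have hpp2 : p2 ≤ p := le_trans (le_max_right _ _) hpp
  refine le_trans ?_ (hp1 p hpp1)
  have hppos : (0 : ℝ) < p := by exact_mod_cast hp.pos
  have hbad : badE p δ = (Icc 2 (p - 2)).filter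
      (fun e => ∃ f : (ZMod p)[X], IsF p e f ∧ δ * p < mu p f) := by
    unfold badE
    rw [dif_pos hp]
  have hmain : ∀ e f, 2 ≤ e → e + 2 ≤ p → IsF p e f → δ * p < mu p f →
      2 * p < H * nz p f := by
    intro e f he hep hf hmu
    have h1 := wro p e M hM1 he hep f hf
    have h2 : ((M : ℝ) + 1) * mu p f ≤ (M + 1) * M * nz p f + 3 * e + 6 * (M : ℝ) ^ 2 * (M + 1) := by
      exact_mod_cast h1
    have h3 : (e : ℝ) ≤ p := by exact_mod_cast (by omega : e ≤ p)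
    have h4 : 9 ≤ M * δ := by rwa [div_le_iff₀ hδ] at hM
    have h5 : 18 * (M : ℝ) ^ 2 ≤ p * δ := by
      have h6 : (p2 : ℝ) ≤ p := by exact_mod_cast hpp2
      have h7 : 18 * (M : ℝ) ^ 2 / δ ≤ p := le_trans hp2 h6
      rwa [div_le_iff₀ hδ] at h7
    -- M * nz > (δ/3) p
    have h6 : δ / 3 * p < M * nz p f := by
      have h7 : ((M : ℝ) + 1) * (δ * p) < (M + 1) * mu p f := by gcongr
      have h8 : 3 * (e : ℝ) ≤ (M + 1) * (δ / 3 * p) := by
        have : 9 * (p : ℝ) ≤ (M * δ) * p := by gcongr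
        nlinarith
      have h9 : 6 * (M : ℝ) ^ 2 * (M + 1) ≤ (M + 1) * (δ / 3 * p) := by
        have : 6 * (M : ℝ) ^ 2 ≤ δ / 3 * p := by linarith
        nlinarith
      have h10 : ((M : ℝ) + 1) * (δ / 3 * p) < (M + 1) * (M * nz p f) := by nlinarith
      exact lt_of_mul_lt_mul_left h10 (by positivity)
    have h7 : 6 * (M : ℝ) ≤ H * δ := by
      have h8 : 6 * (M : ℝ) / δ ≤ H := by linarith
      rwa [div_le_iff₀ hδ] at h8
    have h8 : (2 * p : ℝ) < H * nz p f := by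
      have h9 : (0 : ℝ) ≤ nz p f := Nat.cast_nonneg _
      have h10 : 6 * (M : ℝ) * nz p f ≤ H * δ * nz p f := by gcongr
      have h11 : δ * (2 * p) < δ * (H * nz p f) := by nlinarith
      exact lt_of_mul_lt_mul_left h11 hδ.le
    exact_mod_cast h8
  have hsub : ((badE p δ : Finset ℕ) : Set ℕ) ⊆ {e : ℕ | 2 ≤ e ∧ e + 2 ≤ p ∧ ∃ f : (ZMod p)[X],
      f.comp (X + 1) - f = C (e : ZMod p) * X ^ (e - 1) ∧ 2 * p < H * nz p f} := by
    intro e he
    rw [hbad, Finset.mem_coe, Finset.mem_filter, Finset.mem_Icc] at he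
    obtain ⟨⟨h1, h2⟩, f, hf, hmu⟩ := he
    have h3 : e + 2 ≤ p := by omega
    exact ⟨h1, h3, f, hf.2.2, hmain e f h1 h3 hf hmu⟩
  have hfin : Set.Finite {e : ℕ | 2 ≤ e ∧ e + 2 ≤ p ∧ ∃ f : (ZMod p)[X],
      f.comp (X + 1) - f = C (e : ZMod p) * X ^ (e - 1) ∧ 2 * p < H * nz p f} :=
    (Set.finite_Iic p).subset (fun e he => by
      simp only [Set.mem_Iic]
      have := he.2.1
      omega)
  have h1 := Set.ncard_le_ncard hsub hfin
  rw [Set.ncard_coe_finset] at h1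
  have h2 : Nat.card {e : ℕ // 2 ≤ e ∧ e + 2 ≤ p ∧ ∃ f : (ZMod p)[X],
      f.comp (X + 1) - f = C (e : ZMod p) * X ^ (e - 1) ∧ 2 * p < H * nz p f} =
      Set.ncard {e : ℕ | 2 ≤ e ∧ e + 2 ≤ p ∧ ∃ f : (ZMod p)[X],
      f.comp (X + 1) - f = C (e : ZMod p) * X ^ (e - 1) ∧ 2 * p < H * nz p f} := rfl
  rw [h2]
  exact_mod_cast h1

end Pool.Agent.Bern2
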