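import Mathlib
import Pool.Agent.Bern2.CNT
import Pool.Agent.Bern2.EV
import Pool.Agent.Helper98.Bern.AL

namespace Pool.Agent.Bern2

open Polynomial Finset Pool.Agent.Helper29 Pool.Agent.Helper98.Bern

/-- all largeness conditions used in `st1` -/
private theorem ST1_large (C : ℝ) : ∃ N1 : ℕ, ∀ N : ℕ, N1 ≤ N →
    16 ≤ Real.log N ∧ 8 * C ≤ Real.log N ∧ 100 * Real.log N ^ 12 ≤ √(N : ℝ) := by
  have h1 : ∀ᶠ x : ℝ in Filter.atTop, 16 ≤ Real.log x :=
    Real.tendsto_log_atTop.eventually_ge_atTop 16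
  have h2 : ∀ᶠ x : ℝ in Filter.atTop, 8 * C ≤ Real.log x :=
    Real.tendsto_log_atTop.eventually_ge_atTop (8 * C)
  have h3 := (Real.isLittleO_pow_log_id_atTop (n := 24)).bound (c := 1 / 10000) (by norm_num)
  have h4 : ∀ᶠ x : ℝ in Filter.atTop, (0 : ℝ) ≤ x := Filter.eventually_ge_atTop 0
  have h5 := tendsto_natCast_atTop_atTop (R := ℝ) |>.eventually (h1.and (h2.and (h3.and h4)))
  obtain ⟨N1, hN1⟩ := Filter.eventually_atTop.1 h5
  refine ⟨N1, fun N hN => ?_⟩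
  obtain ⟨q1, q2, q3, q4⟩ := hN1 N hN
  refine ⟨q1, q2, ?_⟩
  have hl : 0 ≤ Real.log (N : ℝ) := by linarith
  rw [Real.norm_of_nonneg (pow_nonneg hl 24), id, Real.norm_of_nonneg q4] at q3
  apply Real.le_sqrt_of_sq_le
  nlinarith

/-- the arithmetic part: a prime with small remainder gives a large factor -/
private theorem ST1_factor (N n p E : ℕ) (hn : n ∈ Ioc (N / 2) N) (hp : p ∈ pr N)
    (hE : 32 * (E + 2) ≤ Nat.sqrt N) (he : n % (p - 1) ≤ E) :
    ∃ g : ℚ[X], Irreducible g ∧ g ∣ Polynomial.bernoulli n ∧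
      n ≤ g.natDegree + E * (8 * (Nat.sqrt N + 1)) := by
  rw [Finset.mem_Ioc] at hn
  rw [pr, Finset.mem_filter, Finset.mem_Ioc, PP] at hp
  obtain ⟨⟨hp1, hp2⟩, hp3⟩ := hp
  set s := Nat.sqrt N with hs
  set e := n % (p - 1) with hedef
  set m := n / (p - 1) with hmdef
  have hs1 : N < (s + 1) * (s + 1) := Nat.lt_succ_sqrt N
  have hs2 : s * s ≤ N := Nat.sqrt_le N
  have hn1 : n = m * (p - 1) + e := by
    rw [hmdef, hedef, mul_comm]
    exact (Nat.div_add_mod n (p - 1)).symm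
  obtain ⟨q, rfl⟩ : ∃ q, p = q + 1 := ⟨p - 1, by omega⟩
  have hq : q + 1 - 1 = q := rfl
  rw [hq] at hn1 hedef
  have hq1 : 2 * (s + 1) ≤ q := by omega
  have hq2 : q < 8 * (s + 1) := by omega
  have heq : e < q := by
    rw [hedef]
    exact Nat.mod_lt _ (by omega)
  have hmp : m < q + 1 := by
    by_contra hcon
    push Not at hcon
    have h1 : (q + 1) * q ≤ m * q := Nat.mul_le_mul_right q hcon
    have h2 : (s + 1) * (s + 1) ≤ (q + 1) * q := Nat.mul_le_mul (by omega) (by omega)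
    omega
  have hem : e < m := by
    by_contra hcon
    push Not at hcon
    have h1 : n < (E + 1) * (8 * (s + 1)) := by
      have h3 : m * q ≤ E * q := Nat.mul_le_mul_right q (hcon.trans he)
      have h4 : n < (E + 1) * q := by
        rw [hn1, Nat.add_mul, Nat.one_mul]
        omega
      exact h4.trans_le (Nat.mul_le_mul_left _ hq2.le)
    have h2 : s * s ≤ 2 * n := by omega
    have h5 : 16 * (s + 1) * (E + 1) ≤ s * s := by
      have h6 : 16 * (s + 1) ≤ 32 * s := by omega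
      calc 16 * (s + 1) * (E + 1) ≤ 32 * s * (E + 1) := Nat.mul_le_mul_right _ h6
        _ = s * (32 * (E + 1)) := by ring
        _ ≤ s * s := Nat.mul_le_mul_left _ (by omega)
    have h7 : 2 * ((E + 1) * (8 * (s + 1))) = 16 * (s + 1) * (E + 1) := by ring
    omega
  obtain ⟨g, hg1, hg2, hg3⟩ := factor_of_prime n (q + 1) m e hp3 (by omega) hn1 hem hmp
  refine ⟨g, hg1, hg2, hg3.trans ?_⟩
  have : e * (q + 1) ≤ E * (8 * (s + 1)) := Nat.mul_le_mul he (by omega)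
  omega

/-- number of even numbers up to `E` -/
private theorem ST1_card (E : ℕ) : (E : ℝ) + 1 ≤ 2 * (((Icc 0 E).filter (fun e => Even e)).card : ℝ) := by
  have h : E + 1 ≤ 2 * ((Icc 0 E).filter (fun e => Even e)).card := by
    have h1 : (range (E / 2 + 1)).image (fun k => 2 * k) ⊆ (Icc 0 E).filter (fun e => Even e) := by
      intro x hx
      rw [Finset.mem_image] at hx
      obtain ⟨k, hk, rfl⟩ := hx
      rw [Finset.mem_range] at hk
      rw [Finset.mem_filter, Finset.mem_Icc]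
      exact ⟨⟨by omega, by omega⟩, even_two_mul k⟩
    have h2 := Finset.card_le_card h1
    rw [Finset.card_image_of_injective _ (fun a b hab => by simpa using hab), Finset.card_range] at h2
    omega
  exact_mod_cast h

open scoped Classical in
/-- (ST1) For almost all even `n` the Bernoulli polynomial `B_n` has an irreducible factor of
codegree at most `√n (log n)^13`. -/
theorem st1 : ∃ N0 : ℕ, ∀ N : ℕ, N0 ≤ N →
    (((Ioc (N / 2) N).filter (fun n => Even n ∧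
      ¬ cofLE n (√(N : ℝ) * (Real.log N) ^ 13))).card : ℝ) ≤ N / (Real.log N) ^ 3 := by
  obtain ⟨c, C, hc, hC, N0, hcnt⟩ := cnt
  obtain ⟨N1, hlarge⟩ := ST1_large C
  refine ⟨max N0 N1, fun N hN => ?_⟩
  obtain ⟨hl16, hlC, hlN⟩ := hlarge N ((le_max_right _ _).trans hN)
  have hcnt1 := hcnt N ((le_max_left _ _).trans hN)
  set l : ℝ := Real.log N with hl
  have hl1 : (1 : ℝ) ≤ l := by linarith
  have hl0 : (0 : ℝ) < l := by linarith
  have hlp : ∀ k : ℕ, (1 : ℝ) ≤ l ^ k := fun k => one_le_pow₀ hl1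
  set E : ℕ := ⌊l ^ 12⌋₊ with hE
  set D0 : ℕ := ⌈l ^ 6⌉₊ with hD0
  set A : Finset ℕ := (Icc 0 E).filter (fun e => Even e) with hA
  have hE1 : (E : ℝ) ≤ l ^ 12 := Nat.floor_le (by positivity)
  have hE2 : l ^ 12 < (E : ℝ) + 1 := Nat.lt_floor_add_one _
  have hD1 : l ^ 6 ≤ (D0 : ℝ) := Nat.le_ceil _
  have hD2 : (D0 : ℝ) < l ^ 6 + 1 := Nat.ceil_lt_add_one (by positivity)
  have hAc : (E : ℝ) + 1 ≤ 2 * (A.card : ℝ) := ST1_card E
  have hAc1 : l ^ 12 ≤ 2 * (A.card : ℝ) := hE2.le.trans hAc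
  have hA0 : (0 : ℝ) < A.card := by linarith [hlp 12]
  -- the square root
  have hsq : √(N : ℝ) < (Nat.sqrt N : ℝ) + 1 := by
    rw [Real.sqrt_lt' (by positivity)]
    have h1 : N < (Nat.sqrt N + 1) * (Nat.sqrt N + 1) := Nat.lt_succ_sqrt N
    have h2 : (N : ℝ) < ((Nat.sqrt N + 1) * (Nat.sqrt N + 1) : ℝ) := by exact_mod_cast h1
    linarith [sq ((Nat.sqrt N : ℝ) + 1)]
  have hsq2 : (Nat.sqrt N : ℝ) ≤ √(N : ℝ) := by
    apply Real.le_sqrt_of_sq_le
    have h1 : Nat.sqrt N * Nat.sqrt N ≤ N := Nat.sqrt_le N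
    have h2 : ((Nat.sqrt N : ℝ) * Nat.sqrt N) ≤ N := by exact_mod_cast h1
    linarith [sq (Nat.sqrt N : ℝ)]
  have hES : 32 * (E + 2) ≤ Nat.sqrt N := by
    have h1 : (32 * ((E : ℝ) + 2)) ≤ (Nat.sqrt N : ℝ) := by
      have := hlp 12
      nlinarith
    exact_mod_cast h1
  have hES2 : E ≤ Nat.sqrt N := by omega
  have hD02 : 2 ≤ D0 := by
    have h1 : (1 : ℝ) < D0 := by
      have h2 : (16 : ℝ) ^ 6 ≤ l ^ 6 := pow_le_pow_left₀ (by norm_num) hl16 6
      have h3 : (1 : ℝ) < 16 ^ 6 := by norm_num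
      linarith
    have h4 : 1 < D0 := by exact_mod_cast h1
    exact h4
  have hmain := hcnt1 A E D0 (1 / 2) ⟨0, by
      rw [hA, Finset.mem_filter, Finset.mem_Icc]
      exact ⟨⟨le_rfl, Nat.zero_le _⟩, Even.zero⟩⟩
    (fun e he => by
      rw [hA, Finset.mem_filter, Finset.mem_Icc] at he
      exact ⟨he.2, he.1.2⟩) hES2 hD02 (by norm_num)
    (fun d a hd _ hco => by
      have h := FS_even_Icc 0 E d a hd hco
      rw [hA]
      linarith)
  have hsub : (Ioc (N / 2) N).filter (fun n => Even n ∧ ¬ cofLE n (√(N : ℝ) * l ^ 13)) ⊆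
      (Ioc (N / 2) N).filter (fun n => Even n ∧
        (((pr N).filter (fun p => n % (p - 1) ∈ A)).card : ℝ) ≤ c * A.card / l) := by
    intro n hn
    rw [Finset.mem_filter] at hn ⊢
    obtain ⟨hn1, hn2, hn3⟩ := hn
    refine ⟨hn1, hn2, ?_⟩
    by_contra hcon
    push Not at hcon
    apply hn3
    have hpos : (0 : ℝ) < ((pr N).filter (fun p => n % (p - 1) ∈ A)).card :=
      lt_of_le_of_lt (by positivity) hcon
    have hpos2 : 0 < ((pr N).filter (fun p => n % (p - 1) ∈ A)).card := by exact_mod_cast hpos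
    obtain ⟨p, hp⟩ := Finset.card_pos.1 hpos2
    rw [Finset.mem_filter] at hp
    have he : n % (p - 1) ≤ E := by
      have := hp.2
      rw [hA, Finset.mem_filter, Finset.mem_Icc] at this
      exact this.1.2
    obtain ⟨g, hg1, hg2, hg3⟩ := ST1_factor N n p E hn1 hp.1 hES he
    refine ⟨g, hg1, hg2, ?_⟩
    have hg4 : (n : ℝ) ≤ g.natDegree + E * (8 * (Nat.sqrt N + 1)) := by exact_mod_cast hg3
    have hsN : (1 : ℝ) ≤ √(N : ℝ) := by linarith [hlp 12]
    have h1 : (E : ℝ) * (8 * (Nat.sqrt N + 1)) ≤ l ^ 12 * (16 * √(N : ℝ)) := by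
      apply mul_le_mul hE1 (by linarith) (by positivity) (by positivity)
    have h2 : l ^ 12 * (16 * √(N : ℝ)) ≤ √(N : ℝ) * l ^ 13 := by
      have h3 : l ^ 12 * 16 ≤ l ^ 12 * l := mul_le_mul_of_nonneg_left hl16 (by positivity)
      calc l ^ 12 * (16 * √(N : ℝ)) = (l ^ 12 * 16) * √(N : ℝ) := by ring
        _ ≤ (l ^ 12 * l) * √(N : ℝ) := mul_le_mul_of_nonneg_right h3 (Real.sqrt_nonneg _)
        _ = √(N : ℝ) * l ^ 13 := by ring
    linarith
  have hcard : (((Ioc (N / 2) N).filter (fun n => Even n ∧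
      ¬ cofLE n (√(N : ℝ) * l ^ 13))).card : ℝ) ≤
      (((Ioc (N / 2) N).filter (fun n => Even n ∧
        (((pr N).filter (fun p => n % (p - 1) ∈ A)).card : ℝ) ≤ c * A.card / l)).card : ℝ) := by
    exact_mod_cast Finset.card_le_card hsub
  refine hcard.trans (hmain.trans ?_)
  have hN0 : (0 : ℝ) ≤ N := Nat.cast_nonneg N
  have hD3 : (D0 : ℝ) ≤ 2 * l ^ 6 := by linarith [hlp 6]
  have hD0' : (0 : ℝ) < D0 := by linarith [hlp 6]
  -- the three terms
  have t1 : (1 / 2 : ℝ) ^ 2 * (D0 : ℝ) ^ 2 / (A.card : ℝ) ^ 2 ≤ 4 / l ^ 6 := by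
    rw [div_le_div_iff₀ (by positivity) (by positivity)]
    have h1 : (D0 : ℝ) ^ 2 ≤ (2 * l ^ 6) ^ 2 := pow_le_pow_left₀ hD0'.le hD3 2
    have h2 : (l ^ 12) ^ 2 ≤ (2 * (A.card : ℝ)) ^ 2 := pow_le_pow_left₀ (by positivity) hAc1 2
    have h3 : l ^ 18 ≤ (l ^ 12) ^ 2 := by
      calc l ^ 18 = l ^ 18 * 1 := (mul_one _).symm
        _ ≤ l ^ 18 * l ^ 6 := mul_le_mul_of_nonneg_left (hlp 6) (by positivity)
        _ = (l ^ 12) ^ 2 := by ring
    calc (1 / 2 : ℝ) ^ 2 * (D0 : ℝ) ^ 2 * l ^ 6 ≤ (1 / 2 : ℝ) ^ 2 * (2 * l ^ 6) ^ 2 * l ^ 6 := by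
          gcongr
      _ = l ^ 18 := by ring
      _ ≤ (2 * (A.card : ℝ)) ^ 2 := h3.trans h2
      _ = 4 * (A.card : ℝ) ^ 2 := by ring
  have t2 : (E : ℝ) / (A.card * D0) ≤ 2 / l ^ 6 := by
    rw [div_le_div_iff₀ (by positivity) (by positivity)]
    calc (E : ℝ) * l ^ 6 ≤ (2 * (A.card : ℝ)) * D0 :=
          mul_le_mul (by linarith) hD1 (by positivity) (by positivity)
      _ = 2 * (A.card * D0) := by ring
  have t3 : l / (A.card : ℝ) ≤ 2 / l ^ 6 := by
    rw [div_le_div_iff₀ (by positivity) (by positivity)]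
    calc l * l ^ 6 = l ^ 7 * 1 := by ring
      _ ≤ l ^ 7 * l ^ 5 := mul_le_mul_of_nonneg_left (hlp 5) (by positivity)
      _ = l ^ 12 := by ring
      _ ≤ 2 * (A.card : ℝ) := hAc1
  have t4 : (1 / 2 : ℝ) ^ 2 * (D0 : ℝ) ^ 2 / (A.card : ℝ) ^ 2 + (E : ℝ) / (A.card * D0) +
      l / (A.card : ℝ) ≤ 8 / l ^ 6 := by
    have : (8 : ℝ) / l ^ 6 = 4 / l ^ 6 + 2 / l ^ 6 + 2 / l ^ 6 := by ring
    rw [this]
    linarith
  calc C * N * l ^ 2 * ((1 / 2 : ℝ) ^ 2 * (D0 : ℝ) ^ 2 / (A.card : ℝ) ^ 2 +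
        (E : ℝ) / (A.card * D0) + l / (A.card : ℝ)) ≤ C * N * l ^ 2 * (8 / l ^ 6) :=
        mul_le_mul_of_nonneg_left t4 (by positivity)
    _ = N * (8 * C) / l ^ 4 := by
        field_simp
    _ ≤ N * l / l ^ 4 := by
        gcongr
    _ = N / l ^ 3 := by
        field_simp

end Pool.Agent.Bern2
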