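import Mathlib
import Pool.Agent.Bern2.ST1
import Pool.Agent.Bern2.BLK2
import Pool.Agent.Bern2.MULT

namespace Pool.Agent.Bern2

open Polynomial Finset Pool.Agent.Helper29 Pool.Agent.Helper98.Bern

theorem ST2_log (k : ℕ) {ε : ℝ} (hε : 0 < ε) (C : ℝ) :
    ∀ᶠ N : ℕ in Filter.atTop, C * (Real.log N) ^ k ≤ (N : ℝ) ^ ε := by
  have h := (isLittleO_log_rpow_rpow_atTop (k : ℝ) hε)
  have h2 := h.bound (show (0:ℝ) < (|C|+1)⁻¹ by positivity)
  have h3 := (tendsto_natCast_atTop_atTop (R := ℝ)).eventually h2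
  filter_upwards [h3, Filter.eventually_ge_atTop 1] with N hN hN1
  have hN1' : (1:ℝ) ≤ N := by exact_mod_cast hN1
  have hl : 0 ≤ Real.log N := Real.log_nonneg hN1'
  rw [Real.rpow_natCast, Real.norm_of_nonneg (by positivity),
    Real.norm_of_nonneg (by positivity)] at hN
  have h4 : (|C| + 1) * (Real.log N) ^ k ≤ (N : ℝ) ^ ε := by
    have := mul_le_mul_of_nonneg_left hN (show (0:ℝ) ≤ |C| + 1 by positivity)
    rwa [mul_inv_cancel_left₀ (by positivity)] at this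
  have h5 : C * (Real.log N) ^ k ≤ (|C| + 1) * (Real.log N) ^ k := by
    apply mul_le_mul_of_nonneg_right _ (by positivity)
    linarith [le_abs_self C]
  linarith

/-- the even numbers strictly between `u` and `v` -/
noncomputable def ev2 (u v : ℝ) : Finset ℕ :=
  (Icc (⌊u⌋₊ + 1) (⌈v⌉₊ - 1)).filter (fun e => Even e)

theorem mem_ev2 {u v : ℝ} {e : ℕ} (h : e ∈ ev2 u v) : u < e ∧ (e : ℝ) < v ∧ Even e := by
  unfold ev2 at h
  rw [mem_filter, mem_Icc] at h
  obtain ⟨⟨h1, h2⟩, h3⟩ := h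
  refine ⟨?_, ?_, h3⟩
  · exact Nat.lt_of_floor_lt (by omega)
  · exact Nat.lt_ceil.1 (by omega)

theorem card_ev2 {u v : ℝ} (hu : 0 ≤ u) : (v - u) / 2 - 1 ≤ ((ev2 u v).card : ℝ) := by
  have h1 : (Icc (⌊u / 2⌋₊ + 1) (⌈v / 2⌉₊ - 1)).card ≤ (ev2 u v).card := by
    apply Finset.card_le_card_of_injOn (fun t => 2 * t)
    · intro t ht
      rw [mem_coe, mem_Icc] at ht
      have a1 : u / 2 < t := Nat.lt_of_floor_lt (by omega)
      have a2 : (t : ℝ) < v / 2 := Nat.lt_ceil.1 (by omega)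
      unfold ev2
      rw [mem_coe, mem_filter, mem_Icc]
      show (⌊u⌋₊ + 1 ≤ 2 * t ∧ 2 * t ≤ ⌈v⌉₊ - 1) ∧ Even (2 * t)
      refine ⟨⟨?_, ?_⟩, even_two_mul t⟩
      · have : ⌊u⌋₊ < 2 * t := (Nat.floor_lt hu).2 (by push_cast; linarith)
        omega
      · have : 2 * t < ⌈v⌉₊ := Nat.lt_ceil.2 (by push_cast; linarith)
        omega
    · intro a _ b _ h
      simpa using h
  rw [Nat.card_Icc] at h1
  have h2 : ((⌊u / 2⌋₊ : ℕ) : ℝ) ≤ u / 2 := Nat.floor_le (by linarith)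
  have h3 : v / 2 ≤ ⌈v / 2⌉₊ := Nat.le_ceil _
  have h4 : (⌈v / 2⌉₊ : ℝ) ≤ ((⌈v / 2⌉₊ - 1 + 1 - (⌊u / 2⌋₊ + 1) : ℕ) : ℝ) + ⌊u / 2⌋₊ + 1 := by
    have : ⌈v / 2⌉₊ ≤ (⌈v / 2⌉₊ - 1 + 1 - (⌊u / 2⌋₊ + 1)) + ⌊u / 2⌋₊ + 1 := by omega
    exact_mod_cast this
  have h5 : ((⌈v / 2⌉₊ - 1 + 1 - (⌊u / 2⌋₊ + 1) : ℕ) : ℝ) ≤ (ev2 u v).card := by
    exact_mod_cast h1
  linarith

theorem ST2_gap {η δ s D : ℝ} (hη : 0 < η) (hη1 : η ≤ 1) (hδ : δ = η / 1024) (hs : 0 < s)
    (hD : η * s ≤ D) : ∃ u v : ℝ, 0 ≤ u ∧ v ≤ s / 64 ∧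
      s ^ 2 / (2 * (64 + 2 / η) ^ 2 * D) ≤ v - u ∧
      ∀ e : ℕ, u < e → (e : ℝ) < v → ∀ j : ℕ, 2 * δ * s < |D - e * j| := by
  have hD0 : 0 < D := lt_of_lt_of_le (by positivity) hD
  have hδ0 : 0 < δ := by rw [hδ]; positivity
  set j := ⌈64 * (D / s)⌉₊ with hj
  have hx : 0 < D / s := by positivity
  have j1 : 64 * (D / s) ≤ (j : ℝ) := Nat.le_ceil _
  have j2 : (j : ℝ) < 64 * (D / s) + 1 := Nat.ceil_lt_add_one (by positivity)
  have j0 : (0 : ℝ) < j := by linarith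
  have ja : 64 * D ≤ j * s := by
    rw [mul_div_assoc', div_le_iff₀ hs] at j1
    exact j1
  have jb : j * s ≤ 64 * D + s := by
    have h1 : (j : ℝ) * s ≤ (64 * (D / s) + 1) * s := by nlinarith
    have h2 : (64 * (D / s) + 1) * s = 64 * D + s := by field_simp
    linarith
  have hde : 1024 * δ = η := by rw [hδ]; ring
  have hsD : s ≤ D / η := by rw [le_div_iff₀ hη]; linarith
  -- the numerator
  have num : D / 2 ≤ D - 2 * δ * s * (2 * j + 1) := by
    have h1 : 2 * δ * s * (2 * j + 1) = 4 * δ * (j * s) + 2 * δ * s := by ring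
    have h2 : 4 * δ * (j * s) ≤ 4 * δ * (64 * D + s) :=
      mul_le_mul_of_nonneg_left jb (by positivity)
    have h3 : 6 * δ * s ≤ D / 100 := by nlinarith
    have h4 : 256 * δ * D ≤ D / 4 := by nlinarith
    nlinarith
  refine ⟨(D + 2 * δ * s) / (j + 1), (D - 2 * δ * s) / j, by positivity, ?_, ?_, ?_⟩
  · rw [div_le_div_iff₀ j0 (by norm_num)]
    nlinarith [mul_pos hδ0 hs]
  · have e1 : (D - 2 * δ * s) / j - (D + 2 * δ * s) / (j + 1)
        = (D - 2 * δ * s * (2 * j + 1)) / (j * (j + 1)) := by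
      field_simp
      ring
    rw [e1]
    have den : (j : ℝ) * (j + 1) ≤ ((64 + 2 / η) * (D / s)) ^ 2 := by
      have h1 : (1 : ℝ) ≤ (D / s) / η := by
        rw [le_div_iff₀ hη, one_mul, le_div_iff₀ hs]
        exact hD
      have h2 : (j : ℝ) + 1 ≤ (64 + 2 / η) * (D / s) := by
        have : (64 + 2 / η) * (D / s) = 64 * (D / s) + 2 * ((D / s) / η) := by
          field_simp
        linarith
      have h3 : (j : ℝ) ≤ (64 + 2 / η) * (D / s) := by linarith
      rw [sq]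
      exact mul_le_mul h3 h2 (by positivity) (by positivity)
    calc s ^ 2 / (2 * (64 + 2 / η) ^ 2 * D) = (D / 2) / (((64 + 2 / η) * (D / s)) ^ 2) := by
          field_simp
      _ ≤ (D / 2) / (j * (j + 1)) := by
          apply div_le_div_of_nonneg_left (by positivity) (by positivity) den
      _ ≤ (D - 2 * δ * s * (2 * j + 1)) / (j * (j + 1)) := by
          apply div_le_div_of_nonneg_right num (by positivity)
  · intro e h1 h2 j'
    rw [div_lt_iff₀ (by positivity)] at h1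
    rw [lt_div_iff₀ j0] at h2
    rcases le_or_gt j' j with h | h
    · have h3 : (j' : ℝ) ≤ j := by exact_mod_cast h
      have h4 : (e : ℝ) * j' ≤ e * j := mul_le_mul_of_nonneg_left h3 (by positivity)
      exact lt_of_lt_of_le (by linarith) (le_abs_self _)
    · have h3 : (j : ℝ) + 1 ≤ j' := by exact_mod_cast h
      have h4 : (e : ℝ) * (j + 1) ≤ e * j' := mul_le_mul_of_nonneg_left h3 (by positivity)
      exact lt_of_lt_of_le (by linarith) (neg_le_abs _)

theorem PP_bounds {N : ℕ} (hN : 1000000 ≤ √(N : ℝ)) :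
    2 * √(N : ℝ) ≤ PP N ∧ (4 * PP N : ℝ) ≤ 9 * √(N : ℝ) := by
  have h1 : ((Nat.sqrt N : ℕ) : ℝ) ≤ √(N : ℝ) := Real.nat_sqrt_le_real_sqrt
  have h2 : √(N : ℝ) ≤ Nat.sqrt N + 1 := Real.real_sqrt_le_nat_sqrt_succ
  unfold PP
  push_cast
  constructor <;> linarith

theorem ST2_notBad {p e : ℕ} {δ : ℝ} (hp : p.Prime) (h2 : 2 ≤ e) (hep : e ≤ p - 2)
    (hb : e ∉ badE p δ) (f : (ZMod p)[X]) (hf : IsF p e f) (hfa : Fact p.Prime) :
    (mu p f : ℝ) ≤ δ * p := by
  classical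
  unfold badE at hb
  rw [dif_pos hp, mem_filter, mem_Icc] at hb
  by_contra hc
  exact hb ⟨⟨h2, hep⟩, f, hf, not_le.1 hc⟩

theorem ST2_nt {N n p : ℕ} {δ : ℝ} (hN : 1000000 ≤ √(N : ℝ)) (g H : ℚ[X])
    (hB : Polynomial.bernoulli n = g * H) (hg : g.Monic) (hH : H.Monic) (hn1 : N / 2 < n)
    (hn2 : n ≤ N) (hne : Even n) (hp : p ∈ pr N) (he2 : 2 ≤ n % (p - 1))
    (hev : Even (n % (p - 1))) (hes : ((n % (p - 1) : ℕ) : ℝ) ≤ √(N : ℝ) / 32)
    (hT : (H.natDegree : ℝ) ≤ N / 8) (hb : n % (p - 1) ∉ badE p δ) :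
    ∃ j : ℕ, |(H.natDegree : ℝ) - (n % (p - 1) : ℕ) * j| ≤ δ * p := by
  obtain ⟨P1, P2⟩ := PP_bounds hN
  unfold pr at hp
  rw [mem_filter, mem_Ioc] at hp
  obtain ⟨⟨hp1, hp2⟩, hpp⟩ := hp
  set s := √(N : ℝ) with hs
  have hss : s * s = N := Real.mul_self_sqrt (by positivity)
  have hp1r : (PP N : ℝ) + 1 ≤ p := by exact_mod_cast hp1
  have hp2r : (p : ℝ) ≤ 4 * PP N := by exact_mod_cast hp2
  set q := p - 1 with hq
  have hpq : p = q + 1 := by
    have := hpp.one_lt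
    omega
  have hpqr : (p : ℝ) = q + 1 := by rw [hpq]; push_cast; ring
  set e := n % q with he
  set m := n / q with hm
  have hnm : n = m * q + e := by
    rw [mul_comm]
    exact (Nat.div_add_mod n q).symm
  have hq0 : 0 < q := by have := hpp.two_le; omega
  have heq : e < q := Nat.mod_lt _ hq0
  have hnr : (n : ℝ) = m * q + e := by exact_mod_cast hnm
  have hn1r : (N : ℝ) / 2 < n := by
    have : N < 2 * n := by omega
    have h2 : (N : ℝ) < 2 * n := by exact_mod_cast this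
    linarith
  have hn2r : (n : ℝ) ≤ N := by exact_mod_cast hn2
  have heqr : (e : ℝ) < q := by exact_mod_cast heq
  have hm0 : (0 : ℝ) ≤ m := by positivity
  have he0 : (0 : ℝ) ≤ e := by positivity
  have hem : e < m := by
    have : (e : ℝ) < m := by
      by_contra hc
      push Not at hc
      have h1 : (m : ℝ) * q ≤ (s / 32) * (9 * s) := by
        apply mul_le_mul (by linarith) (by linarith) (by positivity) (by positivity)
      nlinarith
    exact_mod_cast this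
  have hmp : m < p := by
    have : (m : ℝ) < p := by
      by_contra hc
      push Not at hc
      have h1 : (p : ℝ) * q ≤ m * q := mul_le_mul_of_nonneg_right hc (by positivity)
      have h2 : (2 * s) * (2 * s) ≤ (p : ℝ) * q := by
        apply mul_le_mul (by linarith) (by linarith) (by positivity) (by positivity)
      nlinarith
    exact_mod_cast this
  have hdeg : (n : ℝ) = g.natDegree + H.natDegree := by
    have h1 := congrArg natDegree hB
    rw [natDegree_bernoulli, hg.natDegree_mul hH] at h1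
    exact_mod_cast h1
  have hgd : e * p < g.natDegree := by
    have h1 : (e : ℝ) * p ≤ (s / 32) * (9 * s) := by
      apply mul_le_mul (by linarith) (by linarith) (by positivity) (by positivity)
    have : ((e : ℝ) * p) < g.natDegree := by nlinarith
    exact_mod_cast this
  obtain ⟨f, hf, j, hj⟩ := blk p m e hpp he2 hev hem hmp (by rw [← hnm]; exact hne) g H
    (by rw [← hnm]; exact hB) hg hH hgd
  have hfa : Fact p.Prime := ⟨hpp⟩
  refine ⟨j, ?_⟩
  have h1 := hj hfa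
  have h2 := ST2_notBad hpp he2 (by
    have : (e : ℝ) + 2 ≤ p := by linarith
    have : e + 2 ≤ p := by exact_mod_cast this
    omega) hb f hf hfa
  have h3 : |(H.natDegree : ℝ) - (e : ℕ) * j| ≤ mu p f := by
    have := (Int.cast_le (R := ℝ)).2 h1
    push_cast at this
    exact this
  linarith

/-- the first moment -/
theorem ST2_mom {N : ℕ} (hN : 1000000 ≤ √(N : ℝ)) (B : ℕ → Finset ℕ) (K : ℝ) (hK : 0 ≤ K)
    (hB : ∀ p ∈ pr N, ((B p).card : ℝ) ≤ K) (R : ℝ) (hR : 0 < R) (S : Finset ℕ)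
    (hS : ∀ n ∈ S, n ∈ Ioc (N / 2) N ∧
      R ≤ (((pr N).filter (fun p => n % (p - 1) ∈ B p)).card : ℝ)) :
    (S.card : ℝ) ≤ 9 * N * K / R := by
  obtain ⟨P1, P2⟩ := PP_bounds hN
  set s := √(N : ℝ) with hs
  have hss : s * s = N := Real.mul_self_sqrt (by positivity)
  have h1 : (S.card : ℝ) * R ≤
      ∑ n ∈ Ioc (N / 2) N, (((pr N).filter (fun p => n % (p - 1) ∈ B p)).card : ℝ) := by
    have a1 : (S.card : ℝ) * R = ∑ n ∈ S, R := by simp
    rw [a1]
    calc ∑ n ∈ S, R ≤ ∑ n ∈ S, (((pr N).filter (fun p => n % (p - 1) ∈ B p)).card : ℝ) :=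
          Finset.sum_le_sum fun n hn => (hS n hn).2
      _ ≤ _ := Finset.sum_le_sum_of_subset_of_nonneg (fun n hn => (hS n hn).1)
          (fun _ _ _ => by positivity)
  have h2 : ∑ n ∈ Ioc (N / 2) N, (((pr N).filter (fun p => n % (p - 1) ∈ B p)).card : ℝ)
      = ∑ p ∈ pr N, (((Ioc (N / 2) N).filter (fun n => n % (p - 1) ∈ B p)).card : ℝ) := by
    simp only [Finset.card_filter, Nat.cast_sum]
    rw [Finset.sum_comm]
  have h3 : ∀ p ∈ pr N, (((Ioc (N / 2) N).filter (fun n => n % (p - 1) ∈ B p)).card : ℝ)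
      ≤ K * s := by
    intro p hp
    have hKp := hB p hp
    unfold pr at hp
    rw [mem_filter, mem_Ioc] at hp
    obtain ⟨⟨hp1, hp2⟩, hpp⟩ := hp
    have hp1r : (PP N : ℝ) + 1 ≤ p := by exact_mod_cast hp1
    set q := p - 1 with hq
    have hpqr : (p : ℝ) = q + 1 := by
      have : p = q + 1 := by have := hpp.one_lt; omega
      rw [this]; push_cast; ring
    have hq0 : 0 < q := by have := hpp.two_le; omega
    have a1 : ((Ioc (N / 2) N).filter (fun n => n % q ∈ B p)).card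
        ≤ (range (N / q + 1) ×ˢ B p).card := by
      apply Finset.card_le_card_of_injOn (fun n => (n / q, n % q))
      · intro n hn
        rw [mem_coe, mem_filter, mem_Ioc] at hn
        rw [mem_coe, mem_product, mem_range]
        exact ⟨Nat.lt_succ_of_le (Nat.div_le_div_right hn.1.2), hn.2⟩
      · intro a _ b _ hab
        simp only [Prod.mk.injEq] at hab
        rw [← Nat.div_add_mod a q, ← Nat.div_add_mod b q, hab.1, hab.2]
    rw [card_product, card_range] at a1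
    have a2 : ((N / q + 1 : ℕ) : ℝ) ≤ s := by
      have b1 : ((N / q : ℕ) : ℝ) ≤ N / q := Nat.cast_div_le
      have b2 : (N : ℝ) / q ≤ s / 2 := by
        rw [div_le_div_iff₀ (by exact_mod_cast hq0) (by norm_num)]
        nlinarith
      push_cast
      linarith
    calc (((Ioc (N / 2) N).filter (fun n => n % q ∈ B p)).card : ℝ)
        ≤ ((N / q + 1 : ℕ) : ℝ) * (B p).card := by exact_mod_cast a1
      _ ≤ s * K := mul_le_mul a2 hKp (by positivity) (by positivity)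
      _ = K * s := mul_comm _ _
  have h4 : ((pr N).card : ℝ) ≤ 9 * s := by
    have : (pr N).card ≤ 4 * PP N := by
      unfold pr
      refine (card_filter_le _ _).trans ?_
      rw [Nat.card_Ioc]
      omega
    have h5 : ((pr N).card : ℝ) ≤ 4 * PP N := by exact_mod_cast this
    linarith
  rw [le_div_iff₀ hR]
  calc (S.card : ℝ) * R ≤ ∑ p ∈ pr N, K * s := by
        rw [h2] at h1
        exact h1.trans (Finset.sum_le_sum h3)
    _ = (pr N).card * (K * s) := by simp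
    _ ≤ (9 * s) * (K * s) := mul_le_mul_of_nonneg_right h4 (by positivity)
    _ = 9 * N * K := by rw [← hss]; ring

theorem ST2_fac {n : ℕ} {T : ℝ} (h : cofLE n T) : ∃ g H : ℚ[X], Irreducible g ∧ g.Monic ∧
    H.Monic ∧ Polynomial.bernoulli n = g * H ∧ (H.natDegree : ℝ) ≤ T ∧
    n = g.natDegree + H.natDegree := by
  obtain ⟨g, hg, hgd, hgn⟩ := h
  have hg0 : g ≠ 0 := hg.ne_zero
  have hl : g.leadingCoeff⁻¹ ≠ 0 := inv_ne_zero (leadingCoeff_ne_zero.2 hg0)
  have hu : IsUnit (C g.leadingCoeff⁻¹) := isUnit_C.2 (isUnit_iff_ne_zero.2 hl)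
  have hgm : (g * C g.leadingCoeff⁻¹).Monic := monic_mul_leadingCoeff_inv hg0
  have hd : g * C g.leadingCoeff⁻¹ ∣ Polynomial.bernoulli n :=
    (hu.mul_right_dvd).2 hgd
  obtain ⟨H, hH⟩ := hd
  have hHm : H.Monic := hgm.of_mul_monic_left (hH ▸ monic_bernoulli n)
  have hdeg : n = (g * C g.leadingCoeff⁻¹).natDegree + H.natDegree := by
    have h1 := congrArg natDegree hH
    rwa [natDegree_bernoulli, hgm.natDegree_mul hHm] at h1
  have hdg : (g * C g.leadingCoeff⁻¹).natDegree = g.natDegree :=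
    natDegree_mul_C hl
  refine ⟨g * C g.leadingCoeff⁻¹, H, (irreducible_mul_isUnit hu).2 hg, hgm, hHm, hH, ?_, hdeg⟩
  rw [hdg] at hdeg
  have : (n : ℝ) = g.natDegree + H.natDegree := by exact_mod_cast hdeg
  linarith

/-- all the asymptotic inequalities needed at height `N` -/
structure ST2Large (η c C c2 : ℝ) (p0 : ℕ) (N : ℕ) : Prop where
  big : 1000000 ≤ √(N : ℝ)
  hp0 : (p0 : ℝ) ≤ √(N : ℝ)
  l4 : 4 ≤ Real.log N
  gap : 8 * (Real.log N) ^ 13 ≤ (1 / (4 * (64 + 2 / η) ^ 2)) * √(N : ℝ)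
  deg : 8 * (Real.log N) ^ 13 ≤ √(N : ℝ)
  t1 : 12 * C / ((η / 1024) * (1 / (16 * (64 + 2 / η) ^ 2)) ^ 2) * (Real.log N) ^ 107 ≤ N
  t2 : 12 * C / ((η / 1024) * (1 / (16 * (64 + 2 / η) ^ 2))) ≤ (Real.log N) ^ 2
  t3 : 12 * C / ((η / 1024) * (1 / (16 * (64 + 2 / η) ^ 2))) * (Real.log N) ^ 31 ≤ √(N : ℝ)
  mom : 324 / (c * (1 / (16 * (64 + 2 / η) ^ 2))) * (Real.log N) ^ 16 ≤ √(N : ℝ) ^ c2

theorem ST2_large (η c C c2 : ℝ) (p0 : ℕ) (hη : 0 < η) (hc2 : 0 < c2) :
    ∀ᶠ N : ℕ in Filter.atTop, ST2Large η c C c2 p0 N := by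
  have hsq : ∀ N : ℕ, √(N : ℝ) = (N : ℝ) ^ (1 / 2 : ℝ) := fun N => Real.sqrt_eq_rpow _
  have hκ : (0 : ℝ) < 1 / (4 * (64 + 2 / η) ^ 2) := by positivity
  have tl : Filter.Tendsto (fun N : ℕ => Real.log N) Filter.atTop Filter.atTop :=
    Real.tendsto_log_atTop.comp tendsto_natCast_atTop_atTop
  have ts : Filter.Tendsto (fun N : ℕ => √(N : ℝ)) Filter.atTop Filter.atTop :=
    Real.tendsto_sqrt_atTop.comp tendsto_natCast_atTop_atTop
  have half : (0 : ℝ) < 1 / 2 := by norm_num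
  filter_upwards [ts.eventually_ge_atTop 1000000, ts.eventually_ge_atTop (p0 : ℝ),
    tl.eventually_ge_atTop 4,
    ST2_log 13 half (8 / (1 / (4 * (64 + 2 / η) ^ 2))), ST2_log 13 half 8,
    ST2_log 107 (show (0 : ℝ) < 1 by norm_num)
      (12 * C / ((η / 1024) * (1 / (16 * (64 + 2 / η) ^ 2)) ^ 2)),
    (tl.eventually_ge_atTop 1).and (tl.eventually_ge_atTop
      (12 * C / ((η / 1024) * (1 / (16 * (64 + 2 / η) ^ 2))))),
    ST2_log 31 half (12 * C / ((η / 1024) * (1 / (16 * (64 + 2 / η) ^ 2)))),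
    ST2_log 16 (show (0 : ℝ) < (1 / 2) * c2 by positivity)
      (324 / (c * (1 / (16 * (64 + 2 / η) ^ 2))))] with N h1 h2 h3 h4 h5 h6 h7 h8 h9
  refine ⟨h1, h2, h3, ?_, ?_, ?_, ?_, ?_, ?_⟩
  · rw [hsq N]
    have h := mul_le_mul_of_nonneg_left h4 hκ.le
    have e : 1 / (4 * (64 + 2 / η) ^ 2) * (8 / (1 / (4 * (64 + 2 / η) ^ 2)) * Real.log N ^ 13)
        = 8 * Real.log N ^ 13 := by field_simp
    rwa [e] at h
  · rw [hsq N]; exact h5
  · rwa [Real.rpow_one] at h6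
  · nlinarith [h7.1, h7.2]
  · rw [hsq N]; exact h8
  · rw [hsq N, ← Real.rpow_mul (by positivity)]; exact h9

theorem st2_aux (η : ℝ) (hη : 0 < η) (hη1 : η ≤ 1) : ∃ N0 : ℕ, ∀ N : ℕ, N0 ≤ N →
    ∀ S : Finset ℕ, (∀ n ∈ S, n ∈ Ioc (N / 2) N ∧ Even n ∧ ¬ cofLE n (η * √(N : ℝ))) →
      (S.card : ℝ) ≤ N / (Real.log N) ^ 2 := by
  classical
  obtain ⟨c, C, hc, hC, N1, hcnt⟩ := cnt
  obtain ⟨N2, hst1⟩ := st1
  obtain ⟨c2', hc2', p0, hmult⟩ := mult (η / 1024 / 9) (by positivity)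
  set c2 := min c2' (1 / 2) with hc2
  have hc2p : 0 < c2 := lt_min hc2' (by norm_num)
  obtain ⟨N3, hN3⟩ := Filter.eventually_atTop.1 (ST2_large η c C c2 p0 hη hc2p)
  refine ⟨max N1 (max N2 N3), fun N hN S hS => ?_⟩
  have hN1 : N1 ≤ N := le_trans (le_max_left _ _) hN
  have hN2 : N2 ≤ N := le_trans ((le_max_left _ _).trans (le_max_right _ _)) hN
  have hL := hN3 N (le_trans ((le_max_right _ _).trans (le_max_right _ _)) hN)
  obtain ⟨big, hp0, l4, gap, deg, t1, t2, t3, mom⟩ := hL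
  have hcN := hcnt N hN1
  have hsN := hst1 N hN2
  clear hcnt hst1 hN3
  set δ := η / 1024 with hδ
  set κ := 1 / (16 * (64 + 2 / η) ^ 2) with hκ
  have hκ4 : 1 / (4 * (64 + 2 / η) ^ 2) = 4 * κ := by rw [hκ]; field_simp; norm_num
  rw [hκ4] at gap
  set s := √(N : ℝ) with hs
  set l := Real.log N with hl
  have hs0 : 0 < s := by linarith
  have hl0 : 0 < l := by linarith
  have hδ0 : 0 < δ := by positivity
  have hκ0 : 0 < κ := by positivity
  have hss : s * s = N := Real.mul_self_sqrt (by positivity)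
  have hN0 : (0 : ℝ) < N := by rw [← hss]; positivity
  have l13 : 1 ≤ l ^ 13 := one_le_pow₀ (by linarith)
  obtain ⟨P1, P2⟩ := PP_bounds big
  -- the intervals
  have hgap : ∀ i : ℕ, ∃ u v : ℝ, 0 ≤ u ∧ v ≤ s / 64 ∧
      s ^ 2 / (2 * (64 + 2 / η) ^ 2 * (η * s + i * (δ * s))) ≤ v - u ∧
      ∀ e : ℕ, u < e → (e : ℝ) < v → ∀ j : ℕ, 2 * δ * s < |(η * s + i * (δ * s)) - e * j| :=
    fun i => ST2_gap hη hη1 hδ hs0 (by
      have : (0 : ℝ) ≤ i * (δ * s) := by positivity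
      linarith)
  choose u v hu hv huv hsep using hgap
  set K := ⌊l ^ 13 / δ⌋₊ + 1 with hK
  have hKr : (K : ℝ) ≤ 2 * l ^ 13 / δ := by
    have a1 : ((⌊l ^ 13 / δ⌋₊ : ℕ) : ℝ) ≤ l ^ 13 / δ := Nat.floor_le (by positivity)
    have a2 : 1 ≤ l ^ 13 / δ := by
      rw [le_div_iff₀ hδ0]
      have : δ ≤ 1 := by rw [hδ]; linarith
      linarith
    have a3 : 2 * l ^ 13 / δ = l ^ 13 / δ + l ^ 13 / δ := by ring
    rw [hK]
    push_cast
    linarith
  have hcard : ∀ i < K, κ * s / l ^ 13 ≤ ((ev2 (u i) (v i)).card : ℝ) := by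
    intro i hi
    have a1 : (i : ℝ) ≤ l ^ 13 / δ := by
      have : i ≤ ⌊l ^ 13 / δ⌋₊ := by omega
      exact (Nat.le_floor_iff (by positivity)).1 this
    have a2 : (i : ℝ) * (δ * s) ≤ l ^ 13 * s := by
      have := mul_le_mul_of_nonneg_right a1 (show 0 ≤ δ * s by positivity)
      have e : l ^ 13 / δ * (δ * s) = l ^ 13 * s := by field_simp
      rwa [e] at this
    have a3 : η * s ≤ l ^ 13 * s := mul_le_mul_of_nonneg_right (by linarith) hs0.le
    have hDp : 0 < η * s + i * (δ * s) := by positivity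
    have a4 : 4 * κ * s / l ^ 13 ≤ v i - u i := by
      refine le_trans ?_ (huv i)
      have e : 4 * κ * s / l ^ 13 = s ^ 2 / (2 * (64 + 2 / η) ^ 2 * (2 * s * l ^ 13)) := by
        rw [hκ]; field_simp; norm_num
      rw [e]
      apply div_le_div_of_nonneg_left (by positivity) (by positivity)
      apply mul_le_mul_of_nonneg_left _ (by positivity)
      linarith
    have a5 : 8 ≤ 4 * κ * s / l ^ 13 := by
      rw [le_div_iff₀ (by positivity)]
      exact gap
    have a6 := card_ev2 (v := v i) (hu i)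
    have a7 : 4 * κ * s / l ^ 13 = 4 * (κ * s / l ^ 13) := by ring
    linarith
  -- the sets
  have k1 : ((S.filter (fun n => ¬ cofLE n (s * l ^ 13))).card : ℝ) ≤ N / l ^ 3 := by
    refine le_trans (Nat.cast_le.2 (Finset.card_le_card ?_)) hsN
    intro n hn
    rw [mem_filter] at hn ⊢
    exact ⟨(hS n hn.1).1, (hS n hn.1).2.1, hn.2⟩
  have k2 : ∀ i < K, ((S.filter (fun n =>
      (((pr N).filter (fun p => n % (p - 1) ∈ ev2 (u i) (v i))).card : ℝ) ≤
          c * (ev2 (u i) (v i)).card / l)).card : ℝ) ≤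
      C * N * l ^ 2 * (l ^ 90 / (κ ^ 2 * N) + 1 / (κ * l ^ 19) + l ^ 14 / (κ * s)) := by
    intro i hi
    have hci := hcard i hi
    have hcp : 0 < κ * s / l ^ 13 := by positivity
    set a : ℝ := ((ev2 (u i) (v i)).card : ℝ) with ha
    have ha0 : 0 < a := lt_of_lt_of_le hcp hci
    have hne : (ev2 (u i) (v i)).Nonempty := by
      rw [← Finset.card_pos]
      have h0 : (0 : ℝ) < ((ev2 (u i) (v i)).card : ℝ) := ha0
      exact_mod_cast h0
    have l32 : 1 ≤ l ^ 32 := one_le_pow₀ (by linarith)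
    have d1 : l ^ 32 ≤ (⌈l ^ 32⌉₊ : ℝ) := Nat.le_ceil _
    have d2 : (⌈l ^ 32⌉₊ : ℝ) ≤ 2 * l ^ 32 := by
      have := Nat.ceil_lt_add_one (show 0 ≤ l ^ 32 by positivity)
      linarith
    have d3 : 2 ≤ ⌈l ^ 32⌉₊ := by
      have h16 : (4 : ℝ) ≤ l ^ 32 := by
        calc (4 : ℝ) ≤ l := l4
          _ = l ^ 1 := (pow_one l).symm
          _ ≤ l ^ 32 := pow_le_pow_right₀ (by linarith) (by norm_num)
      have : (2 : ℝ) ≤ (⌈l ^ 32⌉₊ : ℝ) := by linarith
      exact_mod_cast this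
    have key := hcN (ev2 (u i) (v i)) (Nat.sqrt N) ⌈l ^ 32⌉₊ (1 / 2) hne (by
      intro e he
      obtain ⟨b1, b2, b3⟩ := mem_ev2 he
      refine ⟨b3, ?_⟩
      rw [Nat.le_sqrt]
      have b4 : (e : ℝ) ≤ s := by linarith [hv i]
      have b5 : (e : ℝ) * e ≤ N := by
        rw [← hss]
        exact mul_le_mul b4 b4 (by positivity) hs0.le
      exact_mod_cast b5) le_rfl d3 (by norm_num) (by
      intro d a' hd _ had
      have := FS_even_Icc (⌊u i⌋₊ + 1) (⌈v i⌉₊ - 1) d a' hd had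
      unfold ev2
      linarith)
    refine le_trans (le_trans (Nat.cast_le.2 (Finset.card_le_card ?_)) key) ?_
    · intro n hn
      rw [mem_filter] at hn ⊢
      exact ⟨(hS n hn.1).1, (hS n hn.1).2.1, hn.2⟩
    · apply mul_le_mul_of_nonneg_left _ (by positivity)
      have hsq : ((Nat.sqrt N : ℕ) : ℝ) ≤ s := Real.nat_sqrt_le_real_sqrt
      rw [← ha]
      have g1 : (1 / 2 : ℝ) ^ 2 * (⌈l ^ 32⌉₊ : ℝ) ^ 2 / a ^ 2 ≤ l ^ 90 / (κ ^ 2 * N) := by
        have h1 : (1 / 2 : ℝ) ^ 2 * (⌈l ^ 32⌉₊ : ℝ) ^ 2 ≤ l ^ 64 := by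
          have : (⌈l ^ 32⌉₊ : ℝ) ^ 2 ≤ (2 * l ^ 32) ^ 2 :=
            pow_le_pow_left₀ (by positivity) d2 2
          calc (1 / 2 : ℝ) ^ 2 * (⌈l ^ 32⌉₊ : ℝ) ^ 2 ≤ (1 / 2) ^ 2 * (2 * l ^ 32) ^ 2 := by linarith
            _ = l ^ 64 := by ring
        have h2 : (κ * s / l ^ 13) ^ 2 ≤ a ^ 2 := pow_le_pow_left₀ hcp.le hci 2
        calc (1 / 2 : ℝ) ^ 2 * (⌈l ^ 32⌉₊ : ℝ) ^ 2 / a ^ 2 ≤ l ^ 64 / (κ * s / l ^ 13) ^ 2 :=
              div_le_div₀ (by positivity) h1 (by positivity) h2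
          _ = l ^ 90 / (κ ^ 2 * N) := by
              rw [← hss]; field_simp
      have g2 : ((Nat.sqrt N : ℕ) : ℝ) / (a * (⌈l ^ 32⌉₊ : ℝ)) ≤ 1 / (κ * l ^ 19) := by
        calc ((Nat.sqrt N : ℕ) : ℝ) / (a * (⌈l ^ 32⌉₊ : ℝ)) ≤ s / ((κ * s / l ^ 13) * l ^ 32) := by
              apply div_le_div₀ hs0.le hsq (by positivity)
              exact mul_le_mul hci d1 (by positivity) ha0.le
          _ = 1 / (κ * l ^ 19) := by field_simp
      have g3 : l / a ≤ l ^ 14 / (κ * s) := by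
        calc l / a ≤ l / (κ * s / l ^ 13) := div_le_div₀ hl0.le le_rfl hcp hci
          _ = l ^ 14 / (κ * s) := by field_simp
      linarith
  have k3 : ((S.filter (fun n => c * κ * s / l ^ 14 ≤
      (((pr N).filter (fun p => n % (p - 1) ∈ badE p (δ / 9))).card : ℝ))).card : ℝ) ≤
      N / (4 * l ^ 2) := by
    have hc2h : c2 ≤ 1 / 2 := min_le_right _ _
    have key := ST2_mom big (fun p => badE p (δ / 9)) (9 * s ^ (1 - c2)) (by positivity) (by
      intro p hp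
      unfold pr at hp
      rw [mem_filter, mem_Ioc] at hp
      obtain ⟨⟨hp1, hp2⟩, hpp⟩ := hp
      have hp1r : (PP N : ℝ) ≤ p := by exact_mod_cast hp1.le
      have hp2r : (p : ℝ) ≤ 4 * PP N := by exact_mod_cast hp2
      have hp0' : p0 ≤ p := by
        have : (p0 : ℝ) ≤ p := by linarith
        exact_mod_cast this
      have h1p : (1 : ℝ) ≤ p := by linarith
      calc ((badE p (δ / 9)).card : ℝ) ≤ (p : ℝ) ^ (1 - c2') := hmult p hpp hp0'
        _ ≤ (p : ℝ) ^ (1 - c2) := by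
            apply Real.rpow_le_rpow_of_exponent_le h1p
            have : c2 ≤ c2' := min_le_left _ _
            linarith
        _ ≤ (9 * s) ^ (1 - c2) :=
            Real.rpow_le_rpow (by positivity) (by linarith) (by linarith)
        _ = 9 ^ (1 - c2) * s ^ (1 - c2) := Real.mul_rpow (by norm_num) hs0.le
        _ ≤ 9 ^ (1 : ℝ) * s ^ (1 - c2) := by
            apply mul_le_mul_of_nonneg_right _ (by positivity)
            exact Real.rpow_le_rpow_of_exponent_le (by norm_num) (by linarith)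
        _ = 9 * s ^ (1 - c2) := by rw [Real.rpow_one]) (c * κ * s / l ^ 14) (by positivity)
      (S.filter (fun n => c * κ * s / l ^ 14 ≤
      (((pr N).filter (fun p => n % (p - 1) ∈ badE p (δ / 9))).card : ℝ))) (by
      intro n hn
      rw [mem_filter] at hn
      exact ⟨(hS n hn.1).1, hn.2⟩)
    refine key.trans ?_
    have hsc : s ^ (1 - c2) * s ^ c2 = s := by
      rw [← Real.rpow_add hs0]
      simp
    have hscp : 0 < s ^ c2 := Real.rpow_pos_of_pos hs0 _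
    have hsdp : 0 < s ^ (1 - c2) := Real.rpow_pos_of_pos hs0 _
    have mom' : 324 * l ^ 16 ≤ c * κ * s ^ c2 := by
      have := mul_le_mul_of_nonneg_left mom (show 0 ≤ c * κ by positivity)
      have e : c * κ * (324 / (c * κ) * l ^ 16) = 324 * l ^ 16 := by field_simp
      rwa [e] at this
    rw [div_le_div_iff₀ (by positivity) (by positivity)]
    have e1 : N * (c * κ * s / l ^ 14) = N * (s ^ (1 - c2)) * (c * κ * s ^ c2) / l ^ 14 := by
      have : N * (c * κ * s / l ^ 14) = N * (c * κ * (s ^ (1 - c2) * s ^ c2) / l ^ 14) := by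
        rw [hsc]
      rw [this]; ring
    rw [e1, le_div_iff₀ (by positivity)]
    calc 9 * (N : ℝ) * (9 * s ^ (1 - c2)) * (4 * l ^ 2) * l ^ 14
        = N * s ^ (1 - c2) * (324 * l ^ 16) := by ring
      _ ≤ N * (s ^ (1 - c2)) * (c * κ * s ^ c2) :=
        mul_le_mul_of_nonneg_left mom' (by positivity)
  have hsub : S ⊆ (S.filter (fun n => ¬ cofLE n (s * l ^ 13))) ∪
      ((range K).biUnion (fun i => S.filter (fun n =>
      (((pr N).filter (fun p => n % (p - 1) ∈ ev2 (u i) (v i))).card : ℝ) ≤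
          c * (ev2 (u i) (v i)).card / l)) ∪
      (S.filter (fun n => c * κ * s / l ^ 14 ≤
      (((pr N).filter (fun p => n % (p - 1) ∈ badE p (δ / 9))).card : ℝ)))) := by
    intro n hn
    rw [mem_union, mem_union, mem_biUnion]
    by_cases hT : cofLE n (s * l ^ 13)
    swap
    · exact Or.inl (mem_filter.2 ⟨hn, hT⟩)
    right
    obtain ⟨hnI, hnE, hnc⟩ := hS n hn
    rw [mem_Ioc] at hnI
    obtain ⟨g, H, hgi, hgm, hHm, hgH, hHT, hdeg⟩ := ST2_fac hT
    set D : ℝ := (H.natDegree : ℝ) with hD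
    have hDη : η * s < D := by
      by_contra hc
      push Not at hc
      refine hnc ⟨g, hgi, ⟨H, hgH⟩, ?_⟩
      have : (n : ℝ) = g.natDegree + H.natDegree := by exact_mod_cast hdeg
      rw [this]
      linarith
    set i := ⌊(D - η * s) / (δ * s)⌋₊ with hi
    have hds : 0 < δ * s := by positivity
    have i1 : (i : ℝ) ≤ (D - η * s) / (δ * s) :=
      Nat.floor_le (div_nonneg (by linarith) hds.le)
    have i2 : (D - η * s) / (δ * s) < i + 1 := Nat.lt_floor_add_one _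
    rw [le_div_iff₀ hds] at i1
    rw [div_lt_iff₀ hds] at i2
    have iK : i < K := by
      have : i ≤ ⌊l ^ 13 / δ⌋₊ := by
        apply Nat.floor_le_floor
        rw [div_le_div_iff₀ hds hδ0]
        have : D ≤ s * l ^ 13 := hHT
        have h0 : 0 ≤ η * s := by positivity
        have : (D - η * s) * δ ≤ (s * l ^ 13) * δ :=
          mul_le_mul_of_nonneg_right (by linarith) hδ0.le
        linarith
      omega
    by_cases hA : (((pr N).filter (fun p => n % (p - 1) ∈ ev2 (u i) (v i))).card : ℝ) ≤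
          c * (ev2 (u i) (v i)).card / l
    · exact Or.inl ⟨i, mem_range.2 iK, mem_filter.2 ⟨hn, hA⟩⟩
    right
    push Not at hA
    refine mem_filter.2 ⟨hn, ?_⟩
    have hR : c * κ * s / l ^ 14 ≤ c * (ev2 (u i) (v i)).card / l := by
      have e : c * κ * s / l ^ 14 = c * (κ * s / l ^ 13) / l := by field_simp
      rw [e]
      exact div_le_div_of_nonneg_right (mul_le_mul_of_nonneg_left (hcard i iK) hc.le) hl0.le
    refine hR.trans (hA.le.trans (Nat.cast_le.2 (Finset.card_le_card ?_)))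
    intro p hp
    rw [mem_filter] at hp ⊢
    refine ⟨hp.1, ?_⟩
    by_contra hb
    obtain ⟨b1, b2, b3⟩ := mem_ev2 hp.2
    have hs64 := hv i
    have he2 : 2 ≤ n % (p - 1) := by
      have hpos : 0 < n % (p - 1) := by
        have : (0 : ℝ) < ((n % (p - 1) : ℕ) : ℝ) := lt_of_le_of_lt (hu i) b1
        exact_mod_cast this
      obtain ⟨r, hr⟩ := b3
      omega
    obtain ⟨j, hj⟩ := ST2_nt big g H hgH hgm hHm hnI.1 hnI.2 hnE hp.1 he2 b3 (by linarith) (by
      have h8 : s * (8 * l ^ 13) ≤ s * s := mul_le_mul_of_nonneg_left deg hs0.le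
      rw [hss] at h8
      linarith) hb
    have hpp : (p : ℝ) ≤ 9 * s := by
      have := hp.1
      unfold pr at this
      rw [mem_filter, mem_Ioc] at this
      have h2 : (p : ℝ) ≤ 4 * PP N := by exact_mod_cast this.1.2
      linarith
    have hj2 : |D - (n % (p - 1) : ℕ) * j| ≤ δ * s := by
      refine hj.trans ?_
      have := mul_le_mul_of_nonneg_left hpp (show 0 ≤ δ / 9 by positivity)
      linarith
    have hj3 := hsep i (n % (p - 1)) b1 b2 j
    have tri : |(η * s + i * (δ * s)) - (n % (p - 1) : ℕ) * j|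
        ≤ |(η * s + i * (δ * s)) - D| + |D - (n % (p - 1) : ℕ) * j| := abs_sub_le _ _ _
    have hDi : |(η * s + i * (δ * s)) - D| ≤ δ * s := by
      rw [abs_le]
      constructor <;> linarith
    linarith
  have hfin : (S.card : ℝ) ≤ N / l ^ 3 +
      (K * (C * N * l ^ 2 * (l ^ 90 / (κ ^ 2 * N) + 1 / (κ * l ^ 19) + l ^ 14 / (κ * s)))
        + N / (4 * l ^ 2)) := by
    have h1 : (S.card : ℝ) ≤ _ := Nat.cast_le.2 (Finset.card_le_card hsub)
    refine h1.trans ?_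
    refine (Nat.cast_le.2 (card_union_le _ _)).trans ?_
    rw [Nat.cast_add]
    refine add_le_add k1 ?_
    refine (Nat.cast_le.2 (card_union_le _ _)).trans ?_
    rw [Nat.cast_add]
    refine add_le_add ?_ k3
    refine (Nat.cast_le.2 card_biUnion_le).trans ?_
    rw [Nat.cast_sum]
    calc _ ≤ ∑ i ∈ range K, C * N * l ^ 2 *
          (l ^ 90 / (κ ^ 2 * N) + 1 / (κ * l ^ 19) + l ^ 14 / (κ * s)) :=
          Finset.sum_le_sum fun i hi => k2 i (mem_range.1 hi)
      _ = _ := by simp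
  have f1 : N / l ^ 3 ≤ N / (4 * l ^ 2) := by
    apply div_le_div_of_nonneg_left hN0.le (by positivity)
    have : 4 * l ^ 2 ≤ l * l ^ 2 := mul_le_mul_of_nonneg_right l4 (by positivity)
    linarith [show l * l ^ 2 = l ^ 3 by ring]
  have hW : 0 ≤ C * N * l ^ 2 * (l ^ 90 / (κ ^ 2 * N) + 1 / (κ * l ^ 19) + l ^ 14 / (κ * s)) := by
    positivity
  have f2 : K * (C * N * l ^ 2 * (l ^ 90 / (κ ^ 2 * N) + 1 / (κ * l ^ 19) + l ^ 14 / (κ * s)))
      ≤ N / (2 * l ^ 2) := by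
    refine (mul_le_mul_of_nonneg_right hKr hW).trans ?_
    have t1' : 12 * C * l ^ 107 ≤ δ * κ ^ 2 * N := by
      have := mul_le_mul_of_nonneg_left t1 (show 0 ≤ δ * κ ^ 2 by positivity)
      have e : δ * κ ^ 2 * (12 * C / (δ * κ ^ 2) * l ^ 107) = 12 * C * l ^ 107 := by field_simp
      rwa [e] at this
    have t2' : 12 * C ≤ δ * κ * l ^ 2 := by
      have := mul_le_mul_of_nonneg_left t2 (show 0 ≤ δ * κ by positivity)
      have e : δ * κ * (12 * C / (δ * κ)) = 12 * C := by field_simp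
      rwa [e] at this
    have t3' : 12 * C * l ^ 31 ≤ δ * κ * s := by
      have := mul_le_mul_of_nonneg_left t3 (show 0 ≤ δ * κ by positivity)
      have e : δ * κ * (12 * C / (δ * κ) * l ^ 31) = 12 * C * l ^ 31 := by field_simp
      rwa [e] at this
    have e0 : 2 * l ^ 13 / δ * (C * N * l ^ 2 *
        (l ^ 90 / (κ ^ 2 * N) + 1 / (κ * l ^ 19) + l ^ 14 / (κ * s)))
        = (12 * C * l ^ 107) / (δ * κ ^ 2 * N) * (N / (6 * l ^ 2))
          + (12 * C) / (δ * κ * l ^ 2) * (N / (6 * l ^ 2))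
          + (12 * C * l ^ 31) / (δ * κ * s) * (N / (6 * l ^ 2)) := by
      field_simp
      ring
    have q1 : (12 * C * l ^ 107) / (δ * κ ^ 2 * N) ≤ 1 := by
      rw [div_le_one (by positivity)]; exact t1'
    have q2 : (12 * C) / (δ * κ * l ^ 2) ≤ 1 := by
      rw [div_le_one (by positivity)]; exact t2'
    have q3 : (12 * C * l ^ 31) / (δ * κ * s) ≤ 1 := by
      rw [div_le_one (by positivity)]; exact t3'
    have hp6 : 0 ≤ N / (6 * l ^ 2) := by positivity
    rw [e0]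
    have r1 := mul_le_mul_of_nonneg_right q1 hp6
    have r2 := mul_le_mul_of_nonneg_right q2 hp6
    have r3 := mul_le_mul_of_nonneg_right q3 hp6
    have e6 : N / (2 * l ^ 2) = 3 * (N / (6 * l ^ 2)) := by field_simp; norm_num
    rw [e6]
    linarith
  have e4 : N / l ^ 2 = N / (4 * l ^ 2) + (N / (2 * l ^ 2) + N / (4 * l ^ 2)) := by
    field_simp; norm_num
  rw [e4]
  linarith

open scoped Classical in
/-- (ST2) For almost all even `n` the Bernoulli polynomial `B_n` has an irreducible factor of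
codegree at most `η √n`. -/
theorem st2 (η : ℝ) (hη : 0 < η) : ∃ N0 : ℕ, ∀ N : ℕ, N0 ≤ N →
    (((Ioc (N / 2) N).filter (fun n => Even n ∧
      ¬ cofLE n (η * √(N : ℝ)))).card : ℝ) ≤ N / (Real.log N) ^ 2 := by
  obtain ⟨N0, h⟩ := st2_aux (min η 1) (lt_min hη one_pos) (min_le_right _ _)
  refine ⟨N0, fun N hN => h N hN _ fun n hn => ?_⟩
  rw [mem_filter] at hn
  refine ⟨hn.1, hn.2.1, fun hc => hn.2.2 ?_⟩
  obtain ⟨g, h1, h2, h3⟩ := hc
  refine ⟨g, h1, h2, h3.trans ?_⟩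
  have : min η 1 * √(N : ℝ) ≤ η * √(N : ℝ) :=
    mul_le_mul_of_nonneg_right (min_le_left _ _) (Real.sqrt_nonneg _)
  linarith

end Pool.Agent.Bern2
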