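import Mathlib
import Pool.Agent.Bern2.Defs

namespace Pool.Agent.Bern2

open Polynomial Finset Pool.Agent.Helper29 Pool.Agent.Helper98.Bern

/-- complex version of the umbral functional -/
noncomputable def TWI_L : ℂ[X] →ₗ[ℂ] ℂ :=
  Polynomial.lsum (fun j => LinearMap.mulRight ℂ (((_root_.bernoulli j : ℚ) : ℂ)))

theorem TWI_L_monomial (j : ℕ) (c : ℂ) :
    TWI_L (monomial j c) = c * ((_root_.bernoulli j : ℚ) : ℂ) := by
  simp [TWI_L, Polynomial.lsum_apply]

theorem TWI_L_map (f : ℚ[X]) : TWI_L (f.map (algebraMap ℚ ℂ)) = ((LB f : ℚ) : ℂ) := by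
  induction f using Polynomial.induction_on' with
  | add p q hp hq =>
    have h : LB (p + q) = LB p + LB q := by
      unfold LB
      exact Polynomial.sum_add_index p q _ (fun i => by simp) (fun i a b => by ring)
    rw [Polynomial.map_add, map_add, hp, hq, h]
    push_cast
    ring
  | monomial n a =>
    rw [Polynomial.map_monomial, TWI_L_monomial]
    have h : LB (monomial n a) = a * _root_.bernoulli n := by
      unfold LB
      rw [Polynomial.sum_monomial_index a _ (by simp)]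
    rw [h]
    push_cast
    simp

theorem TWI_L_pow (n : ℕ) (x : ℂ) :
    TWI_L ((X + C x) ^ n) = aeval x (Polynomial.bernoulli n) := by
  rw [add_pow, map_sum, Polynomial.bernoulli, map_sum]
  refine Finset.sum_congr rfl fun i _ => ?_
  have h : (X ^ i * C x ^ (n - i) * ((n.choose i : ℕ) : ℂ[X]) : ℂ[X]) =
      monomial i (x ^ (n - i) * (n.choose i : ℂ)) := by
    rw [← C_mul_X_pow_eq_monomial, map_mul, map_pow, map_natCast]
    ring
  rw [h, TWI_L_monomial, aeval_monomial]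
  simp only [eq_ratCast]
  push_cast
  ring

theorem TWI_sum_even_odd {M : Type*} [AddCommMonoid M] (f : ℕ → M) (n : ℕ) :
    ∑ m ∈ range (2 * n), f m = ∑ k ∈ range n, (f (2 * k) + f (2 * k + 1)) := by
  induction n with
  | zero => simp
  | succ n ih =>
    rw [Finset.sum_range_succ, ← ih, show 2 * (n + 1) = 2 * n + 1 + 1 by ring,
      Finset.sum_range_succ, Finset.sum_range_succ, add_assoc]

theorem TWI_binom {R : Type*} [CommRing R] (M D : R) (t : ℕ) :
    (M + D) ^ (2 * t + 1) + (M - D) ^ (2 * t + 1) =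
      ∑ k ∈ range (t + 1), 2 * ((2 * t + 1).choose (2 * k + 1) : R) * (M ^ (2 * k + 1) *
        (D ^ 2) ^ (t - k)) := by
  rw [sub_eq_add_neg, add_pow, add_pow, ← Finset.sum_add_distrib,
    show 2 * t + 1 + 1 = 2 * (t + 1) by ring, TWI_sum_even_odd]
  refine Finset.sum_congr rfl fun k hk => ?_
  have hk' : k ≤ t := Nat.lt_succ_iff.1 (Finset.mem_range.1 hk)
  obtain ⟨j, rfl⟩ := Nat.exists_eq_add_of_le hk'
  have e1 : 2 * (k + j) + 1 - 2 * k = 2 * j + 1 := by omega
  have e2 : 2 * (k + j) + 1 - (2 * k + 1) = 2 * j := by omega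
  have e3 : k + j - k = j := by omega
  rw [e1, e2, e3, Odd.neg_pow ⟨j, rfl⟩, Even.neg_pow ⟨j, by ring⟩, pow_mul D 2 j]
  ring

/-- (TWI) The equation satisfied by a quadratic factor. -/
theorem twi (t : ℕ) (w : ℤ) (hw : w ≠ 0)
    (hdiv : QW w ∣ Polynomial.bernoulli (2 * (2 * t + 1))) :
    Et t (((w : ℚ) + 3) / 12) (3 / (w : ℚ)) = 0 := by
  obtain ⟨y, hy⟩ := IsAlgClosed.exists_pow_nat_eq ((w : ℂ) / 12) (n := 2) (by norm_num)
  set n := 2 * (2 * t + 1) with hn
  have hroot : aeval (1 / 2 + y) (QW w) = 0 := by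
    unfold QW
    simp only [map_add, map_sub, map_pow, aeval_X, aeval_C, eq_ratCast]
    push_cast
    linear_combination hy
  have hx : aeval (1 / 2 + y) (Polynomial.bernoulli n) = 0 := by
    obtain ⟨g, hg⟩ := hdiv
    rw [hg, map_mul, hroot, zero_mul]
  have hx' : aeval (1 / 2 - y) (Polynomial.bernoulli n) = 0 := by
    have h := congrArg (aeval (1 / 2 + y)) (bernoulli_comp_one_sub_X n)
    rw [aeval_comp] at h
    have e : aeval (1 / 2 + y) (1 - X : ℚ[X]) = 1 / 2 - y := by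
      simp only [map_sub, map_one, aeval_X]
      ring
    rw [e, map_mul, hx, mul_zero] at h
    exact h
  have h0 : TWI_L ((X + C (1 / 2 + y)) ^ n + (X + C (1 / 2 - y)) ^ n) = 0 := by
    rw [map_add, TWI_L_pow, TWI_L_pow, hx, hx', add_zero]
  set M : ℂ[X] := (C (((w : ℚ) + 3) / 12) + AA : ℚ[X]).map (algebraMap ℚ ℂ) with hM
  set A1 : ℂ[X] := (1 + 4 * AA : ℚ[X]).map (algebraMap ℚ ℂ) with hA1
  have hMe : M = C (((w : ℂ) + 3) / 12) + (X ^ 2 + X) := by
    rw [hM]
    simp [AA]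
  have hA1e : A1 = 1 + 4 * (X ^ 2 + X) := by
    rw [hA1]
    simp [AA, Polynomial.map_ofNat]
  set D : ℂ[X] := C (2 * y) * (X + C (1 / 2)) with hD
  have hD2 : D ^ 2 = C ((w : ℂ) / 12) * A1 := by
    rw [hD, hA1e, ← hy]
    simp only [map_mul, map_pow]
    have h2 : (C (1 / 2) : ℂ[X]) * 2 = 1 := by
      rw [← C_ofNat, ← C_mul]
      norm_num
    have h22 : (C 2 : ℂ[X]) = 2 := C_ofNat 2
    rw [h22]
    linear_combination (C y ^ 2 * (4 * X + 2 * C (1 / 2) + 1)) * h2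
  have hp1 : (X + C (1 / 2 + y)) ^ 2 = M + D := by
    rw [hMe, hD]
    have hw12 : (((w : ℂ) + 3) / 12) = y ^ 2 + 1 / 4 := by linear_combination -hy
    rw [hw12]
    simp only [map_mul, map_add, map_pow]
    have h2 : (C (1 / 2) : ℂ[X]) * 2 = 1 := by
      rw [← C_ofNat, ← C_mul]
      norm_num
    have h4 : (C (1 / 4) : ℂ[X]) = C (1 / 2) ^ 2 := by
      rw [← C_pow]
      norm_num
    have h22 : (C 2 : ℂ[X]) = 2 := C_ofNat 2
    rw [h22, h4]
    linear_combination X * h2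
  have hp2 : (X + C (1 / 2 - y)) ^ 2 = M - D := by
    rw [hMe, hD]
    have hw12 : (((w : ℂ) + 3) / 12) = y ^ 2 + 1 / 4 := by linear_combination -hy
    rw [hw12]
    simp only [map_mul, map_add, map_sub, map_pow]
    have h2 : (C (1 / 2) : ℂ[X]) * 2 = 1 := by
      rw [← C_ofNat, ← C_mul]
      norm_num
    have h4 : (C (1 / 4) : ℂ[X]) = C (1 / 2) ^ 2 := by
      rw [← C_pow]
      norm_num
    have h22 : (C 2 : ℂ[X]) = 2 := C_ofNat 2
    rw [h22, h4]
    linear_combination X * h2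
  rw [hn, pow_mul, pow_mul, hp1, hp2, TWI_binom, map_sum] at h0
  have hterm : ∀ k ∈ range (t + 1),
      TWI_L (2 * ((2 * t + 1).choose (2 * k + 1) : ℂ[X]) * (M ^ (2 * k + 1) * (D ^ 2) ^ (t - k))) =
      (((2 * ((2 * t + 1).choose (2 * k + 1) : ℚ) * ((w : ℚ) / 12) ^ (t - k) *
        LB ((1 + 4 * AA) ^ (t - k) * (C (((w : ℚ) + 3) / 12) + AA) ^ (2 * k + 1)) : ℚ)) : ℂ) := by
    intro k _
    have e : (2 * ((2 * t + 1).choose (2 * k + 1) : ℂ[X]) *
        (M ^ (2 * k + 1) * (D ^ 2) ^ (t - k))) =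
        (2 * ((2 * t + 1).choose (2 * k + 1) : ℂ) * ((w : ℂ) / 12) ^ (t - k)) •
          (((1 + 4 * AA) ^ (t - k) * (C (((w : ℚ) + 3) / 12) + AA) ^ (2 * k + 1) : ℚ[X]).map
            (algebraMap ℚ ℂ)) := by
      rw [Polynomial.map_mul, Polynomial.map_pow, Polynomial.map_pow, ← hM, ← hA1, hD2,
        smul_eq_C_mul, mul_pow]
      simp only [map_mul, map_pow, map_natCast, C_ofNat]
      ring
    rw [e, map_smul, TWI_L_map, smul_eq_mul]
    push_cast
    ring
  rw [Finset.sum_congr rfl hterm, ← Rat.cast_sum] at h0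
  have h1 : ∑ k ∈ range (t + 1), (2 * ((2 * t + 1).choose (2 * k + 1) : ℚ) *
      ((w : ℚ) / 12) ^ (t - k) *
        LB ((1 + 4 * AA) ^ (t - k) * (C (((w : ℚ) + 3) / 12) + AA) ^ (2 * k + 1))) = 0 := by
    exact_mod_cast h0
  have hwq : (w : ℚ) ≠ 0 := by exact_mod_cast hw
  have h2 : ∑ k ∈ range (t + 1), (2 * ((2 * t + 1).choose (2 * k + 1) : ℚ) *
      ((w : ℚ) / 12) ^ (t - k) *
        LB ((1 + 4 * AA) ^ (t - k) * (C (((w : ℚ) + 3) / 12) + AA) ^ (2 * k + 1))) =
      (2 * (2 * t + 1) * ((w : ℚ) / 12) ^ t) * Et t (((w : ℚ) + 3) / 12) (3 / (w : ℚ)) := by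
    unfold Et
    rw [Finset.mul_sum]
    refine Finset.sum_congr rfl fun k hk => ?_
    have hk' : k ≤ t := Nat.lt_succ_iff.1 (Finset.mem_range.1 hk)
    have hch : ((2 * t + 1).choose (2 * k + 1) : ℚ) * (2 * k + 1) =
        (2 * t + 1) * ((2 * t).choose (2 * k) : ℚ) := by
      have := Nat.add_one_mul_choose_eq (2 * t) (2 * k)
      exact_mod_cast this.symm
    have hpw : ((w : ℚ) / 12) ^ t * (4 * (3 / (w : ℚ))) ^ k = ((w : ℚ) / 12) ^ (t - k) := by
      obtain ⟨j, rfl⟩ := Nat.exists_eq_add_of_le hk'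
      rw [Nat.add_sub_cancel_left, pow_add, mul_right_comm, ← mul_pow]
      have : (w : ℚ) / 12 * (4 * (3 / (w : ℚ))) = 1 := by
        field_simp
        norm_num
      rw [this, one_pow, one_mul]
    have hk1 : (2 * (k : ℚ) + 1) ≠ 0 := by positivity
    rw [← hpw]
    have hch' : ((2 * t + 1).choose (2 * k + 1) : ℚ) =
        (2 * t + 1) * ((2 * t).choose (2 * k) : ℚ) / (2 * k + 1) := by
      rw [eq_div_iff hk1]
      exact hch
    rw [hch']
    ring
  rw [h2] at h1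
  rcases mul_eq_zero.1 h1 with h3 | h3
  · exfalso
    have : (2 * (2 * (t : ℚ) + 1) * ((w : ℚ) / 12) ^ t) ≠ 0 := by
      have : (2 * (t : ℚ) + 1) ≠ 0 := by positivity
      have h12 : (w : ℚ) / 12 ≠ 0 := div_ne_zero hwq (by norm_num)
      positivity
    exact this h3
  · exact h3

end Pool.Agent.Bern2
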