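import Mathlib
import Pool.Agent.Bern2.Defs

namespace Pool.Agent.Bern2

open Polynomial Finset Pool.Agent.Helper29 Pool.Agent.Helper98.Bern

/-- Irreducible factors of `X^l + (X+1)^l` over `F_2` have degree at least the order of `2`. -/
theorem two_irr (l : ℕ) (hl : l.Prime) (_ : 3 < l) (π : (ZMod 2)[X]) (hπ : Irreducible π)
    (hd : π ∣ X ^ l + (X + 1) ^ l) : orderOf (2 : ZMod l) ≤ π.natDegree := by
  have : Fact (Nat.Prime 2) := ⟨Nat.prime_two⟩
  have : Fact (Irreducible π) := ⟨hπ⟩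
  have hl0 : l ≠ 0 := hl.ne_zero
  let K := AdjoinRoot π
  have hfd : FiniteDimensional (ZMod 2) K := (AdjoinRoot.powerBasis hπ.ne_zero).finite
  have hfr : Module.finrank (ZMod 2) K = π.natDegree := by
    rw [(AdjoinRoot.powerBasis hπ.ne_zero).finrank, AdjoinRoot.powerBasis_dim]
  have : Finite K := Module.finite_of_finite (ZMod 2)
  have hcard : Nat.card K = 2 ^ π.natDegree := by
    have h := Module.natCard_eq_pow_finrank (K := ZMod 2) (V := K)
    rw [hfr, Nat.card_zmod] at h
    exact h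
  have hch : CharP K 2 := charP_of_injective_algebraMap (algebraMap (ZMod 2) K).injective 2
  set x : K := AdjoinRoot.root π with hx
  have hx1 : x ^ l + (x + 1) ^ l = 0 := by
    obtain ⟨q, hq⟩ := hd
    have := congrArg (AdjoinRoot.mk π) hq
    rw [map_mul, AdjoinRoot.mk_self, zero_mul] at this
    simpa [AdjoinRoot.mk_X] using this
  have hx0 : x ≠ 0 := by
    intro h0
    rw [h0, zero_pow hl0, zero_add, zero_add, one_pow] at hx1
    exact one_ne_zero hx1
  have hx2 : (x + 1) ^ l = x ^ l := by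
    have h2 : (2 : K) = 0 := CharTwo.two_eq_zero
    linear_combination hx1 - x ^ l * h2
  have hy : ((x + 1) / x) ^ l = 1 := by
    rw [div_pow, hx2, div_self (pow_ne_zero _ hx0)]
  have hy1 : (x + 1) / x ≠ 1 := by
    intro h
    rw [div_eq_one_iff_eq hx0] at h
    exact one_ne_zero (by linear_combination h)
  have : Fact l.Prime := ⟨hl⟩
  have hord : orderOf ((x + 1) / x) = l := orderOf_eq_prime hy hy1
  have hy0 : (x + 1) / x ≠ 0 := by
    intro h
    rw [h, zero_pow hl0] at hy
    exact zero_ne_one hy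
  have : Fintype K := Fintype.ofFinite K
  have hyc : ((x + 1) / x) ^ (2 ^ π.natDegree - 1) = 1 := by
    have h := FiniteField.pow_card_sub_one_eq_one _ hy0
    rwa [← Nat.card_eq_fintype_card, hcard] at h
  have hdvd : l ∣ 2 ^ π.natDegree - 1 := by
    rw [← hord]
    exact orderOf_dvd_of_pow_eq_one hyc
  have h2 : (2 : ZMod l) ^ π.natDegree = 1 := by
    have h := (ZMod.natCast_eq_zero_iff _ _).2 hdvd
    rw [Nat.cast_sub Nat.one_le_two_pow, sub_eq_zero] at h
    push_cast at h
    exact h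
  exact Nat.le_of_dvd hπ.natDegree_pos (orderOf_dvd_of_pow_eq_one h2)

theorem two_psi (l : ℕ) (hl : l.Prime) (h3 : 3 < l) :
    (X ^ l + (X + 1) ^ l : (ZMod 2)[X]).natDegree = l - 1 := by
  have hodd : Odd l := hl.odd_of_ne_two (by omega)
  have hc : ∀ j, (X ^ l + (X + 1) ^ l : (ZMod 2)[X]).coeff j =
      (if j = l then 1 else 0) + ((l.choose j : ℕ) : ZMod 2) := by
    intro j
    rw [coeff_add, coeff_X_pow, coeff_X_add_one_pow]
  apply le_antisymm
  · rw [natDegree_le_iff_coeff_eq_zero]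
    intro N hN
    rw [hc]
    rcases Nat.lt_or_ge l N with h | h
    · rw [if_neg (by omega), Nat.choose_eq_zero_of_lt h]
      simp
    · have : N = l := by omega
      subst this
      rw [if_pos rfl, Nat.choose_self]
      decide
  · apply le_natDegree_of_ne_zero
    rw [hc, if_neg (by omega)]
    have h1 : l.choose (l - 1) = l := by
      rw [Nat.choose_symm (show 1 ≤ l by omega), Nat.choose_one_right]
    rw [h1, zero_add]
    intro h
    rw [ZMod.natCast_eq_zero_iff] at h
    exact (Nat.not_even_iff_odd.2 hodd) (even_iff_two_dvd.2 h)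

theorem two_zint {z : ℤ} : ((z : ℤ) : ZMod 2) ≠ 0 ↔ Odd z := by
  rw [Ne, ZMod.intCast_zmod_eq_zero_iff_dvd, ← Int.not_even_iff_odd, even_iff_two_dvd]
  rfl

/-- (TWO) Factors of `B_{2l}` of degree smaller than the order of `2` modulo `l`. -/
theorem two (l : ℕ) (hl : l.Prime) (h3 : 3 < l) (g H : ℚ[X])
    (hB : Polynomial.bernoulli (2 * l) = g * H) (hH : H.Monic)
    (hdeg : H.natDegree < orderOf (2 : ZMod l)) :
    H.natDegree = 0 ∨ (H.natDegree = 2 ∧
      ∃ z d : ℤ, Odd z ∧ Odd d ∧ 2 * (d : ℚ) * H.coeff 0 = z) := by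
  have : Fact (Nat.Prime 2) := ⟨by norm_num⟩
  have hl0 : 0 < l := hl.pos
  obtain ⟨D, W, hD, hform⟩ := two_formula hl0
  have hDodd : Odd D := by
    rw [← Int.not_even_iff_odd]
    intro he
    exact hD he.two_dvd
  have hDz : (2 * (3 * D)) ≠ 0 := by
    rintro h0
    apply hD
    have : D = 0 := by omega
    rw [this]
    exact dvd_zero _
  obtain ⟨hnd, hlc⟩ := natDegree_leadingCoeff_of_map hDz hform.symm
  set Q := C (3 * D) * S ℤ 2 (2 * l) - C (3 * D * (2 * (l : ℤ))) * S ℤ 2 (2 * l - 1)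
          + C (D * (2 * (l : ℤ)) * (2 * l - 1)) * S ℤ 2 (2 * l - 2)
          + 4 * W with hQdef
  have hQ0 : Q ≠ 0 := by
    intro h
    rw [h, leadingCoeff_zero] at hlc
    exact hDz hlc.symm
  obtain ⟨H1, hprim, hdeg1, c, hc, hmap⟩ := exists_primitive hH.ne_zero
  have hdv : H1.map (algebraMap ℤ ℚ) ∣ Q.map (algebraMap ℤ ℚ) := by
    change H1.map (Int.castRingHom ℚ) ∣ Q.map (Int.castRingHom ℚ)
    rw [hmap, ← hform]
    apply Dvd.dvd.mul_left
    rw [hB]
    exact ⟨C (c⁻¹) * g, by
      have : C c * C c⁻¹ = (1 : ℚ[X]) := by rw [← C_mul, mul_inv_cancel₀ hc, C_1]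
      linear_combination (-(H * g)) * this⟩
  obtain ⟨F, hF⟩ := hprim.dvd_of_fraction_map_dvd_fraction_map hdv
  have hH10 : H1 ≠ 0 := hprim.ne_zero
  have hF0 : F ≠ 0 := by
    rintro rfl
    rw [mul_zero] at hF
    exact hQ0 hF
  have hc1 : ((H1.leadingCoeff : ℤ) : ℚ) = c := by
    have h2 := leadingCoeff_map_of_injective (RingHom.injective_int (Int.castRingHom ℚ)) H1
    rw [hmap, leadingCoeff_mul, leadingCoeff_C, hH.leadingCoeff, mul_one] at h2
    simpa using h2.symm
  have hred : red 2 Q = (X ^ l + (X + 1) ^ l) ^ 2 := by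
    have hDr : red 2 (C D) = 1 := by
      obtain ⟨k, hk⟩ := hDodd
      rw [hk]
      have h2 : red 2 (C 2) = 0 := by
        rw [red_eq_zero_iff]
        exact ⟨1, by simp⟩
      simp only [map_add, map_mul, h2, map_one]
      ring
    have h2 : red 2 (C 2) = 0 := by
      rw [red_eq_zero_iff]
      exact ⟨1, by simp⟩
    have h4 : red 2 (4 : ℤ[X]) = 0 := by
      rw [show (4 : ℤ[X]) = C 2 * C 2 by norm_num [← C_ofNat], map_mul, h2, zero_mul]
    have h3 : red 2 (C 3) = 1 := by
      rw [show (C 3 : ℤ[X]) = C 2 + 1 by norm_num [← C_ofNat], map_add, h2, map_one, zero_add]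
    have hS : S (ZMod 2) 2 (2 * l) = (X ^ l + (X + 1) ^ l) ^ 2 := by
      unfold S
      rw [Finset.sum_range_succ, Finset.sum_range_one, CharTwo.add_sq]
      simp only [Nat.cast_zero, C_0, add_zero, Nat.cast_one, C_1]
      rw [← pow_mul, ← pow_mul, mul_comm l 2]
    rw [hQdef]
    simp only [map_add, map_sub, map_mul, h4, h3, h2, hDr, red_S, map_one]
    rw [hS]
    ring
  set ψ : (ZMod 2)[X] := X ^ l + (X + 1) ^ l with hψ
  have hψd : ψ.natDegree = l - 1 := two_psi l hl h3
  have hψ0 : ψ ≠ 0 := by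
    intro h
    rw [h, natDegree_zero] at hψd
    omega
  have hmul : red 2 H1 * red 2 F = ψ ^ 2 := by rw [← map_mul, ← hF, hred]
  have hr0 : red 2 H1 ≠ 0 := left_ne_zero_of_mul (by rw [hmul]; exact pow_ne_zero _ hψ0)
  have hrF0 : red 2 F ≠ 0 := right_ne_zero_of_mul (by rw [hmul]; exact pow_ne_zero _ hψ0)
  have hunit : IsUnit (red 2 H1) := by
    by_contra hnu
    obtain ⟨π, hπ, hπd⟩ := WfDvdMonoid.exists_irreducible_factor hnu hr0
    have h1 : π ∣ ψ := by
      have : π ∣ ψ ^ 2 := hπd.trans ⟨_, hmul.symm⟩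
      exact hπ.prime.dvd_of_dvd_pow this
    have h2 := two_irr l hl h3 π hπ h1
    have h4 : π.natDegree ≤ (red 2 H1).natDegree := natDegree_le_of_dvd hπd hr0
    have h5 : (red 2 H1).natDegree ≤ H1.natDegree := natDegree_map_le
    omega
  have hrd : (red 2 H1).natDegree = 0 := natDegree_eq_zero_of_isUnit hunit
  have hcast : ∀ G : ℤ[X], Odd G.leadingCoeff → (red 2 G).natDegree = G.natDegree := by
    intro G hG
    apply natDegree_map_of_leadingCoeff_ne_zero
    rw [eq_intCast]
    exact two_zint.2 hG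
  have hlcm : H1.leadingCoeff * F.leadingCoeff = 2 * (3 * D) := by
    rw [← leadingCoeff_mul, ← hF, hlc]
  rcases Int.even_or_odd H1.leadingCoeff with he | ho
  · right
    obtain ⟨m, hm⟩ := he
    have hmF : m * F.leadingCoeff = 3 * D := by
      have : 2 * (m * F.leadingCoeff) = 2 * (3 * D) := by rw [← hlcm, hm]; ring
      omega
    have h3D : Odd (3 * D) := by
      have : Odd (3 : ℤ) := by decide
      exact this.mul hDodd
    rw [← hmF, Int.odd_mul] at h3D
    have hFd : (red 2 F).natDegree = F.natDegree := hcast F h3D.2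
    have hdd : (red 2 H1).natDegree + (red 2 F).natDegree = 2 * (l - 1) := by
      rw [← natDegree_mul hr0 hrF0, hmul, natDegree_pow, hψd]
    have hdd2 : H1.natDegree + F.natDegree = 2 * l := by
      rw [← natDegree_mul hH10 hF0, ← hF, hnd]
    refine ⟨by omega, H1.coeff 0, m, ?_, h3D.1, ?_⟩
    · rw [← two_zint]
      intro h0
      have h6 : (red 2 H1).coeff 0 = 0 := by
        rw [coe_mapRingHom, coeff_map, eq_intCast, h0]
      have h7 : red 2 H1 = C ((red 2 H1).coeff 0) := eq_C_of_natDegree_eq_zero hrd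
      rw [h6, C_0] at h7
      exact hr0 h7
    · have h8 : (H1.map (Int.castRingHom ℚ)).coeff 0 = (C c * H).coeff 0 := by rw [hmap]
      rw [coeff_map, coeff_C_mul, eq_intCast, ← hc1, hm] at h8
      rw [h8]
      push_cast
      ring
  · left
    rw [← hdeg1, ← hcast H1 ho, hrd]

end Pool.Agent.Bern2
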