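import Mathlib
import Pool.Agent.Bern2.ST2
import Pool.Agent.Bern2.ORD
import Pool.Agent.Bern2.TWO
import Pool.Agent.Bern2.Q0
import Pool.Agent.Bern2.QA
import Pool.Agent.Bern2.QL
import Pool.Agent.Bern2.TWI
import Pool.Agent.Bern2.QCT
import Pool.Agent.Helper98.Bern.CH

namespace Pool.Agent.Bern2

open Polynomial Finset Pool.Agent.Helper29 Pool.Agent.Helper98.Bern

/-- The solutions counted by `quad_count`. -/
def QSol (t : ℕ) : Prop := ∃ s w : ℤ, 0 ≤ s ∧ s ≤ 2 * t ∧ w = 1 + (2 * (t : ℤ) + 1) * s ∧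
      w ≡ 1 [ZMOD 4] ∧ Et t (((w : ℚ) + 3) / 12) (3 / (w : ℚ)) = 0

theorem dichotomy : ∃ l0 : ℕ, ∀ l : ℕ, l0 ≤ l → l.Prime → ∀ T : ℝ, cofLE (2 * l) T →
    T < orderOf (2 : ZMod l) → ¬ Irreducible (Polynomial.bernoulli (2 * l)) →
    ∃ t, l = 2 * t + 1 ∧ QSol t := by
  obtain ⟨l1, hl1⟩ := qa_lt
  refine ⟨max l1 8, fun l hl hlp T hcof hT hirr => ?_⟩
  have hl8 : 8 ≤ l := le_trans (le_max_right _ _) hl
  have hll1 : l1 ≤ l := le_trans (le_max_left _ _) hl
  obtain ⟨g, hg, ⟨H', hH'⟩, hdeg⟩ := hcof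
  have hBm : (Polynomial.bernoulli (2 * l)).Monic := monic_bernoulli _
  have hg0 : g ≠ 0 := hg.ne_zero
  have hH'0 : H' ≠ 0 := by
    rintro rfl
    rw [mul_zero] at hH'
    exact hBm.ne_zero hH'
  have hlc : g.leadingCoeff ≠ 0 := leadingCoeff_ne_zero.mpr hg0
  set a := g.leadingCoeff with ha
  set G := C a⁻¹ * g with hG
  set H := C a * H' with hH
  have hprod : Polynomial.bernoulli (2 * l) = G * H := by
    rw [hH', hG, hH]
    have : C a⁻¹ * g * (C a * H') = (C a⁻¹ * C a) * (g * H') := by ring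
    rw [this, ← C_mul, inv_mul_cancel₀ hlc, C_1, one_mul]
  have hHm : H.Monic := by
    have h1 : (g * H').leadingCoeff = 1 := by rw [← hH']; exact hBm
    rw [leadingCoeff_mul] at h1
    rw [Monic, hH, leadingCoeff_mul, leadingCoeff_C]
    exact h1
  have hGirr : Irreducible G := by
    have hu : IsUnit (C a⁻¹ : ℚ[X]) := isUnit_C.mpr (isUnit_iff_ne_zero.mpr (inv_ne_zero hlc))
    rw [hG]
    exact (irreducible_isUnit_mul hu).mpr hg
  have hdH : H.natDegree + g.natDegree = 2 * l := by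
    have h1 : (g * H').natDegree = 2 * l := by rw [← hH', natDegree_bernoulli]
    rw [natDegree_mul hg0 hH'0] at h1
    rw [hH, natDegree_C_mul hlc]
    omega
  have hdH2 : (H.natDegree : ℝ) ≤ T := by
    have : ((H.natDegree + g.natDegree : ℕ) : ℝ) = ((2 * l : ℕ) : ℝ) := by rw [hdH]
    push_cast at this hdeg
    linarith
  have hord : H.natDegree < orderOf (2 : ZMod l) := by
    have : (H.natDegree : ℝ) < orderOf (2 : ZMod l) := lt_of_le_of_lt hdH2 hT
    exact_mod_cast this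
  rcases two l hlp (by omega) G H hprod hHm hord with h0 | ⟨h2, hc⟩
  · exfalso
    apply hirr
    have : H = 1 := by
      rw [natDegree_eq_zero] at h0
      obtain ⟨x, hx⟩ := h0
      have h3 := hHm
      rw [← hx, Monic, leadingCoeff_C] at h3
      rw [← hx, h3, C_1]
    rw [hprod, this, mul_one]
    exact hGirr
  obtain ⟨w, hw4, hHw⟩ := q0 l (by omega) G H hGirr hprod hHm h2 hc
  have hdiv : QW w ∣ Polynomial.bernoulli (2 * l) := ⟨G, by rw [hprod, hHw, mul_comm]⟩
  have hwpos := qa_pos l (by omega) w hdiv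
  have hwlt := hl1 l hll1 w hdiv
  obtain ⟨t, ht⟩ : ∃ t, l = 2 * t + 1 := by
    rcases hlp.eq_two_or_odd' with h | h
    · omega
    · exact h
  have hEt : Et t (((w : ℚ) + 3) / 12) (3 / (w : ℚ)) = 0 := by
    apply twi t w hwpos.ne'
    rw [← ht]
    exact hdiv
  refine ⟨t, ht, ?_⟩
  rcases ql l hlp (by omega) w hdiv with h1 | h1
  · exfalso
    have hl0 : (0 : ℤ) < l := by exact_mod_cast hlp.pos
    have hwl : w - l = 0 := by
      apply Int.eq_zero_of_abs_lt_dvd h1
      rw [abs_lt]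
      constructor
      · nlinarith
      · nlinarith
    have hwl' : w = ((2 * t + 1 : ℕ) : ℤ) := by
      rw [← ht]
      linarith
    have h4 : (2 * t + 1) % 4 = 1 := by
      rw [hwl', Int.ModEq] at hw4
      omega
    have := not_w_eq t (by omega) h4
    apply this
    rw [hwl'] at hEt
    have e1 : ((((2 * t + 1 : ℕ) : ℤ) : ℚ)) = ((2 * t + 1 : ℕ) : ℚ) := by push_cast; ring
    rw [e1] at hEt
    exact hEt
  · obtain ⟨s, hs⟩ := h1
    have hl0 : (0 : ℤ) < l := by exact_mod_cast hlp.pos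
    have hw1 : w = 1 + (2 * (t : ℤ) + 1) * s := by
      have : (l : ℤ) = 2 * t + 1 := by exact_mod_cast ht
      rw [← this]
      linarith
    refine ⟨s, w, ?_, ?_, hw1, hw4, hEt⟩
    · by_contra hneg
      push Not at hneg
      nlinarith
    · have h3 : (l : ℤ) * s < l * l := by nlinarith
      have h4 : s < l := lt_of_mul_lt_mul_left h3 hl0.le
      have : (l : ℤ) = 2 * t + 1 := by exact_mod_cast ht
      linarith

open Filter Asymptotics in
theorem fin_event (ε : ℝ) (hε : 0 < ε) (η : ℝ) (hη : η ^ 2 ≤ ε / 4) : ∀ᶠ N : ℝ in atTop,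
    N / (Real.log N) ^ 2 + (η * √N) * (η * √N + 1) / Real.log N + 10 * (N + 1) ^ (2 / 3 : ℝ) ≤
      ε * N / Real.log N := by
  have h1 : (fun x : ℝ => Real.log x) =o[atTop] (fun x : ℝ => x ^ (1 / 6 : ℝ)) :=
    isLittleO_log_rpow_atTop (by norm_num)
  have h2 := h1.bound (show (0 : ℝ) < 1 by norm_num)
  have h3 : ∀ᶠ x : ℝ in atTop, 20 / (ε / 4) ≤ x ^ (1 / 6 : ℝ) :=
    (tendsto_rpow_atTop (by norm_num)).eventually_ge_atTop _
  have h4 : ∀ᶠ x : ℝ in atTop, 1 / (ε / 4) ≤ Real.log x :=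
    Real.tendsto_log_atTop.eventually_ge_atTop _
  have h5 : ∀ᶠ x : ℝ in atTop, |η| / (ε / 4) ≤ x ^ (1 / 2 : ℝ) :=
    (tendsto_rpow_atTop (by norm_num)).eventually_ge_atTop _
  filter_upwards [h2, h3, h4, h5, eventually_ge_atTop (3 : ℝ)] with x hx1 hx2 hx4 hx5 hx3
  have hx0 : 0 < x := by linarith
  have hlog : 0 < Real.log x := Real.log_pos (by linarith)
  have hx14 : 0 < x ^ (1 / 6 : ℝ) := Real.rpow_pos_of_pos hx0 _
  rw [Real.norm_eq_abs, Real.norm_eq_abs, abs_of_pos hlog, abs_of_pos hx14, one_mul] at hx1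
  rw [← Real.sqrt_eq_rpow] at hx5
  have hs : √x * √x = x := Real.mul_self_sqrt hx0.le
  have hs0 : 0 < √x := Real.sqrt_pos.mpr hx0
  have a1 : x / (Real.log x) ^ 2 ≤ (ε / 4) * x / Real.log x := by
    rw [div_le_div_iff₀ (by positivity) hlog]
    rw [div_le_iff₀ (by positivity)] at hx4
    have : x * Real.log x * 1 ≤ x * Real.log x * (Real.log x * (ε / 4)) :=
      mul_le_mul_of_nonneg_left hx4 (by positivity)
    nlinarith
  have a2 : (η * √x) * (η * √x + 1) / Real.log x ≤ (ε / 4) * x / Real.log x +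
      (ε / 4) * x / Real.log x := by
    rw [← add_div]
    apply div_le_div_of_nonneg_right _ hlog.le
    have b1 : (η * √x) * (η * √x + 1) = η ^ 2 * x + η * √x := by
      calc (η * √x) * (η * √x + 1) = η ^ 2 * (√x * √x) + η * √x := by ring
        _ = _ := by rw [hs]
    rw [b1]
    have b2 : η ^ 2 * x ≤ ε / 4 * x := mul_le_mul_of_nonneg_right hη hx0.le
    have b3 : η * √x ≤ ε / 4 * x := by
      rw [div_le_iff₀ (by positivity)] at hx5
      have b4 : η * √x ≤ |η| * √x := mul_le_mul_of_nonneg_right (le_abs_self η) hs0.le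
      have b5 : |η| * √x ≤ √x * (ε / 4) * √x := mul_le_mul_of_nonneg_right hx5 hs0.le
      have b6 : √x * (ε / 4) * √x = ε / 4 * x := by
        calc √x * (ε / 4) * √x = ε / 4 * (√x * √x) := by ring
          _ = _ := by rw [hs]
      linarith
    linarith
  have a3 : 10 * (x + 1) ^ (2 / 3 : ℝ) ≤ (ε / 4) * x / Real.log x := by
    have c1 : (x + 1) ^ (2 / 3 : ℝ) ≤ 2 * x ^ (2 / 3 : ℝ) := by
      have c2 : (x + 1) ^ (2 / 3 : ℝ) ≤ (2 * x) ^ (2 / 3 : ℝ) :=
        Real.rpow_le_rpow (by linarith) (by linarith) (by norm_num)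
      rw [Real.mul_rpow (by norm_num) hx0.le] at c2
      have c3 : (2 : ℝ) ^ (2 / 3 : ℝ) ≤ 2 := by
        calc (2 : ℝ) ^ (2 / 3 : ℝ) ≤ 2 ^ (1 : ℝ) :=
              Real.rpow_le_rpow_of_exponent_le (by norm_num) (by norm_num)
          _ = 2 := by rw [Real.rpow_one]
      have c4 : 0 ≤ x ^ (2 / 3 : ℝ) := Real.rpow_nonneg hx0.le _
      nlinarith
    rw [le_div_iff₀ hlog]
    have c5 : x = x ^ (2 / 3 : ℝ) * (x ^ (1 / 6 : ℝ) * x ^ (1 / 6 : ℝ)) := by
      rw [← Real.rpow_add hx0, ← Real.rpow_add hx0]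
      norm_num
    have c6 : 0 < x ^ (2 / 3 : ℝ) := Real.rpow_pos_of_pos hx0 _
    set y := x ^ (1 / 6 : ℝ) with hy
    set z := x ^ (2 / 3 : ℝ) with hz
    rw [div_le_iff₀ (by positivity)] at hx2
    calc 10 * (x + 1) ^ (2 / 3 : ℝ) * Real.log x ≤ 10 * (2 * z) * y := by
          apply mul_le_mul _ hx1 hlog.le (by positivity)
          exact mul_le_mul_of_nonneg_left c1 (by norm_num)
      _ = (z * y) * 20 := by ring
      _ ≤ (z * y) * (y * (ε / 4)) := mul_le_mul_of_nonneg_left hx2 (by positivity)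
      _ = ε / 4 * (z * (y * y)) := by ring
      _ = ε / 4 * x := by rw [← c5]
  have e1 : ε * x / Real.log x = (ε / 4) * x / Real.log x + (ε / 4) * x / Real.log x +
      (ε / 4) * x / Real.log x + (ε / 4) * x / Real.log x := by ring
  rw [e1]
  linarith

open scoped Classical in
/-- Dyadic form of the final theorem. -/
theorem dyadic (ε : ℝ) (hε : 0 < ε) : ∃ N0 : ℕ, ∀ N : ℕ, N0 ≤ N →
    (((Ioc (N / 2) N).filter (fun n => ∃ l : ℕ, l.Prime ∧ n = 2 * l ∧
      ¬ Irreducible (Polynomial.bernoulli n))).card : ℝ) ≤ ε * N / Real.log N := by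
  set η : ℝ := √(ε / 4) with hη
  have hη0 : 0 < η := Real.sqrt_pos.mpr (by positivity)
  have hη2 : η ^ 2 ≤ ε / 4 := (Real.sq_sqrt (by positivity)).le
  obtain ⟨N1, hN1⟩ := st2 η hη0
  obtain ⟨l0, hl0⟩ := dichotomy
  obtain ⟨X, hX⟩ := Filter.eventually_atTop.1 (fin_event ε hε η hη2)
  refine ⟨max (max N1 (4 * l0 + 20)) ⌈X⌉₊, fun N hN => ?_⟩
  have hNN1 : N1 ≤ N := le_trans (le_trans (le_max_left _ _) (le_max_left _ _)) hN
  have hNl0 : 4 * l0 + 20 ≤ N := le_trans (le_trans (le_max_right _ _) (le_max_left _ _)) hN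
  have hNX : X ≤ (N : ℝ) := le_trans (Nat.le_ceil X) (by exact_mod_cast le_trans (le_max_right _ _) hN)
  have hfin := hX N hNX
  have hA := hN1 N hNN1
  have hlogN : 0 < Real.log N := Real.log_pos (by exact_mod_cast (by omega : 1 < N))
  set bad := (Ioc (N / 2) N).filter (fun n => ∃ l : ℕ, l.Prime ∧ n = 2 * l ∧
      ¬ Irreducible (Polynomial.bernoulli n)) with hbad
  set A := (Ioc (N / 2) N).filter (fun n => Even n ∧ ¬ cofLE n (η * √(N : ℝ))) with hAdef
  set B := (range (N + 1)).filter (fun l : ℕ => l.Prime ∧ 2 < l ∧ N < l ^ 2 ∧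
    orderOf (2 : ZMod l) ≤ ⌊η * √(N : ℝ)⌋₊) with hB
  set Q := (range (N + 1)).filter (fun t : ℕ => QSol t) with hQ
  have hBc : (B.card : ℝ) ≤ (η * √N) * (η * √N + 1) / Real.log N := by
    rw [le_div_iff₀ hlogN]
    refine (ord_count N _ B (fun l hl => (mem_filter.mp hl).2)).trans ?_
    have h1 : ((⌊η * √(N : ℝ)⌋₊ : ℕ) : ℝ) ≤ η * √N := Nat.floor_le (by positivity)
    have h2 : (0 : ℝ) ≤ ((⌊η * √(N : ℝ)⌋₊ : ℕ) : ℝ) := Nat.cast_nonneg _
    exact mul_le_mul h1 (by linarith) (by linarith) (by positivity)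
  have hQc : (Q.card : ℝ) ≤ 10 * ((N : ℝ) + 1) ^ (2 / 3 : ℝ) :=
    quad_count N Q (fun t ht => by
      have := mem_range.mp (mem_filter.mp ht).1
      omega) (fun t ht => (mem_filter.mp ht).2)
  have hsub : bad ⊆ A ∪ (B.image (fun l => 2 * l) ∪ Q.image (fun t => 2 * (2 * t + 1))) := by
    intro n hn
    rw [hbad, mem_filter, mem_Ioc] at hn
    obtain ⟨⟨hn1, hn2⟩, l, hlp, hnl, hirr⟩ := hn
    rw [mem_union, mem_union]
    by_cases hcof : cofLE n (η * √(N : ℝ))
    swap
    · left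
      rw [hAdef, mem_filter, mem_Ioc]
      exact ⟨⟨hn1, hn2⟩, ⟨l, by omega⟩, hcof⟩
    right
    by_cases hord : orderOf (2 : ZMod l) ≤ ⌊η * √(N : ℝ)⌋₊
    · left
      rw [mem_image]
      refine ⟨l, ?_, hnl.symm⟩
      rw [hB, mem_filter, mem_range]
      refine ⟨by omega, hlp, by omega, ?_, hord⟩
      have h1 : N < 4 * l := by omega
      have h2 : 5 ≤ l := by omega
      nlinarith
    · right
      push Not at hord
      have h3 : η * √(N : ℝ) < orderOf (2 : ZMod l) := by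
        have h4 := Nat.lt_floor_add_one (η * √(N : ℝ))
        have h5 : ((⌊η * √(N : ℝ)⌋₊ : ℕ) : ℝ) + 1 ≤ orderOf (2 : ZMod l) := by exact_mod_cast hord
        linarith
      rw [hnl] at hcof hirr
      obtain ⟨t, ht, hQs⟩ := hl0 l (by omega) hlp _ hcof h3 hirr
      rw [mem_image]
      refine ⟨t, ?_, by rw [hnl, ht]⟩
      rw [hQ, mem_filter, mem_range]
      exact ⟨by omega, hQs⟩
  have hcard : (bad.card : ℝ) ≤ A.card + (B.card + Q.card) := by
    have h1 := card_le_card hsub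
    have h2 := card_union_le A (B.image (fun l => 2 * l) ∪ Q.image (fun t => 2 * (2 * t + 1)))
    have h3 := card_union_le (B.image (fun l => 2 * l)) (Q.image (fun t => 2 * (2 * t + 1)))
    have h4 := card_image_le (s := B) (f := fun l => 2 * l)
    have h5 := card_image_le (s := Q) (f := fun t => 2 * (2 * t + 1))
    exact_mod_cast (by omega : bad.card ≤ A.card + (B.card + Q.card))
  linarith

open scoped Classical in
theorem sum_dyadic (p : ℕ → Prop) (ε : ℝ) (hε : 0 < ε) (N0 : ℕ)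
    (h : ∀ N : ℕ, N0 ≤ N → (((Ioc (N / 2) N).filter p).card : ℝ) ≤ ε * N / Real.log N)
    (M : ℕ) (hM : N0 ≤ M) (hM2 : 2 ≤ M) (N : ℕ) :
    (((Ioc 0 N).filter p).card : ℝ) ≤ M + 2 * ε * N / Real.log M := by
  have hlogM : 0 < Real.log M := Real.log_pos (by exact_mod_cast (by omega : 1 < M))
  induction N using Nat.strong_induction_on with
  | _ N ih =>
    rcases le_or_gt N M with hNM | hNM
    · have h1 : ((Ioc 0 N).filter p).card ≤ M := by
        refine (card_filter_le _ _).trans ?_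
        rw [Nat.card_Ioc]
        omega
      have h2 : (((Ioc 0 N).filter p).card : ℝ) ≤ M := by exact_mod_cast h1
      have h3 : 0 ≤ 2 * ε * N / Real.log M := by positivity
      linarith
    · have h1 := ih (N / 2) (by omega)
      have h2 := h N (by omega)
      have h3 : (Ioc 0 N).filter p = (Ioc 0 (N / 2)).filter p ∪ (Ioc (N / 2) N).filter p := by
        rw [← filter_union]
        congr 1
        ext x
        simp only [mem_union, mem_Ioc]
        omega
      have h4 : ((Ioc 0 N).filter p).card ≤ ((Ioc 0 (N / 2)).filter p).card +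
          ((Ioc (N / 2) N).filter p).card := by
        rw [h3]
        exact card_union_le _ _
      have h4' : (((Ioc 0 N).filter p).card : ℝ) ≤ ((Ioc 0 (N / 2)).filter p).card +
          ((Ioc (N / 2) N).filter p).card := by exact_mod_cast h4
      have h5 : ε * N / Real.log N ≤ ε * N / Real.log M := by
        apply div_le_div_of_nonneg_left (by positivity) hlogM
        apply Real.log_le_log
        · exact_mod_cast (by omega : 0 < M)
        · exact_mod_cast hNM.le
      have h6 : ((N / 2 : ℕ) : ℝ) ≤ (N : ℝ) / 2 := Nat.cast_div_le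
      have h7 : 2 * ε * ((N / 2 : ℕ) : ℝ) / Real.log M ≤ ε * N / Real.log M := by
        apply div_le_div_of_nonneg_right _ hlogM.le
        nlinarith
      have h8 : 2 * ε * (N : ℝ) / Real.log M = ε * N / Real.log M + ε * N / Real.log M := by ring
      linarith

theorem cheb : ∃ c : ℝ, 0 < c ∧ ∃ x0 : ℕ, ∀ x : ℕ, x0 ≤ x →
    c * x / Real.log x ≤ (((range (x + 1)).filter (fun l => l.Prime)).card : ℝ) := by
  obtain ⟨c, hc, P0, hP⟩ := theta_interval
  refine ⟨c / 8, by positivity, 4 * P0 + 8, fun x hx => ?_⟩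
  have hx1 : P0 ≤ x / 4 := by omega
  have h1 := (hP (x / 4) hx1).1
  have hlogx : 0 < Real.log x := Real.log_pos (by exact_mod_cast (by omega : 1 < x))
  have h2 : ∑ q ∈ (Ioc (x / 4) (4 * (x / 4))).filter Nat.Prime, Real.log q ≤
      (((range (x + 1)).filter (fun l => l.Prime)).card : ℝ) * Real.log x := by
    have h3 : ∑ q ∈ (Ioc (x / 4) (4 * (x / 4))).filter Nat.Prime, Real.log q ≤
        ∑ q ∈ (Ioc (x / 4) (4 * (x / 4))).filter Nat.Prime, Real.log x := by
      apply Finset.sum_le_sum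
      intro q hq
      rw [mem_filter, mem_Ioc] at hq
      apply Real.log_le_log
      · exact_mod_cast hq.2.pos
      · exact_mod_cast (by omega : q ≤ x)
    refine h3.trans ?_
    rw [sum_const, nsmul_eq_mul]
    apply mul_le_mul_of_nonneg_right _ hlogx.le
    have h4 : (Ioc (x / 4) (4 * (x / 4))).filter Nat.Prime ⊆
        (range (x + 1)).filter (fun l => l.Prime) := by
      intro q hq
      rw [mem_filter, mem_Ioc] at hq
      rw [mem_filter, mem_range]
      exact ⟨by omega, hq.2⟩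
    exact_mod_cast card_le_card h4
  rw [div_le_iff₀ hlogx]
  have h5 : (x : ℝ) / 8 ≤ ((x / 4 : ℕ) : ℝ) := by
    have : x ≤ 8 * (x / 4) := by omega
    have h6 : (x : ℝ) ≤ 8 * ((x / 4 : ℕ) : ℝ) := by exact_mod_cast this
    linarith
  nlinarith

open Filter Asymptotics in
theorem fin_event2 (c ε : ℝ) (hc : 0 < c) (hε : 0 < ε) : ∀ᶠ x : ℝ in atTop,
    √x + 1 + 8 * (ε * c / 32) * x / Real.log x ≤ ε * (c * x / Real.log x) := by
  have h1 : (fun x : ℝ => Real.log x) =o[atTop] (fun x : ℝ => x ^ (1 / 4 : ℝ)) :=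
    isLittleO_log_rpow_atTop (by norm_num)
  have h2 := h1.bound (show (0 : ℝ) < 1 by norm_num)
  have h3 : ∀ᶠ x : ℝ in atTop, 2 / (ε * c / 2) ≤ x ^ (1 / 4 : ℝ) :=
    (tendsto_rpow_atTop (by norm_num)).eventually_ge_atTop _
  filter_upwards [h2, h3, eventually_ge_atTop (3 : ℝ)] with x hx1 hx2 hx3
  have hx0 : 0 < x := by linarith
  have hlog : 0 < Real.log x := Real.log_pos (by linarith)
  have hx14 : 0 < x ^ (1 / 4 : ℝ) := Real.rpow_pos_of_pos hx0 _
  rw [Real.norm_eq_abs, Real.norm_eq_abs, abs_of_pos hlog, abs_of_pos hx14, one_mul] at hx1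
  have hsq : √x = x ^ (1 / 4 : ℝ) * x ^ (1 / 4 : ℝ) := by
    rw [Real.sqrt_eq_rpow, ← Real.rpow_add hx0]
    norm_num
  have hx4 : x = x ^ (1 / 4 : ℝ) * x ^ (1 / 4 : ℝ) * (x ^ (1 / 4 : ℝ) * x ^ (1 / 4 : ℝ)) := by
    rw [← Real.rpow_add hx0, ← Real.rpow_add hx0]
    norm_num
  set y := x ^ (1 / 4 : ℝ) with hy
  have hy1 : 1 ≤ √x := by
    rw [Real.one_le_sqrt]
    linarith
  have key : 2 * √x ≤ (ε * c / 2) * x / Real.log x := by
    rw [le_div_iff₀ hlog]
    have h5 : 2 ≤ (ε * c / 2) * y := by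
      rw [div_le_iff₀ (by positivity)] at hx2
      linarith
    have h6 : 2 * √x * Real.log x ≤ 2 * (y * y) * y := by
      rw [hsq]
      exact mul_le_mul_of_nonneg_left hx1 (by positivity)
    have h7 : (ε * c / 2) * x = (ε * c / 2 * y) * (y * y * y) := by
      conv_lhs => rw [hx4]
      ring
    rw [h7]
    have h8 : 2 * (y * y * y) ≤ (ε * c / 2 * y) * (y * y * y) :=
      mul_le_mul_of_nonneg_right h5 (by positivity)
    nlinarith
  have e1 : ε * (c * x / Real.log x) = (ε * c / 2) * x / Real.log x + (ε * c / 2) * x / Real.log x := by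
    ring
  have e2 : 8 * (ε * c / 32) * x / Real.log x = (ε * c / 4) * x / Real.log x := by ring
  have e3 : (ε * c / 4) * x / Real.log x ≤ (ε * c / 2) * x / Real.log x := by
    apply div_le_div_of_nonneg_right _ hlog.le
    nlinarith [mul_pos (mul_pos hε hc) hx0]
  rw [e1, e2]
  linarith

open scoped Classical in
/-- For almost all primes `l` the Bernoulli polynomial `B_{2l}` is irreducible. -/
theorem irreducible_almost_all (ε : ℝ) (hε : 0 < ε) : ∃ x0 : ℕ, ∀ x : ℕ, x0 ≤ x →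
    (((range (x + 1)).filter (fun l => l.Prime ∧
      ¬ Irreducible (Polynomial.bernoulli (2 * l)))).card : ℝ) ≤
      ε * ((range (x + 1)).filter (fun l => l.Prime)).card := by
  obtain ⟨c, hc, x1, hx1⟩ := cheb
  obtain ⟨N0, hN0⟩ := dyadic (ε * c / 32) (by positivity)
  obtain ⟨X, hX⟩ := Filter.eventually_atTop.1 (fin_event2 c ε hc hε)
  refine ⟨max (max x1 (N0 ^ 2 + 9)) ⌈X⌉₊, fun x hx => ?_⟩
  have hxx1 : x1 ≤ x := le_trans (le_trans (le_max_left _ _) (le_max_left _ _)) hx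
  have hxN : N0 ^ 2 + 9 ≤ x := le_trans (le_trans (le_max_right _ _) (le_max_left _ _)) hx
  have hxX : X ≤ (x : ℝ) := le_trans (Nat.le_ceil X) (by exact_mod_cast le_trans (le_max_right _ _) hx)
  set M := Nat.sqrt x + 1 with hM
  have hMN : N0 ≤ M := by
    have : N0 ≤ Nat.sqrt x := by
      rw [Nat.le_sqrt]
      nlinarith
    omega
  have hM2 : 2 ≤ M := by
    have : 1 ≤ Nat.sqrt x := by
      rw [Nat.le_sqrt]
      omega
    omega
  have hsum := sum_dyadic _ (ε * c / 32) (by positivity) N0 hN0 M hMN hM2 (2 * x)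
  have hlogx : 0 < Real.log x := Real.log_pos (by exact_mod_cast (by omega : 1 < x))
  have hlogM : Real.log x / 2 ≤ Real.log M := by
    rw [div_le_iff₀ (by norm_num : (0 : ℝ) < 2)]
    have h1 : x ≤ M ^ 2 := by
      have := Nat.lt_succ_sqrt x
      rw [hM, sq]
      exact this.le
    have h2 : (x : ℝ) ≤ (M : ℝ) ^ 2 := by exact_mod_cast h1
    have h3 := Real.log_le_log (by exact_mod_cast (by omega : 0 < x)) h2
    rw [Real.log_pow] at h3
    push_cast at h3
    linarith
  have hcardle : ((range (x + 1)).filter (fun l => l.Prime ∧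
      ¬ Irreducible (Polynomial.bernoulli (2 * l)))).card ≤
      ((Ioc 0 (2 * x)).filter (fun n => ∃ l : ℕ, l.Prime ∧ n = 2 * l ∧
      ¬ Irreducible (Polynomial.bernoulli n))).card := by
    apply card_le_card_of_injOn (fun l => 2 * l)
    · intro l hl
      rw [mem_coe, mem_filter, mem_range] at hl
      rw [mem_coe, mem_filter, mem_Ioc]
      have h1 := hl.2.1.pos
      have h2 := hl.1
      refine ⟨⟨?_, ?_⟩, l, hl.2.1, rfl, hl.2.2⟩
      · change 0 < 2 * l
        omega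
      · change 2 * l ≤ 2 * x
        omega
    · intro a _ b _ hab
      simpa using hab
  have hcard' : (((range (x + 1)).filter (fun l => l.Prime ∧
      ¬ Irreducible (Polynomial.bernoulli (2 * l)))).card : ℝ) ≤
      ((Ioc 0 (2 * x)).filter (fun n => ∃ l : ℕ, l.Prime ∧ n = 2 * l ∧
      ¬ Irreducible (Polynomial.bernoulli n))).card := by exact_mod_cast hcardle
  have hMle : (M : ℝ) ≤ √x + 1 := by
    rw [hM]
    push_cast
    have : ((Nat.sqrt x : ℕ) : ℝ) ≤ √x := Real.nat_sqrt_le_real_sqrt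
    linarith
  have hbound : 2 * (ε * c / 32) * ((2 * x : ℕ) : ℝ) / Real.log M ≤
      8 * (ε * c / 32) * x / Real.log x := by
    have h1 : 2 * (ε * c / 32) * ((2 * x : ℕ) : ℝ) / Real.log M ≤
        2 * (ε * c / 32) * ((2 * x : ℕ) : ℝ) / (Real.log x / 2) := by
      apply div_le_div_of_nonneg_left (by positivity) (by positivity) hlogM
    refine h1.trans (le_of_eq ?_)
    push_cast
    field_simp
    ring
  have h7 := hX x hxX
  have h8 := hx1 x hxx1
  have h9 : ε * (c * x / Real.log x) ≤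
      ε * (((range (x + 1)).filter (fun l => l.Prime)).card : ℝ) :=
    mul_le_mul_of_nonneg_left h8 hε.le
  linarith

end Pool.Agent.Bern2
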